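import Pool.Agent.PP5.DB
import Pool.Agent.PP5B.Uni

/-!
# PP5, population lemma: the reduced basis of the lattice orthogonal to a primitive vector
-/

set_option autoImplicit false

namespace Pool.Agent.PP5P

open Matrix Pool.Agent.PP5 Pool.Agent.PP5B

theorem perp_rank {n : ℕ} (v : Fin 4 → ℤ) (hv : Pr4 v) (b : Fin n → Fin 4 → ℤ)
    (hb : ∀ i, b i ⬝ᵥ v = 0) (hli : LinearIndependent ℤ b)
    (hspan : ∀ m : Fin 4 → ℤ, m ⬝ᵥ v = 0 → ∃ c : Fin n → ℤ, m = ∑ i, c i • b i) : n = 3 := by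
  obtain ⟨U, hU, hvU⟩ := ex_U v hv
  have hU0 : U.det ≠ 0 := by
    intro h
    rw [h] at hU
    norm_num at hU
  set u : Fin 3 → Fin 4 → ℤ := fun j i => U i (Fin.castSucc j) with hu
  have hcol := Matrix.linearIndependent_cols_of_det_ne_zero hU0
  have hul : LinearIndependent ℤ u := by
    have := hcol.comp (Fin.castSucc : Fin 3 → Fin 4) (Fin.castSucc_injective 3)
    exact this
  have huv : ∀ j, u j ⬝ᵥ v = 0 := by
    intro j
    have h1 : (v ᵥ* U) (Fin.castSucc j) = 0 := by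
      rw [hvU]
      fin_cases j <;> rfl
    rw [dotProduct_comm]
    exact h1
  have hspan2 : ∀ m : Fin 4 → ℤ, m ⬝ᵥ v = 0 → m ∈ Submodule.span ℤ (Set.range u) := by
    intro m hm
    set y : Fin 4 → ℤ := U.det • (U.adjugate *ᵥ m) with hy
    have h1 : U *ᵥ y = m := by
      rw [hy, mulVec_smul, mulVec_mulVec, mul_adjugate, smul_mulVec, one_mulVec, smul_smul, ← pow_two,
        hU, one_smul]
    have h2 : y 3 = 0 := by
      have h3 : (v ᵥ* U) ⬝ᵥ y = v ⬝ᵥ m := by rw [← dotProduct_mulVec, h1]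
      rw [hvU, dotProduct_comm v m, hm] at h3
      simpa [dotProduct, Fin.sum_univ_four] using h3
    have h4 : m = ∑ j, y (Fin.castSucc j) • u j := by
      ext i
      rw [← h1]
      simp only [mulVec, dotProduct, Finset.sum_apply, Pi.smul_apply, smul_eq_mul, hu]
      rw [Fin.sum_univ_castSucc (n := 3)]
      have : y (Fin.last 3) = 0 := h2
      rw [this, mul_zero, add_zero]
      exact Finset.sum_congr rfl fun j _ => mul_comm _ _
    rw [h4]
    exact Submodule.sum_mem _ fun j _ => Submodule.smul_mem _ _ (Submodule.subset_span ⟨j, rfl⟩)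
  have hspan1 : ∀ m : Fin 4 → ℤ, m ⬝ᵥ v = 0 → m ∈ Submodule.span ℤ (Set.range b) := by
    intro m hm
    obtain ⟨c, hc⟩ := hspan m hm
    rw [hc]
    exact Submodule.sum_mem _ fun j _ => Submodule.smul_mem _ _ (Submodule.subset_span ⟨j, rfl⟩)
  have heq : Submodule.span ℤ (Set.range b) = Submodule.span ℤ (Set.range u) := by
    apply le_antisymm
    · rw [Submodule.span_le]
      rintro _ ⟨i, rfl⟩
      exact hspan2 _ (hb i)
    · rw [Submodule.span_le]
      rintro _ ⟨i, rfl⟩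
      exact hspan1 _ (huv i)
  have h1 := finrank_span_eq_card hli
  have h2 := finrank_span_eq_card hul
  rw [heq, h2] at h1
  simpa using h1.symm

structure PB (C : ℝ) (l : Fin 4 → ℝ) (H : ℝ) (v : Fin 4 → ℤ) (b : Fin 3 → Fin 4 → ℤ) : Prop where
  orth : ∀ i, b i ⬝ᵥ v = 0
  ne : ∀ i, b i ≠ 0
  m01 : nw l (b 0) ≤ nw l (b 1)
  m12 : nw l (b 1) ≤ nw l (b 2)
  span : ∀ m : Fin 4 → ℤ, m ⬝ᵥ v = 0 → ∃ c : Fin 3 → ℤ, m = ∑ i, c i • b i
  bd : ∀ c : Fin 3 → ℤ, ∀ i, |(c i : ℝ)| * nw l (b i) ≤ C * nw l (∑ i, c i • b i)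
  vol : nw l (b 0) * nw l (b 1) * nw l (b 2) * (∏ i, l i) ≤ C * H

/-- the number of integers in a symmetric interval -/
theorem card_Icc_ge (x : ℝ) (hx : 0 ≤ x) : x ≤ ((Finset.Icc (-⌊x⌋) ⌊x⌋).card : ℝ) := by
  have h0 : 0 ≤ ⌊x⌋ := Int.floor_nonneg.mpr hx
  rw [Int.card_Icc]
  have h1 : ((⌊x⌋ + 1 - -⌊x⌋).toNat : ℤ) = 2 * ⌊x⌋ + 1 := by
    rw [Int.toNat_of_nonneg (by linarith)]; ring
  have h2 : (((⌊x⌋ + 1 - -⌊x⌋).toNat : ℕ) : ℝ) = 2 * (⌊x⌋ : ℝ) + 1 := by exact_mod_cast h1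
  rw [h2]
  have h3 := Int.lt_floor_add_one x
  have h4 : (0 : ℝ) ≤ ⌊x⌋ := by exact_mod_cast h0
  linarith

theorem card_Icc_le (x : ℝ) (hx : 0 ≤ x) : ((Finset.Icc (-⌊x⌋) ⌊x⌋).card : ℝ) ≤ 2 * x + 1 := by
  have h0 : 0 ≤ ⌊x⌋ := Int.floor_nonneg.mpr hx
  rw [Int.card_Icc]
  have h1 : ((⌊x⌋ + 1 - -⌊x⌋).toNat : ℤ) = 2 * ⌊x⌋ + 1 := by
    rw [Int.toNat_of_nonneg (by linarith)]; ring
  have h2 : (((⌊x⌋ + 1 - -⌊x⌋).toNat : ℕ) : ℝ) = 2 * (⌊x⌋ : ℝ) + 1 := by exact_mod_cast h1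
  rw [h2]
  have h3 := Int.floor_le x
  linarith

theorem abs_dot_le (l : Fin 4 → ℝ) (z v : Fin 4 → ℤ) (R H : ℝ) (hR : 0 ≤ R)
    (hz : ∀ i, |(z i : ℝ)| ≤ R * l i) (hv : ∀ i, |(v i : ℝ)| * l i ≤ H) :
    |((z ⬝ᵥ v : ℤ) : ℝ)| ≤ 4 * (R * H) := by
  simp only [dotProduct]
  push_cast
  refine (Finset.abs_sum_le_sum_abs _ _).trans ?_
  have h : ∀ i ∈ (Finset.univ : Finset (Fin 4)), |(z i : ℝ) * (v i : ℝ)| ≤ R * H := by
    intro i _
    rw [abs_mul]
    calc |(z i : ℝ)| * |(v i : ℝ)| ≤ (R * l i) * |(v i : ℝ)| :=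
          mul_le_mul_of_nonneg_right (hz i) (abs_nonneg _)
      _ = R * (|(v i : ℝ)| * l i) := by ring
      _ ≤ R * H := mul_le_mul_of_nonneg_left (hv i) hR
  refine (Finset.sum_le_card_nsmul _ _ _ h).trans ?_
  simp

/-- lattice points of `v^⊥` in a box -/
theorem perp_count_ge (l : Fin 4 → ℝ) (hl : ∀ i, 0 < l i) (v : Fin 4 → ℤ) (R H : ℝ) (hR : 0 < R)
    (hH : 0 < H) (hv : ∀ i, |(v i : ℝ)| * l i ≤ H) (S : Finset (Fin 4 → ℤ))
    (hS : ∀ z : Fin 4 → ℤ, z ⬝ᵥ v = 0 → nw l z ≤ R → z ∈ S) :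
    (∏ i, l i) * R ^ 4 / 16 ≤ (4 * R * H + 1) * S.card := by
  classical
  set B : Finset (Fin 4 → ℤ) :=
    Fintype.piFinset (fun i => Finset.Icc (-⌊R / 2 * l i⌋) ⌊R / 2 * l i⌋) with hB
  have hBc : (∏ i, l i) * R ^ 4 / 16 ≤ (B.card : ℝ) := by
    rw [hB, Fintype.card_piFinset]
    push_cast
    rw [Fin.prod_univ_four, Fin.prod_univ_four]
    have h := fun i => card_Icc_ge (R / 2 * l i) (by have := hl i; positivity)
    have hp : ∀ i, 0 ≤ R / 2 * l i := fun i => by have := hl i; positivity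
    calc l 0 * l 1 * l 2 * l 3 * R ^ 4 / 16
        = (R / 2 * l 0) * (R / 2 * l 1) * (R / 2 * l 2) * (R / 2 * l 3) := by ring
      _ ≤ _ := by
          refine mul_le_mul (mul_le_mul (mul_le_mul (h 0) (h 1) (hp 1) (by positivity)) (h 2) (hp 2)
            (by positivity)) (h 3) (hp 3) (by positivity)
  set M : Finset ℤ := Finset.Icc (-⌊2 * R * H⌋) ⌊2 * R * H⌋ with hM
  have hMc : (M.card : ℝ) ≤ 4 * R * H + 1 := by
    have := card_Icc_le (2 * R * H) (by positivity)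
    rw [hM]
    linarith
  have hM0 : 0 < M.card := by
    rw [Finset.card_pos, hM]
    refine ⟨0, ?_⟩
    have : 0 ≤ ⌊2 * R * H⌋ := Int.floor_nonneg.mpr (by positivity)
    rw [Finset.mem_Icc]
    constructor <;> linarith
  have hmap : ∀ z ∈ B, z ⬝ᵥ v ∈ M := by
    intro z hz
    rw [hB, Fintype.mem_piFinset] at hz
    have h1 : ∀ i, |(z i : ℝ)| ≤ R / 2 * l i := by
      intro i
      have := hz i
      rw [Finset.mem_Icc, ← abs_le, Int.le_floor] at this
      exact_mod_cast this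
    have h2 := abs_dot_le l z v (R / 2) H (by positivity) h1 hv
    rw [hM, Finset.mem_Icc, ← abs_le, Int.le_floor]
    push_cast at h2 ⊢
    linarith
  have hfib : ∃ y ∈ M, (B.card : ℝ) / M.card ≤ ((B.filter (fun z => z ⬝ᵥ v = y)).card : ℝ) := by
    have hMne : M.Nonempty := Finset.card_pos.mp hM0
    refine Finset.exists_le_card_fiber_of_nsmul_le_card_of_maps_to hmap hMne ?_
    rw [nsmul_eq_mul, mul_div_cancel₀]
    positivity
  obtain ⟨y, hy, hfy⟩ := hfib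
  have hfS : (B.filter (fun z => z ⬝ᵥ v = y)).card ≤ S.card := by
    rcases Finset.eq_empty_or_nonempty (B.filter (fun z => z ⬝ᵥ v = y)) with he | ⟨z0, hz0⟩
    · rw [he]; simp
    · refine Finset.card_le_card_of_injOn (fun z => z - z0) ?_ ?_
      · intro z hz
        rw [Finset.mem_coe] at hz
        rw [Finset.mem_filter] at hz hz0
        refine hS _ ?_ ?_
        · rw [sub_dotProduct, hz.2, hz0.2, sub_self]
        · rw [nw_le_iff hl hR.le]
          intro i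
          have h1 := Fintype.mem_piFinset.mp hz.1 i
          have h2 := Fintype.mem_piFinset.mp hz0.1 i
          rw [Finset.mem_Icc, ← abs_le, Int.le_floor] at h1 h2
          push_cast at h1 h2
          show |(((z i - z0 i : ℤ)) : ℝ)| ≤ R * l i
          push_cast
          calc |(z i : ℝ) - z0 i| ≤ |(z i : ℝ)| + |(z0 i : ℝ)| := abs_sub _ _
            _ ≤ R / 2 * l i + R / 2 * l i := add_le_add h1 h2
            _ = R * l i := by ring
      · intro a _ b _ hab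
        exact sub_left_injective hab
  have h3 : (B.card : ℝ) ≤ M.card * S.card := by
    have h4 : (B.card : ℝ) / M.card ≤ S.card := le_trans hfy (by exact_mod_cast hfS)
    rw [div_le_iff₀ (by exact_mod_cast hM0)] at h4
    linarith
  calc (∏ i, l i) * R ^ 4 / 16 ≤ B.card := hBc
    _ ≤ M.card * S.card := h3
    _ ≤ (4 * R * H + 1) * S.card := mul_le_mul_of_nonneg_right hMc (Nat.cast_nonneg _)

theorem perp_basis : ∃ C : ℝ, 1 ≤ C ∧ ∀ (l : Fin 4 → ℝ), (∀ i, 0 < l i) → ∀ (H : ℝ),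
    ∀ v : Fin 4 → ℤ, Pr4 v → (∀ i, |(v i : ℝ)| * l i ≤ H) → ∃ b : Fin 3 → Fin 4 → ℤ, PB C l H v b := by
  obtain ⟨C, hC1, hC⟩ := red_int 4
  refine ⟨2160 * C ^ 3, ?_, ?_⟩
  · have : 1 ≤ C ^ 3 := one_le_pow₀ hC1
    linarith
  intro l hl H v hv hvH
  have hv0 : v ≠ 0 := by
    rintro rfl
    exact hv 2 Nat.prime_two (fun i => dvd_zero _)
  have hH : 0 < H := by
    obtain ⟨i, hi⟩ := Function.ne_iff.mp hv0
    have h1 : (0 : ℝ) < |(v i : ℝ)| := abs_pos.mpr (by exact_mod_cast hi)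
    exact lt_of_lt_of_le (mul_pos h1 (hl i)) (hvH i)
  set L : AddSubgroup (Fin 4 → ℤ) :=
    { carrier := {z | z ⬝ᵥ v = 0}
      add_mem' := fun {a b} ha hb => by
        show (a + b) ⬝ᵥ v = 0
        rw [add_dotProduct, ha, hb, add_zero]
      zero_mem' := by show (0 : Fin 4 → ℤ) ⬝ᵥ v = 0; exact zero_dotProduct _
      neg_mem' := fun {a} ha => by
        show (-a) ⬝ᵥ v = 0
        rw [neg_dotProduct, ha, neg_zero] } with hL
  have hLm : ∀ z, z ∈ L ↔ z ⬝ᵥ v = 0 := fun z => Iff.rfl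
  obtain ⟨n, b, hn, hbL, hb0, hmono, hspan, hbd⟩ := hC l hl L
  have hnwpos : ∀ i, 0 < nw l (b i) := fun i => nw_pos hl (hb0 i)
  have hli : LinearIndependent ℤ b := by
    rw [Fintype.linearIndependent_iff]
    intro g hg i
    have h1 := hbd g i
    rw [hg] at h1
    have h2 : nw l (0 : Fin 4 → ℤ) ≤ 0 := by
      rw [nw_le_iff hl (le_refl _)]
      intro i; simp
    have h3 : |(g i : ℝ)| * nw l (b i) ≤ 0 := le_trans h1 (by nlinarith)
    have h4 : |(g i : ℝ)| ≤ 0 := by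
      by_contra hcon
      push Not at hcon
      have := mul_pos hcon (hnwpos i)
      linarith
    have h5 : (g i : ℝ) = 0 := abs_eq_zero.mp (le_antisymm h4 (abs_nonneg _))
    exact_mod_cast h5
  have hn3 : n = 3 := perp_rank v hv b (fun i => (hLm _).mp (hbL i)) hli
    (fun m hm => hspan m ((hLm m).mpr hm))
  subst hn3
  refine ⟨b, fun i => (hLm _).mp (hbL i), hb0, hmono 0 1 (by decide), hmono 1 2 (by decide),
    fun m hm => hspan m ((hLm m).mpr hm), ?_, ?_⟩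
  · intro c i
    refine (hbd c i).trans (mul_le_mul_of_nonneg_right ?_ (nw_nonneg _ _))
    have : C ≤ C ^ 3 := le_self_pow₀ hC1 (by norm_num)
    nlinarith
  -- the volume
  classical
  set R : ℝ := max (nw l (b 2)) (1 / H) with hR
  have hR0 : 0 < R := lt_of_lt_of_le (hnwpos 2) (le_max_left _ _)
  have hRi : ∀ i, nw l (b i) ≤ R := by
    intro i
    refine le_trans (hmono i 2 ?_) (le_max_left _ _)
    fin_cases i <;> decide
  set S : Finset (Fin 4 → ℤ) := (Fintype.piFinset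
    (fun i : Fin 3 => Finset.Icc (-⌊C * R / nw l (b i)⌋) ⌊C * R / nw l (b i)⌋)).image
      (fun c => ∑ i, c i • b i) with hS
  have hx1 : ∀ i, 1 ≤ C * R / nw l (b i) := by
    intro i
    rw [le_div_iff₀ (hnwpos i), one_mul]
    calc nw l (b i) ≤ R := hRi i
      _ = 1 * R := (one_mul R).symm
      _ ≤ C * R := mul_le_mul_of_nonneg_right hC1 hR0.le
  have hSc : (S.card : ℝ) ≤ 27 * C ^ 3 * R ^ 3 / (nw l (b 0) * nw l (b 1) * nw l (b 2)) := by
    have h1 : S.card ≤ (Fintype.piFinset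
      (fun i : Fin 3 => Finset.Icc (-⌊C * R / nw l (b i)⌋) ⌊C * R / nw l (b i)⌋)).card :=
      Finset.card_image_le
    rw [Fintype.card_piFinset] at h1
    have h2 : (S.card : ℝ) ≤ ∏ i : Fin 3,
        ((Finset.Icc (-⌊C * R / nw l (b i)⌋) ⌊C * R / nw l (b i)⌋).card : ℝ) := by
      exact_mod_cast h1
    rw [Fin.prod_univ_three] at h2
    have h3 : ∀ i : Fin 3, ((Finset.Icc (-⌊C * R / nw l (b i)⌋) ⌊C * R / nw l (b i)⌋).card : ℝ)
        ≤ 3 * (C * R / nw l (b i)) := by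
      intro i
      have h4 := card_Icc_le (C * R / nw l (b i)) (by have := hx1 i; linarith)
      have := hx1 i
      linarith
    refine h2.trans ?_
    calc _ ≤ (3 * (C * R / nw l (b 0))) * (3 * (C * R / nw l (b 1))) * (3 * (C * R / nw l (b 2))) := by
          have hp : ∀ i : Fin 3, 0 ≤ 3 * (C * R / nw l (b i)) := fun i => by
            have := hx1 i; linarith
          refine mul_le_mul (mul_le_mul (h3 0) (h3 1) (by positivity) (hp 0)) (h3 2) (by positivity)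
            (mul_nonneg (hp 0) (hp 1))
      _ = _ := by
          have a0 := (hnwpos 0).ne'
          have a1 := (hnwpos 1).ne'
          have a2 := (hnwpos 2).ne'
          field_simp
          ring
  have hge := perp_count_ge l hl v R H hR0 hH hvH S (by
    intro z hz hzR
    obtain ⟨c, hc⟩ := hspan z ((hLm z).mpr hz)
    rw [hS, Finset.mem_image]
    refine ⟨c, ?_, hc.symm⟩
    rw [Fintype.mem_piFinset]
    intro i
    have h1 := hbd c i
    rw [← hc] at h1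
    rw [Finset.mem_Icc, ← abs_le, Int.le_floor, le_div_iff₀ (hnwpos i)]
    push_cast
    exact h1.trans (mul_le_mul_of_nonneg_left hzR (by linarith)))
  have hlam : 0 < ∏ i, l i := Finset.prod_pos fun i _ => hl i
  set P := nw l (b 0) * nw l (b 1) * nw l (b 2) with hP
  have hP0 : 0 < P := mul_pos (mul_pos (hnwpos 0) (hnwpos 1)) (hnwpos 2)
  have h5 : (∏ i, l i) * R ^ 4 / 16 ≤ (4 * R * H + 1) * (27 * C ^ 3 * R ^ 3 / P) :=
    hge.trans (mul_le_mul_of_nonneg_left hSc (by positivity))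
  have h6 : P * (∏ i, l i) * R ≤ 432 * C ^ 3 * (4 * R * H + 1) := by
    have h7 : (∏ i, l i) * R ^ 4 / 16 * P ≤ (4 * R * H + 1) * (27 * C ^ 3 * R ^ 3) := by
      calc (∏ i, l i) * R ^ 4 / 16 * P ≤ (4 * R * H + 1) * (27 * C ^ 3 * R ^ 3 / P) * P :=
            mul_le_mul_of_nonneg_right h5 hP0.le
        _ = (4 * R * H + 1) * (27 * C ^ 3 * R ^ 3) := by field_simp
    have hR3 : 0 < R ^ 3 := by positivity
    refine le_of_mul_le_mul_right ?_ hR3
    nlinarith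
  have h8 : 1 ≤ R * H := by
    have h9 : 1 / H ≤ R := le_max_right _ _
    rw [div_le_iff₀ hH] at h9
    exact h9
  have h10 : P * (∏ i, l i) * R ≤ 2160 * C ^ 3 * H * R := by
    have hC3 : 0 < C ^ 3 := by positivity
    nlinarith
  exact le_of_mul_le_mul_right h10 hR0

theorem PB.inj {C : ℝ} {l : Fin 4 → ℝ} (hl : ∀ i, 0 < l i) {H : ℝ} {v : Fin 4 → ℤ}
    {b : Fin 3 → Fin 4 → ℤ} (hb : PB C l H v b) (c : Fin 3 → ℤ) (hc : ∑ i, c i • b i = 0) (i : Fin 3) :
    c i = 0 := by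
  have h1 := hb.bd c i
  rw [hc] at h1
  have h2 : nw l (0 : Fin 4 → ℤ) = 0 := by
    refine le_antisymm ?_ (nw_nonneg _ _)
    rw [nw_le_iff hl (le_refl _)]
    intro i; simp
  rw [h2, mul_zero] at h1
  have h4 : |(c i : ℝ)| ≤ 0 := by
    by_contra hcon
    push Not at hcon
    have := mul_pos hcon (nw_pos hl (hb.ne i))
    linarith
  have h5 : (c i : ℝ) = 0 := abs_eq_zero.mp (le_antisymm h4 (abs_nonneg _))
  exact_mod_cast h5

/-- primitive combinations are primitive -/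
theorem PB.prim {C : ℝ} {l : Fin 4 → ℝ} (hl : ∀ i, 0 < l i) {H : ℝ} {v : Fin 4 → ℤ}
    {b : Fin 3 → Fin 4 → ℤ} (hb : PB C l H v b) (c : Fin 3 → ℤ)
    (hc : ∀ p : ℕ, p.Prime → ¬ ∀ i, (p : ℤ) ∣ c i) : Pr4 (∑ i, c i • b i) := by
  intro p hp hdiv
  refine hc p hp ?_
  choose m hm using hdiv
  have hp0 : (p : ℤ) ≠ 0 := by exact_mod_cast hp.ne_zero
  have hpm : ∑ i, c i • b i = (p : ℤ) • m := by
    funext i
    rw [hm i]; rfl
  have h1 : m ⬝ᵥ v = 0 := by
    have h2 : ((p : ℤ) • m) ⬝ᵥ v = 0 := by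
      rw [← hpm, sum_dotProduct]
      refine Finset.sum_eq_zero fun i _ => ?_
      rw [smul_dotProduct, hb.orth i, smul_zero]
    rw [smul_dotProduct, smul_eq_mul] at h2
    exact (mul_eq_zero.mp h2).resolve_left hp0
  obtain ⟨c', hc'⟩ := hb.span m h1
  intro i
  have h3 : ∑ i, (c i - p * c' i) • b i = 0 := by
    have h4 : ∑ i, (c i - p * c' i) • b i = ∑ i, c i • b i - (p : ℤ) • ∑ i, c' i • b i := by
      rw [Finset.smul_sum, ← Finset.sum_sub_distrib]
      refine Finset.sum_congr rfl fun i _ => ?_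
      rw [sub_smul, smul_smul]
    rw [h4, ← hc', hpm, sub_self]
  have h5 := hb.inj hl (fun i => c i - p * c' i) h3 i
  exact ⟨c' i, by simpa [sub_eq_zero] using h5⟩

theorem PB.b2_le {C : ℝ} {l : Fin 4 → ℝ} {H : ℝ} {v : Fin 4 → ℤ}
    {b : Fin 3 → Fin 4 → ℤ} (hC : 0 ≤ C) (hb : PB C l H v b) (m : Fin 3 → Fin 4 → ℤ)
    (hm : LinearIndependent ℤ m) (hmv : ∀ a, m a ⬝ᵥ v = 0) (U : ℝ) (hU : ∀ a, nw l (m a) ≤ U) :
    nw l (b 2) ≤ C * U := by
  classical
  choose c hc using fun a => hb.span (m a) (hmv a)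
  have hex : ∃ a, c a 2 ≠ 0 := by
    by_contra hno
    push Not at hno
    have h1 := linearIndependent_le_span_aux' m hm
        (((({b 0, b 1} : Finset (Fin 4 → ℤ))) : Set (Fin 4 → ℤ))) (by
      rintro _ ⟨a, rfl⟩
      rw [hc a, Fin.sum_univ_three, hno a, zero_smul, add_zero]
      refine Submodule.add_mem _ (Submodule.smul_mem _ _ (Submodule.subset_span ?_))
        (Submodule.smul_mem _ _ (Submodule.subset_span ?_))
      · simp
      · simp)
    have h2 : ({b 0, b 1} : Finset (Fin 4 → ℤ)).card ≤ 2 := Finset.card_le_two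
    rw [Fintype.card_fin] at h1
    simp only [Finset.coe_sort_coe, Fintype.card_coe] at h1
    omega
  obtain ⟨a, ha⟩ := hex
  have h1 := hb.bd (c a) 2
  rw [← hc a] at h1
  have h2 : (1 : ℝ) ≤ |(c a 2 : ℝ)| := by
    have : (1 : ℤ) ≤ |c a 2| := Int.one_le_abs ha
    exact_mod_cast this
  calc nw l (b 2) = 1 * nw l (b 2) := (one_mul _).symm
    _ ≤ |(c a 2 : ℝ)| * nw l (b 2) := mul_le_mul_of_nonneg_right h2 (nw_nonneg _ _)
    _ ≤ C * nw l (m a) := h1
    _ ≤ C * U := mul_le_mul_of_nonneg_left (hU a) hC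

theorem PB.lin {C : ℝ} {l : Fin 4 → ℝ} (hl : ∀ i, 0 < l i) {H : ℝ} {v : Fin 4 → ℤ}
    {b : Fin 3 → Fin 4 → ℤ} (hb : PB C l H v b) : LinearIndependent ℤ b := by
  rw [Fintype.linearIndependent_iff]
  intro g hg i
  exact hb.inj hl g hg i

/-- (FST) -/
theorem fst : ∃ C : ℝ, 1 ≤ C ∧ ∀ (l : Fin 4 → ℝ), (∀ i, 0 < l i) → ∀ (H U : ℝ), 0 < U →
    ∀ v : Fin 4 → ℤ, Pr4 v → (∀ i, |(v i : ℝ)| * l i ≤ H) →
    (∃ m : Fin 3 → Fin 4 → ℤ, LinearIndependent ℤ m ∧ (∀ a, m a ⬝ᵥ v = 0) ∧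
      ∀ a i, |(m a i : ℝ)| ≤ U * l i) ∨
    (∃ m : Fin 4 → ℤ, Pr4 m ∧ m ⬝ᵥ v = 0 ∧
      ∀ i, |(m i : ℝ)| ≤ C * √(H / ((∏ i, l i) * U)) * l i) := by
  obtain ⟨C, hC1, hC⟩ := perp_basis
  refine ⟨C, hC1, ?_⟩
  intro l hl H U hU v hv hvH
  obtain ⟨b, hb⟩ := hC l hl H v hv hvH
  have hpos : ∀ i, 0 < nw l (b i) := fun i => nw_pos hl (hb.ne i)
  by_cases h2 : nw l (b 2) ≤ U
  · left
    refine ⟨b, hb.lin hl, hb.orth, ?_⟩
    intro a
    rw [← nw_le_iff hl hU.le]
    have h0 := hb.m01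
    have h1 := hb.m12
    fin_cases a
    · exact (h0.trans h1).trans h2
    · exact h1.trans h2
    · exact h2
  · right
    push Not at h2
    have hlam : 0 < ∏ i, l i := Finset.prod_pos fun i _ => hl i
    refine ⟨b 0, ?_, hb.orth 0, ?_⟩
    · have h3 := hb.prim hl ![1, 0, 0] (by
        intro p hp hdiv
        have := hdiv 0
        simp only [Matrix.cons_val_zero] at this
        have h4 := Int.eq_one_of_dvd_one (by positivity) this
        exact hp.one_lt.ne' (by exact_mod_cast h4))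
      simpa [Fin.sum_univ_three] using h3
    · have hH : 0 ≤ H := le_trans (mul_nonneg (abs_nonneg _) (hl 0).le) (hvH 0)
      rw [← nw_le_iff hl (by positivity)]
      have h4 : nw l (b 0) ^ 2 ≤ C * (H / ((∏ i, l i) * U)) := by
        rw [mul_div_assoc', le_div_iff₀ (by positivity)]
        calc nw l (b 0) ^ 2 * ((∏ i, l i) * U) ≤ (nw l (b 0) * nw l (b 1)) * ((∏ i, l i) * nw l (b 2)) := by
              refine mul_le_mul ?_ (mul_le_mul_of_nonneg_left h2.le hlam.le) (by positivity)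
                (mul_nonneg (hpos 0).le (hpos 1).le)
              rw [pow_two]
              exact mul_le_mul_of_nonneg_left hb.m01 (hpos 0).le
          _ = nw l (b 0) * nw l (b 1) * nw l (b 2) * (∏ i, l i) := by ring
          _ ≤ C * H := hb.vol
      have h5 : nw l (b 0) ≤ √(C * (H / ((∏ i, l i) * U))) := by
        rw [← Real.sqrt_sq (hpos 0).le]
        exact Real.sqrt_le_sqrt h4
      refine h5.trans ?_
      rw [Real.sqrt_mul (by linarith)]
      refine mul_le_mul_of_nonneg_right ?_ (Real.sqrt_nonneg _)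
      rw [Real.sqrt_le_left (by linarith)]
      nlinarith

end Pool.Agent.PP5P
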