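import Pool.Agent.PP5P.Jc
import Pool.Agent.PP5B.Igl

/-!
# PP5, population lemma: `sl G c ^ 2` divides `2 Ph G c z c z` and `2 det G`
-/

set_option autoImplicit false

namespace Pool.Agent.PP5P

open Matrix Pool.Agent.PP5B

variable {G : Matrix (Fin 4) (Fin 4) ℤ} {c : Fin 4 → ℤ}

theorem mnQ_det (hsym : ∀ i j, G i j = G j i) (hev : ∀ i, 2 ∣ G i i) (hc : Pr4 c) {n : ℤ}
    (h : mnQ G c n) : n ∣ G.det := by
  obtain ⟨U, hU⟩ := dat_exists hsym hev hc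
  have h3 := mn_det hU.sym' hU.ev' (hU.mn' h)
  have h4 : (Uᵀ * G * U).det = G.det := by
    rw [Matrix.det_mul, Matrix.det_mul, Matrix.det_transpose]
    have := hU.det
    calc U.det * G.det * U.det = U.det ^ 2 * G.det := by ring
      _ = _ := by rw [this, one_mul]
  rwa [h4] at h3

theorem mnQ_Ph (hsym : ∀ i j, G i j = G j i) (hev : ∀ i, 2 ∣ G i i) (hdet : G.det ≠ 0)
    (hc : Pr4 c) {n : ℤ} (h : mnQ G c n) (z : Fin 4 → ℤ) : n ∣ Ph G c z c z := by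
  obtain ⟨U, hU⟩ := dat_exists hsym hev hc
  set F := TF (Uᵀ * G * U) with hF
  have hmn : F.mn n := hU.mn' h
  set η : Fin 4 → ℝ := cvR z with hη
  have hAm : ((Ph G c z c z : ℤ) : ℝ) * (G.det : ℝ) = (cvR c ⬝ᵥ ((toR G).adjugate *ᵥ cvR c))
      * (η ⬝ᵥ ((toR G).adjugate *ᵥ η)) - (cvR c ⬝ᵥ ((toR G).adjugate *ᵥ η)) ^ 2 := by
    have e : (toR G).adjugate = toR G.adjugate := by
      have := RingHom.map_adjugate (Int.castRingHom ℝ) G
      simpa [toR, RingHom.mapMatrix_apply] using this.symm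
    have h1 := Ph_det hsym c z c z
    have h2 : (c ⬝ᵥ (G.adjugate *ᵥ z)) = (z ⬝ᵥ (G.adjugate *ᵥ c)) := by
      have hs : G.adjugateᵀ = G.adjugate := by
        rw [adjugate_transpose]
        congr 1
        ext i j
        exact hsym j i
      rw [dotProduct_mulVec, ← mulVec_transpose, hs, dotProduct_comm]
    have h3 : Ph G c z c z * G.det = (c ⬝ᵥ (G.adjugate *ᵥ c)) * (z ⬝ᵥ (G.adjugate *ᵥ z)) -
        (c ⬝ᵥ (G.adjugate *ᵥ z)) ^ 2 := by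
      rw [mul_comm, h1, ← h2]; ring
    have key : ∀ a b : Fin 4 → ℤ, cvR a ⬝ᵥ ((toR G).adjugate *ᵥ cvR b)
        = ((a ⬝ᵥ (G.adjugate *ᵥ b) : ℤ) : ℝ) := by
      intro a b
      rw [e, toR_mulVec]
      simp [cvR, dotProduct]
    rw [hη, key, key, key]
    exact_mod_cast h3
  have h4 := eta_A hU η ((Ph G c z c z : ℤ) : ℝ) hdet hAm
  rw [← hF] at h4
  have h5 : ∀ i, (η ᵥ* toR U) i = (((z ᵥ* U) i : ℤ) : ℝ) := by
    intro i
    simp [hη, cvR, toR, vecMul, dotProduct]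
  rw [h5, h5, h5] at h4
  have h6 : Ph G c z c z = F.A ((z ᵥ* U) 0, (z ᵥ* U) 1, (z ᵥ* U) 2) := by
    have : ((Ph G c z c z : ℤ) : ℝ) = ((F.A ((z ᵥ* U) 0, (z ᵥ* U) 1, (z ᵥ* U) 2) : ℤ) : ℝ) := by
      rw [← h4]
      simp only [Tf.AR, Tf.A]
      push_cast
      ring
    exact_mod_cast this
  rw [h6]
  obtain ⟨h1, h2, h3, h4', h5', h6'⟩ := hmn
  unfold Tf.A
  refine dvd_add (dvd_add (dvd_add (h1.mul_right _) (h2.mul_right _)) (h3.mul_right _)) ?_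
  refine Dvd.dvd.mul_left (dvd_add (dvd_add (h4'.mul_right _) (h5'.mul_right _)) (h6'.mul_right _)) _

/-- the product of the prime powers `l ^ ig` -/
noncomputable def nig (G : Matrix (Fin 4) (Fin 4) ℤ) (c : Fin 4 → ℤ) : ℕ :=
  ∏ l ∈ (D2 G c / 2).natAbs.primeFactors, l ^ (ig G c l)

theorem mnQ_nig (G : Matrix (Fin 4) (Fin 4) ℤ) (c : Fin 4 → ℤ) : mnQ G c (nig G c) := by
  intro u u' w w' h1 h2 h3 h4
  set x := (u ⬝ᵥ (G *ᵥ w)) * (u' ⬝ᵥ (G *ᵥ w')) - (u ⬝ᵥ (G *ᵥ w')) * (u' ⬝ᵥ (G *ᵥ w)) with hx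
  rw [Int.natCast_dvd]
  unfold nig
  refine Finset.prod_dvd_of_isRelPrime ?_ ?_
  · intro l hl m hm hlm
    have hlp := Nat.prime_of_mem_primeFactors (Finset.mem_coe.mp hl)
    have hmp := Nat.prime_of_mem_primeFactors (Finset.mem_coe.mp hm)
    exact Nat.coprime_iff_isRelPrime.mp (((Nat.coprime_primes hlp hmp).mpr hlm).pow _ _)
  · intro l hl
    have := ig_mn G c l u u' w w' h1 h2 h3 h4
    rw [← hx] at this
    have h5 := Int.natAbs_dvd_natAbs.mpr this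
    rwa [Int.natAbs_pow, Int.natAbs_natCast] at h5

theorem sl_sq_dvd (G : Matrix (Fin 4) (Fin 4) ℤ) (c : Fin 4 → ℤ) : sl G c ^ 2 ∣ 2 * nig G c := by
  unfold sl nig
  rw [← Finset.prod_pow]
  have h1 : ∀ l ∈ (D2 G c / 2).natAbs.primeFactors,
      (l ^ il G c l) ^ 2 ∣ l ^ (ig G c l) * (if l = 2 then 2 else 1) := by
    intro l _
    rw [← pow_mul]
    unfold il
    split_ifs with h
    · subst h
      rw [← pow_succ]
      exact pow_dvd_pow _ (by omega)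
    · rw [mul_one]
      exact pow_dvd_pow _ (by omega)
  refine (Finset.prod_dvd_prod_of_dvd _ _ h1).trans ?_
  rw [Finset.prod_mul_distrib, mul_comm]
  refine mul_dvd_mul ?_ dvd_rfl
  rw [Finset.prod_ite_eq']
  split_ifs
  · exact dvd_rfl
  · exact one_dvd _

/-- `s(x,m) ^ 2` divides twice the compound -/
theorem sl_Ph (hsym : ∀ i j, G i j = G j i) (hev : ∀ i, 2 ∣ G i i) (hdet : G.det ≠ 0)
    (hc : Pr4 c) (z : Fin 4 → ℤ) : ((sl G c : ℤ)) ^ 2 ∣ 2 * Ph G c z c z := by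
  have h1 : ((sl G c : ℤ)) ^ 2 ∣ 2 * (nig G c : ℤ) := by exact_mod_cast sl_sq_dvd G c
  exact h1.trans (mul_dvd_mul_left 2 (mnQ_Ph hsym hev hdet hc (mnQ_nig G c) z))

theorem sl_det (hsym : ∀ i j, G i j = G j i) (hev : ∀ i, 2 ∣ G i i)
    (hc : Pr4 c) : ((sl G c : ℤ)) ^ 2 ∣ 2 * G.det := by
  have h1 : ((sl G c : ℤ)) ^ 2 ∣ 2 * (nig G c : ℤ) := by exact_mod_cast sl_sq_dvd G c
  exact h1.trans (mul_dvd_mul_left 2 (mnQ_det hsym hev hc (mnQ_nig G c)))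

end Pool.Agent.PP5P
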