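import Pool.Agent.PP5P.Pz

/-!
# PP5, population lemma at the real place
-/

set_option autoImplicit false

namespace Pool.Agent.PP5P

open Matrix

/-- the scaled basis vector -/
def Ev (l : Fin 4 → ℝ) (i : Fin 4) : Fin 4 → ℝ := Pi.single i (l i)

theorem Ev_eq (l : Fin 4 → ℝ) (i : Fin 4) : Ev l i = l i • (Pi.single i 1 : Fin 4 → ℝ) := by
  ext j
  by_cases h : j = i
  · subst h; simp [Ev]
  · simp [Ev, h]

theorem vec_Ev (l : Fin 4 → ℝ) (hl : ∀ i, 0 < l i) (f : Fin 4 → ℝ) :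
    f = ∑ i, (f i / l i) • Ev l i := by
  ext j
  rw [Finset.sum_apply, Finset.sum_eq_single j]
  · simp [Ev, div_mul_cancel₀ _ (hl j).ne']
  · intro b _ hb
    simp [Ev, hb.symm]
  · simp

/-- the complementary pairs -/
def cpr : Fin 6 → Fin 4 × Fin 4 := ![(2, 3), (3, 1), (1, 2), (0, 3), (2, 0), (0, 1)]

theorem MM_cpr (G : Matrix (Fin 4) (Fin 4) ℝ) (a b : Fin 6) :
    MM G a b = Ph G (Pi.single (cpr a).1 1) (Pi.single (cpr a).2 1) (Pi.single (cpr b).1 1)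
      (Pi.single (cpr b).2 1) := by
  have h : ∀ a : Fin 6, pv (Pi.single (cpr a).1 1) (Pi.single (cpr a).2 1)
      = (Pi.single a 1 : Fin 6 → ℝ) := by
    intro a
    fin_cases a <;> · ext i; fin_cases i <;> simp [pv, cpr]
  simp [Ph, h]

theorem pr_cpr (l : Fin 4 → ℝ) (a : Fin 6) :
    l (pr a).1 * l (pr a).2 * (l (cpr a).1 * l (cpr a).2) = ∏ i, l i := by
  rw [Fin.prod_univ_four]
  fin_cases a <;> simp [pr, cpr] <;> ring

theorem bil_bound (S : (Fin 4 → ℝ) → (Fin 4 → ℝ) → ℝ) (δ : ℝ) (E : Fin 4 → Fin 4 → ℝ)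
    (c d : Fin 4 → ℝ) (hc : ∀ i, |c i| ≤ 1) (hd : ∀ i, |d i| ≤ 1)
    (hS : S (∑ i, c i • E i) (∑ i, d i • E i) = ∑ i, ∑ j, c i * d j * S (E i) (E j))
    (hE : ∀ i j, |S (E i) (E j)| ≤ δ) : |S (∑ i, c i • E i) (∑ i, d i • E i)| ≤ 16 * δ := by
  rw [hS]
  have h1 : |∑ i, ∑ j, c i * d j * S (E i) (E j)| ≤ ∑ i : Fin 4, ∑ j : Fin 4, δ := by
    refine (Finset.abs_sum_le_sum_abs _ _).trans (Finset.sum_le_sum fun i _ => ?_)
    refine (Finset.abs_sum_le_sum_abs _ _).trans (Finset.sum_le_sum fun j _ => ?_)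
    rw [abs_mul, abs_mul]
    have h2 : |c i| * |d j| ≤ 1 := mul_le_one₀ (hc i) (abs_nonneg _) (hd j)
    calc |c i| * |d j| * |S (E i) (E j)| ≤ 1 * |S (E i) (E j)| :=
          mul_le_mul_of_nonneg_right h2 (abs_nonneg _)
      _ ≤ δ := by rw [one_mul]; exact hE i j
  refine h1.trans ?_
  simp
  linarith

/-- **population lemma at the real place** -/
theorem popR {G : Matrix (Fin 4) (Fin 4) ℝ} (hG : ∀ i j, G i j = G j i) (l : Fin 4 → ℝ)
    (hl : ∀ i, 0 < l i) (f : Fin 4 → Fin 4 → ℝ) (hf : ∀ a i, |f a i| ≤ l i) (C δ : ℝ) (hC : 0 ≤ C)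
    (hE : ∀ k, ∃ α : Fin 4 → ℝ, Ev l k = ∑ a, α a • f a ∧ ∀ a, |α a| ≤ C)
    (hS : ∀ a b : Fin 4, a ≠ 0 → b ≠ 0 → ∀ i j,
      |Ph G (f a) (Ev l i) (f b) (Ev l j) + Ph G (f a) (Ev l j) (f b) (Ev l i)| ≤ δ)
    (i j k k' : Fin 4) :
    |mr G i j k k'| * (∏ i, l i) ^ 2 ≤ 4096 * C ^ 4 * δ * (l i * l j * (l k * l k')) := by
  have hδ : 0 ≤ δ := le_trans (abs_nonneg _) (hS 1 1 (by decide) (by decide) 0 0)
  have hfc : ∀ a i, |f a i / l i| ≤ 1 := by
    intro a i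
    rw [abs_div, abs_of_pos (hl i), div_le_one (hl i)]
    exact hf a i
  have Sab : ∀ a b : Fin 4, a ≠ 0 → b ≠ 0 → ∀ i j,
      |Ph G (f a) (f i) (f b) (f j) + Ph G (f a) (f j) (f b) (f i)| ≤ 16 * δ := by
    intro a b ha hb i j
    have h1 := bil_bound (fun z z' => Ph G (f a) z (f b) z' + Ph G (f a) z' (f b) z) δ (Ev l)
      (fun p => f i p / l p) (fun p => f j p / l p) (hfc i) (hfc j) (by
        simp only [Fin.sum_univ_four, Ph_add2, Ph_add4, Ph_smul2, Ph_smul4]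
        ring) (hS a b ha hb)
    rw [← vec_Ev l hl (f i), ← vec_Ev l hl (f j)] at h1
    exact h1
  have all : ∀ i j k k' : Fin 4, |Ph G (f i) (f j) (f k) (f k')| ≤ 16 * δ := by
    have B := Ph_bianchi hG (f 1) (f 2) (f 3) (f 0)
    have hs1 := Sab 1 3 (by decide) (by decide) 2 0
    have hs2 := Sab 1 2 (by decide) (by decide) 3 0
    have e1 : Ph G (f 1) (f 0) (f 3) (f 2) = - Ph G (f 2) (f 3) (f 1) (f 0) := by
      rw [Ph_symm hG, Ph_swap1]
    have e2 : Ph G (f 1) (f 3) (f 2) (f 0) = - Ph G (f 3) (f 1) (f 2) (f 0) := by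
      rw [Ph_swap1]
    have e3 : Ph G (f 1) (f 0) (f 2) (f 3) = Ph G (f 2) (f 3) (f 1) (f 0) := by
      rw [Ph_symm hG]
    rw [e1] at hs1
    rw [e2, e3] at hs2
    refine F_ind hG f (fun x => |x| ≤ 16 * δ) (by simpa using hδ) (fun x hx => by rwa [abs_neg])
      ?_ ?_ ?_ ?_ ?_
    · intro a i j ha
      have h1 := Sab a a ha ha i j
      rw [Ph_symm hG (f a) (f i) (f a) (f j)] at h1
      rw [abs_le] at h1 ⊢
      constructor <;> linarith [h1.1, h1.2]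
    · intro a b ha hb
      have h1 := Sab a b ha hb 0 0
      rw [abs_le] at h1 ⊢
      constructor <;> linarith [h1.1, h1.2]
    · rw [abs_le] at hs1 hs2 ⊢
      constructor <;> linarith [hs1.1, hs1.2, hs2.1, hs2.2]
    · rw [abs_le] at hs1 hs2 ⊢
      constructor <;> linarith [hs1.1, hs1.2, hs2.1, hs2.2]
    · rw [abs_le] at hs1 hs2 ⊢
      constructor <;> linarith [hs1.1, hs1.2, hs2.1, hs2.2]
  have sumb : ∀ (α g : Fin 4 → ℝ) (M : ℝ), 0 ≤ M → (∀ a, |α a| ≤ C) → (∀ a, |g a| ≤ M) →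
      |∑ a, α a * g a| ≤ 4 * C * M := by
    intro α g M hM hα hg
    refine (Finset.abs_sum_le_sum_abs _ _).trans ?_
    have : ∑ a : Fin 4, |α a * g a| ≤ ∑ _a : Fin 4, C * M := by
      refine Finset.sum_le_sum fun a _ => ?_
      rw [abs_mul]
      exact mul_le_mul (hα a) (hg a) (abs_nonneg _) hC
    refine this.trans ?_
    simp
    linarith
  have gen : ∀ i j k k' : Fin 4, |Ph G (Ev l i) (Ev l j) (Ev l k) (Ev l k')| ≤ 4096 * C ^ 4 * δ := by
    intro i j k k'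
    obtain ⟨α, h1, hα⟩ := hE i
    obtain ⟨β, h2, hβ⟩ := hE j
    obtain ⟨γ, h3, hγ⟩ := hE k
    obtain ⟨ε, h4, hε⟩ := hE k'
    rw [h1, Ph_sum1]
    have e : 4096 * C ^ 4 * δ = 4 * C * (4 * C * (4 * C * (4 * C * (16 * δ)))) := by ring
    rw [e]
    refine sumb α _ _ (by positivity) hα fun a => ?_
    rw [h2, Ph_sum2]
    refine sumb β _ _ (by positivity) hβ fun b => ?_
    rw [h3, Ph_sum3]
    refine sumb γ _ _ (by positivity) hγ fun c => ?_
    rw [h4, Ph_sum4]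
    exact sumb ε _ _ (by positivity) hε fun d => all a b c d
  have hMM : ∀ a b : Fin 6, |MM G a b| * (∏ i, l i) ^ 2 ≤
      4096 * C ^ 4 * δ * (l (pr a).1 * l (pr a).2 * (l (pr b).1 * l (pr b).2)) := by
    intro a b
    have h1 := gen (cpr a).1 (cpr a).2 (cpr b).1 (cpr b).2
    simp only [Ev_eq, Ph_smul1, Ph_smul2, Ph_smul3, Ph_smul4, ← MM_cpr] at h1
    have pa := pr_cpr l a
    have pb := pr_cpr l b
    have p1 := hl (cpr a).1
    have p2 := hl (cpr a).2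
    have p3 := hl (cpr b).1
    have p4 := hl (cpr b).2
    have p5 := hl (pr a).1
    have p6 := hl (pr a).2
    have p7 := hl (pr b).1
    have p8 := hl (pr b).2
    have e1 : |l (cpr b).2 * (l (cpr b).1 * (l (cpr a).2 * (l (cpr a).1 * MM G a b)))| =
        (l (cpr a).1 * l (cpr a).2) * (l (cpr b).1 * l (cpr b).2) * |MM G a b| := by
      rw [abs_mul, abs_mul, abs_mul, abs_mul, abs_of_pos p1, abs_of_pos p2, abs_of_pos p3, abs_of_pos p4]
      ring
    rw [e1] at h1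
    calc |MM G a b| * (∏ i, l i) ^ 2 = ((l (cpr a).1 * l (cpr a).2) * (l (cpr b).1 * l (cpr b).2) * |MM G a b|)
          * (l (pr a).1 * l (pr a).2 * (l (pr b).1 * l (pr b).2)) := by
          rw [sq]; nth_rewrite 1 [← pa]; rw [← pb]; ring
      _ ≤ _ := mul_le_mul_of_nonneg_right h1 (by positivity)
  -- all minors
  have h1 : ∀ i j k k' : Fin 4, i < j → k < k' →
      |mr G i j k k'| * (∏ i, l i) ^ 2 ≤ 4096 * C ^ 4 * δ * (l i * l j * (l k * l k')) := by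
    intro i j k k' hij hkl
    obtain ⟨a, ha1, ha2⟩ := pr_lt hij
    obtain ⟨b, hb1, hb2⟩ := pr_lt hkl
    have := hMM a b
    rwa [MM_mr, ha1, ha2, hb1, hb2] at this
  have hK : 0 ≤ 4096 * C ^ 4 * δ := by positivity
  have h2 : ∀ i j k k' : Fin 4, i < j →
      |mr G i j k k'| * (∏ i, l i) ^ 2 ≤ 4096 * C ^ 4 * δ * (l i * l j * (l k * l k')) := by
    intro i j k k' hij
    rcases lt_trichotomy k k' with hkl | hkl | hkl
    · exact h1 i j k k' hij hkl
    · subst hkl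
      rw [mr_self2, abs_zero, zero_mul]
      have := hl i; have := hl j; have := hl k
      positivity
    · rw [mr_swap2, abs_neg, mul_comm (l k)]; exact h1 i j k' k hij hkl
  rcases lt_trichotomy i j with hij | hij | hij
  · exact h2 i j k k' hij
  · subst hij
    rw [mr_self1, abs_zero, zero_mul]
    have := hl i; have := hl k; have := hl k'
    positivity
  · rw [mr_swap1, abs_neg, mul_comm (l i)]; exact h2 j i k k' hij

end Pool.Agent.PP5P
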