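import Pool.Agent.PP5P.Sl
import Pool.Agent.PP5P.Rp
import Pool.Agent.PP5S.Eoc
import Pool.Agent.FTA.DivB

/-!
# PP5, population lemma: the conic bound with the real compound `b(m)`
-/

set_option autoImplicit false

namespace Pool.Agent.PP5P

open Matrix Pool.Agent.PP5B Pool.Agent.PP5S

theorem omA_le (G : Matrix (Fin 4) (Fin 4) ℤ) (c : Fin 4 → ℤ) :
    omA G c ≤ (max 1 (D2 G c / 2).natAbs).divisors.card := by
  unfold omA
  by_cases h0 : (D2 G c / 2).natAbs = 0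
  · rw [h0]; simp
  · rw [max_eq_right (Nat.one_le_iff_ne_zero.mpr h0), Nat.card_divisors h0]
    refine Finset.prod_le_prod' fun l _ => ?_
    unfold om
    split_ifs
    · exact Nat.zero_le _
    · exact le_rfl

theorem pv_le {u v : Fin 4 → ℝ} {a b : ℝ} (ha : ∀ i, |u i| ≤ a) (hb : ∀ i, |v i| ≤ b) (i : Fin 6) :
    |pv u v i| ≤ 2 * (a * b) := by
  have ha0 : 0 ≤ a := (abs_nonneg _).trans (ha 0)
  have hp : ∀ i j, |u i * v j| ≤ a * b := by
    intro i j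
    rw [abs_mul]
    exact mul_le_mul (ha i) (hb j) (abs_nonneg _) ha0
  have h : ∀ i j k l, |u i * v j - u k * v l| ≤ 2 * (a * b) := by
    intro i j k l
    have h1 := hp i j
    have h2 := hp k l
    rw [abs_le] at h1 h2 ⊢
    constructor <;> linarith [h1.1, h1.2, h2.1, h2.2]
  fin_cases i <;> simp only [pv]
  · exact h 2 3 3 2
  · show |-(u 1 * v 3 - u 3 * v 1)| ≤ _
    rw [abs_neg]; exact h 1 3 3 1
  · exact h 1 2 2 1
  · exact h 0 3 3 0
  · show |-(u 0 * v 2 - u 2 * v 0)| ≤ _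
    rw [abs_neg]; exact h 0 2 2 0
  · exact h 0 1 1 0

theorem MM_le {G : Matrix (Fin 4) (Fin 4) ℝ} {g : ℝ} (hg : ∀ i j, |G i j| ≤ g) (a b : Fin 6) :
    |MM G a b| ≤ 2 * g ^ 2 := by
  rw [MM_mr]
  unfold mr
  have hg0 : 0 ≤ g := (abs_nonneg _).trans (hg 0 0)
  have hp : ∀ i j k l, |G i j * G k l| ≤ g ^ 2 := by
    intro i j k l
    rw [abs_mul, sq]
    exact mul_le_mul (hg i j) (hg k l) (abs_nonneg _) hg0
  have h1 := hp (pr a).1 (pr b).1 (pr a).2 (pr b).2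
  have h2 := hp (pr a).1 (pr b).2 (pr a).2 (pr b).1
  rw [abs_le] at h1 h2 ⊢
  constructor <;> linarith [h1.1, h1.2, h2.1, h2.2]

theorem Ph_le {G : Matrix (Fin 4) (Fin 4) ℝ} {g : ℝ} (hg : ∀ i j, |G i j| ≤ g)
    {u v w z : Fin 4 → ℝ} {a b c d : ℝ} (ha : ∀ i, |u i| ≤ a) (hb : ∀ i, |v i| ≤ b)
    (hc : ∀ i, |w i| ≤ c) (hd : ∀ i, |z i| ≤ d) :
    |Ph G u v w z| ≤ 288 * g ^ 2 * (a * b) * (c * d) := by
  have ha0 : 0 ≤ a := (abs_nonneg _).trans (ha 0)
  have hb0 : 0 ≤ b := (abs_nonneg _).trans (hb 0)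
  have hc0 : 0 ≤ c := (abs_nonneg _).trans (hc 0)
  have hd0 : 0 ≤ d := (abs_nonneg _).trans (hd 0)
  have h1 : |Ph G u v w z| ≤ ∑ i : Fin 6, ∑ j : Fin 6, (2 * (a * b)) * ((2 * g ^ 2) * (2 * (c * d))) := by
    unfold Ph
    simp only [dotProduct, mulVec, Finset.mul_sum]
    refine (Finset.abs_sum_le_sum_abs _ _).trans (Finset.sum_le_sum fun i _ => ?_)
    refine (Finset.abs_sum_le_sum_abs _ _).trans (Finset.sum_le_sum fun j _ => ?_)
    rw [abs_mul, abs_mul]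
    exact mul_le_mul (pv_le ha hb i) (mul_le_mul (MM_le hg i j) (pv_le hc hd j) (abs_nonneg _)
      (by positivity)) (by positivity) (by positivity)
  refine h1.trans (le_of_eq ?_)
  simp
  ring

/-- one of three test vectors carries the compound -/
theorem test_vec {G : Matrix (Fin 4) (Fin 4) ℝ} (hG : ∀ i j, G i j = G j i) (m : Fin 4 → ℝ)
    (l : Fin 4 → ℝ) (hl : ∀ i, 0 < l i) (b : ℝ) (i j : Fin 4)
    (hb : b ≤ |Ph G m (Ev l i) m (Ev l j)|) :
    ∃ η : Fin 4 → ℝ, b / 2 ≤ |Ph G m η m η| ∧ (∀ k, |η k| ≤ 2 * l k) ∧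
      ∀ (v : Fin 4 → ℝ) (H : ℝ), (∀ k, |v k| * l k ≤ H) → |η ⬝ᵥ v| ≤ 2 * H := by
  have hEv : ∀ i k, |Ev l i k| ≤ l k := by
    intro i k
    by_cases h : k = i
    · subst h; simp [Ev, abs_of_pos (hl k)]
    · simp [Ev, h, (hl k).le]
  have hdot : ∀ i (v : Fin 4 → ℝ) (H : ℝ), (∀ k, |v k| * l k ≤ H) → |Ev l i ⬝ᵥ v| ≤ H := by
    intro i v H h
    have : Ev l i ⬝ᵥ v = l i * v i := by simp [Ev]
    rw [this, abs_mul, abs_of_pos (hl i), mul_comm]
    exact h i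
  have e : Ph G m (Ev l i + Ev l j) m (Ev l i + Ev l j) =
      Ph G m (Ev l i) m (Ev l i) + Ph G m (Ev l j) m (Ev l j) + 2 * Ph G m (Ev l i) m (Ev l j) := by
    simp only [Ph_add2, Ph_add4]
    rw [Ph_symm hG m (Ev l i) m (Ev l j)]
    ring
  have hH0 : ∀ (v : Fin 4 → ℝ) (H : ℝ), (∀ k, |v k| * l k ≤ H) → 0 ≤ H := fun v H h =>
    le_trans (mul_nonneg (abs_nonneg _) (hl 0).le) (h 0)
  by_cases h1 : b / 2 ≤ |Ph G m (Ev l i) m (Ev l i)|
  · refine ⟨Ev l i, h1, fun k => (hEv i k).trans (by linarith [hl k]), fun v H h => ?_⟩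
    have := hdot i v H h
    linarith [hH0 v H h]
  by_cases h2 : b / 2 ≤ |Ph G m (Ev l j) m (Ev l j)|
  · refine ⟨Ev l j, h2, fun k => (hEv j k).trans (by linarith [hl k]), fun v H h => ?_⟩
    have := hdot j v H h
    linarith [hH0 v H h]
  push Not at h1 h2
  refine ⟨Ev l i + Ev l j, ?_, ?_, ?_⟩
  · rw [e]
    have h3 : |2 * Ph G m (Ev l i) m (Ev l j)| = 2 * |Ph G m (Ev l i) m (Ev l j)| := by
      rw [abs_mul, abs_of_pos (by norm_num : (0 : ℝ) < 2)]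
    have h4 := abs_sub_abs_le_abs_sub (2 * Ph G m (Ev l i) m (Ev l j))
      (-(Ph G m (Ev l i) m (Ev l i) + Ph G m (Ev l j) m (Ev l j)))
    rw [abs_neg, sub_neg_eq_add, h3] at h4
    have h5 := abs_add_le (Ph G m (Ev l i) m (Ev l i)) (Ph G m (Ev l j) m (Ev l j))
    rw [add_comm (Ph G m (Ev l i) m (Ev l i) + Ph G m (Ev l j) m (Ev l j))]
    have h6 := abs_nonneg (Ph G m (Ev l i) m (Ev l i))
    linarith
  · intro k
    have := abs_add_le (Ev l i k) (Ev l j k)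
    have h3 := hEv i k
    have h4 := hEv j k
    simp only [Pi.add_apply]
    linarith
  · intro v H h
    rw [add_dotProduct]
    have := abs_add_le (Ev l i ⬝ᵥ v) (Ev l j ⬝ᵥ v)
    have h3 := hdot i v H h
    have h4 := hdot j v H h
    linarith

theorem one_add_log_le (k c : ℝ) (hk : 0 ≤ k) (hc : 0 < c) : ∃ C : ℝ, 1 ≤ C ∧ ∀ Y X : ℝ, 1 ≤ Y → 0 ≤ X →
    X ≤ k * Y ^ (11 : ℕ) → 1 + 2 * Real.log (1 + X) ≤ C * Y ^ c := by
  refine ⟨1 + 2 * Real.log (1 + k) + 22 / c, ?_, ?_⟩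
  · have := Real.log_nonneg (show (1 : ℝ) ≤ 1 + k by linarith)
    have : 0 < 22 / c := by positivity
    linarith
  · intro Y X hY hX h
    have hY11 : (1 : ℝ) ≤ Y ^ (11 : ℕ) := one_le_pow₀ hY
    have h1 : 1 + X ≤ (1 + k) * Y ^ (11 : ℕ) := by nlinarith
    have h2 : Real.log (1 + X) ≤ Real.log (1 + k) + 11 * Real.log Y := by
      refine (Real.log_le_log (by linarith) h1).trans ?_
      rw [Real.log_mul (by linarith) (by positivity), Real.log_pow]
      push_cast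
      exact le_rfl
    have h3 : Real.log Y ≤ Y ^ c / c := Real.log_le_rpow_div (by linarith) hc
    have h4 : (1 : ℝ) ≤ Y ^ c := Real.one_le_rpow hY hc.le
    have h5 := Real.log_nonneg (show (1 : ℝ) ≤ 1 + k by linarith)
    have h6 : 22 / c * Y ^ c = 22 * (Y ^ c / c) := by ring
    calc 1 + 2 * Real.log (1 + X) ≤ (1 + 2 * Real.log (1 + k)) * 1 + 22 * Real.log Y := by linarith
      _ ≤ (1 + 2 * Real.log (1 + k)) * Y ^ c + 22 * (Y ^ c / c) := by
          refine add_le_add (mul_le_mul_of_nonneg_left h4 (by linarith)) (by linarith)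
      _ = _ := by rw [← h6]; ring

/-- **the conic bound with the real compound** -/
theorem zb (c : ℝ) (hc : 0 < c) (C0 : ℝ) (hC0 : 1 ≤ C0) : ∃ C : ℝ, 1 ≤ C ∧
    ∀ (G : Matrix (Fin 4) (Fin 4) ℤ), (∀ i j, G i j = G j i) → (∀ i, 2 ∣ G i i) → G.det ≠ 0 →
    ∀ m : Fin 4 → ℤ, Pr4 m → D2 G m ≠ 0 → ∀ (l : Fin 4 → ℝ) (T Y H b : ℝ), 1 ≤ Y →
    (∀ i, 0 < l i) → (∀ i, l i ≤ Y) → 1 / Y ≤ T → 0 < H → 0 < b →
    (∀ i j, |(G i j : ℝ)| ≤ C0 * l i * l j / T) → (∀ i, |(m i : ℝ)| ≤ Y) →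
    (∃ i j, b ≤ |Ph (toR G) (cvR m) (Ev l i) (cvR m) (Ev l j)|) →
    ∀ S : Finset (Fin 4 → ℤ), (∀ v ∈ S, Pr4 v ∧ v ⬝ᵥ (G *ᵥ v) = 0 ∧ m ⬝ᵥ v = 0 ∧
      ∀ i, |(v i : ℝ)| * l i ≤ H) →
    (S.card : ℝ) ≤ C * Y ^ c * (1 + H * (sl G m : ℝ) / √b) := by
  obtain ⟨C1, hC1, h1⟩ := one_add_log_le (4608 * C0 ^ 3) (c / 2) (by positivity) (by positivity)
  obtain ⟨C2, hC2, h2⟩ := Pool.Agent.FTA.divisor_bound (show 0 < c / 22 by positivity)
  refine ⟨2 * (C2 * (96 * C0 ^ 3) ^ (c / 22) + 1) * C1 * 120, ?_, ?_⟩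
  · have : 0 < (96 * C0 ^ 3) ^ (c / 22) := by positivity
    have : 0 < C2 * (96 * C0 ^ 3) ^ (c / 22) := by positivity
    nlinarith
  intro G hsym hev hdet m hm hD l T Y H b hY hl hlY hT hH hb hG hmY hPh S hS
  have hY0 : 0 < Y := by linarith
  have hT0 : 0 < T := lt_of_lt_of_le (by positivity) hT
  obtain ⟨i, j, hij⟩ := hPh
  have hsR : ∀ i j, (toR G) i j = (toR G) j i := by
    intro i j
    simp only [toR, Matrix.map_apply]
    rw [hsym i j]
  obtain ⟨η, he1, he2, he3⟩ := test_vec hsR (cvR m) l hl b i j hij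
  set Am := Ph (toR G) (cvR m) η (cvR m) η with hAm
  have hAm0 : Am ≠ 0 := by
    intro h0
    rw [h0, abs_zero] at he1
    linarith
  -- the size of the entries
  have hGY : ∀ i j, |(toR G) i j| ≤ C0 * Y ^ 3 := by
    intro i j
    have h3 := hG i j
    have h4 : C0 * l i * l j / T ≤ C0 * Y ^ 3 := by
      rw [div_le_iff₀ hT0]
      have h5 : 1 ≤ T * Y := by
        rw [div_le_iff₀ hY0] at hT
        linarith
      have h6 : l i * l j ≤ Y * Y := mul_le_mul (hlY i) (hlY j) (hl j).le hY0.le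
      calc C0 * l i * l j = C0 * (l i * l j) := by ring
        _ ≤ C0 * (Y * Y) := mul_le_mul_of_nonneg_left h6 (by linarith)
        _ ≤ C0 * (Y * Y) * (T * Y) := le_mul_of_one_le_right (by positivity) h5
        _ = _ := by ring
    simp only [toR, Matrix.map_apply]
    exact h3.trans h4
  have hη : ∀ k, |η k| ≤ 2 * Y := fun k => (he2 k).trans (by linarith [hlY k])
  have hmR : ∀ k, |cvR m k| ≤ Y := fun k => hmY k
  have hAmle : |Am| ≤ 1152 * C0 ^ 2 * Y ^ 10 := by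
    refine (Ph_le hGY hmR hη hmR hη).trans (le_of_eq ?_)
    ring
  have hAmid : Am * (G.det : ℝ) = (D2 G m : ℝ) * (η ⬝ᵥ ((toR G).adjugate *ᵥ η))
      - (cvR m ⬝ᵥ ((toR G).adjugate *ᵥ η)) ^ 2 := by
    have h3 := Ph_det hsR (cvR m) η (cvR m) η
    have h4 : (toR G).det = (G.det : ℝ) := toR_det G
    rw [h4] at h3
    have h5 : η ⬝ᵥ ((toR G).adjugate *ᵥ cvR m) = cvR m ⬝ᵥ ((toR G).adjugate *ᵥ η) := by
      have hs : (toR G).adjugateᵀ = (toR G).adjugate := by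
        rw [adjugate_transpose]
        congr 1
        ext i j
        exact hsR j i
      rw [dotProduct_mulVec, ← mulVec_transpose, hs, dotProduct_comm]
    rw [cast_adj, h5] at h3
    rw [mul_comm, h3]; ring
  have hbil : ∀ v ∈ S, ∀ w ∈ S, |((v ⬝ᵥ (G *ᵥ w) : ℤ) : ℝ)| ≤ 16 * (C0 / T * (H * H)) := by
    intro v hv w hw
    have e : ((v ⬝ᵥ (G *ᵥ w) : ℤ) : ℝ) = cvR v ⬝ᵥ ((toR G) *ᵥ cvR w) := by
      rw [toR_mulVec]
      simp [cvR, dotProduct]
    rw [e]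
    refine bil_le hl hl (by positivity) (hS v hv).2.2.2 (hS w hw).2.2.2 fun i j => ?_
    have := hG i j
    simp only [toR, Matrix.map_apply]
    calc |(G i j : ℝ)| ≤ C0 * l i * l j / T := this
      _ = _ := by ring
  have hmain := conic' G hsym hev hdet m hm hD S (fun v hv => ⟨(hS v hv).1, (hS v hv).2.1, (hS v hv).2.2.1⟩)
    (16 * (C0 / T * (H * H))) (2 * H) Am η (by positivity) hbil (by linarith)
    (fun v hv => he3 (cvR v) H (hS v hv).2.2.2) hAm0 hAmid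
  -- the logarithm
  have hD1 : (1 : ℝ) ≤ |(D2 G m : ℝ)| := by
    have : (1 : ℤ) ≤ |D2 G m| := Int.one_le_abs hD
    exact_mod_cast this
  have hX : 16 * (C0 / T * (H * H)) * |Am| / ((2 * H) ^ 2 * |(D2 G m : ℝ)|) ≤ 4608 * C0 ^ 3 * Y ^ (11 : ℕ) := by
    rw [div_le_iff₀ (by positivity)]
    have h5 : 1 / T ≤ Y := by
      rw [div_le_iff₀ hT0]
      rw [div_le_iff₀ hY0] at hT
      linarith
    calc 16 * (C0 / T * (H * H)) * |Am| = 16 * C0 * (1 / T) * (H * H) * |Am| := by ring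
      _ ≤ 16 * C0 * Y * (H * H) * (1152 * C0 ^ 2 * Y ^ 10) := by
          refine mul_le_mul ?_ hAmle (abs_nonneg _) (by positivity)
          refine mul_le_mul_of_nonneg_right (mul_le_mul_of_nonneg_left h5 (by linarith)) (by positivity)
      _ = 4608 * C0 ^ 3 * Y ^ 11 * ((2 * H) ^ 2 * 1) := by ring
      _ ≤ _ := by
          refine mul_le_mul_of_nonneg_left (mul_le_mul_of_nonneg_left hD1 (by positivity)) (by positivity)
  have hlog := h1 Y _ hY (by positivity) hX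
  -- the number of classes
  have hom : (omA G m : ℝ) ≤ (C2 * (96 * C0 ^ 3) ^ (c / 22) + 1) * Y ^ (c / 2) := by
    have hD2le : |(D2 G m : ℝ)| ≤ 96 * C0 ^ 3 * Y ^ (11 : ℕ) := by
      rw [← cast_adj]
      have hadj : ∀ i j, |(toR G).adjugate i j| ≤ 6 * (C0 * Y ^ 3) ^ 3 * (1 * 1) := by
        intro i j
        rw [Matrix.adjugate_fin_succ_eq_det_submatrix, abs_mul, abs_pow, abs_neg, abs_one, one_pow, one_mul]
        have := det_le3 (M := (toR G).submatrix (Fin.succAbove j) (Fin.succAbove i)) (p := fun _ => 1)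
          (q := fun _ => 1) (γ := C0 * Y ^ 3) (fun a b => by
            simp only [Matrix.submatrix_apply]
            linarith [hGY (Fin.succAbove j a) (Fin.succAbove i b)])
        simpa using this
      have := bil_le (p := fun _ => 1) (q := fun _ => 1) (fun _ => one_pos) (fun _ => one_pos)
        (show (0 : ℝ) ≤ 6 * (C0 * Y ^ 3) ^ 3 by positivity)
        (fun k => by simpa using hmR k) (fun k => by simpa using hmR k) hadj
      refine this.trans (le_of_eq ?_)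
      ring
    have h3 : (omA G m : ℝ) ≤ ((max 1 (D2 G m / 2).natAbs).divisors.card : ℝ) := by
      exact_mod_cast omA_le G m
    have h4 := h2 (max 1 (D2 G m / 2).natAbs) (by positivity)
    by_cases h0 : (D2 G m / 2).natAbs = 0
    · have h3' : (omA G m : ℝ) ≤ 1 := by
        rw [h0] at h3
        simpa using h3
      have h5 : (1 : ℝ) ≤ Y ^ (c / 2) := Real.one_le_rpow hY (by positivity)
      have h6 : 0 < C2 * (96 * C0 ^ 3) ^ (c / 22) := by positivity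
      have h7 : 0 ≤ C2 * (96 * C0 ^ 3) ^ (c / 22) * Y ^ (c / 2) := by positivity
      rw [add_mul, one_mul]
      linarith
    · have h5 : (((max 1 (D2 G m / 2).natAbs) : ℕ) : ℝ) ≤ 96 * C0 ^ 3 * Y ^ (11 : ℕ) := by
        rw [max_eq_right (Nat.one_le_iff_ne_zero.mpr h0)]
        refine le_trans ?_ hD2le
        have h6 : (D2 G m / 2).natAbs ≤ (D2 G m).natAbs := by omega
        have h7 : ((D2 G m).natAbs : ℝ) = |(D2 G m : ℝ)| := by
          rw [← Int.cast_abs, Int.abs_eq_natAbs]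
          simp
        rw [← h7]
        exact_mod_cast h6
      have h6 : (((max 1 (D2 G m / 2).natAbs) : ℕ) : ℝ) ^ (c / 22) ≤ (96 * C0 ^ 3) ^ (c / 22) * Y ^ (c / 2) := by
        refine (Real.rpow_le_rpow (Nat.cast_nonneg _) h5 (by positivity)).trans (le_of_eq ?_)
        have e : (Y ^ (11 : ℕ)) ^ (c / 22) = Y ^ (c / 2) := by
          rw [← Real.rpow_natCast Y 11, ← Real.rpow_mul hY0.le]
          congr 1
          push_cast
          ring
        rw [Real.mul_rpow (by positivity) (by positivity), e]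
      calc (omA G m : ℝ) ≤ C2 * (((max 1 (D2 G m / 2).natAbs) : ℕ) : ℝ) ^ (c / 22) := h3.trans h4
        _ ≤ C2 * ((96 * C0 ^ 3) ^ (c / 22) * Y ^ (c / 2)) := mul_le_mul_of_nonneg_left h6 hC2.le
        _ ≤ _ := by
            have : 0 ≤ Y ^ (c / 2) := by positivity
            nlinarith
  -- the last factor
  have hlast : 2 + 30 * (2 * H) * (sl G m : ℝ) / √|Am| ≤ 120 * (1 + H * (sl G m : ℝ) / √b) := by
    have h3 : √b ≤ 2 * √|Am| := by
      have : b ≤ 4 * |Am| := by linarith [abs_nonneg Am]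
      calc √b ≤ √(4 * |Am|) := Real.sqrt_le_sqrt this
        _ = √4 * √|Am| := Real.sqrt_mul (by norm_num) _
        _ = _ := by
            rw [show (4 : ℝ) = 2 ^ 2 by norm_num, Real.sqrt_sq (by norm_num)]
    have hsb : 0 < √b := Real.sqrt_pos.2 hb
    have hsA : 0 < √|Am| := Real.sqrt_pos.2 (abs_pos.mpr hAm0)
    have h4 : 1 / √|Am| ≤ 2 / √b := by
      rw [div_le_div_iff₀ hsA hsb]
      linarith
    have h5 : 30 * (2 * H) * (sl G m : ℝ) / √|Am| = 60 * (H * (sl G m : ℝ)) * (1 / √|Am|) := by ring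
    have h6 : 60 * (H * (sl G m : ℝ)) * (1 / √|Am|) ≤ 60 * (H * (sl G m : ℝ)) * (2 / √b) :=
      mul_le_mul_of_nonneg_left h4 (by positivity)
    have h7 : 60 * (H * (sl G m : ℝ)) * (2 / √b) = 120 * (H * (sl G m : ℝ) / √b) := by ring
    rw [h5]
    linarith
  have hlast0 : 0 ≤ 2 + 30 * (2 * H) * (sl G m : ℝ) / √|Am| := by positivity
  have hlog0 : 0 ≤ 1 + 2 * Real.log (1 + 16 * (C0 / T * (H * H)) * |Am| / ((2 * H) ^ 2 * |(D2 G m : ℝ)|)) := by
    have : 0 ≤ Real.log (1 + 16 * (C0 / T * (H * H)) * |Am| / ((2 * H) ^ 2 * |(D2 G m : ℝ)|)) :=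
      Real.log_nonneg (by
        have : 0 ≤ 16 * (C0 / T * (H * H)) * |Am| / ((2 * H) ^ 2 * |(D2 G m : ℝ)|) := by positivity
        linarith)
    linarith
  have hYc : Y ^ (c / 2) * Y ^ (c / 2) = Y ^ c := by
    rw [← Real.rpow_add hY0]; congr 1; ring
  set K := C2 * (96 * C0 ^ 3) ^ (c / 22) + 1 with hK
  have hK0 : 0 ≤ K := by positivity
  calc (S.card : ℝ) ≤ 2 * (omA G m : ℝ) * ((1 + 2 * Real.log (1 + 16 * (C0 / T * (H * H)) * |Am| /
        ((2 * H) ^ 2 * |(D2 G m : ℝ)|))) * (2 + 30 * (2 * H) * (sl G m : ℝ) / √|Am|)) := hmain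
    _ ≤ 2 * (K * Y ^ (c / 2)) * ((C1 * Y ^ (c / 2)) * (120 * (1 + H * (sl G m : ℝ) / √b))) := by
        refine mul_le_mul (mul_le_mul_of_nonneg_left hom (by norm_num))
          (mul_le_mul hlog hlast hlast0 (by positivity)) (mul_nonneg hlog0 hlast0) (by positivity)
    _ = 2 * K * C1 * 120 * (Y ^ (c / 2) * Y ^ (c / 2)) * (1 + H * (sl G m : ℝ) / √b) := by ring
    _ = _ := by rw [hYc]

end Pool.Agent.PP5P
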