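import Pool.Agent.PP5P.Ha

/-!
# PP5, scaled (D'): the exponents
-/

set_option autoImplicit false

namespace Pool.Agent.PP5P

open Matrix Finset Pool.Agent.PP5 Pool.Agent.PP5B

/-- the exponent of the target `y^4 T^(-8) R^(199/200) (T / y^(2/5))^(9/2)` -/
noncomputable def Mg (L τ ρ : ℝ) : ℝ := 4 * L - 8 * τ + ρ - 1 / 200 * ρ - 9 / 2 * (2 / 5 * L - τ)

/-- class II -/
theorem dII {L e τ h ρ α π : ℝ} {s : Fin 4 → ℝ} (H : Bc L e τ h ρ α π s)
    (k1 : 47 / 100 * τ ≤ ρ)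
    (k2 : 3 * (4 * τ - (s 0 + s 1 + s 2 + s 3)) ≤ ρ)
    (k3 : 3 * (α - π) ≤ ρ)
    : Pk (Real.exp (2 * h - (s 0 + s 1 + s 2 + s 3) - Mg L τ ρ)) (fun i => Real.exp (s i))
      ≤ 55 * Real.exp (Mg L τ ρ + 100 * e) ∧
      2 * h + τ + (α - π) / 2 - (s 0 + s 1 + s 2 + s 3) ≤ Mg L τ ρ + 100 * e ∧
      0 ≤ Mg L τ ρ + 100 * e := by
  obtain ⟨e0, hL, gam, tau, s0, s01, s12, s23, lam, rho, r0, r2, al, pi, L0⟩ := H
  have hM : Mg L τ ρ = 4 * L - 8 * τ + ρ - 1 / 200 * ρ - 9 / 2 * (2 / 5 * L - τ) := rfl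
  rw [hM]
  refine ⟨Pk_exp (by linarith) (by linarith)
    (by linarith)
    (by linarith)
    (by linarith)
    (by linarith)
    (by linarith)
    (by linarith)
    (by linarith)
    (by linarith)
    (by linarith)
    (by linarith)
    (by linarith)
    (by linarith)
    (by linarith)
    (by linarith)
    (by linarith)
    (by linarith)
    (by linarith)
    (by linarith)
    (by linarith)
    (by linarith)
    (by linarith)
    (by linarith)
    (by linarith)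
    (by linarith)
    (by linarith)
    , by linarith, by linarith⟩

/-- class III -/
theorem dIII {L e τ h ρ α π : ℝ} {s : Fin 4 → ℝ} (H : Bc L e τ h ρ α π s)
    (k1 : 29 / 10 * τ ≤ ρ)
    (k2 : 2 * τ ≤ (s 0 + s 1 + s 2 + s 3) + e)
    (k3 : α - π ≤ (s 0 + s 1 + s 2 + s 3) - 2 * τ)
    : Pk (Real.exp (2 * h - (s 0 + s 1 + s 2 + s 3) - Mg L τ ρ)) (fun i => Real.exp (s i))
      ≤ 55 * Real.exp (Mg L τ ρ + 100 * e) ∧
      2 * h + τ + (α - π) / 2 - (s 0 + s 1 + s 2 + s 3) ≤ Mg L τ ρ + 100 * e ∧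
      0 ≤ Mg L τ ρ + 100 * e := by
  obtain ⟨e0, hL, gam, tau, s0, s01, s12, s23, lam, rho, r0, r2, al, pi, L0⟩ := H
  have hM : Mg L τ ρ = 4 * L - 8 * τ + ρ - 1 / 200 * ρ - 9 / 2 * (2 / 5 * L - τ) := rfl
  rw [hM]
  refine ⟨Pk_exp (by linarith) (by linarith)
    (by linarith)
    (by linarith)
    (by linarith)
    (by linarith)
    (by linarith)
    (by linarith)
    (by linarith)
    (by linarith)
    (by linarith)
    (by linarith)
    (by linarith)
    (by linarith)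
    (by linarith)
    (by linarith)
    (by linarith)
    (by linarith)
    (by linarith)
    (by linarith)
    (by linarith)
    (by linarith)
    (by linarith)
    (by linarith)
    (by linarith)
    (by linarith)
    (by linarith)
    , by linarith, by linarith⟩

/-- class I -/
theorem dI {L e τ h ρ α π kk dg : ℝ} {s : Fin 4 → ℝ} (H : Bc L e τ h ρ α π s)
    (k1 : ρ ≤ 49 / 100 * τ) (k2 : 3 * (4 * τ - (s 0 + s 1 + s 2 + s 3)) ≤ ρ) (k3 : 3 * (α - π) ≤ ρ)
    (k4 : 4 * τ - 2 * ρ ≤ 2 * kk + dg) (k5 : 0 ≤ kk) (k6 : kk + (s 0 + s 1 + s 2 + s 3) ≤ 4 * τ + e)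
    (k7 : dg + 4 * τ - 2 * (s 0 + s 1 + s 2 + s 3) ≤ e) :
    Mp (Real.exp ((2 * h - (s 0 + s 1 + s 2 + s 3) - Mg L τ ρ) / 2)) (Real.exp h) (Real.exp τ)
      (Real.exp α) (Real.exp (dg + 4 * τ - 2 * (s 0 + s 1 + s 2 + s 3))) (Real.exp dg)
      (fun i => Real.exp (s i)) ≤ 20 * Real.exp (Mg L τ ρ + 100 * e) ∧
      2 * h + τ + (α - π) / 2 - (s 0 + s 1 + s 2 + s 3) ≤ Mg L τ ρ + 100 * e ∧
      0 ≤ Mg L τ ρ + 100 * e := by
  obtain ⟨e0, hL, gam, tau, s0, s01, s12, s23, lam, rho, r0, r2, al, pi, L0⟩ := H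
  have hM : Mg L τ ρ = 4 * L - 8 * τ + ρ - 1 / 200 * ρ - 9 / 2 * (2 / 5 * L - τ) := rfl
  rw [hM]
  refine ⟨Mp_exp (by linarith)
    (by linarith)
    (by linarith)
    (by linarith)
    (by linarith)
    (by linarith)
    (by linarith)
    (by linarith)
    (by linarith)
    (by linarith)
    (by linarith)
    (by linarith)
    (by linarith)
    (by linarith)
    (by linarith)
    (by linarith)
    (by linarith)
    (by linarith)
    (by linarith)
    (by linarith)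
    , by linarith, by linarith⟩

end Pool.Agent.PP5P
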