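import Pool.Agent.PP5P.Hf
import Pool.Agent.PP5P.Ksd

/-!
# PP5, scaled (D'): the sum over all `x`
-/

set_option autoImplicit false

namespace Pool.Agent.PP5P

open Matrix Finset Pool.Agent.PP5B Pool.Agent.PP5S

/-- scaled (D'), `D(x) ≠ 0` -/
theorem hes_core (hN : NX1) {Cx : ℝ} (hCx : 1 ≤ Cx) (hW : CW Cx) (hK : CK Cx) (hA : CA Cx)
    (h0 : CL0 Cx) (h2 : CL2 Cx) (hE : CE Cx) (hS : CS Cx) (hall : C0x Cx) (d ε' : ℝ) (hd : 0 < d)
    (hε' : 0 < ε') : ∃ c1 d0 y0 C : ℝ, 0 < c1 ∧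
    0 < d0 ∧ 1 ≤ y0 ∧ 0 ≤ C ∧ ∀ y t1 t2 T : ℝ, y0 ≤ y → 1 ≤ t1 → 1 ≤ t2 → t1 * t2 ≤ y ^ d0 →
    1 ≤ T → T ≤ y ^ (2 / 5 - d) →
    ∀ (Tf : (Fin 10 → ℤ) → ℝ) (bf : (Fin 10 → ℤ) → Fin 4 → PP5.Sp)
      (Gf : (Fin 10 → ℤ) → Matrix (Fin 4) (Fin 4) ℤ) (lf : (Fin 10 → ℤ) → Fin 4 → ℝ)
      (kf : (Fin 10 → ℤ) → ℕ) (E : Finset (Fin 10 → ℤ)) (Vf : (Fin 10 → ℤ) → Finset (Fin 4 → ℤ)),
    (∀ x ∈ E, Xok x ∧ XD Cx t1 t2 (Tf x) x (bf x) (Gf x) (lf x) (kf x) ∧ Tf x ≤ T ∧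
      ∀ v ∈ Vf x, Zv (Gf x) (lf x) (16 * Cx * y) v ∧ NI y c1 (Tf x) (Gf x) (lf x) v) →
    ∑ x ∈ E, ((Vf x).card : ℝ) ≤ C * (y ^ (4 + ε') * (T / y ^ (2 / 5 : ℝ)) ^ (9 / 2 : ℝ)) := by
  classical
  obtain ⟨ε, hε⟩ : ∃ ε : ℝ, ε = ε' / 20 := ⟨_, rfl⟩
  have hε0 : 0 < ε := by rw [hε]; positivity
  obtain ⟨c1, d0, y0, hc1, hd0, hd0', hy01, hpx⟩ := perxs hN hCx hW d ε hd hε0
  obtain ⟨a, C, ha, hC, hlev⟩ := lev_count hK hA h0 h2 hE hS hall ε hε0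
  obtain ⟨C2, hC2⟩ : ∃ C2 : ℝ, C2 = 4 / ε * 1 ^ (ε / 2) + 1 := ⟨_, rfl⟩
  have hC21 : 1 ≤ C2 := by
    rw [hC2]
    have : 0 < 4 / ε * 1 ^ (ε / 2) := by positivity
    linarith
  refine ⟨c1, min d0 (ε / (a + 1)), y0, 3 ^ 10 + C2 * C2 * (512 * C * 2 ^ ε), hc1,
    lt_min hd0 (by positivity), hy01, by positivity, ?_⟩
  intro y t1 t2 T hy ht1 ht2 ht hT1 hTy Tf bf Gf lf kf E Vf hx
  have hy1 : 1 ≤ y := hy01.trans hy
  have hy0 : 0 < y := by linarith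
  have htt : 1 ≤ t1 * t2 := by nlinarith
  have ht' : t1 * t2 ≤ y ^ d0 := ht.trans (Real.rpow_le_rpow_of_exponent_le hy1 (min_le_left _ _))
  have hta : (t1 * t2) ^ a ≤ y ^ ε := by
    have h3 : t1 * t2 ≤ y ^ (ε / (a + 1)) :=
      ht.trans (Real.rpow_le_rpow_of_exponent_le hy1 (min_le_right _ _))
    calc (t1 * t2) ^ a ≤ (y ^ (ε / (a + 1))) ^ a := Real.rpow_le_rpow (by linarith) h3 ha
      _ = y ^ (ε / (a + 1) * a) := by rw [← Real.rpow_mul hy0.le]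
      _ ≤ y ^ ε := by
          refine Real.rpow_le_rpow_of_exponent_le hy1 ?_
          rw [div_mul_eq_mul_div, div_le_iff₀ (by positivity)]
          nlinarith
  set Rf : (Fin 10 → ℤ) → ℝ := fun x => Rx 1 (Tf x) x (Gf x) (lf x) with hRf
  have hR1 : ∀ x, 1 ≤ Rf x := fun x => (Rx_ge 1 (Tf x) x (Gf x) (lf x)).1
  set F : ℝ := (T / y ^ (2 / 5 : ℝ)) ^ (9 / 2 : ℝ) with hF
  have hF0 : 0 < F := by positivity
  have hT0 : ∀ x ∈ E, 0 < Tf x := fun x hxE => (hx x hxE).2.1.T0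
  have hall' : ∀ x ∈ E, (y ^ (-1 : ℝ) ≤ Tf x ∧ Tf x ≤ y ∧ Rf x ≤ y ^ (5 : ℝ) ∧
      (Tf x ≤ 1 → Rf x / Tf x ^ 8 ≤ y ^ ε)) ∧
      ((Vf x).card : ℝ) ≤ y ^ (4 + ε) * F * (Rf x / Tf x ^ 8) := by
    intro x hxE
    obtain ⟨b1, b2, b3, b5⟩ := hx x hxE
    obtain ⟨g1, g2⟩ := hpx y t1 t2 hy ht1 ht2 ht' (Tf x) x (bf x) (Gf x) (lf x) (kf x) b1 b2
      (b3.trans hTy)
    refine ⟨g1, (g2 (Vf x) b5).trans ?_⟩
    have hTx := hT0 x hxE
    have h3 : 0 ≤ Rf x / Tf x ^ 8 := div_nonneg (by linarith [hR1 x]) (by positivity)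
    refine mul_le_mul_of_nonneg_right ?_ h3
    refine mul_le_mul_of_nonneg_left ?_ (by positivity)
    refine Real.rpow_le_rpow (by positivity) ?_ (by norm_num)
    exact div_le_div_of_nonneg_right b3 (by positivity)
  -- the total
  have htot : ∑ x ∈ E, ((Vf x).card : ℝ) ≤ y ^ (4 + ε) * F * ∑ x ∈ E, Rf x / Tf x ^ 8 := by
    rw [Finset.mul_sum]
    exact Finset.sum_le_sum fun x hxE => (hall' x hxE).2
  set E0 := E.filter (fun x => Tf x < 1) with hE0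
  set E1 := E.filter (fun x => ¬ Tf x < 1) with hE1
  have hsp : ∑ x ∈ E, Rf x / Tf x ^ 8 = ∑ x ∈ E0, Rf x / Tf x ^ 8 + ∑ x ∈ E1, Rf x / Tf x ^ 8 :=
    (Finset.sum_filter_add_sum_filter_not E (fun x => Tf x < 1) _).symm
  have hs0 : ∑ x ∈ E0, Rf x / Tf x ^ 8 ≤ 3 ^ 10 * y ^ (12 * ε) := by
    have h3 : ∀ x ∈ E0, Rf x / Tf x ^ 8 ≤ y ^ (10 * ε) := by
      intro x hx0
      obtain ⟨hxE, hx1⟩ := Finset.mem_filter.mp hx0
      have h4 := (hall' x hxE).1.2.2.2 hx1.le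
      exact h4.trans (Real.rpow_le_rpow_of_exponent_le hy1 (by linarith))
    refine (Finset.sum_le_card_nsmul _ _ _ h3).trans ?_
    rw [nsmul_eq_mul]
    have h4 : (E0.card : ℝ) ≤ 3 ^ 10 * (t1 * t2) ^ 20 := by
      refine small_card ht1 ht2 E0 ?_
      intro x hx0 j
      obtain ⟨hxE, hx1⟩ := Finset.mem_filter.mp hx0
      have h5 := (hx x hxE).2.1.Tle j
      have h6 : 0 < PP5.tx t1 t2 j := tx_pos (by linarith) (by linarith) j
      refine h5.trans ?_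
      nlinarith
    have h5 : (t1 * t2) ^ 20 ≤ y ^ (2 * ε) := by
      calc (t1 * t2) ^ 20 ≤ (y ^ d0) ^ 20 := pow_le_pow_left₀ (by linarith) ht' 20
        _ = y ^ (d0 * 20) := by
            rw [← Real.rpow_natCast, ← Real.rpow_mul hy0.le]
            norm_num
        _ ≤ y ^ (2 * ε) := by
            refine Real.rpow_le_rpow_of_exponent_le hy1 ?_
            linarith
    have h6 : 0 < y ^ (10 * ε) := by positivity
    calc (E0.card : ℝ) * y ^ (10 * ε) ≤ (3 ^ 10 * y ^ (2 * ε)) * y ^ (10 * ε) := by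
          refine mul_le_mul_of_nonneg_right (h4.trans ?_) h6.le
          exact mul_le_mul_of_nonneg_left h5 (by norm_num)
      _ = 3 ^ 10 * y ^ (12 * ε) := by
          rw [mul_assoc, ← Real.rpow_add hy0]
          congr 2
          ring
  have hs1 : ∑ x ∈ E1, Rf x / Tf x ^ 8 ≤ C2 * C2 * (512 * C * 2 ^ ε) * y ^ (12 * ε) := by
    set J1 := Nat.log 2 ⌊y⌋₊ with hJ1
    set J2 := Nat.log 2 ⌊y ^ (5 : ℝ)⌋₊ with hJ2
    have hy5 : 1 ≤ y ^ (5 : ℝ) := Real.one_le_rpow hy1 (by norm_num)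
    set f : (Fin 10 → ℤ) → ℕ × ℕ := fun x => (Nat.log 2 ⌊Tf x⌋₊, Nat.log 2 ⌊Rf x⌋₊) with hf
    have hmaps : ∀ x ∈ E1, f x ∈ Finset.range (J1 + 1) ×ˢ Finset.range (J2 + 1) := by
      intro x hx1
      obtain ⟨hxE, -⟩ := Finset.mem_filter.mp hx1
      rw [Finset.mem_product, Finset.mem_range, Finset.mem_range, Nat.lt_succ_iff, Nat.lt_succ_iff]
      constructor
      · show Nat.log 2 ⌊Tf x⌋₊ ≤ Nat.log 2 ⌊y⌋₊
        exact Nat.log_mono_right (Nat.floor_le_floor (hall' x hxE).1.2.1)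
      · show Nat.log 2 ⌊Rf x⌋₊ ≤ Nat.log 2 ⌊y ^ (5 : ℝ)⌋₊
        exact Nat.log_mono_right (Nat.floor_le_floor (hall' x hxE).1.2.2.1)
    rw [← Finset.sum_fiberwise_of_maps_to hmaps]
    have hcell : ∀ p ∈ Finset.range (J1 + 1) ×ˢ Finset.range (J2 + 1),
        ∑ x ∈ E1.filter (fun x => f x = p), Rf x / Tf x ^ 8 ≤ 512 * C * 2 ^ ε * y ^ (2 * ε) := by
      rintro ⟨i, j⟩ hij
      rw [Finset.mem_product, Finset.mem_range, Finset.mem_range] at hij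
      have hi : (2 : ℝ) ^ i ≤ y := by
        have h3 : (2 : ℝ) ^ i ≤ 2 ^ J1 := pow_le_pow_right₀ (by norm_num) (by omega)
        exact h3.trans (log2_le hy1).1
      set Z := E1.filter (fun x => f x = (i, j)) with hZ
      have hZx : ∀ x ∈ Z, x ∈ E ∧ (2 : ℝ) ^ i ≤ Tf x ∧ Tf x < 2 ^ (i + 1) ∧ (2 : ℝ) ^ j ≤ Rf x ∧
          Rf x < 2 ^ (j + 1) := by
        intro x hxZ
        obtain ⟨hx1, hfx⟩ := Finset.mem_filter.mp hxZ
        obtain ⟨hxE, hxT⟩ := Finset.mem_filter.mp hx1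
        push Not at hxT
        have e1 : Nat.log 2 ⌊Tf x⌋₊ = i := congrArg Prod.fst hfx
        have e2 : Nat.log 2 ⌊Rf x⌋₊ = j := congrArg Prod.snd hfx
        have h3 := log2_le hxT
        have h4 := log2_le (hR1 x)
        rw [e1] at h3
        rw [e2] at h4
        exact ⟨hxE, h3.1, h3.2, h4.1, h4.2⟩
      have hcard := hlev t1 t2 (2 ^ (i + 1)) 1 (2 ^ j) ht1 ht2 (one_le_pow₀ (by norm_num)) (le_refl _)
        (one_le_pow₀ (by norm_num)) Tf bf Gf lf kf Z (by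
          intro x hxZ
          obtain ⟨hxE, g1, g2, g3, g4⟩ := hZx x hxZ
          obtain ⟨b1, b2, -⟩ := hx x hxE
          refine ⟨b1, b2, g2.le, ?_, g3⟩
          rw [pow_succ]; linarith)
      have hval : ∀ x ∈ Z, Rf x / Tf x ^ 8 ≤ 2 ^ (j + 1) / (2 ^ i) ^ 8 := by
        intro x hxZ
        obtain ⟨hxE, g1, g2, g3, g4⟩ := hZx x hxZ
        have h3 : ((2 : ℝ) ^ i) ^ 8 ≤ Tf x ^ 8 := pow_le_pow_left₀ (by positivity) g1 8
        have h4 : (0 : ℝ) < (2 ^ i) ^ 8 := by positivity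
        exact div_le_div₀ (by positivity) g4.le h4 h3
      refine (Finset.sum_le_card_nsmul _ _ _ hval).trans ?_
      rw [nsmul_eq_mul]
      have h5 : ((2 : ℝ) ^ (i + 1)) ^ (8 + ε) ≤ 2 ^ 8 * (2 ^ i) ^ 8 * (2 ^ ε * y ^ ε) := by
        rw [Real.rpow_add (by positivity)]
        have e1 : ((2 : ℝ) ^ (i + 1)) ^ (8 : ℝ) = 2 ^ 8 * (2 ^ i) ^ 8 := by
          have : ((2 : ℝ) ^ (i + 1)) ^ (8 : ℝ) = ((2 : ℝ) ^ (i + 1)) ^ (8 : ℕ) := by
            rw [← Real.rpow_natCast]; norm_num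
          rw [this, pow_succ]; ring
        rw [e1]
        refine mul_le_mul_of_nonneg_left ?_ (by positivity)
        rw [← Real.mul_rpow (by norm_num) hy0.le]
        refine Real.rpow_le_rpow (by positivity) ?_ hε0.le
        rw [pow_succ]; linarith
      have h6 : (Z.card : ℝ) ≤ C * y ^ ε * (2 ^ 8 * (2 ^ i) ^ 8 * (2 ^ ε * y ^ ε)) / 2 ^ j := by
        refine hcard.trans (div_le_div_of_nonneg_right ?_ (by positivity))
        refine mul_le_mul (mul_le_mul_of_nonneg_left hta (by linarith)) h5 (by positivity) (by positivity)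
      have h7 : (0 : ℝ) ≤ 2 ^ (j + 1) / (2 ^ i) ^ 8 := by positivity
      refine (mul_le_mul_of_nonneg_right h6 h7).trans (le_of_eq ?_)
      have h8 : y ^ (2 * ε) = y ^ ε * y ^ ε := by rw [← Real.rpow_add hy0]; congr 1; ring
      rw [h8, pow_succ (2 : ℝ) j]
      field_simp
      ring
    refine (Finset.sum_le_card_nsmul _ _ _ hcell).trans ?_
    rw [nsmul_eq_mul, Finset.card_product, Finset.card_range, Finset.card_range]
    push_cast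
    have hj1 : (J1 : ℝ) + 1 ≤ C2 * y ^ (4 * ε) := by
      have h3 := levels_le 1 ε (le_refl _) hε0 y hy1 J1 (by
        refine (log2_le hy1).1.trans ?_
        nlinarith)
      rw [← hC2] at h3
      refine h3.trans (mul_le_mul_of_nonneg_left ?_ (by linarith))
      exact Real.rpow_le_rpow_of_exponent_le hy1 (by linarith)
    have hj2 : (J2 : ℝ) + 1 ≤ C2 * y ^ (4 * ε) := by
      have h3 := levels_le 1 ε (le_refl _) hε0 (y ^ (4 : ℝ)) (Real.one_le_rpow hy1 (by norm_num)) J2 (by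
        refine (log2_le hy5).1.trans ?_
        rw [one_mul, ← Real.rpow_natCast, ← Real.rpow_mul hy0.le]
        exact Real.rpow_le_rpow_of_exponent_le hy1 (by norm_num))
      rw [← hC2, ← Real.rpow_mul hy0.le] at h3
      exact h3
    have h9 : ((J1 : ℝ) + 1) * ((J2 : ℝ) + 1) ≤ (C2 * y ^ (4 * ε)) * (C2 * y ^ (4 * ε)) :=
      mul_le_mul hj1 hj2 (by positivity) (by positivity)
    have h10 : 0 ≤ 512 * C * 2 ^ ε * y ^ (2 * ε) := by positivity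
    refine (mul_le_mul_of_nonneg_right h9 h10).trans ?_
    have h11 : y ^ (4 * ε) * y ^ (4 * ε) * y ^ (2 * ε) ≤ y ^ (12 * ε) := by
      rw [← Real.rpow_add hy0, ← Real.rpow_add hy0]
      exact Real.rpow_le_rpow_of_exponent_le hy1 (by linarith)
    calc C2 * y ^ (4 * ε) * (C2 * y ^ (4 * ε)) * (512 * C * 2 ^ ε * y ^ (2 * ε))
        = C2 * C2 * (512 * C * 2 ^ ε) * (y ^ (4 * ε) * y ^ (4 * ε) * y ^ (2 * ε)) := by ring
      _ ≤ _ := mul_le_mul_of_nonneg_left h11 (by positivity)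
  refine htot.trans ?_
  rw [hsp]
  have h3 : ∑ x ∈ E0, Rf x / Tf x ^ 8 + ∑ x ∈ E1, Rf x / Tf x ^ 8
      ≤ (3 ^ 10 + C2 * C2 * (512 * C * 2 ^ ε)) * y ^ (12 * ε) := by
    rw [add_mul]; exact add_le_add hs0 hs1
  have h4 : 0 < y ^ (4 + ε) * F := by positivity
  refine (mul_le_mul_of_nonneg_left h3 h4.le).trans ?_
  have h5 : y ^ (4 + ε) * y ^ (12 * ε) ≤ y ^ (4 + ε') := by
    rw [← Real.rpow_add hy0]
    refine Real.rpow_le_rpow_of_exponent_le hy1 ?_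
    rw [hε]
    linarith
  calc y ^ (4 + ε) * F * ((3 ^ 10 + C2 * C2 * (512 * C * 2 ^ ε)) * y ^ (12 * ε))
      = (3 ^ 10 + C2 * C2 * (512 * C * 2 ^ ε)) * (y ^ (4 + ε) * y ^ (12 * ε) * F) := by ring
    _ ≤ _ := mul_le_mul_of_nonneg_left (mul_le_mul_of_nonneg_right h5 hF0.le) (by positivity)

end Pool.Agent.PP5P
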