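import Pool.Agent.PP5P.Hh
import Pool.Agent.PP5P.Ksf

/-!
# PP5, scaled (D'), `D(x) ≠ 0`
-/

set_option autoImplicit false

namespace Pool.Agent.PP5P

open Matrix Finset Pool.Agent.PP5B Pool.Agent.PP5S

/-- scaled (D'), `D(x) ≠ 0`: the zeros of height `≤ 16 Cx y` of the forms of the `x` of scaled norm
`≤ T`, of which `x` is a shortest vector -/
theorem hes (Cx : ℝ) (hCx : 1 ≤ Cx) (d ε : ℝ) (hd : 0 < d) (hε : 0 < ε) :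
    ∃ c1 d0 y0 C : ℝ, 0 < c1 ∧
    0 < d0 ∧ 1 ≤ y0 ∧ 0 ≤ C ∧ ∀ y t1 t2 T : ℝ, y0 ≤ y → 1 ≤ t1 → 1 ≤ t2 → t1 * t2 ≤ y ^ d0 →
    1 ≤ T → T ≤ y ^ (2 / 5 - d) →
    ∀ (Tf : (Fin 10 → ℤ) → ℝ) (bf : (Fin 10 → ℤ) → Fin 4 → PP5.Sp)
      (Gf : (Fin 10 → ℤ) → Matrix (Fin 4) (Fin 4) ℤ) (lf : (Fin 10 → ℤ) → Fin 4 → ℝ)
      (kf : (Fin 10 → ℤ) → ℕ) (E : Finset (Fin 10 → ℤ)) (Vf : (Fin 10 → ℤ) → Finset (Fin 4 → ℤ)),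
    (∀ x ∈ E, Xok x ∧ XD Cx t1 t2 (Tf x) x (bf x) (Gf x) (lf x) (kf x) ∧ Tf x ≤ T ∧
      ∀ v ∈ Vf x, Zv (Gf x) (lf x) (16 * Cx * y) v ∧ NI y c1 (Tf x) (Gf x) (lf x) v) →
    ∑ x ∈ E, ((Vf x).card : ℝ) ≤ C * (y ^ (4 + ε) * (T / y ^ (2 / 5 : ℝ)) ^ (9 / 2 : ℝ)) :=
  hes_core PP5Q.nx1_iff hCx (PP5T.cw Cx hCx) (PP5T.ck Cx hCx) (PP5T.ca Cx hCx) (PP5V.cl0 Cx)
    (PP5V.cl2 Cx) (PP5V.ce Cx) (PP5V.cs Cx) (PP5V.c0x Cx) d ε hd hε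

end Pool.Agent.PP5P
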