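import Pool.Agent.PP5P.Nx
import Pool.Agent.PP5N.Defs

/-!
# PP5: the statement of `nx1` (all primitive zeros, `det G` not a square)
-/

set_option autoImplicit false

namespace Pool.Agent.PP5P

open Matrix Finset Pool.Agent.PP5 Pool.Agent.PP5B

/-- the part of the zeros orthogonal to a small `m`; `u = √(H / (∏ l · U))`, `A` the content of the
minors, `g = |det G| T^4 / (∏ l)^2`, `d = |det G|` -/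
noncomputable def Mp (u H T A g d : ℝ) (l : Fin 4 → ℝ) : ℝ :=
  (∏ i, (1 + u * l i)) + H * T / ((∏ i, l i) * √g) *
    (u ^ 3 * (∏ i, l i) * √A + u ^ 2 * (∏ i, l i) * √(l 3 * A / (l 0 * T)) +
      ((∏ i, l i) ^ 2 / T ^ 3) ^ (1 / 3 : ℝ) * l 3 ^ (1 / 3 : ℝ) +
      u * (l 2 * l 3) * (A * d) ^ (1 / 4 : ℝ))

/-- (nx1) -/
def NX1 : Prop := ∀ c : ℝ, 0 < c → ∀ C0 : ℝ, 1 ≤ C0 → ∃ C : ℝ, 1 ≤ C ∧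
    ∀ (G : Matrix (Fin 4) (Fin 4) ℤ), (∀ i j, G i j = G j i) → (∀ i, 2 ∣ G i i) → ¬ IsSquare G.det →
    ∀ (l : Fin 4 → ℝ) (T Y H U p : ℝ), 1 ≤ Y → (∀ i, 1 / Y ≤ l i) → (∀ i, l i ≤ Y) →
    l 0 ≤ l 1 ∧ l 1 ≤ l 2 ∧ l 2 ≤ l 3 → 1 / Y ≤ T → T ≤ Y →
    0 ≤ H → H ≤ Y → 1 / Y ≤ U → U ≤ Y → (∀ i j, |(G i j : ℝ)| ≤ C0 * l i * l j / T) → 0 < p →
    (∃ i j k k', p ≤ |((mr G i j k k' : ℤ) : ℝ)| * T ^ 2 / (l i * l j * l k * l k')) →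
    ∀ V : Finset (Fin 4 → ℤ), (∀ v ∈ V, Pr4 v ∧ v ⬝ᵥ (G *ᵥ v) = 0 ∧ (∀ i, |(v i : ℝ)| * l i ≤ H)) →
    (V.card : ℝ) ≤ C * Y ^ c * (1 + H * U + H ^ 2 * T * √((PP5N.mi2 G : ℝ) / p) / (∏ i, l i) +
      Mp (√(H / ((∏ i, l i) * U))) H T (PP5N.mi2 G) (|((G.det : ℤ) : ℝ)| * T ^ 4 / (∏ i, l i) ^ 2)
        |((G.det : ℤ) : ℝ)| l)

end Pool.Agent.PP5P
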