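import Pool.Agent.PP5P.Hg
import Pool.Agent.PP5Q.Nx1

/-!
# PP5, exceptional `x`: (E)
-/

set_option autoImplicit false

namespace Pool.Agent.PP5P

open Pool.Agent.PP5S

/-- (E) -/
theorem he (Cx C1 : ℝ) (hCx : 1 ≤ Cx) : HE Cx C1 := he_of PP5Q.nx1_iff Cx C1 hCx

end Pool.Agent.PP5P
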