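import Mathlib

/-!
# PP5 (D'): sums over dyadic classes
-/

set_option autoImplicit false

namespace Pool.Agent.PP5P

open Finset

/-- a finite sum is at most `C Y ^ ε` times the largest sum over a dyadic class of `r` parameters in `[1, Y]` -/
theorem cls {X : Type*} (r : ℕ) {ε : ℝ} (hε : 0 < ε) : ∃ C : ℝ, 1 ≤ C ∧ ∀ Y : ℝ, 1 ≤ Y →
    ∀ (E : Finset X) (q : X → Fin r → ℝ) (n : X → ℝ) (B : ℝ), 0 ≤ B →
    (∀ x ∈ E, ∀ i, 1 ≤ q x i ∧ q x i ≤ Y) →
    (∀ Q : Fin r → ℝ, (∀ i, 1 ≤ Q i ∧ Q i ≤ Y) → ∀ S ⊆ E, (∀ x ∈ S, ∀ i, Q i ≤ q x i ∧ q x i ≤ 2 * Q i) →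
      ∑ x ∈ S, n x ≤ B) →
    ∑ x ∈ E, n x ≤ C * Y ^ ε * B := by
  classical
  set δ : ℝ := ε / (r + 1) with hδ
  have hr : (0 : ℝ) < r + 1 := by positivity
  have hδ0 : 0 < δ := by positivity
  set K : ℝ := 1 + 1 / (δ * Real.log 2) with hK
  have hl2 : 0 < Real.log 2 := Real.log_pos (by norm_num)
  have hK1 : 1 ≤ K := by
    rw [hK]
    have : 0 < 1 / (δ * Real.log 2) := by positivity
    linarith
  refine ⟨K ^ r, one_le_pow₀ hK1, ?_⟩
  intro Y hY E q n B hB hq h
  have hY0 : 0 < Y := by linarith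
  set N : ℕ := ⌊Real.logb 2 Y⌋₊ with hN
  let f : X → (Fin r → ℕ) := fun x i => ⌊Real.logb 2 (q x i)⌋₊
  have hf : ∀ x ∈ E, f x ∈ Fintype.piFinset (fun _ : Fin r => range (N + 1)) := by
    intro x hx
    rw [Fintype.mem_piFinset]
    intro i
    rw [mem_range, Nat.lt_succ_iff]
    apply Nat.floor_mono
    exact Real.logb_le_logb_of_le (by norm_num) (by linarith [(hq x hx i).1]) (hq x hx i).2
  rw [← sum_fiberwise_of_maps_to hf]
  have hfib : ∀ k ∈ Fintype.piFinset (fun _ : Fin r => range (N + 1)),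
      ∑ x ∈ E with f x = k, n x ≤ B := by
    intro k _
    by_cases hne : (E.filter (fun x => f x = k)).Nonempty
    · obtain ⟨x0, hx0⟩ := hne
      rw [mem_filter] at hx0
      have key : ∀ x ∈ E, f x = k → ∀ i, (2 : ℝ) ^ (k i) ≤ q x i ∧ q x i ≤ 2 * (2 : ℝ) ^ (k i) := by
        intro x hx hfx i
        have h1 := (hq x hx i).1
        have h0 : 0 < q x i := by linarith
        have hlog : 0 ≤ Real.logb 2 (q x i) := Real.logb_nonneg (by norm_num) h1
        have e : k i = ⌊Real.logb 2 (q x i)⌋₊ := by rw [← hfx]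
        have h2 : ((k i : ℕ) : ℝ) ≤ Real.logb 2 (q x i) := by rw [e]; exact Nat.floor_le hlog
        have h3 : Real.logb 2 (q x i) < (k i : ℕ) + 1 := by rw [e]; exact Nat.lt_floor_add_one _
        constructor
        · rw [Real.le_logb_iff_rpow_le (by norm_num) h0, Real.rpow_natCast] at h2
          exact h2
        · have h4 : Real.logb 2 (q x i) ≤ (k i : ℕ) + 1 := h3.le
          rw [Real.logb_le_iff_le_rpow (by norm_num) h0, Real.rpow_add (by norm_num), Real.rpow_natCast,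
            Real.rpow_one] at h4
          linarith
      refine h (fun i => (2 : ℝ) ^ (k i)) ?_ _ (filter_subset _ _) ?_
      · intro i
        refine ⟨one_le_pow₀ (by norm_num), ?_⟩
        exact (key x0 hx0.1 hx0.2 i).1.trans (hq x0 hx0.1 i).2
      · intro x hx i
        rw [mem_filter] at hx
        exact key x hx.1 hx.2 i
    · rw [not_nonempty_iff_eq_empty] at hne
      rw [hne, sum_empty]
      exact hB
  have hcard : (((Fintype.piFinset (fun _ : Fin r => range (N + 1))).card : ℕ) : ℝ) ≤ K ^ r * Y ^ ε := by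
    rw [Fintype.card_piFinset]
    simp only [card_range, prod_const, card_univ, Fintype.card_fin]
    push_cast
    have h1 : ((N : ℝ) + 1) ≤ K * Y ^ δ := by
      have h2 : (N : ℝ) ≤ Real.logb 2 Y := Nat.floor_le (Real.logb_nonneg (by norm_num) hY)
      have h3 : Real.logb 2 Y ≤ Y ^ δ / (δ * Real.log 2) := by
        rw [Real.logb, ← div_div]
        gcongr
        exact Real.log_le_rpow_div hY0.le hδ0
      have h4 : 1 ≤ Y ^ δ := Real.one_le_rpow hY hδ0.le
      have h5 : K * Y ^ δ = Y ^ δ + Y ^ δ / (δ * Real.log 2) := by rw [hK]; ring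
      rw [h5]
      linarith
    calc ((N : ℝ) + 1) ^ r ≤ (K * Y ^ δ) ^ r := by gcongr
      _ = K ^ r * Y ^ (δ * r) := by rw [mul_pow, ← Real.rpow_natCast (Y ^ δ), ← Real.rpow_mul hY0.le]
      _ ≤ K ^ r * Y ^ ε := by
        gcongr
        rw [hδ, div_mul_eq_mul_div, div_le_iff₀ hr]
        nlinarith
  calc ∑ k ∈ Fintype.piFinset (fun _ : Fin r => range (N + 1)), ∑ x ∈ E with f x = k, n x
      ≤ ∑ k ∈ Fintype.piFinset (fun _ : Fin r => range (N + 1)), B := sum_le_sum hfib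
    _ = ((Fintype.piFinset (fun _ : Fin r => range (N + 1))).card : ℝ) * B := by rw [sum_const, nsmul_eq_mul]
    _ ≤ K ^ r * Y ^ ε * B := by gcongr

end Pool.Agent.PP5P
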