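import Mathlib

/-!
# PP5, population lemma: dense sets of integers, three roots

One and two variable versions: a quadratic polynomial divisible by `q` (or small) on a dense set of
integer points is divisible by `q` (or small) everywhere, up to a constant.
-/

set_option autoImplicit false

namespace Pool.Agent.PP5P

open Finset

/-- three elements of a dense set in a short interval -/
theorem three_close {ρ : ℝ} (hρ : 0 < ρ) {L N : ℕ} (hL : 4 / ρ ≤ (L : ℝ)) (hN : 4 / ρ ≤ (N : ℝ))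
    (T : Finset ℕ) (hT : T ⊆ range N) (hc : ρ * N < (T.card : ℝ)) :
    ∃ a ∈ T, ∃ b ∈ T, ∃ c ∈ T, a < b ∧ b < c ∧ c < a + L := by
  have hL0 : 0 < L := by
    have : (0 : ℝ) < L := lt_of_lt_of_le (by positivity) hL
    exact_mod_cast this
  by_contra hno
  push Not at hno
  have hblock : ∀ k ∈ range (N / L + 1), (T.filter (fun t => t / L = k)).card ≤ 2 := by
    intro k _
    by_contra h3
    push Not at h3
    obtain ⟨s, hs, hs3⟩ := Finset.exists_subset_card_eq (s := T.filter (fun t => t / L = k)) (n := 3) h3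
    -- order the three elements
    obtain ⟨f, hf⟩ : ∃ f : Fin 3 ≃o s, True := ⟨(s.orderIsoOfFin hs3), trivial⟩
    have m : ∀ i, ((f i : s) : ℕ) ∈ T ∧ ((f i : s) : ℕ) / L = k := by
      intro i
      exact Finset.mem_filter.mp (hs (f i).2)
    have h01 : ((f 0 : s) : ℕ) < ((f 1 : s) : ℕ) := by
      have : f 0 < f 1 := f.strictMono (by decide)
      exact_mod_cast this
    have h12 : ((f 1 : s) : ℕ) < ((f 2 : s) : ℕ) := by
      have : f 1 < f 2 := f.strictMono (by decide)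
      exact_mod_cast this
    have h := hno _ (m 0).1 _ (m 1).1 _ (m 2).1 h01 h12
    have e0 := (m 0).2
    have e2 := (m 2).2
    have q0 := Nat.div_add_mod ((f 0 : s) : ℕ) L
    have q2 := Nat.div_add_mod ((f 2 : s) : ℕ) L
    have r0 := Nat.mod_lt ((f 0 : s) : ℕ) hL0
    have r2 := Nat.mod_lt ((f 2 : s) : ℕ) hL0
    rw [e0] at q0
    rw [e2] at q2
    omega
  have hsum : T.card ≤ 2 * (N / L + 1) := by
    have h1 : T.card = ∑ k ∈ range (N / L + 1), (T.filter (fun t => t / L = k)).card := by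
      refine Finset.card_eq_sum_card_fiberwise (f := fun t => t / L) (fun t ht => ?_)
      have := Finset.mem_range.mp (hT ht)
      exact Finset.mem_coe.mpr (Finset.mem_range.mpr (Nat.lt_succ_of_le (Nat.div_le_div_right this.le)))
    rw [h1]
    refine (Finset.sum_le_card_nsmul _ _ 2 hblock).trans ?_
    rw [Finset.card_range, smul_eq_mul, mul_comm]
  have h2 : (T.card : ℝ) ≤ 2 * ((N : ℝ) / L + 1) := by
    have h3 : ((N / L : ℕ) : ℝ) ≤ (N : ℝ) / L := Nat.cast_div_le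
    have h4 : (T.card : ℝ) ≤ 2 * (((N / L : ℕ) : ℝ) + 1) := by exact_mod_cast hsum
    linarith
  have hLp : (0 : ℝ) < L := by exact_mod_cast hL0
  have h5 : (N : ℝ) / L ≤ ρ * N / 4 := by
    rw [div_le_iff₀ hLp]
    have : 4 ≤ ρ * L := by
      rw [div_le_iff₀ hρ] at hL
      linarith
    nlinarith [Nat.cast_nonneg (α := ℝ) N]
  have h6 : (4 : ℝ) ≤ ρ * N := by
    rw [div_le_iff₀ hρ] at hN
    linarith
  linarith

/-- Lagrange -/
theorem lag3 (a b c t1 t2 t3 t : ℤ) :
    (t1 - t2) * (t2 - t3) * (t3 - t1) * (a * t ^ 2 + b * t + c) =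
      -((a * t1 ^ 2 + b * t1 + c) * ((t - t2) * (t - t3) * (t2 - t3))
        + (a * t2 ^ 2 + b * t2 + c) * ((t - t3) * (t - t1) * (t3 - t1))
        + (a * t3 ^ 2 + b * t3 + c) * ((t - t1) * (t - t2) * (t1 - t2))) := by
  ring

/-- one variable, divisibility -/
theorem one_dvd {ρ : ℝ} (hρ : 0 < ρ) {L N : ℕ} (hL : 4 / ρ ≤ (L : ℝ)) (hN : 4 / ρ ≤ (N : ℝ))
    (T : Finset ℕ) (hT : T ⊆ range N) (hc : ρ * N < (T.card : ℝ)) (a b c q : ℤ)
    (h : ∀ t ∈ T, q ∣ a * (t : ℤ) ^ 2 + b * t + c) (t : ℤ) :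
    q ∣ ((L.factorial : ℤ)) ^ 3 * (a * t ^ 2 + b * t + c) := by
  obtain ⟨x, hx, y, hy, z, hz, hxy, hyz, hzx⟩ := three_close hρ hL hN T hT hc
  have h1 := lag3 a b c x y z t
  have h2 : q ∣ ((x : ℤ) - y) * (y - z) * (z - x) * (a * t ^ 2 + b * t + c) := by
    rw [h1]
    refine Dvd.dvd.neg_right ?_
    exact dvd_add (dvd_add ((h x hx).mul_right _) ((h y hy).mul_right _)) ((h z hz).mul_right _)
  have f1 : ((x : ℤ) - y) ∣ (L.factorial : ℤ) := by
    have e : ((x : ℤ) - y) = -((y - x : ℕ) : ℤ) := by push_cast [Nat.cast_sub hxy.le]; ring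
    rw [e, neg_dvd]
    exact_mod_cast Nat.dvd_factorial (by omega) (by omega)
  have f2 : ((y : ℤ) - z) ∣ (L.factorial : ℤ) := by
    have e : ((y : ℤ) - z) = -((z - y : ℕ) : ℤ) := by push_cast [Nat.cast_sub hyz.le]; ring
    rw [e, neg_dvd]
    exact_mod_cast Nat.dvd_factorial (by omega) (by omega)
  have f3 : ((z : ℤ) - x) ∣ (L.factorial : ℤ) := by
    have e : ((z : ℤ) - x) = ((z - x : ℕ) : ℤ) := by push_cast [Nat.cast_sub (hxy.trans hyz).le]; ring
    rw [e]
    exact_mod_cast Nat.dvd_factorial (by omega) (by omega)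
  have f4 : ((x : ℤ) - y) * (y - z) * (z - x) ∣ ((L.factorial : ℤ)) ^ 3 := by
    have := mul_dvd_mul (mul_dvd_mul f1 f2) f3
    have e : (L.factorial : ℤ) * (L.factorial : ℤ) * (L.factorial : ℤ) = ((L.factorial : ℤ)) ^ 3 := by ring
    rwa [e] at this
  obtain ⟨k, hk⟩ := f4
  have h5 := h2.mul_left k
  have e : k * (((x : ℤ) - y) * (y - z) * (z - x) * (a * t ^ 2 + b * t + c)) =
      ((L.factorial : ℤ)) ^ 3 * (a * t ^ 2 + b * t + c) := by rw [hk]; ring
  rwa [e] at h5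

/-- dense fibres -/
theorem fibres {ρ : ℝ} (N1 N2 : ℕ) (S : Finset (ℕ × ℕ)) (hS : S ⊆ range N1 ×ˢ range N2)
    (hρ : 0 < ρ) (hc : 2 * ρ * (N1 * N2) < (S.card : ℝ)) :
    ρ * N2 < (((range N2).filter
      (fun s => ρ * N1 < ((((range N1).filter (fun t => (t, s) ∈ S)).card : ℕ) : ℝ))).card : ℝ) := by
  classical
  set g : ℕ → ℕ := fun s => ((range N1).filter (fun t => (t, s) ∈ S)).card with hg
  have h1 : S.card = ∑ s ∈ range N2, g s := by
    rw [Finset.card_eq_sum_card_fiberwise (f := Prod.snd) (t := range N2)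
      (fun p hp => Finset.mem_coe.mpr (Finset.mem_product.mp (hS hp)).2)]
    refine Finset.sum_congr rfl fun s hs => ?_
    rw [hg]
    refine Finset.card_bij (fun p _ => p.1) ?_ ?_ ?_
    · rintro ⟨a, b⟩ hp
      obtain ⟨hp1, hp2⟩ := Finset.mem_filter.mp hp
      simp only at hp2
      subst hp2
      exact Finset.mem_filter.mpr ⟨(Finset.mem_product.mp (hS hp1)).1, hp1⟩
    · rintro ⟨a, b⟩ hp ⟨a', b'⟩ hp' hab
      have h2 := (Finset.mem_filter.mp hp).2
      have h3 := (Finset.mem_filter.mp hp').2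
      simp only at hab h2 h3
      rw [hab, h2, h3]
    · intro t ht
      exact ⟨(t, s), Finset.mem_filter.mpr ⟨(Finset.mem_filter.mp ht).2, rfl⟩, rfl⟩
  set B := (range N2).filter (fun s => ρ * N1 < (g s : ℝ)) with hB
  by_contra hno
  push Not at hno
  have hle : ∀ s, (g s : ℝ) ≤ N1 := by
    intro s
    have : g s ≤ N1 := by
      rw [hg]
      exact (Finset.card_filter_le _ _).trans (by rw [Finset.card_range])
    exact_mod_cast this
  have h2 : (S.card : ℝ) ≤ (B.card : ℝ) * N1 + ρ * N1 * N2 := by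
    rw [h1]
    push_cast
    rw [← Finset.sum_filter_add_sum_filter_not (range N2) (fun s => ρ * N1 < (g s : ℝ))]
    have a1 : ∑ s ∈ (range N2).filter (fun s => ρ * N1 < (g s : ℝ)), (g s : ℝ) ≤ (B.card : ℝ) * N1 := by
      refine (Finset.sum_le_card_nsmul _ _ (N1 : ℝ) (fun s _ => hle s)).trans ?_
      rw [nsmul_eq_mul]
    have a2 : ∑ s ∈ (range N2).filter (fun s => ¬ ρ * N1 < (g s : ℝ)), (g s : ℝ) ≤ ρ * N1 * N2 := by
      refine (Finset.sum_le_card_nsmul _ _ (ρ * N1) (fun s hs => ?_)).trans ?_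
      · exact not_lt.mp (Finset.mem_filter.mp hs).2
      · rw [nsmul_eq_mul, mul_comm]
        have : ((((range N2).filter (fun s => ¬ ρ * N1 < (g s : ℝ))).card : ℕ) : ℝ) ≤ N2 := by
          have := (Finset.card_filter_le (range N2) (fun s => ¬ ρ * N1 < (g s : ℝ)))
          rw [Finset.card_range] at this
          exact_mod_cast this
        exact mul_le_mul_of_nonneg_left this (by positivity)
    exact add_le_add a1 a2
  have h3 : (B.card : ℝ) * N1 ≤ ρ * N2 * N1 :=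
    mul_le_mul_of_nonneg_right hno (Nat.cast_nonneg _)
  nlinarith

/-- two variables, divisibility: coefficients `A t^2 + E s^2 + B t s + D t + F s + H` -/
theorem two_dvd {ρ : ℝ} (hρ : 0 < ρ) {L N1 N2 : ℕ} (hL : 4 / ρ ≤ (L : ℝ)) (hN1 : 4 / ρ ≤ (N1 : ℝ))
    (hN2 : 4 / ρ ≤ (N2 : ℝ)) (S : Finset (ℕ × ℕ)) (hS : S ⊆ range N1 ×ˢ range N2)
    (hc : 2 * ρ * (N1 * N2) < (S.card : ℝ)) (A E B D F H q : ℤ)
    (h : ∀ p ∈ S, q ∣ A * (p.1 : ℤ) ^ 2 + E * (p.2 : ℤ) ^ 2 + B * p.1 * p.2 + D * p.1 + F * p.2 + H)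
    (t s : ℤ) :
    q ∣ ((L.factorial : ℤ)) ^ 6 * (A * t ^ 2 + E * s ^ 2 + B * t * s + D * t + F * s + H) := by
  have hf := fibres N1 N2 S hS hρ hc
  set T2 := (range N2).filter
      (fun s => ρ * N1 < ((((range N1).filter (fun t => (t, s) ∈ S)).card : ℕ) : ℝ)) with hT2
  have h1 : ∀ s' ∈ T2, q ∣ (((L.factorial : ℤ)) ^ 3 * E) * (s' : ℤ) ^ 2
      + (((L.factorial : ℤ)) ^ 3 * (B * t + F)) * s' + ((L.factorial : ℤ)) ^ 3 * (A * t ^ 2 + D * t + H) := by
    intro s' hs'
    have h2 := (Finset.mem_filter.mp hs').2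
    have h3 := one_dvd hρ hL hN1 _ (Finset.filter_subset _ _) h2 A (B * s' + D) (E * s' ^ 2 + F * s' + H) q
      (fun t' ht' => by
        have := h (t', s') (Finset.mem_filter.mp ht').2
        simp only at this
        convert this using 1
        ring) t
    convert h3 using 1
    ring
  have h4 := one_dvd hρ hL hN2 T2 (Finset.filter_subset _ _) hf _ _ _ q h1 s
  convert h4 using 1
  ring

end Pool.Agent.PP5P
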