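import Pool.Agent.PP5P.Dn

/-!
# PP5, population lemma: small values of a quadratic polynomial on a dense set of integer points
-/

set_option autoImplicit false

namespace Pool.Agent.PP5P

open Finset

/-- three elements with large gaps -/
theorem three_far {ρ : ℝ} (hρ : 0 < ρ) {N : ℕ} (hN : 4 / ρ ≤ (N : ℝ))
    (T : Finset ℕ) (hT : T ⊆ range N) (hc : ρ * N < (T.card : ℝ)) :
    ∃ a ∈ T, ∃ b ∈ T, ∃ c ∈ T, (a : ℝ) + ρ * N / 4 ≤ b ∧ (b : ℝ) + ρ * N / 4 ≤ c := by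
  have h4 : (4 : ℝ) ≤ ρ * N := by
    rw [div_le_iff₀ hρ] at hN
    linarith
  have hne : T.Nonempty := by
    rw [← Finset.card_pos]
    have : (0 : ℝ) < T.card := by linarith
    exact_mod_cast this
  set x := T.min' hne with hx
  set z := T.max' hne with hz
  set g : ℝ := ρ * N / 4 with hg
  have hg1 : 1 ≤ g := by rw [hg]; linarith
  set T1 := T.filter (fun t : ℕ => (t : ℝ) < x + g) with hT1
  set T3 := T.filter (fun t : ℕ => (z : ℝ) < t + g) with hT3
  have c1 : (T1.card : ℝ) ≤ g + 1 := by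
    have hsub : T1 ⊆ Finset.Ico x (x + ⌈g⌉₊) := by
      intro t ht
      obtain ⟨h1, h2⟩ := Finset.mem_filter.mp ht
      refine Finset.mem_Ico.mpr ⟨T.min'_le t h1, ?_⟩
      have h3 : (t : ℝ) < ((x + ⌈g⌉₊ : ℕ) : ℝ) := by
        push_cast
        have := Nat.le_ceil g
        linarith
      exact_mod_cast h3
    have h1 := Finset.card_le_card hsub
    rw [Nat.card_Ico] at h1
    have h2 : (T1.card : ℝ) ≤ ⌈g⌉₊ := by
      have : T1.card ≤ ⌈g⌉₊ := by omega
      exact_mod_cast this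
    have := Nat.ceil_lt_add_one (show 0 ≤ g by linarith)
    linarith
  have c3 : (T3.card : ℝ) ≤ g + 1 := by
    have hsub : T3 ⊆ Finset.Ioc (z - ⌈g⌉₊) z := by
      intro t ht
      obtain ⟨h1, h2⟩ := Finset.mem_filter.mp ht
      refine Finset.mem_Ioc.mpr ⟨?_, T.le_max' t h1⟩
      by_contra hcon
      push Not at hcon
      have h3 : t + ⌈g⌉₊ ≤ z ∨ t = 0 ∧ z ≤ ⌈g⌉₊ := by omega
      have h5 := Nat.le_ceil g
      rcases h3 with h3 | h3
      · have h4 : ((t : ℝ)) + ⌈g⌉₊ ≤ z := by exact_mod_cast h3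
        linarith
      · -- then `z ≤ ⌈g⌉`, so `T` is small
        have h6 : T ⊆ range (⌈g⌉₊ + 1) := by
          intro s hs
          have := T.le_max' s hs
          exact Finset.mem_range.mpr (by omega)
        have h7 := Finset.card_le_card h6
        rw [Finset.card_range] at h7
        have h8 : (T.card : ℝ) ≤ ⌈g⌉₊ + 1 := by exact_mod_cast h7
        have h9 := Nat.ceil_lt_add_one (show 0 ≤ g by linarith)
        have h10 : ρ * N = 4 * g := by rw [hg]; ring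
        linarith
    have h1 := Finset.card_le_card hsub
    rw [Nat.card_Ioc] at h1
    have h2 : (T3.card : ℝ) ≤ ⌈g⌉₊ := by
      have : T3.card ≤ ⌈g⌉₊ := by omega
      exact_mod_cast this
    have := Nat.ceil_lt_add_one (show 0 ≤ g by linarith)
    linarith
  have hex : ∃ y ∈ T, y ∉ T1 ∧ y ∉ T3 := by
    by_contra hno
    push Not at hno
    have hsub : T ⊆ T1 ∪ T3 := by
      intro t ht
      by_cases h : t ∈ T1
      · exact Finset.mem_union_left _ h
      · exact Finset.mem_union_right _ (hno t ht h)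
    have h1 := (Finset.card_le_card hsub).trans (Finset.card_union_le _ _)
    have h2 : (T.card : ℝ) ≤ T1.card + T3.card := by exact_mod_cast h1
    have h10 : ρ * N = 4 * g := by rw [hg]; ring
    linarith
  obtain ⟨y, hy, hy1, hy3⟩ := hex
  refine ⟨x, T.min'_mem hne, y, hy, z, T.max'_mem hne, ?_, ?_⟩
  · by_contra h
    push Not at h
    exact hy1 (Finset.mem_filter.mpr ⟨hy, h⟩)
  · by_contra h
    push Not at h
    exact hy3 (Finset.mem_filter.mpr ⟨hy, h⟩)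

/-- one variable, real -/
theorem one_real {ρ : ℝ} (hρ : 0 < ρ) (hρ1 : ρ ≤ 1) {N : ℕ} (hN : 4 / ρ ≤ (N : ℝ))
    (T : Finset ℕ) (hT : T ⊆ range N) (hc : ρ * N < (T.card : ℝ)) (a b c δ : ℝ)
    (h : ∀ t ∈ T, |a * (t : ℝ) ^ 2 + b * t + c| ≤ δ) :
    |a| * (N : ℝ) ^ 2 ≤ 105 / ρ ^ 2 * δ ∧ |b| * N ≤ 105 / ρ ^ 2 * δ ∧ |c| ≤ 105 / ρ ^ 2 * δ := by
  obtain ⟨x, hx, y, hy, z, hz, hxy, hyz⟩ := three_far hρ hN T hT hc
  have hN0 : (0 : ℝ) < N := lt_of_lt_of_le (by positivity) hN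
  set g : ℝ := ρ * N / 4 with hg
  have hg0 : 0 < g := by positivity
  have hδ : 0 ≤ δ := le_trans (abs_nonneg _) (h x hx)
  set X : ℝ := (x : ℝ) with hX
  set Y : ℝ := (y : ℝ) with hY
  set Z : ℝ := (z : ℝ) with hZ
  have hX0 : 0 ≤ X := Nat.cast_nonneg _
  have hZN : Z ≤ N := by
    have := Finset.mem_range.mp (hT hz)
    rw [hZ]; exact_mod_cast this.le
  have p1 := h x hx
  have p2 := h y hy
  have p3 := h z hz
  rw [← hX] at p1
  rw [← hY] at p2
  rw [← hZ] at p3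
  have key : a * ((Y - X) * (Z - Y) * (Z - X)) =
      (a * X ^ 2 + b * X + c) * (Z - Y) - (a * Y ^ 2 + b * Y + c) * (Z - X)
        + (a * Z ^ 2 + b * Z + c) * (Y - X) := by ring
  have d1 : 0 < Y - X := by linarith
  have d2 : 0 < Z - Y := by linarith
  have d3 : 0 < Z - X := by linarith
  have h1 : |a| * ((Y - X) * (Z - Y) * (Z - X)) ≤ δ * (2 * (Z - X)) := by
    have e : |a| * ((Y - X) * (Z - Y) * (Z - X)) = |a * ((Y - X) * (Z - Y) * (Z - X))| := by
      rw [abs_mul, abs_of_pos (show 0 < (Y - X) * (Z - Y) * (Z - X) by positivity)]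
    rw [e, key]
    have q1 : |(a * X ^ 2 + b * X + c) * (Z - Y)| ≤ δ * (Z - Y) := by
      rw [abs_mul, abs_of_pos d2]; exact mul_le_mul_of_nonneg_right p1 d2.le
    have q2 : |(a * Y ^ 2 + b * Y + c) * (Z - X)| ≤ δ * (Z - X) := by
      rw [abs_mul, abs_of_pos d3]; exact mul_le_mul_of_nonneg_right p2 d3.le
    have q3 : |(a * Z ^ 2 + b * Z + c) * (Y - X)| ≤ δ * (Y - X) := by
      rw [abs_mul, abs_of_pos d1]; exact mul_le_mul_of_nonneg_right p3 d1.le
    rw [abs_le] at q1 q2 q3 ⊢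
    constructor <;> linarith [q1.1, q1.2, q2.1, q2.2, q3.1, q3.2]
  have h2 : |a| * (g * g) ≤ 2 * δ := by
    have h3 : |a| * (g * g) * (Z - X) ≤ 2 * δ * (Z - X) := by
      calc |a| * (g * g) * (Z - X) ≤ |a| * ((Y - X) * (Z - Y)) * (Z - X) := by
            refine mul_le_mul_of_nonneg_right (mul_le_mul_of_nonneg_left ?_ (abs_nonneg _)) d3.le
            exact mul_le_mul (by linarith) (by linarith) hg0.le d1.le
        _ = |a| * ((Y - X) * (Z - Y) * (Z - X)) := by ring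
        _ ≤ _ := h1
        _ = _ := by ring
    exact le_of_mul_le_mul_right h3 d3
  have hA : |a| * (N : ℝ) ^ 2 ≤ 32 / ρ ^ 2 * δ := by
    have e : |a| * (N : ℝ) ^ 2 = |a| * (g * g) * (16 / ρ ^ 2) := by
      rw [hg]; field_simp; ring
    rw [e]
    calc |a| * (g * g) * (16 / ρ ^ 2) ≤ 2 * δ * (16 / ρ ^ 2) :=
          mul_le_mul_of_nonneg_right h2 (by positivity)
      _ = _ := by ring
  have hB : |b| * N ≤ 72 / ρ ^ 2 * δ := by
    have e1 : b * (Y - X) = (a * Y ^ 2 + b * Y + c) - (a * X ^ 2 + b * X + c) - a * (X + Y) * (Y - X) := by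
      ring
    have e2 : |b| * (Y - X) ≤ 2 * δ + |a| * (2 * N) * (Y - X) := by
      have : |b| * (Y - X) = |b * (Y - X)| := by rw [abs_mul, abs_of_pos d1]
      rw [this, e1]
      have q1 : |a * (X + Y) * (Y - X)| ≤ |a| * (2 * N) * (Y - X) := by
        rw [abs_mul, abs_mul, abs_of_pos d1, abs_of_nonneg (show 0 ≤ X + Y by linarith)]
        refine mul_le_mul_of_nonneg_right (mul_le_mul_of_nonneg_left (by linarith) (abs_nonneg _)) d1.le
      rw [abs_le] at q1 p1 p2 ⊢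
      constructor <;> linarith [q1.1, q1.2, p1.1, p1.2, p2.1, p2.2]
    have e3 : |b| ≤ 2 * δ / g + |a| * (2 * N) := by
      have h5 : 2 * δ ≤ 2 * δ / g * (Y - X) := by
        rw [div_mul_eq_mul_div, le_div_iff₀ hg0]
        exact mul_le_mul_of_nonneg_left (by linarith) (by linarith)
      have h6 : |b| * (Y - X) ≤ (2 * δ / g + |a| * (2 * N)) * (Y - X) := by
        rw [add_mul]; linarith
      exact le_of_mul_le_mul_right h6 d1
    calc |b| * N ≤ (2 * δ / g + |a| * (2 * N)) * N := mul_le_mul_of_nonneg_right e3 hN0.le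
      _ = 8 / ρ * δ + 2 * (|a| * (N : ℝ) ^ 2) := by rw [hg]; field_simp; ring
      _ ≤ 8 / ρ ^ 2 * δ + 2 * (32 / ρ ^ 2 * δ) := by
          refine add_le_add (mul_le_mul_of_nonneg_right ?_ hδ) (by linarith)
          apply div_le_div_of_nonneg_left (by norm_num) (by positivity)
          exact pow_le_of_le_one hρ.le hρ1 two_ne_zero
      _ = _ := by ring
  have hC : |c| ≤ 105 / ρ ^ 2 * δ := by
    have hXN : X ≤ N := by linarith
    have e1 : c = (a * X ^ 2 + b * X + c) - a * X ^ 2 - b * X := by ring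
    have q1 : |a * X ^ 2| ≤ |a| * (N : ℝ) ^ 2 := by
      rw [abs_mul, abs_of_nonneg (sq_nonneg X)]
      exact mul_le_mul_of_nonneg_left (pow_le_pow_left₀ hX0 hXN 2) (abs_nonneg _)
    have q2 : |b * X| ≤ |b| * N := by
      rw [abs_mul, abs_of_nonneg hX0]
      exact mul_le_mul_of_nonneg_left hXN (abs_nonneg _)
    have q3 : |c| ≤ δ + |a| * (N : ℝ) ^ 2 + |b| * N := by
      rw [e1]
      rw [abs_le] at p1 q1 q2 ⊢
      constructor <;> linarith [q1.1, q1.2, p1.1, p1.2, q2.1, q2.2]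
    have q4 : δ ≤ 1 / ρ ^ 2 * δ := by
      have : (1 : ℝ) ≤ 1 / ρ ^ 2 := by
        rw [le_div_iff₀ (by positivity), one_mul]
        exact pow_le_one₀ hρ.le hρ1
      exact le_mul_of_one_le_left hδ this
    calc |c| ≤ δ + |a| * (N : ℝ) ^ 2 + |b| * N := q3
      _ ≤ 1 / ρ ^ 2 * δ + 32 / ρ ^ 2 * δ + 72 / ρ ^ 2 * δ := by linarith
      _ = _ := by ring
  refine ⟨hA.trans ?_, hB.trans ?_, hC⟩
  · refine mul_le_mul_of_nonneg_right ?_ hδ
    apply div_le_div_of_nonneg_right (by norm_num) (by positivity)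
  · refine mul_le_mul_of_nonneg_right ?_ hδ
    apply div_le_div_of_nonneg_right (by norm_num) (by positivity)

/-- two variables, real: coefficients `A t^2 + E s^2 + B t s + D t + F s + H` -/
theorem two_real {ρ : ℝ} (hρ : 0 < ρ) (hρ1 : ρ ≤ 1) {N1 N2 : ℕ} (hN1 : 4 / ρ ≤ (N1 : ℝ))
    (hN2 : 4 / ρ ≤ (N2 : ℝ)) (S : Finset (ℕ × ℕ)) (hS : S ⊆ range N1 ×ˢ range N2)
    (hc : 2 * ρ * (N1 * N2) < (S.card : ℝ)) (A E B D F H δ : ℝ) (hδ : 0 ≤ δ)
    (h : ∀ p ∈ S, |A * (p.1 : ℝ) ^ 2 + E * (p.2 : ℝ) ^ 2 + B * p.1 * p.2 + D * p.1 + F * p.2 + H| ≤ δ) :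
    |A| * (N1 : ℝ) ^ 2 ≤ (105 / ρ ^ 2) ^ 2 * δ ∧ |E| * (N2 : ℝ) ^ 2 ≤ (105 / ρ ^ 2) ^ 2 * δ ∧
    |B| * ((N1 : ℝ) * N2) ≤ (105 / ρ ^ 2) ^ 2 * δ ∧ |D| * N1 ≤ (105 / ρ ^ 2) ^ 2 * δ ∧
    |F| * N2 ≤ (105 / ρ ^ 2) ^ 2 * δ ∧ |H| ≤ (105 / ρ ^ 2) ^ 2 * δ := by
  have hf := fibres N1 N2 S hS hρ hc
  set T2 := (range N2).filter
      (fun s => ρ * N1 < ((((range N1).filter (fun t => (t, s) ∈ S)).card : ℕ) : ℝ)) with hT2
  set C := 105 / ρ ^ 2 with hC
  have hC0 : 0 < C := by positivity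
  have hN10 : (0 : ℝ) < N1 := lt_of_lt_of_le (by positivity) hN1
  have hN20 : (0 : ℝ) < N2 := lt_of_lt_of_le (by positivity) hN2
  have h1 : ∀ s ∈ T2, |A| * (N1 : ℝ) ^ 2 ≤ C * δ ∧ |B * s + D| * N1 ≤ C * δ ∧
      |E * (s : ℝ) ^ 2 + F * s + H| ≤ C * δ := by
    intro s hs
    have h2 := (Finset.mem_filter.mp hs).2
    exact one_real hρ hρ1 hN1 _ (Finset.filter_subset _ _) h2 A (B * s + D) (E * s ^ 2 + F * s + H) δ
      (fun t ht => by
        have := h (t, s) (Finset.mem_filter.mp ht).2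
        simp only at this
        convert this using 2
        ring)
  have hne : T2.Nonempty := by
    rw [← Finset.card_pos]
    have : (0 : ℝ) < T2.card := lt_trans (by positivity) hf
    exact_mod_cast this
  obtain ⟨s0, hs0⟩ := hne
  have h3 := one_real hρ hρ1 hN2 T2 (Finset.filter_subset _ _) hf E F H (C * δ) (fun s hs => (h1 s hs).2.2)
  have h4 := one_real hρ hρ1 hN2 T2 (Finset.filter_subset _ _) hf 0 B D (C * δ / N1) (fun s hs => by
    rw [le_div_iff₀ hN10]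
    have := (h1 s hs).2.1
    simpa using this)
  have hC1 : 1 ≤ C := by
    rw [hC, le_div_iff₀ (by positivity)]
    have := pow_le_one₀ hρ.le hρ1 (n := 2)
    linarith
  refine ⟨(h1 s0 hs0).1.trans ?_, ?_, ?_, ?_, ?_, ?_⟩
  · calc C * δ ≤ C * (C * δ) := le_mul_of_one_le_left (mul_nonneg hC0.le hδ) hC1
      _ = _ := by ring
  · calc _ ≤ C * (C * δ) := h3.1
      _ = _ := by ring
  · have := h4.2.1
    calc |B| * ((N1 : ℝ) * N2) = (|B| * N2) * N1 := by ring
      _ ≤ (C * (C * δ / N1)) * N1 := mul_le_mul_of_nonneg_right this hN10.le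
      _ = _ := by field_simp
  · have := h4.2.2
    calc |D| * (N1 : ℝ) ≤ (C * (C * δ / N1)) * N1 := mul_le_mul_of_nonneg_right this hN10.le
      _ = _ := by field_simp
  · calc _ ≤ C * (C * δ) := h3.2.1
      _ = _ := by ring
  · calc _ ≤ C * (C * δ) := h3.2.2
      _ = _ := by ring

end Pool.Agent.PP5P
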