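import Mathlib

/-!
# PP5, population lemma: the compound form of a symmetric 4 x 4 matrix

`Ph G u v w z` is the form of the 2 x 2 minors of `G` evaluated at the duals of `u ^ v` and `w ^ z`;
`Ph G u v w z * det G = (u.Aw)(v.Az) - (u.Az)(v.Aw)` with `A = adj G`.
-/

set_option autoImplicit false

namespace Pool.Agent.PP5P

open Matrix

variable {R : Type*} [CommRing R]

/-- a 2 x 2 minor -/
def mr (G : Matrix (Fin 4) (Fin 4) R) (i j k l : Fin 4) : R := G i k * G j l - G i l * G j k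

/-- the dual bivector of `u ^ v` -/
def pv (u v : Fin 4 → R) : Fin 6 → R :=
  ![u 2 * v 3 - u 3 * v 2, -(u 1 * v 3 - u 3 * v 1), u 1 * v 2 - u 2 * v 1,
    u 0 * v 3 - u 3 * v 0, -(u 0 * v 2 - u 2 * v 0), u 0 * v 1 - u 1 * v 0]

/-- the matrix of the 2 x 2 minors -/
def MM (G : Matrix (Fin 4) (Fin 4) R) : Matrix (Fin 6) (Fin 6) R :=
  !![mr G 0 1 0 1, mr G 0 1 0 2, mr G 0 1 0 3, mr G 0 1 1 2, mr G 0 1 1 3, mr G 0 1 2 3;
     mr G 0 2 0 1, mr G 0 2 0 2, mr G 0 2 0 3, mr G 0 2 1 2, mr G 0 2 1 3, mr G 0 2 2 3;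
     mr G 0 3 0 1, mr G 0 3 0 2, mr G 0 3 0 3, mr G 0 3 1 2, mr G 0 3 1 3, mr G 0 3 2 3;
     mr G 1 2 0 1, mr G 1 2 0 2, mr G 1 2 0 3, mr G 1 2 1 2, mr G 1 2 1 3, mr G 1 2 2 3;
     mr G 1 3 0 1, mr G 1 3 0 2, mr G 1 3 0 3, mr G 1 3 1 2, mr G 1 3 1 3, mr G 1 3 2 3;
     mr G 2 3 0 1, mr G 2 3 0 2, mr G 2 3 0 3, mr G 2 3 1 2, mr G 2 3 1 3, mr G 2 3 2 3]

/-- the compound form -/
def Ph (G : Matrix (Fin 4) (Fin 4) R) (u v w z : Fin 4 → R) : R := pv u v ⬝ᵥ (MM G *ᵥ pv w z)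

theorem pv_add_left (u u' v : Fin 4 → R) : pv (u + u') v = pv u v + pv u' v := by
  ext i; fin_cases i <;> simp [pv] <;> ring

theorem pv_smul_left (t : R) (u v : Fin 4 → R) : pv (t • u) v = t • pv u v := by
  ext i; fin_cases i <;> simp [pv] <;> ring

theorem pv_add_right (u v v' : Fin 4 → R) : pv u (v + v') = pv u v + pv u v' := by
  ext i; fin_cases i <;> simp [pv] <;> ring

theorem pv_smul_right (t : R) (u v : Fin 4 → R) : pv u (t • v) = t • pv u v := by
  ext i; fin_cases i <;> simp [pv] <;> ring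

theorem pv_swap (u v : Fin 4 → R) : pv v u = - pv u v := by
  ext i; fin_cases i <;> simp [pv] <;> ring

theorem pv_self (u : Fin 4 → R) : pv u u = 0 := by
  ext i; fin_cases i <;> simp [pv] <;> ring

theorem Ph_add1 (G : Matrix (Fin 4) (Fin 4) R) (u u' v w z : Fin 4 → R) :
    Ph G (u + u') v w z = Ph G u v w z + Ph G u' v w z := by
  simp only [Ph, pv_add_left, add_dotProduct]

theorem Ph_smul1 (G : Matrix (Fin 4) (Fin 4) R) (t : R) (u v w z : Fin 4 → R) :
    Ph G (t • u) v w z = t * Ph G u v w z := by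
  simp only [Ph, pv_smul_left, smul_dotProduct, smul_eq_mul]

theorem Ph_add2 (G : Matrix (Fin 4) (Fin 4) R) (u v v' w z : Fin 4 → R) :
    Ph G u (v + v') w z = Ph G u v w z + Ph G u v' w z := by
  simp only [Ph, pv_add_right, add_dotProduct]

theorem Ph_smul2 (G : Matrix (Fin 4) (Fin 4) R) (t : R) (u v w z : Fin 4 → R) :
    Ph G u (t • v) w z = t * Ph G u v w z := by
  simp only [Ph, pv_smul_right, smul_dotProduct, smul_eq_mul]

theorem Ph_add3 (G : Matrix (Fin 4) (Fin 4) R) (u v w w' z : Fin 4 → R) :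
    Ph G u v (w + w') z = Ph G u v w z + Ph G u v w' z := by
  simp only [Ph, pv_add_left, mulVec_add, dotProduct_add]

theorem Ph_smul3 (G : Matrix (Fin 4) (Fin 4) R) (t : R) (u v w z : Fin 4 → R) :
    Ph G u v (t • w) z = t * Ph G u v w z := by
  simp only [Ph, pv_smul_left, mulVec_smul, dotProduct_smul, smul_eq_mul]

theorem Ph_add4 (G : Matrix (Fin 4) (Fin 4) R) (u v w z z' : Fin 4 → R) :
    Ph G u v w (z + z') = Ph G u v w z + Ph G u v w z' := by
  simp only [Ph, pv_add_right, mulVec_add, dotProduct_add]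

theorem Ph_smul4 (G : Matrix (Fin 4) (Fin 4) R) (t : R) (u v w z : Fin 4 → R) :
    Ph G u v w (t • z) = t * Ph G u v w z := by
  simp only [Ph, pv_smul_right, mulVec_smul, dotProduct_smul, smul_eq_mul]

theorem Ph_swap1 (G : Matrix (Fin 4) (Fin 4) R) (u v w z : Fin 4 → R) :
    Ph G v u w z = - Ph G u v w z := by
  simp only [Ph, pv_swap u v, neg_dotProduct]

theorem Ph_swap2 (G : Matrix (Fin 4) (Fin 4) R) (u v w z : Fin 4 → R) :
    Ph G u v z w = - Ph G u v w z := by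
  simp only [Ph, pv_swap w z, mulVec_neg, dotProduct_neg]

theorem Ph_self1 (G : Matrix (Fin 4) (Fin 4) R) (u w z : Fin 4 → R) : Ph G u u w z = 0 := by
  simp only [Ph, pv_self, zero_dotProduct]

theorem Ph_self2 (G : Matrix (Fin 4) (Fin 4) R) (u v w : Fin 4 → R) : Ph G u v w w = 0 := by
  simp only [Ph, pv_self, mulVec_zero, dotProduct_zero]

theorem MM_symm {G : Matrix (Fin 4) (Fin 4) R} (hG : ∀ i j, G i j = G j i) : (MM G)ᵀ = MM G := by
  ext i j
  fin_cases i <;> fin_cases j <;> simp [MM, mr] <;>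
    simp only [hG 1 0, hG 2 0, hG 3 0, hG 2 1, hG 3 1, hG 3 2] <;> ring

theorem Ph_symm {G : Matrix (Fin 4) (Fin 4) R} (hG : ∀ i j, G i j = G j i) (u v w z : Fin 4 → R) :
    Ph G w z u v = Ph G u v w z := by
  unfold Ph
  rw [dotProduct_comm, dotProduct_mulVec, ← mulVec_transpose, MM_symm hG, dotProduct_comm,
    dotProduct_comm]

/-- Bianchi identity -/
theorem Ph_bianchi {G : Matrix (Fin 4) (Fin 4) R} (hG : ∀ i j, G i j = G j i) (u v w z : Fin 4 → R) :
    Ph G u v w z + Ph G v w u z + Ph G w u v z = 0 := by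
  simp only [Ph, pv, MM, mr, dotProduct, mulVec, Fin.sum_univ_succ, hG 1 0, hG 2 0, hG 3 0, hG 2 1,
    hG 3 1, hG 3 2]
  simp
  ring

end Pool.Agent.PP5P
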