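import Pool.Agent.PP5S.Dat
import Pool.Agent.PP5N.Defs
import Pool.Agent.PP5P.Fm

/-!
# PP5 (D'), exceptional `x`: the inputs

All counts are over the `x` with data `XD` at the scale `T` (`T / 2 ≤ T' ≤ T`), uniformly in `t1, t2`
up to a power of `t1 t2`.
-/

set_option autoImplicit false

namespace Pool.Agent.PP5P

open Matrix Finset Pool.Agent.PP5B Pool.Agent.PP5S

/-- `x` has data at the scale `T` with the property `Φ` -/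
def Xat (Cx t1 t2 T : ℝ)
    (Φ : ℝ → (Fin 10 → ℤ) → Matrix (Fin 4) (Fin 4) ℤ → (Fin 4 → ℝ) → ℕ → Prop)
    (x : Fin 10 → ℤ) : Prop :=
  Xok x ∧ ∃ (T' : ℝ) (b : Fin 4 → PP5.Sp) (G : Matrix (Fin 4) (Fin 4) ℤ) (l : Fin 4 → ℝ) (k : ℕ),
    XD Cx t1 t2 T' x b G l k ∧ T' ≤ T ∧ T ≤ 2 * T' ∧ Φ T' x G l k

/-- a count: at most `C (t1 t2)^a T^(8+ε) f(T,Q)` vectors `x` with the property `Φ Q` at the scale `T` -/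
def Cnt (Cx : ℝ) (f : ℝ → ℝ → ℝ)
    (Φ : ℝ → ℝ → (Fin 10 → ℤ) → Matrix (Fin 4) (Fin 4) ℤ → (Fin 4 → ℝ) → ℕ → Prop) : Prop :=
  ∀ ε : ℝ, 0 < ε → ∃ a C : ℝ, 0 ≤ a ∧ 1 ≤ C ∧ ∀ t1 t2 T Q : ℝ, 1 ≤ t1 → 1 ≤ t2 → 1 ≤ T → 1 ≤ Q →
    ∀ S : Finset (Fin 10 → ℤ), (∀ x ∈ S, Xat Cx t1 t2 T (Φ Q) x) →
    (S.card : ℝ) ≤ C * (t1 * t2) ^ a * T ^ (8 + ε) * f T Q

/-- (CK): `T^4 / ∏ l ≥ Q` -/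
def CK (Cx : ℝ) : Prop := Cnt Cx (fun T Q => Q⁻¹ ^ 3 + T⁻¹ ^ 3)
  (fun Q T' _ _ l _ => Q * ∏ i, l i ≤ T' ^ 4)

/-- (CA): content of the minors over their real size `≥ Q` -/
def CA (Cx : ℝ) : Prop := Cnt Cx (fun T Q => Q⁻¹ ^ 3 + T⁻¹ ^ 3)
  (fun Q T' _ G l _ => ∃ p : ℝ, 0 < p ∧ (∀ i j a b, |((mr G i j a b : ℤ) : ℝ)| * T' ^ 2
    ≤ p * (l i * l j * l a * l b)) ∧ Q * p ≤ (PP5N.mi2 G : ℝ))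

/-- (CL0): `l 0` small -/
def CL0 (Cx : ℝ) : Prop := Cnt Cx (fun _ Q => Q⁻¹ ^ 3) (fun Q T' _ _ l _ => Q * l 0 ≤ T')

/-- (CL2): `l 2` small -/
def CL2 (Cx : ℝ) : Prop := Cnt Cx (fun _ Q => Q⁻¹ ^ 4) (fun Q T' _ _ l _ => Q * l 2 ≤ T')

/-- (CE): `D(x)` small -/
def CE (Cx : ℝ) : Prop := Cnt Cx (fun T Q => Q⁻¹ + T ^ (-(1 / 2) : ℝ))
  (fun Q T' x _ _ _ => Q ^ 2 * |(((PP5L.SS x).det : ℤ) : ℝ)| ≤ T' ^ 4)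

/-- (CS): `f D(x)` a square for some `0 < |f| ≤ Q` -/
def CS (Cx : ℝ) : Prop := Cnt Cx (fun T Q => Q ^ 3 * T ^ (-(1 / 2) : ℝ))
  (fun Q _ x _ _ _ => ∃ f : ℤ, f ≠ 0 ∧ |(f : ℝ)| ≤ Q ∧ IsSquare (f * (PP5L.SS x).det))

/-- (C0): all -/
def C0x (Cx : ℝ) : Prop := Cnt Cx (fun _ _ => 1) (fun _ _ _ _ _ _ => True)

/-- (CW): `k ∏ l ≤ C (t1 t2)^a T^4` -/
def CW (Cx : ℝ) : Prop := ∃ a C : ℝ, 0 ≤ a ∧ 1 ≤ C ∧ ∀ t1 t2 T : ℝ, 1 ≤ t1 → 1 ≤ t2 →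
  ∀ (x : Fin 10 → ℤ) (b : Fin 4 → PP5.Sp) (G : Matrix (Fin 4) (Fin 4) ℤ) (l : Fin 4 → ℝ) (k : ℕ),
  Xok x → XD Cx t1 t2 T x b G l k → (k : ℝ) * ∏ i, l i ≤ C * (t1 * t2) ^ a * T ^ 4

end Pool.Agent.PP5P
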