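import Pool.Agent.PP5P.Nd

/-!
# PP5, exceptional `x`: the exponents
-/

set_option autoImplicit false

namespace Pool.Agent.PP5P

open Matrix Finset Pool.Agent.PP5 Pool.Agent.PP5B

/-- the basic constraints: `y = exp L`, errors `exp e`, `T = exp τ`, `l i = exp (s i)`, `H = exp h`,
`R = exp ρ`, `A = exp α`, `p = exp π` -/
structure Bc (L e τ h ρ α π : ℝ) (s : Fin 4 → ℝ) : Prop where
  e0 : 0 ≤ e
  hL : h ≤ L + e
  gam : -e ≤ 2 / 5 * L - τ
  tau : -e ≤ τ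
  s0 : -e ≤ s 0
  s01 : s 0 ≤ s 1
  s12 : s 1 ≤ s 2
  s23 : s 2 ≤ s 3
  lam : s 0 + s 1 + s 2 + s 3 ≤ 4 * τ + e
  rho : 0 ≤ ρ
  r0 : 3 * (τ - s 0) ≤ ρ
  r2 : 4 * (τ - s 2) ≤ ρ
  al : 0 ≤ α
  pi : π ≤ e
  L0 : 0 ≤ L

/-- the exponent of the target `y^4 T^(-8) R (R y^(2/5) / T)^(-1/200)` -/
noncomputable def Mt (L τ ρ : ℝ) : ℝ := 4 * L - 8 * τ + ρ - 1 / 200 * (ρ + (2 / 5 * L - τ))

theorem Pk_le {a b c d f g B : ℝ} (hB : 1 ≤ B) (f0 : 0 ≤ f) (fg : f ≤ g)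
    (a0 : 0 ≤ a) (b0 : 0 ≤ b) (c0 : 0 ≤ c) (d0 : 0 ≤ d)
    (ha : a ≤ B)
    (hb : b ≤ B)
    (hc : c ≤ B)
    (hd : d ≤ B)
    (hab : a * b ≤ B)
    (hac : a * c ≤ B)
    (had : a * d ≤ B)
    (hbc : b * c ≤ B)
    (hbd : b * d ≤ B)
    (hcd : c * d ≤ B)
    (habc : a * b * c ≤ B)
    (habd : a * b * d ≤ B)
    (hacd : a * c * d ≤ B)
    (hbcd : b * c * d ≤ B)
    (habcd : a * b * c * d ≤ B)
    (hg : g ≤ B)
    (hag : a * g ≤ B)
    (hbg : b * g ≤ B)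
    (hcg : c * g ≤ B)
    (hdg : d * g ≤ B)
    (habg : a * b * g ≤ B)
    (hacg : a * c * g ≤ B)
    (hadg : a * d * g ≤ B)
    (hbcg : b * c * g ≤ B)
    (hbdg : b * d * g ≤ B)
    : (1 + a) * (1 + b) * ((1 + c) * (1 + d)) + (1 + f + g) * ((1 + a) * (1 + b) +
      (1 + a + b) * (1 + c + d)) ≤ 55 * B := by
  have h1 : (1 + f + g) * ((1 + a) * (1 + b) + (1 + a + b) * (1 + c + d))
      ≤ (1 + 2 * g) * ((1 + a) * (1 + b) + (1 + a + b) * (1 + c + d)) := by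
    refine mul_le_mul_of_nonneg_right (by linarith) (by positivity)
  refine (add_le_add_right h1 _).trans ?_
  have e1 : (1 + a) * (1 + b) * ((1 + c) * (1 + d)) + (1 + 2 * g) * ((1 + a) * (1 + b) +
      (1 + a + b) * (1 + c + d)) = 3 + 3 * a + 3 * b + 2 * c + 2 * d + 2 * (a * b) + 2 * (a * c)
      + 2 * (a * d) + 2 * (b * c) + 2 * (b * d) + c * d + a * b * c + a * b * d + a * c * d
      + b * c * d + a * b * c * d + 4 * g + 4 * (a * g) + 4 * (b * g) + 2 * (c * g) + 2 * (d * g)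
      + 2 * (a * b * g) + 2 * (a * c * g) + 2 * (a * d * g) + 2 * (b * c * g) + 2 * (b * d * g) := by
    ring
  rw [e1]
  linarith

/-- the plane term in exponential form -/
theorem Pk_exp {E : ℝ} {s : Fin 4 → ℝ} {B : ℝ} (hB : 0 ≤ B) (h01 : s 0 + s 1 ≤ s 2 + s 3)
    (ha : (E + (s 0 + s 2)) ≤ B)
    (hb : (E + (s 1 + s 3)) ≤ B)
    (hc : (E + (s 0 + s 3)) ≤ B)
    (hd : (E + (s 1 + s 2)) ≤ B)
    (hab : (E + (s 0 + s 2)) + (E + (s 1 + s 3)) ≤ B)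
    (hac : (E + (s 0 + s 2)) + (E + (s 0 + s 3)) ≤ B)
    (had : (E + (s 0 + s 2)) + (E + (s 1 + s 2)) ≤ B)
    (hbc : (E + (s 1 + s 3)) + (E + (s 0 + s 3)) ≤ B)
    (hbd : (E + (s 1 + s 3)) + (E + (s 1 + s 2)) ≤ B)
    (hcd : (E + (s 0 + s 3)) + (E + (s 1 + s 2)) ≤ B)
    (habc : (E + (s 0 + s 2)) + (E + (s 1 + s 3)) + (E + (s 0 + s 3)) ≤ B)
    (habd : (E + (s 0 + s 2)) + (E + (s 1 + s 3)) + (E + (s 1 + s 2)) ≤ B)
    (hacd : (E + (s 0 + s 2)) + (E + (s 0 + s 3)) + (E + (s 1 + s 2)) ≤ B)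
    (hbcd : (E + (s 1 + s 3)) + (E + (s 0 + s 3)) + (E + (s 1 + s 2)) ≤ B)
    (habcd : (E + (s 0 + s 2)) + (E + (s 1 + s 3)) + (E + (s 0 + s 3)) + (E + (s 1 + s 2)) ≤ B)
    (hg : (E + (s 2 + s 3)) ≤ B)
    (hag : (E + (s 0 + s 2)) + (E + (s 2 + s 3)) ≤ B)
    (hbg : (E + (s 1 + s 3)) + (E + (s 2 + s 3)) ≤ B)
    (hcg : (E + (s 0 + s 3)) + (E + (s 2 + s 3)) ≤ B)
    (hdg : (E + (s 1 + s 2)) + (E + (s 2 + s 3)) ≤ B)
    (habg : (E + (s 0 + s 2)) + (E + (s 1 + s 3)) + (E + (s 2 + s 3)) ≤ B)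
    (hacg : (E + (s 0 + s 2)) + (E + (s 0 + s 3)) + (E + (s 2 + s 3)) ≤ B)
    (hadg : (E + (s 0 + s 2)) + (E + (s 1 + s 2)) + (E + (s 2 + s 3)) ≤ B)
    (hbcg : (E + (s 1 + s 3)) + (E + (s 0 + s 3)) + (E + (s 2 + s 3)) ≤ B)
    (hbdg : (E + (s 1 + s 3)) + (E + (s 1 + s 2)) + (E + (s 2 + s 3)) ≤ B)
    : Pk (Real.exp E) (fun i => Real.exp (s i)) ≤ 55 * Real.exp B := by
  have hx : ∀ i j, Real.exp E * (Real.exp (s i) * Real.exp (s j)) = Real.exp (E + (s i + s j)) := by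
    intro i j
    rw [← Real.exp_add, ← Real.exp_add]
  unfold Pk
  simp only [hx]
  refine Pk_le (Real.one_le_exp hB) (Real.exp_pos _).le (Real.exp_le_exp.mpr (by linarith))
    (Real.exp_pos _).le (Real.exp_pos _).le (Real.exp_pos _).le (Real.exp_pos _).le
    (by exact Real.exp_le_exp.mpr ha)
    (by exact Real.exp_le_exp.mpr hb)
    (by exact Real.exp_le_exp.mpr hc)
    (by exact Real.exp_le_exp.mpr hd)
    (by rw [← Real.exp_add]; exact Real.exp_le_exp.mpr hab)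
    (by rw [← Real.exp_add]; exact Real.exp_le_exp.mpr hac)
    (by rw [← Real.exp_add]; exact Real.exp_le_exp.mpr had)
    (by rw [← Real.exp_add]; exact Real.exp_le_exp.mpr hbc)
    (by rw [← Real.exp_add]; exact Real.exp_le_exp.mpr hbd)
    (by rw [← Real.exp_add]; exact Real.exp_le_exp.mpr hcd)
    (by rw [← Real.exp_add, ← Real.exp_add]; exact Real.exp_le_exp.mpr habc)
    (by rw [← Real.exp_add, ← Real.exp_add]; exact Real.exp_le_exp.mpr habd)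
    (by rw [← Real.exp_add, ← Real.exp_add]; exact Real.exp_le_exp.mpr hacd)
    (by rw [← Real.exp_add, ← Real.exp_add]; exact Real.exp_le_exp.mpr hbcd)
    (by rw [← Real.exp_add, ← Real.exp_add, ← Real.exp_add]; exact Real.exp_le_exp.mpr habcd)
    (by exact Real.exp_le_exp.mpr hg)
    (by rw [← Real.exp_add]; exact Real.exp_le_exp.mpr hag)
    (by rw [← Real.exp_add]; exact Real.exp_le_exp.mpr hbg)
    (by rw [← Real.exp_add]; exact Real.exp_le_exp.mpr hcg)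
    (by rw [← Real.exp_add]; exact Real.exp_le_exp.mpr hdg)
    (by rw [← Real.exp_add, ← Real.exp_add]; exact Real.exp_le_exp.mpr habg)
    (by rw [← Real.exp_add, ← Real.exp_add]; exact Real.exp_le_exp.mpr hacg)
    (by rw [← Real.exp_add, ← Real.exp_add]; exact Real.exp_le_exp.mpr hadg)
    (by rw [← Real.exp_add, ← Real.exp_add]; exact Real.exp_le_exp.mpr hbcg)
    (by rw [← Real.exp_add, ← Real.exp_add]; exact Real.exp_le_exp.mpr hbdg)

/-- class II -/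
theorem cII {L e τ h ρ α π : ℝ} {s : Fin 4 → ℝ} (H : Bc L e τ h ρ α π s)
    (k1 : 47 / 100 * τ ≤ ρ)
    (k2 : 3 * (4 * τ - (s 0 + s 1 + s 2 + s 3)) ≤ ρ)
    (k3 : 3 * (α - π) ≤ ρ)
    : Pk (Real.exp (2 * h - (s 0 + s 1 + s 2 + s 3) - Mt L τ ρ)) (fun i => Real.exp (s i))
      ≤ 55 * Real.exp (Mt L τ ρ + 100 * e) ∧
      2 * h + τ + (α - π) / 2 - (s 0 + s 1 + s 2 + s 3) ≤ Mt L τ ρ + 100 * e ∧
      0 ≤ Mt L τ ρ + 100 * e := by
  obtain ⟨e0, hL, gam, tau, s0, s01, s12, s23, lam, rho, r0, r2, al, pi, L0⟩ := H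
  have hM : Mt L τ ρ = 4 * L - 8 * τ + ρ - 1 / 200 * (ρ + (2 / 5 * L - τ)) := rfl
  rw [hM]
  refine ⟨Pk_exp (by linarith) (by linarith)
    (by linarith)
    (by linarith)
    (by linarith)
    (by linarith)
    (by linarith)
    (by linarith)
    (by linarith)
    (by linarith)
    (by linarith)
    (by linarith)
    (by linarith)
    (by linarith)
    (by linarith)
    (by linarith)
    (by linarith)
    (by linarith)
    (by linarith)
    (by linarith)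
    (by linarith)
    (by linarith)
    (by linarith)
    (by linarith)
    (by linarith)
    (by linarith)
    (by linarith)
    , by linarith, by linarith⟩

/-- class III -/
theorem cIII {L e τ h ρ α π : ℝ} {s : Fin 4 → ℝ} (H : Bc L e τ h ρ α π s)
    (k1 : 29 / 10 * τ ≤ ρ + 3 * (2 / 5 * L - τ))
    (k2 : 2 * τ ≤ (s 0 + s 1 + s 2 + s 3) + e)
    (k3 : α - π ≤ (s 0 + s 1 + s 2 + s 3) - 2 * τ)
    : Pk (Real.exp (2 * h - (s 0 + s 1 + s 2 + s 3) - Mt L τ ρ)) (fun i => Real.exp (s i))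
      ≤ 55 * Real.exp (Mt L τ ρ + 100 * e) ∧
      2 * h + τ + (α - π) / 2 - (s 0 + s 1 + s 2 + s 3) ≤ Mt L τ ρ + 100 * e ∧
      0 ≤ Mt L τ ρ + 100 * e := by
  obtain ⟨e0, hL, gam, tau, s0, s01, s12, s23, lam, rho, r0, r2, al, pi, L0⟩ := H
  have hM : Mt L τ ρ = 4 * L - 8 * τ + ρ - 1 / 200 * (ρ + (2 / 5 * L - τ)) := rfl
  rw [hM]
  refine ⟨Pk_exp (by linarith) (by linarith)
    (by linarith)
    (by linarith)
    (by linarith)
    (by linarith)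
    (by linarith)
    (by linarith)
    (by linarith)
    (by linarith)
    (by linarith)
    (by linarith)
    (by linarith)
    (by linarith)
    (by linarith)
    (by linarith)
    (by linarith)
    (by linarith)
    (by linarith)
    (by linarith)
    (by linarith)
    (by linarith)
    (by linarith)
    (by linarith)
    (by linarith)
    (by linarith)
    (by linarith)
    , by linarith, by linarith⟩

theorem prod4_le {a b c d B : ℝ} (hB : 1 ≤ B)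
    (ha : a ≤ B)
    (hb : b ≤ B)
    (hc : c ≤ B)
    (hd : d ≤ B)
    (hab : a * b ≤ B)
    (hac : a * c ≤ B)
    (had : a * d ≤ B)
    (hbc : b * c ≤ B)
    (hbd : b * d ≤ B)
    (hcd : c * d ≤ B)
    (habc : a * b * c ≤ B)
    (habd : a * b * d ≤ B)
    (hacd : a * c * d ≤ B)
    (hbcd : b * c * d ≤ B)
    (habcd : a * b * c * d ≤ B)
    : (1 + a) * (1 + b) * (1 + c) * (1 + d) ≤ 16 * B := by
  have e1 : (1 + a) * (1 + b) * (1 + c) * (1 + d) = 1 + a + b + c + d + a * b + a * c + a * d + b * c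
      + b * d + c * d + a * b * c + a * b * d + a * c * d + b * c * d + a * b * c * d := by ring
  rw [e1]
  linarith

/-- the part `Mp` in exponential form -/
theorem Mp_exp {w h τ α dg : ℝ} {s : Fin 4 → ℝ} {B : ℝ} (hB : 0 ≤ B)
    (ha : (w + s 0) ≤ B)
    (hb : (w + s 1) ≤ B)
    (hc : (w + s 2) ≤ B)
    (hd : (w + s 3) ≤ B)
    (hab : (w + s 0) + (w + s 1) ≤ B)
    (hac : (w + s 0) + (w + s 2) ≤ B)
    (had : (w + s 0) + (w + s 3) ≤ B)
    (hbc : (w + s 1) + (w + s 2) ≤ B)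
    (hbd : (w + s 1) + (w + s 3) ≤ B)
    (hcd : (w + s 2) + (w + s 3) ≤ B)
    (habc : (w + s 0) + (w + s 1) + (w + s 2) ≤ B)
    (habd : (w + s 0) + (w + s 1) + (w + s 3) ≤ B)
    (hacd : (w + s 0) + (w + s 2) + (w + s 3) ≤ B)
    (hbcd : (w + s 1) + (w + s 2) + (w + s 3) ≤ B)
    (habcd : (w + s 0) + (w + s 1) + (w + s 2) + (w + s 3) ≤ B)
    (t1 : h + τ - ((s 0 + s 1 + s 2 + s 3) + (dg + 4 * τ - 2 * (s 0 + s 1 + s 2 + s 3)) / 2)
      + (3 * w + (s 0 + s 1 + s 2 + s 3) + α / 2) ≤ B)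
    (t2 : h + τ - ((s 0 + s 1 + s 2 + s 3) + (dg + 4 * τ - 2 * (s 0 + s 1 + s 2 + s 3)) / 2)
      + (2 * w + (s 0 + s 1 + s 2 + s 3) + (s 3 + α - (s 0 + τ)) / 2) ≤ B)
    (t3 : h + τ - ((s 0 + s 1 + s 2 + s 3) + (dg + 4 * τ - 2 * (s 0 + s 1 + s 2 + s 3)) / 2)
      + ((2 * (s 0 + s 1 + s 2 + s 3) - 3 * τ) * (1 / 3) + s 3 * (1 / 3)) ≤ B)
    (t4 : h + τ - ((s 0 + s 1 + s 2 + s 3) + (dg + 4 * τ - 2 * (s 0 + s 1 + s 2 + s 3)) / 2)
      + (w + (s 2 + s 3) + (α + dg) * (1 / 4)) ≤ B) :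
    Mp (Real.exp w) (Real.exp h) (Real.exp τ) (Real.exp α)
      (Real.exp (dg + 4 * τ - 2 * (s 0 + s 1 + s 2 + s 3))) (Real.exp dg) (fun i => Real.exp (s i))
      ≤ 20 * Real.exp B := by
  have hlam : ∏ i, Real.exp (s i) = Real.exp (s 0 + s 1 + s 2 + s 3) := by
    rw [Fin.prod_univ_four, ← Real.exp_add, ← Real.exp_add, ← Real.exp_add]
  have hpow : ∀ (x : ℝ) (n : ℕ), Real.exp x ^ n = Real.exp (n * x) := fun x n => (Real.exp_nat_mul x n).symm
  have hsq : ∀ x : ℝ, √(Real.exp x) = Real.exp (x / 2) := by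
    intro x
    rw [Real.exp_half]
  have hrp : ∀ x y : ℝ, Real.exp x ^ y = Real.exp (x * y) := fun x y => (Real.exp_mul x y).symm
  unfold Mp
  have hprod : ∏ i, (1 + Real.exp w * Real.exp (s i)) ≤ 16 * Real.exp B := by
    have hx : ∀ i, Real.exp w * Real.exp (s i) = Real.exp (w + s i) := fun i => (Real.exp_add _ _).symm
    simp only [hx]
    rw [Fin.prod_univ_four]
    refine prod4_le (Real.one_le_exp hB)
      (by exact Real.exp_le_exp.mpr ha)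
      (by exact Real.exp_le_exp.mpr hb)
      (by exact Real.exp_le_exp.mpr hc)
      (by exact Real.exp_le_exp.mpr hd)
      (by rw [← Real.exp_add]; exact Real.exp_le_exp.mpr hab)
      (by rw [← Real.exp_add]; exact Real.exp_le_exp.mpr hac)
      (by rw [← Real.exp_add]; exact Real.exp_le_exp.mpr had)
      (by rw [← Real.exp_add]; exact Real.exp_le_exp.mpr hbc)
      (by rw [← Real.exp_add]; exact Real.exp_le_exp.mpr hbd)
      (by rw [← Real.exp_add]; exact Real.exp_le_exp.mpr hcd)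
      (by rw [← Real.exp_add, ← Real.exp_add]; exact Real.exp_le_exp.mpr habc)
      (by rw [← Real.exp_add, ← Real.exp_add]; exact Real.exp_le_exp.mpr habd)
      (by rw [← Real.exp_add, ← Real.exp_add]; exact Real.exp_le_exp.mpr hacd)
      (by rw [← Real.exp_add, ← Real.exp_add]; exact Real.exp_le_exp.mpr hbcd)
      (by rw [← Real.exp_add, ← Real.exp_add, ← Real.exp_add]; exact Real.exp_le_exp.mpr habcd)
  rw [hlam]
  have hW : Real.exp h * Real.exp τ / (Real.exp (s 0 + s 1 + s 2 + s 3) *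
      √(Real.exp (dg + 4 * τ - 2 * (s 0 + s 1 + s 2 + s 3))))
      = Real.exp (h + τ - ((s 0 + s 1 + s 2 + s 3) + (dg + 4 * τ - 2 * (s 0 + s 1 + s 2 + s 3)) / 2)) := by
    rw [hsq, ← Real.exp_add, ← Real.exp_add, ← Real.exp_sub]
  have e1 : Real.exp w ^ 3 * Real.exp (s 0 + s 1 + s 2 + s 3) * √(Real.exp α)
      = Real.exp (3 * w + (s 0 + s 1 + s 2 + s 3) + α / 2) := by
    rw [hsq, hpow, ← Real.exp_add, ← Real.exp_add]
    norm_num
  have e2 : Real.exp w ^ 2 * Real.exp (s 0 + s 1 + s 2 + s 3) *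
      √(Real.exp (s 3) * Real.exp α / (Real.exp (s 0) * Real.exp τ))
      = Real.exp (2 * w + (s 0 + s 1 + s 2 + s 3) + (s 3 + α - (s 0 + τ)) / 2) := by
    rw [← Real.exp_add, ← Real.exp_add, ← Real.exp_sub, hsq, hpow, ← Real.exp_add, ← Real.exp_add]
    norm_num
  have e3 : (Real.exp (s 0 + s 1 + s 2 + s 3) ^ 2 / Real.exp τ ^ 3) ^ (1 / 3 : ℝ) *
      Real.exp (s 3) ^ (1 / 3 : ℝ)
      = Real.exp ((2 * (s 0 + s 1 + s 2 + s 3) - 3 * τ) * (1 / 3) + s 3 * (1 / 3)) := by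
    rw [hpow, hpow, ← Real.exp_sub, hrp, hrp, ← Real.exp_add]
    norm_num
  have e4 : Real.exp w * (Real.exp (s 2) * Real.exp (s 3)) * (Real.exp α * Real.exp dg) ^ (1 / 4 : ℝ)
      = Real.exp (w + (s 2 + s 3) + (α + dg) * (1 / 4)) := by
    rw [← Real.exp_add (s 2), ← Real.exp_add α, hrp, ← Real.exp_add, ← Real.exp_add]
  rw [hW, e1, e2, e3, e4, mul_add, mul_add, mul_add, ← Real.exp_add, ← Real.exp_add, ← Real.exp_add,
    ← Real.exp_add]
  have g1 := Real.exp_le_exp.mpr t1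
  have g2 := Real.exp_le_exp.mpr t2
  have g3 := Real.exp_le_exp.mpr t3
  have g4 := Real.exp_le_exp.mpr t4
  linarith

/-- class I -/
theorem cI {L e τ h ρ α π kk dg : ℝ} {s : Fin 4 → ℝ} (H : Bc L e τ h ρ α π s)
    (k1 : ρ ≤ 49 / 100 * τ) (k2 : 3 * (4 * τ - (s 0 + s 1 + s 2 + s 3)) ≤ ρ) (k3 : 3 * (α - π) ≤ ρ)
    (k4 : 4 * τ - 2 * ρ ≤ 2 * kk + dg) (k5 : 0 ≤ kk) (k6 : kk + (s 0 + s 1 + s 2 + s 3) ≤ 4 * τ + e)
    (k7 : dg + 4 * τ - 2 * (s 0 + s 1 + s 2 + s 3) ≤ e) :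
    Mp (Real.exp ((2 * h - (s 0 + s 1 + s 2 + s 3) - Mt L τ ρ) / 2)) (Real.exp h) (Real.exp τ)
      (Real.exp α) (Real.exp (dg + 4 * τ - 2 * (s 0 + s 1 + s 2 + s 3))) (Real.exp dg)
      (fun i => Real.exp (s i)) ≤ 20 * Real.exp (Mt L τ ρ + 100 * e) ∧
      2 * h + τ + (α - π) / 2 - (s 0 + s 1 + s 2 + s 3) ≤ Mt L τ ρ + 100 * e ∧
      0 ≤ Mt L τ ρ + 100 * e := by
  obtain ⟨e0, hL, gam, tau, s0, s01, s12, s23, lam, rho, r0, r2, al, pi, L0⟩ := H
  have hM : Mt L τ ρ = 4 * L - 8 * τ + ρ - 1 / 200 * (ρ + (2 / 5 * L - τ)) := rfl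
  rw [hM]
  refine ⟨Mp_exp (by linarith)
    (by linarith)
    (by linarith)
    (by linarith)
    (by linarith)
    (by linarith)
    (by linarith)
    (by linarith)
    (by linarith)
    (by linarith)
    (by linarith)
    (by linarith)
    (by linarith)
    (by linarith)
    (by linarith)
    (by linarith)
    (by linarith)
    (by linarith)
    (by linarith)
    (by linarith)
    , by linarith, by linarith⟩

end Pool.Agent.PP5P
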