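import Pool.Agent.PP5P.Ha

/-!
# PP5, exceptional `x`: the bound for the zeros, exponential form
-/

set_option autoImplicit false

namespace Pool.Agent.PP5P

open Matrix Finset Pool.Agent.PP5 Pool.Agent.PP5B

/-- the real size of the minors -/
noncomputable def pmx (T : ℝ) (G : Matrix (Fin 4) (Fin 4) ℤ) (l : Fin 4 → ℝ) : ℝ :=
  (Finset.univ : Finset (Fin 4 × Fin 4 × Fin 4 × Fin 4)).sup' ⟨(0, 0, 0, 0), Finset.mem_univ _⟩
    (fun q => |((mr G q.1 q.2.1 q.2.2.1 q.2.2.2 : ℤ) : ℝ)| * T ^ 2 /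
      (l q.1 * l q.2.1 * l q.2.2.1 * l q.2.2.2))

theorem le_pmx (T : ℝ) (G : Matrix (Fin 4) (Fin 4) ℤ) (l : Fin 4 → ℝ) (i j k k' : Fin 4) :
    |((mr G i j k k' : ℤ) : ℝ)| * T ^ 2 / (l i * l j * l k * l k') ≤ pmx T G l :=
  Finset.le_sup' (fun q : Fin 4 × Fin 4 × Fin 4 × Fin 4 =>
    |((mr G q.1 q.2.1 q.2.2.1 q.2.2.2 : ℤ) : ℝ)| * T ^ 2 /
      (l q.1 * l q.2.1 * l q.2.2.1 * l q.2.2.2)) (Finset.mem_univ (i, j, k, k'))

theorem ex_pmx (T : ℝ) (G : Matrix (Fin 4) (Fin 4) ℤ) (l : Fin 4 → ℝ) : ∃ i j k k' : Fin 4,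
    pmx T G l = |((mr G i j k k' : ℤ) : ℝ)| * T ^ 2 / (l i * l j * l k * l k') := by
  obtain ⟨q, -, hq⟩ := Finset.exists_mem_eq_sup' (s := (Finset.univ : Finset (Fin 4 × Fin 4 × Fin 4 × Fin 4)))
    ⟨(0, 0, 0, 0), Finset.mem_univ _⟩ (fun q : Fin 4 × Fin 4 × Fin 4 × Fin 4 =>
    |((mr G q.1 q.2.1 q.2.2.1 q.2.2.2 : ℤ) : ℝ)| * T ^ 2 /
      (l q.1 * l q.2.1 * l q.2.2.1 * l q.2.2.2))
  exact ⟨q.1, q.2.1, q.2.2.1, q.2.2.2, hq⟩

/-- the bound for the zeros -/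
theorem px (hN : NX1) {Cx : ℝ} (hCx : 1 ≤ Cx) (δ : ℝ) (hδ : 0 < δ) : ∃ C : ℝ, 1 ≤ C ∧
    ∀ (L e τ h ρ α π kk dg : ℝ) (s : Fin 4 → ℝ) (G : Matrix (Fin 4) (Fin 4) ℤ),
    (∀ i j, G i j = G j i) → (∀ i, 2 ∣ G i i) → G.det ≠ 0 →
    (∀ i j, |(G i j : ℝ)| ≤ Cx * Real.exp (s i) * Real.exp (s j) / Real.exp τ) →
    Real.exp α = (PP5N.mi2 G : ℝ) → Real.exp π = pmx (Real.exp τ) G (fun i => Real.exp (s i)) →
    Real.exp dg = |((G.det : ℤ) : ℝ)| →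
    Bc L e τ h ρ α π s → 100 * e ≤ L → 0 ≤ h → ρ ≤ 5 * L →
    (ρ < 3 * τ → 3 * (4 * τ - (s 0 + s 1 + s 2 + s 3)) ≤ ρ) → (ρ < 3 * τ → 3 * (α - π) ≤ ρ) →
    (ρ < τ / 2 → 4 * τ - 2 * ρ ≤ 2 * kk + dg) → (ρ < τ / 2 → ¬ IsSquare G.det) →
    0 ≤ kk → kk + (s 0 + s 1 + s 2 + s 3) ≤ 4 * τ + e →
    dg + 4 * τ - 2 * (s 0 + s 1 + s 2 + s 3) ≤ e → 2 * τ ≤ (s 0 + s 1 + s 2 + s 3) + e →
    α - π ≤ (s 0 + s 1 + s 2 + s 3) - 2 * τ →
    ∀ V : Finset (Fin 4 → ℤ), (∀ v ∈ V, Pr4 v ∧ v ⬝ᵥ (G *ᵥ v) = 0 ∧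
      (∀ i, |(v i : ℝ)| * Real.exp (s i) ≤ Real.exp h) ∧
      ∀ w : Fin 4 → ℤ, w ⬝ᵥ (G *ᵥ w) = 0 → v ⬝ᵥ (G *ᵥ w) = 0 → ¬ Par v w →
        ∃ i j, C * Real.exp (2 * h - Mt L τ ρ)
          < |((v i * w j - v j * w i : ℤ) : ℝ)| * (Real.exp (s i) * Real.exp (s j))) →
    (V.card : ℝ) ≤ C * Real.exp (δ * L) * Real.exp (Mt L τ ρ + 100 * e) := by
  obtain ⟨Ca, hCa1, hCa⟩ := hN (δ / 10) (by positivity) Cx hCx
  obtain ⟨Cb, hCb1, hCb⟩ := nx2 (δ / 10) (by positivity) Cx hCx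
  refine ⟨58 * (Ca + Cb), by linarith, ?_⟩
  intro L e τ h ρ α π kk dg s G hG hev hdet hgr hα hπ hdg hB heL hh hρ hk2 hk3 hk4 hns hk5 hk6 hk7 hk8
    hk9 V hV
  have hB' := hB
  obtain ⟨e0, hL, gam, tau, s0, s01, s12, s23, lam, rho, r0, r2, al, pi, L0⟩ := hB'
  have hM : Mt L τ ρ = 4 * L - 8 * τ + ρ - 1 / 200 * (ρ + (2 / 5 * L - τ)) := rfl
  set M := Mt L τ ρ with hMdef
  set l : Fin 4 → ℝ := fun i => Real.exp (s i) with hl
  set Y : ℝ := Real.exp (10 * L) with hY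
  have hYc : Y ^ (δ / 10) = Real.exp (δ * L) := by
    rw [hY, ← Real.exp_mul]
    congr 1
    ring
  have hinv : 1 / Y = Real.exp (-(10 * L)) := by rw [Real.exp_neg, one_div]
  have hY1 : 1 ≤ Y := Real.one_le_exp (by linarith)
  have hl1 : ∀ i, 1 / Y ≤ l i := by
    intro i
    rw [hinv]
    refine Real.exp_le_exp.mpr ?_
    fin_cases i
    · show _ ≤ s 0; linarith
    · show _ ≤ s 1; linarith
    · show _ ≤ s 2; linarith
    · show _ ≤ s 3; linarith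
  have hl2 : ∀ i, l i ≤ Y := by
    intro i
    refine Real.exp_le_exp.mpr ?_
    fin_cases i
    · show s 0 ≤ _; linarith
    · show s 1 ≤ _; linarith
    · show s 2 ≤ _; linarith
    · show s 3 ≤ _; linarith
  have hlp : ∀ i, 0 < l i := fun i => Real.exp_pos _
  have hlam : ∏ i, l i = Real.exp (s 0 + s 1 + s 2 + s 3) := by
    rw [Fin.prod_univ_four]
    simp only [hl]
    rw [← Real.exp_add, ← Real.exp_add, ← Real.exp_add]
  set U : ℝ := Real.exp (M - h) with hU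
  have hHU : Real.exp h * U = Real.exp M := by
    rw [hU, ← Real.exp_add]; congr 1; ring
  have hHdU : Real.exp h / U = Real.exp (2 * h - M) := by
    rw [hU, ← Real.exp_sub]; congr 1; ring
  have hE : Real.exp h / ((∏ i, l i) * U) = Real.exp (2 * h - (s 0 + s 1 + s 2 + s 3) - M) := by
    rw [hU, hlam, ← Real.exp_add, ← Real.exp_sub]; congr 1; ring
  have hM3 : Real.exp h ^ 2 * Real.exp τ * √((PP5N.mi2 G : ℝ) / pmx (Real.exp τ) G l) / (∏ i, l i)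
      = Real.exp (2 * h + τ + (α - π) / 2 - (s 0 + s 1 + s 2 + s 3)) := by
    have e1 : √(Real.exp (α - π)) = Real.exp ((α - π) / 2) := by rw [Real.exp_half]
    have e2 : Real.exp h ^ 2 = Real.exp (2 * h) := by
      rw [← Real.exp_nat_mul]; norm_num
    rw [← hα, ← hπ, hlam, ← Real.exp_sub, e1, e2, ← Real.exp_add, ← Real.exp_add, ← Real.exp_sub]
  have hU1 : 1 / Y ≤ U := by
    rw [hinv]
    exact Real.exp_le_exp.mpr (by linarith)
  have hU2 : U ≤ Y := Real.exp_le_exp.mpr (by linarith)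
  have hp : 0 < pmx (Real.exp τ) G l := by rw [← hπ]; exact Real.exp_pos _
  have hA : ∀ n : ℕ, (∀ i j k k', (n : ℤ) ∣ mr G i j k k') → (n : ℝ) ≤ (PP5N.mi2 G : ℝ) := by
    intro n hn
    have h1 := PP5N.dvd_mi2 (G := G) (n := n) hn
    have h2 : 0 < PP5N.mi2 G := by
      have : (0 : ℝ) < (PP5N.mi2 G : ℝ) := by rw [← hα]; exact Real.exp_pos _
      exact_mod_cast this
    exact_mod_cast Nat.le_of_dvd h2 h1
  have hmr : ∃ i j k k', pmx (Real.exp τ) G l ≤ |((mr G i j k k' : ℤ) : ℝ)| * Real.exp τ ^ 2 /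
      (l i * l j * l k * l k') := by
    obtain ⟨i, j, k, k', h1⟩ := ex_pmx (Real.exp τ) G l
    exact ⟨i, j, k, k', le_of_eq h1⟩
  have hT1 : 1 / Y ≤ Real.exp τ := by
    rw [hinv]; exact Real.exp_le_exp.mpr (by linarith)
  have hT2 : Real.exp τ ≤ Y := Real.exp_le_exp.mpr (by linarith)
  have hH2 : Real.exp h ≤ Y := Real.exp_le_exp.mpr (by linarith)
  have hgg : |((G.det : ℤ) : ℝ)| * Real.exp τ ^ 4 / (∏ i, l i) ^ 2
      = Real.exp (dg + 4 * τ - 2 * (s 0 + s 1 + s 2 + s 3)) := by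
    rw [← hdg, hlam, ← Real.exp_nat_mul, ← Real.exp_nat_mul, ← Real.exp_add, ← Real.exp_sub]
    norm_num
  have hMle : Real.exp M ≤ Real.exp (M + 100 * e) := Real.exp_le_exp.mpr (by linarith)
  have hBpos : 0 < Real.exp (M + 100 * e) := Real.exp_pos _
  have hδL : 0 < Real.exp (δ * L) := Real.exp_pos _
  have hpos : 0 < Real.exp (δ * L) * Real.exp (M + 100 * e) := mul_pos hδL hBpos
  -- the two cases
  by_cases hc : ρ ≤ 49 / 100 * τ ∧ ρ + 3 * (2 / 5 * L - τ) < 29 / 10 * τ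
  · obtain ⟨hc1, hc2⟩ := hc
    have hτ : 0 < τ := by linarith
    have hρ3 : ρ < 3 * τ := by linarith
    have hρ2 : ρ < τ / 2 := by linarith
    obtain ⟨g1, g2, g3⟩ := cI (kk := kk) (dg := dg) hB hc1 (hk2 hρ3) (hk3 hρ3) (hk4 hρ2) hk5 hk6 hk7
    rw [← hMdef] at g1 g2 g3
    have h1 := hCa G hG hev (hns hρ2) l (Real.exp τ) Y (Real.exp h) U (pmx (Real.exp τ) G l) hY1 hl1 hl2
      ⟨Real.exp_le_exp.mpr s01, Real.exp_le_exp.mpr s12, Real.exp_le_exp.mpr s23⟩ hT1 hT2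
      (Real.exp_pos _).le hH2 hU1 hU2 hgr hp hmr V (fun v hv => ⟨(hV v hv).1, (hV v hv).2.1, (hV v hv).2.2.1⟩)
    have hw : √(Real.exp h / ((∏ i, l i) * U)) = Real.exp ((2 * h - (s 0 + s 1 + s 2 + s 3) - M) / 2) := by
      rw [hE, Real.exp_half]
    rw [hYc, hHU, hM3, hw, hgg, ← hα, ← hdg] at h1
    have f1 := Real.exp_le_exp.mpr g2
    have f2 := Real.one_le_exp g3
    have h2 : 1 + Real.exp M + Real.exp (2 * h + τ + (α - π) / 2 - (s 0 + s 1 + s 2 + s 3)) +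
        Mp (Real.exp ((2 * h - (s 0 + s 1 + s 2 + s 3) - M) / 2)) (Real.exp h) (Real.exp τ)
          (Real.exp α) (Real.exp (dg + 4 * τ - 2 * (s 0 + s 1 + s 2 + s 3))) (Real.exp dg) l
        ≤ 58 * Real.exp (M + 100 * e) := by linarith
    have hCap : 0 < Ca * Real.exp (δ * L) := mul_pos (by linarith) hδL
    refine h1.trans ((mul_le_mul_of_nonneg_left h2 hCap.le).trans ?_)
    have h5 : 0 < Cb * (Real.exp (δ * L) * Real.exp (M + 100 * e)) := mul_pos (by linarith) hpos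
    have h6 : 58 * (Ca + Cb) * Real.exp (δ * L) * Real.exp (M + 100 * e)
        = Ca * Real.exp (δ * L) * (58 * Real.exp (M + 100 * e))
          + 58 * (Cb * (Real.exp (δ * L) * Real.exp (M + 100 * e))) := by ring
    rw [h6]
    exact le_add_of_nonneg_right (mul_nonneg (by norm_num) h5.le)
  · -- nx2
    have hg : Pk (Real.exp (2 * h - (s 0 + s 1 + s 2 + s 3) - M)) l ≤ 55 * Real.exp (M + 100 * e) ∧
      2 * h + τ + (α - π) / 2 - (s 0 + s 1 + s 2 + s 3) ≤ M + 100 * e ∧ 0 ≤ M + 100 * e := by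
      by_cases hc2 : 29 / 10 * τ ≤ ρ + 3 * (2 / 5 * L - τ)
      · exact cIII hB hc2 hk8 hk9
      · push Not at hc2
        have hc1 : 49 / 100 * τ < ρ := by
          by_contra hcon
          push Not at hcon
          exact hc ⟨hcon, hc2⟩
        have hρ3 : ρ < 3 * τ := by linarith
        refine cII hB (by linarith) (hk2 hρ3) (hk3 hρ3)
    obtain ⟨g1, g2, g3⟩ := hg
    have h1 := hCb G hG hev hdet l (Real.exp τ) Y (Real.exp h) U (PP5N.mi2 G) (pmx (Real.exp τ) G l) hY1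
      hl1 hl2 hT1 (Real.exp_pos _).le hH2 hU1 hU2 hgr hA hp hmr V (by
        intro v hv
        obtain ⟨h1, h2, h3, h4⟩ := hV v hv
        refine ⟨h1, h2, h3, ?_⟩
        intro w hw1 hw2 hw3
        obtain ⟨i, j, hij⟩ := h4 w hw1 hw2 hw3
        refine ⟨i, j, lt_of_le_of_lt ?_ hij⟩
        rw [hHdU]
        exact mul_le_mul_of_nonneg_right (by linarith) (Real.exp_pos _).le)
    rw [hYc, hHU, hM3, hE] at h1
    have f1 := Real.exp_le_exp.mpr g2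
    have f2 := Real.one_le_exp g3
    have h2 : 1 + Real.exp M + Real.exp (2 * h + τ + (α - π) / 2 - (s 0 + s 1 + s 2 + s 3)) +
        Pk (Real.exp (2 * h - (s 0 + s 1 + s 2 + s 3) - M)) l
        ≤ 58 * Real.exp (M + 100 * e) := by linarith
    have hCap : 0 < Cb * Real.exp (δ * L) := mul_pos (by linarith) hδL
    refine h1.trans ((mul_le_mul_of_nonneg_left h2 hCap.le).trans ?_)
    have h5 : 0 < Ca * (Real.exp (δ * L) * Real.exp (M + 100 * e)) := mul_pos (by linarith) hpos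
    have h6 : 58 * (Ca + Cb) * Real.exp (δ * L) * Real.exp (M + 100 * e)
        = Cb * Real.exp (δ * L) * (58 * Real.exp (M + 100 * e))
          + 58 * (Ca * (Real.exp (δ * L) * Real.exp (M + 100 * e))) := by ring
    rw [h6]
    exact le_add_of_nonneg_right (mul_nonneg (by norm_num) h5.le)

end Pool.Agent.PP5P
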