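import Pool.Agent.PP5P.Hb
import Pool.Agent.PP5P.HEd
import Pool.Agent.PP5S.DPh

/-!
# PP5, exceptional `x`: minors of `G`
-/

set_option autoImplicit false

namespace Pool.Agent.PP5P

open Matrix Finset Pool.Agent.PP5B Pool.Agent.PP5S

theorem det_lap (G : Matrix (Fin 4) (Fin 4) ℤ) : G.det =
    mr G 0 1 0 1 * mr G 2 3 2 3 - mr G 0 1 0 2 * mr G 2 3 1 3 + mr G 0 1 0 3 * mr G 2 3 1 2
      + mr G 0 1 1 2 * mr G 2 3 0 3 - mr G 0 1 1 3 * mr G 2 3 0 2 + mr G 0 1 2 3 * mr G 2 3 0 1 := by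
  rw [Matrix.det_succ_row_zero]
  simp [Fin.sum_univ_succ, Matrix.det_fin_three, Fin.succAbove, Matrix.submatrix_apply, mr]
  ring

theorem small_minor {G : Matrix (Fin 4) (Fin 4) ℤ} (hG : G.det ≠ 0) {l : Fin 4 → ℝ}
    (hl : ∀ i, 0 < l i) : ∃ i j k k', mr G i j k k' ≠ 0 ∧ l i * l j * l k * l k' ≤ ∏ i, l i := by
  by_contra hcon
  push Not at hcon
  refine hG ?_
  rw [det_lap]
  have key : ∀ a b c d : Fin 4, l a * l b * l c * l d = ∏ i, l i →
      mr G 0 1 a b * mr G 2 3 c d = 0 := by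
    intro a b c d h
    by_cases h1 : mr G 0 1 a b = 0
    · rw [h1, zero_mul]
    by_cases h2 : mr G 2 3 c d = 0
    · rw [h2, mul_zero]
    exfalso
    have e1 := hcon 0 1 a b h1
    have e2 := hcon 2 3 c d h2
    have hp : 0 < ∏ i, l i := Finset.prod_pos fun i _ => hl i
    have e3 : (∏ i, l i) * (∏ i, l i) < (l 0 * l 1 * l a * l b) * (l 2 * l 3 * l c * l d) :=
      mul_lt_mul'' e1 e2 hp.le hp.le
    have e4 : (l 0 * l 1 * l a * l b) * (l 2 * l 3 * l c * l d)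
        = (l 0 * l 1 * l 2 * l 3) * (l a * l b * l c * l d) := by ring
    rw [e4, h, ← Fin.prod_univ_four] at e3
    exact lt_irrefl _ e3
  rw [key 0 1 2 3 (by rw [Fin.prod_univ_four]), key 0 2 1 3 (by rw [Fin.prod_univ_four]; ring),
    key 0 3 1 2 (by rw [Fin.prod_univ_four]; ring), key 1 2 0 3 (by rw [Fin.prod_univ_four]; ring),
    key 1 3 0 2 (by rw [Fin.prod_univ_four]; ring), key 2 3 0 1 (by rw [Fin.prod_univ_four]; ring)]
  ring

theorem mr_le {G : Matrix (Fin 4) (Fin 4) ℤ} {C T : ℝ} {l : Fin 4 → ℝ} (hl : ∀ i, 0 < l i) (hT : 0 < T)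
    (hC : 0 ≤ C) (h : ∀ i j, |(G i j : ℝ)| ≤ C * l i * l j / T) (i j k k' : Fin 4) :
    |((mr G i j k k' : ℤ) : ℝ)| ≤ 2 * C ^ 2 * (l i * l j * l k * l k') / T ^ 2 := by
  have g1 := (hl i).le; have g2 := (hl j).le; have g3 := (hl k).le; have g4 := (hl k').le
  unfold mr
  push_cast
  refine (abs_sub _ _).trans ?_
  rw [abs_mul, abs_mul]
  calc _ ≤ (C * l i * l k / T) * (C * l j * l k' / T) + (C * l i * l k' / T) * (C * l j * l k / T) :=
        add_le_add (mul_le_mul (h i k) (h j k') (abs_nonneg _) (by positivity))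
          (mul_le_mul (h i k') (h j k) (abs_nonneg _) (by positivity))
    _ = _ := by field_simp; ring

theorem det_le_lam {G : Matrix (Fin 4) (Fin 4) ℤ} {C T : ℝ} {l : Fin 4 → ℝ} (hl : ∀ i, 0 < l i)
    (hT : 0 < T) (hC : 0 ≤ C) (h : ∀ i j, |(G i j : ℝ)| ≤ C * l i * l j / T) :
    |((G.det : ℤ) : ℝ)| ≤ 24 * C ^ 4 * (∏ i, l i) ^ 2 / T ^ 4 := by
  have hm := mr_le hl hT hC h
  have g0 := (hl 0).le; have g1 := (hl 1).le; have g2 := (hl 2).le; have g3 := (hl 3).le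
  have key : ∀ a b c d : Fin 4, l a * l b * l c * l d = ∏ i, l i →
      |((mr G 0 1 a b : ℤ) : ℝ) * ((mr G 2 3 c d : ℤ) : ℝ)| ≤ 4 * C ^ 4 * (∏ i, l i) ^ 2 / T ^ 4 := by
    intro a b c d h
    have ga := (hl a).le; have gb := (hl b).le; have gc := (hl c).le; have gd := (hl d).le
    rw [abs_mul]
    refine (mul_le_mul (hm 0 1 a b) (hm 2 3 c d) (abs_nonneg _) (by positivity)).trans (le_of_eq ?_)
    have e : (l 0 * l 1 * l a * l b) * (l 2 * l 3 * l c * l d) = (∏ i, l i) ^ 2 := by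
      have e1 : (l 0 * l 1 * l a * l b) * (l 2 * l 3 * l c * l d)
        = (l 0 * l 1 * l 2 * l 3) * (l a * l b * l c * l d) := by ring
      rw [e1, h, ← Fin.prod_univ_four]
      ring
    rw [← e]
    field_simp
    ring
  have k1 := key 0 1 2 3 (by rw [Fin.prod_univ_four])
  have k2 := key 0 2 1 3 (by rw [Fin.prod_univ_four]; ring)
  have k3 := key 0 3 1 2 (by rw [Fin.prod_univ_four]; ring)
  have k4 := key 1 2 0 3 (by rw [Fin.prod_univ_four]; ring)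
  have k5 := key 1 3 0 2 (by rw [Fin.prod_univ_four]; ring)
  have k6 := key 2 3 0 1 (by rw [Fin.prod_univ_four]; ring)
  rw [det_lap]
  push_cast
  rw [abs_le] at k1 k2 k3 k4 k5 k6 ⊢
  have e : 24 * C ^ 4 * (∏ i, l i) ^ 2 / T ^ 4 = 6 * (4 * C ^ 4 * (∏ i, l i) ^ 2 / T ^ 4) := by ring
  rw [e]
  constructor <;> linarith [k1.1, k1.2, k2.1, k2.2, k3.1, k3.2, k4.1, k4.2, k5.1, k5.2, k6.1, k6.2]

theorem pmx_le {G : Matrix (Fin 4) (Fin 4) ℤ} {C T : ℝ} {l : Fin 4 → ℝ} (hl : ∀ i, 0 < l i) (hT : 0 < T)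
    (hC : 0 ≤ C) (h : ∀ i j, |(G i j : ℝ)| ≤ C * l i * l j / T) : pmx T G l ≤ 2 * C ^ 2 := by
  obtain ⟨i, j, k, k', h1⟩ := ex_pmx T G l
  have h2 := mr_le hl hT hC h i j k k'
  have g1 := hl i; have g2 := hl j; have g3 := hl k; have g4 := hl k'
  have hd : 0 < l i * l j * l k * l k' := mul_pos (mul_pos (mul_pos g1 g2) g3) g4
  rw [h1, div_le_iff₀ hd]
  calc _ ≤ 2 * C ^ 2 * (l i * l j * l k * l k') / T ^ 2 * T ^ 2 :=
        mul_le_mul_of_nonneg_right h2 (by positivity)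
    _ = _ := by field_simp

theorem mi2_pos {G : Matrix (Fin 4) (Fin 4) ℤ} (hG : G.det ≠ 0) : 0 < PP5N.mi2 G := by
  rcases Nat.eq_zero_or_pos (PP5N.mi2 G) with h | h
  · exfalso
    obtain ⟨i, j, k, k', h1, -⟩ := small_minor hG (l := fun _ => 1) (fun _ => one_pos)
    have h2 := PP5N.mi2_dvd G i j k k'
    rw [h, Nat.cast_zero, zero_dvd_iff] at h2
    exact h1 h2
  · exact h

theorem pmx_ge {G : Matrix (Fin 4) (Fin 4) ℤ} (hG : G.det ≠ 0) {T : ℝ} {l : Fin 4 → ℝ}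
    (hl : ∀ i, 0 < l i) (hT : 0 < T) :
    (PP5N.mi2 G : ℝ) * T ^ 2 ≤ pmx T G l * ∏ i, l i := by
  obtain ⟨i, j, k, k', h1, h2⟩ := small_minor hG hl
  have h3 := le_pmx T G l i j k k'
  have g1 := hl i; have g2 := hl j; have g3 := hl k; have g4 := hl k'
  have h4 : (PP5N.mi2 G : ℝ) ≤ |((mr G i j k k' : ℤ) : ℝ)| := by
    have e1 : (PP5N.mi2 G : ℤ) ∣ mr G i j k k' := PP5N.mi2_dvd G i j k k'
    have e2 : (PP5N.mi2 G : ℤ) ≤ |mr G i j k k'| := by
      have := Int.le_of_dvd (abs_pos.mpr h1) ((dvd_abs _ _).mpr e1)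
      exact this
    exact_mod_cast e2
  have hd : 0 < l i * l j * l k * l k' := mul_pos (mul_pos (mul_pos g1 g2) g3) g4
  rw [div_le_iff₀ hd] at h3
  have hp : 0 ≤ pmx T G l := by
    refine le_trans ?_ (le_pmx T G l i j k k')
    positivity
  calc (PP5N.mi2 G : ℝ) * T ^ 2 ≤ |((mr G i j k k' : ℤ) : ℝ)| * T ^ 2 :=
        mul_le_mul_of_nonneg_right h4 (by positivity)
    _ ≤ pmx T G l * (l i * l j * l k * l k') := h3
    _ ≤ _ := mul_le_mul_of_nonneg_left h2 hp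

end Pool.Agent.PP5P
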