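import Pool.Agent.PP5P.Hc
import Pool.Agent.PP5S.Shl
import Pool.Agent.PP5S.Ysm

/-!
# PP5, exceptional `x`: the bound for one `x`
-/

set_option autoImplicit false

namespace Pool.Agent.PP5P

open Matrix Finset Pool.Agent.PP5B Pool.Agent.PP5S

open Classical in
/-- the rarity of `x` -/
noncomputable def Rx (Q T : ℝ) (x : Fin 10 → ℤ) (G : Matrix (Fin 4) (Fin 4) ℤ) (l : Fin 4 → ℝ) : ℝ :=
  max 1 (max (min ((T ^ 4 / ∏ i, l i) ^ 3) (T ^ 3))
    (max (min (((PP5N.mi2 G : ℝ) / pmx T G l) ^ 3) (T ^ 3))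
    (max ((T / l 0) ^ 3) (max ((T / l 2) ^ 4)
    (max (min (T ^ 2 / √|(((PP5L.SS x).det : ℤ) : ℝ)|) (√T))
    (max (if IsSquare (PP5L.SS x).det then √T else 0)
      (if ∃ f : ℤ, f ≠ 0 ∧ |(f : ℝ)| ≤ Q ∧ IsSquare (f * (PP5L.SS x).det) then √T / Q ^ 3 else 0)))))))

section
variable (Q T : ℝ) (x : Fin 10 → ℤ) (G : Matrix (Fin 4) (Fin 4) ℤ) (l : Fin 4 → ℝ)

theorem Rx_ge : 1 ≤ Rx Q T x G l ∧ min ((T ^ 4 / ∏ i, l i) ^ 3) (T ^ 3) ≤ Rx Q T x G l ∧
    min (((PP5N.mi2 G : ℝ) / pmx T G l) ^ 3) (T ^ 3) ≤ Rx Q T x G l ∧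
    (T / l 0) ^ 3 ≤ Rx Q T x G l ∧ (T / l 2) ^ 4 ≤ Rx Q T x G l ∧
    min (T ^ 2 / √|(((PP5L.SS x).det : ℤ) : ℝ)|) (√T) ≤ Rx Q T x G l ∧
    (IsSquare (PP5L.SS x).det → √T ≤ Rx Q T x G l) ∧
    ((∃ f : ℤ, f ≠ 0 ∧ |(f : ℝ)| ≤ Q ∧ IsSquare (f * (PP5L.SS x).det)) →
      √T / Q ^ 3 ≤ Rx Q T x G l) := by
  unfold Rx
  refine ⟨le_max_left _ _, ?_, ?_, ?_, ?_, ?_, ?_, ?_⟩
  · exact le_trans (le_max_left _ _) (le_max_right _ _)
  · exact le_trans (le_trans (le_max_left _ _) (le_max_right _ _)) (le_max_right _ _)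
  · exact le_trans (le_trans (le_trans (le_max_left _ _) (le_max_right _ _)) (le_max_right _ _))
      (le_max_right _ _)
  · exact le_trans (le_trans (le_trans (le_trans (le_max_left _ _) (le_max_right _ _))
      (le_max_right _ _)) (le_max_right _ _)) (le_max_right _ _)
  · exact le_trans (le_trans (le_trans (le_trans (le_trans (le_max_left _ _) (le_max_right _ _))
      (le_max_right _ _)) (le_max_right _ _)) (le_max_right _ _)) (le_max_right _ _)
  · intro h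
    rw [if_pos h]
    exact le_trans (le_trans (le_trans (le_trans (le_trans (le_trans (le_max_left _ _) (le_max_right _ _))
      (le_max_right _ _)) (le_max_right _ _)) (le_max_right _ _)) (le_max_right _ _)) (le_max_right _ _)
  · intro h
    rw [if_pos h]
    exact le_trans (le_trans (le_trans (le_trans (le_trans (le_trans (le_max_right _ _) (le_max_right _ _))
      (le_max_right _ _)) (le_max_right _ _)) (le_max_right _ _)) (le_max_right _ _)) (le_max_right _ _)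

theorem Rx_le {B : ℝ} (h0 : 1 ≤ B) (h1 : min ((T ^ 4 / ∏ i, l i) ^ 3) (T ^ 3) ≤ B)
    (h2 : min (((PP5N.mi2 G : ℝ) / pmx T G l) ^ 3) (T ^ 3) ≤ B)
    (h3 : (T / l 0) ^ 3 ≤ B) (h4 : (T / l 2) ^ 4 ≤ B)
    (h5 : min (T ^ 2 / √|(((PP5L.SS x).det : ℤ) : ℝ)|) (√T) ≤ B)
    (h6 : IsSquare (PP5L.SS x).det → √T ≤ B)
    (h7 : (∃ f : ℤ, f ≠ 0 ∧ |(f : ℝ)| ≤ Q ∧ IsSquare (f * (PP5L.SS x).det)) → √T / Q ^ 3 ≤ B) :
    Rx Q T x G l ≤ B := by
  unfold Rx
  refine max_le h0 (max_le h1 (max_le h2 (max_le h3 (max_le h4 (max_le h5 (max_le ?_ ?_))))))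
  · split_ifs with h
    · exact h6 h
    · linarith
  · split_ifs with h
    · exact h7 h
    · linarith

end

/-- the bound for one `x` -/
theorem perx (hN : NX1) {Cx : ℝ} (C1 : ℝ) (hCx : 1 ≤ Cx) (hW : CW Cx) (c0 : ℝ) (h0 : 0 < c0)
    (hc0 : c0 ≤ 1 / 10 ^ 6) : ∃ c1 d0 y0 : ℝ, 0 < c1 ∧ 0 < d0 ∧ d0 ≤ c0 / 10 ^ 6 ∧ 1 ≤ y0 ∧
    ∀ y t1 t2 : ℝ, y0 ≤ y → 1 ≤ t1 → 1 ≤ t2 → t1 * t2 ≤ y ^ d0 →
    ∀ (T : ℝ) (x : Fin 10 → ℤ) (b : Fin 4 → PP5.Sp) (G : Matrix (Fin 4) (Fin 4) ℤ) (l : Fin 4 → ℝ)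
      (k : ℕ), Xok x → XD Cx t1 t2 T x b G l k → T ≤ C1 * y ^ (2 / 5 : ℝ) → ¬ Gd y c0 T x G l k →
    (y ^ (-1 : ℝ) ≤ T ∧ T ≤ y ∧ Rx (y ^ (1000 * c0)) T x G l ≤ y ^ (5 : ℝ) ∧
      (T ≤ 1 → Rx (y ^ (1000 * c0)) T x G l / T ^ 8 ≤ y ^ (c0 / 10 ^ 4))) ∧
    ∀ V : Finset (Fin 4 → ℤ), (∀ v ∈ V, Zv G l (16 * Cx * y) v ∧ NI y c1 T G l v) →
      (V.card : ℝ) ≤ y ^ (4 - c0 / 1000) * Rx (y ^ (1000 * c0)) T x G l / T ^ 8 := by
  obtain ⟨δ, hδ⟩ : ∃ δ : ℝ, δ = c0 / 10 ^ 6 := ⟨_, rfl⟩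
  have hδ0 : 0 < δ := by rw [hδ]; positivity
  obtain ⟨C, hC1, hpx⟩ := px hN hCx δ hδ0
  obtain ⟨a, Cw, ha0, hCw1, hCW⟩ := hW
  have hC1' : 1 ≤ max C1 1 := le_max_right _ _
  have hCx0 : 0 < Cx := by linarith
  have q1 : 0 ≤ Real.log (16 * Cx) := Real.log_nonneg (by linarith)
  have q2 : 0 ≤ Real.log (max C1 1) := Real.log_nonneg hC1'
  have q3 : 0 ≤ Real.log (2 * Cx ^ 2) := Real.log_nonneg (by
    have : 1 ≤ Cx ^ 2 := one_le_pow₀ hCx
    linarith)
  have q4 : 0 ≤ Real.log (24 * Cx ^ 4) := Real.log_nonneg (by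
    have : 1 ≤ Cx ^ 4 := one_le_pow₀ hCx
    linarith)
  have q5 : 0 ≤ Real.log Cw := Real.log_nonneg hCw1
  have q6 : 0 ≤ Real.log C := Real.log_nonneg hC1
  have q7 : 0 ≤ Real.log Cx := Real.log_nonneg hCx
  obtain ⟨K, hK⟩ : ∃ K : ℝ, K = Real.log (16 * Cx) + Real.log (max C1 1) + Real.log (2 * Cx ^ 2) +
    Real.log (24 * Cx ^ 4) + Real.log Cw + Real.log C + Real.log Cx + 1 := ⟨_, rfl⟩
  have hK0 : 0 < K := by linarith
  refine ⟨c0 / 10, δ / (2 * (a + 4)), Real.exp (2 * K / δ), by positivity, by positivity, ?_,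
    Real.one_le_exp (by positivity), ?_⟩
  · rw [hδ]
    have : (1 : ℝ) ≤ 2 * (a + 4) := by linarith
    exact div_le_self (by positivity) this
  intro y t1 t2 hy ht1 ht2 ht T x b G l k hx hX hT hGd
  have hy0 : 0 < y := lt_of_lt_of_le (Real.exp_pos _) hy
  have hD0 : 0 < δ / (2 * (a + 4)) := by positivity
  obtain ⟨L, rfl⟩ : ∃ L, y = Real.exp L := ⟨Real.log y, (Real.exp_log hy0).symm⟩
  obtain ⟨τ, rfl⟩ : ∃ τ, T = Real.exp τ := ⟨Real.log T, (Real.exp_log hX.T0).symm⟩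
  obtain ⟨s, rfl⟩ : ∃ s : Fin 4 → ℝ, l = fun i => Real.exp (s i) :=
    ⟨fun i => Real.log (l i), funext fun i => (Real.exp_log (hX.lp i)).symm⟩
  have hLK : 2 * K / δ ≤ L := Real.exp_le_exp.mp hy
  have hL0 : 0 < L := lt_of_lt_of_le (by positivity) hLK
  obtain ⟨e, he⟩ : ∃ e : ℝ, e = δ * L := ⟨_, rfl⟩
  have he0 : 0 < e := by rw [he]; positivity
  have hKe : K ≤ e / 2 := by
    rw [div_le_iff₀ hδ0] at hLK
    rw [he]; linarith
  have hec : e = c0 / 10 ^ 6 * L := by rw [he, hδ]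
  have hcL : 0 < c0 * L := by positivity
  have hcL6 : c0 * L ≤ 1 / 10 ^ 6 * L := mul_le_mul_of_nonneg_right hc0 hL0.le
  have hec' : 10 ^ 6 * e = c0 * L := by rw [hec]; ring
  -- t1 t2
  have htt0 : 1 ≤ t1 * t2 := one_le_mul_of_one_le_of_one_le ht1 ht2
  obtain ⟨θ, hθ⟩ : ∃ θ, t1 * t2 = Real.exp θ := ⟨Real.log (t1 * t2), (Real.exp_log (by linarith)).symm⟩
  have hθ0 : 0 ≤ θ := by
    rw [hθ] at htt0
    have := Real.log_nonneg htt0
    rwa [Real.log_exp] at this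
  have hθe : (a + 4) * θ ≤ e / 2 := by
    rw [hθ, ← Real.exp_mul] at ht
    have h1 := Real.exp_le_exp.mp ht
    have h2 : (a + 4) * θ ≤ (a + 4) * (L * (δ / (2 * (a + 4)))) :=
      mul_le_mul_of_nonneg_left h1 (by linarith)
    have h3 : (a + 4) * (L * (δ / (2 * (a + 4)))) = e / 2 := by
      rw [he]; field_simp
    linarith
  have haθ : 0 ≤ a * θ := by positivity
  have h4θ : 4 * θ ≤ e / 2 := by linarith
  -- products
  have hlam : ∏ i, Real.exp (s i) = Real.exp (s 0 + s 1 + s 2 + s 3) := by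
    rw [Fin.prod_univ_four, ← Real.exp_add, ← Real.exp_add, ← Real.exp_add]
  have hpow : ∀ (x : ℝ) (n : ℕ), Real.exp x ^ n = Real.exp (n * x) := fun x n => (Real.exp_nat_mul x n).symm
  have hsq : ∀ x : ℝ, √(Real.exp x) = Real.exp (x / 2) := fun x => by rw [Real.exp_half]
  have lexp : ∀ c z : ℝ, 0 < c → c ≤ Real.exp z → Real.log c ≤ z := fun c z hc h =>
    (Real.log_le_iff_le_exp hc).mpr h
  have hdetG := hX.xg.det
  -- determinant
  have hk1 : (1 : ℝ) ≤ (k : ℝ) := by exact_mod_cast hX.k1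
  obtain ⟨kk, hkk⟩ : ∃ kk, (k : ℝ) = Real.exp kk := ⟨Real.log k, (Real.exp_log (by linarith)).symm⟩
  have hkk0 : 0 ≤ kk := by
    rw [hkk] at hk1
    have := Real.log_nonneg hk1
    rwa [Real.log_exp] at this
  have hdG1 : (1 : ℝ) ≤ |((G.det : ℤ) : ℝ)| := by
    have : (1 : ℤ) ≤ |G.det| := Int.one_le_abs hdetG
    exact_mod_cast this
  obtain ⟨dg, hdg⟩ : ∃ dg, |((G.det : ℤ) : ℝ)| = Real.exp dg :=
    ⟨Real.log |((G.det : ℤ) : ℝ)|, (Real.exp_log (by linarith)).symm⟩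
  have hdg0 : 0 ≤ dg := by
    rw [hdg] at hdG1
    have := Real.log_nonneg hdG1
    rwa [Real.log_exp] at this
  have hDx : |(((PP5L.SS x).det : ℤ) : ℝ)| = Real.exp (2 * kk + dg) := by
    rw [hX.kd, Int.cast_mul, Int.cast_pow, Int.cast_natCast, abs_mul, hdg, abs_of_nonneg (by positivity),
      hkk, hpow, ← Real.exp_add]
    norm_num
  -- A, p
  have hA0 : 0 < PP5N.mi2 G := mi2_pos hdetG
  obtain ⟨α, hα⟩ : ∃ α, (PP5N.mi2 G : ℝ) = Real.exp α :=
    ⟨Real.log (PP5N.mi2 G), (Real.exp_log (by exact_mod_cast hA0)).symm⟩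
  have hα0 : 0 ≤ α := by
    have h1 : (1 : ℝ) ≤ (PP5N.mi2 G : ℝ) := by exact_mod_cast hA0
    rw [hα] at h1
    have := Real.log_nonneg h1
    rwa [Real.log_exp] at this
  have hT0 : 0 < Real.exp τ := Real.exp_pos _
  have hlp : ∀ i, 0 < Real.exp (s i) := fun i => Real.exp_pos _
  have hgr : ∀ i j, |(G i j : ℝ)| ≤ Cx * Real.exp (s i) * Real.exp (s j) / Real.exp τ := hX.gram
  have hpg := pmx_ge hdetG (l := fun i => Real.exp (s i)) hlp hT0
  have hp0 : 0 < pmx (Real.exp τ) G (fun i => Real.exp (s i)) := by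
    rw [hα, hlam] at hpg
    have : 0 < Real.exp α * Real.exp τ ^ 2 := by positivity
    exact pos_of_mul_pos_left (lt_of_lt_of_le this hpg) (Real.exp_pos _).le
  obtain ⟨π, hπ⟩ : ∃ π, pmx (Real.exp τ) G (fun i => Real.exp (s i)) = Real.exp π :=
    ⟨Real.log _, (Real.exp_log hp0).symm⟩
  have hk9 : α - π ≤ (s 0 + s 1 + s 2 + s 3) - 2 * τ := by
    rw [hα, hlam, hπ, hpow, ← Real.exp_add, ← Real.exp_add] at hpg
    have := Real.exp_le_exp.mp hpg
    push_cast at this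
    linarith
  have hpi : π ≤ e := by
    have h1 := pmx_le (l := fun i => Real.exp (s i)) hlp hT0 hCx0.le hgr
    rw [hπ] at h1
    have h2 := (Real.le_log_iff_exp_le (by positivity)).mpr h1
    linarith
  -- T
  have hgam : -e ≤ 2 / 5 * L - τ := by
    have h1 : Real.exp τ ≤ max C1 1 * Real.exp (L * (2 / 5)) := by
      refine hT.trans ?_
      rw [← Real.exp_mul]
      exact mul_le_mul_of_nonneg_right (le_max_left _ _) (Real.exp_pos _).le
    have h2 : max C1 1 * Real.exp (L * (2 / 5)) = Real.exp (Real.log (max C1 1) + L * (2 / 5)) := by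
      rw [Real.exp_add, Real.exp_log (by linarith)]
    rw [h2] at h1
    have := Real.exp_le_exp.mp h1
    linarith
  have htau : -e ≤ τ := by
    obtain ⟨j, hj⟩ := hx.pr 2 Nat.prime_two
    have hj0 : x j ≠ 0 := by
      intro h
      rw [h] at hj
      exact hj (dvd_zero _)
    have h1 : (1 : ℝ) ≤ |(x j : ℝ)| := by
      have : (1 : ℤ) ≤ |x j| := Int.one_le_abs hj0
      exact_mod_cast this
    have h2 := hX.Tle j
    have h3 := (tx_le ht1 ht2 j).2
    have h4 : (1 : ℝ) ≤ Real.exp (τ + 2 * θ) := by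
      calc (1 : ℝ) ≤ Real.exp τ * PP5.tx t1 t2 j := h1.trans h2
        _ ≤ Real.exp τ * (t1 * t2) ^ 2 := mul_le_mul_of_nonneg_left h3 hT0.le
        _ = Real.exp (τ + 2 * θ) := by rw [hθ, hpow, ← Real.exp_add]; norm_num
    have := Real.log_nonneg h4
    rw [Real.log_exp] at this
    linarith
  have hs0 : -e ≤ s 0 := by
    have hb0 : ∃ a, b 0 a ≠ 0 := by
      by_contra hcon
      push Not at hcon
      have h1 := hX.ind (Pi.single 0 1) (by
        intro a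
        rw [Finset.sum_eq_single 0]
        · rw [hcon a, mul_zero]
        · intro i _ hi
          rw [Pi.single_eq_of_ne hi, zero_mul]
        · intro h
          exact absurd (Finset.mem_univ _) h)
      have h2 := congrFun h1 0
      rw [Pi.single_eq_same, Pi.zero_apply] at h2
      exact one_ne_zero h2
    obtain ⟨a', ha'⟩ := hb0
    have h1 : (1 : ℝ) ≤ |(b 0 a' : ℝ)| := by
      have : (1 : ℤ) ≤ |b 0 a'| := Int.one_le_abs ha'
      exact_mod_cast this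
    have h2 := hX.bl 0 a'
    have h3 := sg_le ht1 ht2 a'
    have h4 : (1 : ℝ) ≤ Real.exp (s 0 + 2 * θ) := by
      calc (1 : ℝ) ≤ Real.exp (s 0) * PP5.sg t1 t2 a' := h1.trans h2
        _ ≤ Real.exp (s 0) * (t1 * t2) ^ 2 := mul_le_mul_of_nonneg_left h3 (Real.exp_pos _).le
        _ = Real.exp (s 0 + 2 * θ) := by rw [hθ, hpow, ← Real.exp_add]; norm_num
    have := Real.log_nonneg h4
    rw [Real.log_exp] at this
    linarith
  obtain ⟨m1, m2, m3⟩ := hX.mono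
  have hs01 : s 0 ≤ s 1 := Real.exp_le_exp.mp m1
  have hs12 : s 1 ≤ s 2 := Real.exp_le_exp.mp m2
  have hs23 : s 2 ≤ s 3 := Real.exp_le_exp.mp m3
  have hla : s 0 + s 1 + s 2 + s 3 ≤ 4 * τ + e := by
    have h1 : ∏ i, Real.exp (s i) ≤ Cx * Real.exp τ ^ 4 := hX.prod
    have h2 : Cx * Real.exp τ ^ 4 = Real.exp (Real.log Cx + 4 * τ) := by
      rw [Real.exp_add, Real.exp_log hCx0, hpow]; norm_num
    rw [hlam, h2] at h1
    have := Real.exp_le_exp.mp h1
    linarith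
  have hk7 : dg + 4 * τ - 2 * (s 0 + s 1 + s 2 + s 3) ≤ e := by
    have h1 := det_le_lam (l := fun i => Real.exp (s i)) hlp hT0 hCx0.le hgr
    have h2 : 24 * Cx ^ 4 * (∏ i, Real.exp (s i)) ^ 2 / Real.exp τ ^ 4
        = Real.exp (Real.log (24 * Cx ^ 4) + 2 * (s 0 + s 1 + s 2 + s 3) - 4 * τ) := by
      rw [hlam, hpow, hpow, Real.exp_sub, Real.exp_add, Real.exp_log (by positivity)]
      norm_num
    rw [h2, hdg] at h1
    have := Real.exp_le_exp.mp h1
    linarith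
  have hk6 : kk + (s 0 + s 1 + s 2 + s 3) ≤ 4 * τ + e := by
    have h1 := hCW t1 t2 (Real.exp τ) ht1 ht2 x b G _ k hx hX
    have h2 : Cw * (t1 * t2) ^ a * Real.exp τ ^ 4 = Real.exp (Real.log Cw + a * θ + 4 * τ) := by
      rw [Real.exp_add, Real.exp_add, Real.exp_log (by linarith), hθ, ← Real.exp_mul, hpow, mul_comm a θ]
      norm_num
    rw [h2, hkk, hlam, ← Real.exp_add] at h1
    have := Real.exp_le_exp.mp h1
    linarith
  -- the rarity
  set R := Rx (Real.exp L ^ (1000 * c0)) (Real.exp τ) x G (fun i => Real.exp (s i)) with hR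
  obtain ⟨R0, R1, R2, R3, R4, R5, R6, R7⟩ := Rx_ge (Real.exp L ^ (1000 * c0)) (Real.exp τ) x G
    (fun i => Real.exp (s i))
  rw [← hR] at R0 R1 R2 R3 R4 R5 R6 R7
  have hRp : 0 < R := by linarith
  obtain ⟨ρ, hρ⟩ : ∃ ρ, R = Real.exp ρ := ⟨Real.log R, (Real.exp_log hRp).symm⟩
  rw [hρ] at R0 R1 R2 R3 R4 R5 R6 R7
  have hρ0 : 0 ≤ ρ := by
    have := Real.log_nonneg R0
    rwa [Real.log_exp] at this
  have v1 : (Real.exp τ ^ 4 / ∏ i, Real.exp (s i)) ^ 3 = Real.exp (3 * (4 * τ - (s 0 + s 1 + s 2 + s 3))) := by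
    rw [hlam, hpow, ← Real.exp_sub, hpow]; norm_num
  have v1' : Real.exp τ ^ 3 = Real.exp (3 * τ) := by rw [hpow]; norm_num
  have v2 : ((PP5N.mi2 G : ℝ) / pmx (Real.exp τ) G (fun i => Real.exp (s i))) ^ 3
      = Real.exp (3 * (α - π)) := by
    rw [hα, hπ, ← Real.exp_sub, hpow]; norm_num
  have v3 : (Real.exp τ / Real.exp (s 0)) ^ 3 = Real.exp (3 * (τ - s 0)) := by
    rw [← Real.exp_sub, hpow]; norm_num
  have v4 : (Real.exp τ / Real.exp (s 2)) ^ 4 = Real.exp (4 * (τ - s 2)) := by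
    rw [← Real.exp_sub, hpow]; norm_num
  have v5 : Real.exp τ ^ 2 / √|(((PP5L.SS x).det : ℤ) : ℝ)| = Real.exp (2 * τ - (2 * kk + dg) / 2) := by
    rw [hDx, hsq, hpow, ← Real.exp_sub]; norm_num
  have v6 : √(Real.exp τ) = Real.exp (τ / 2) := hsq τ
  have v7 : √(Real.exp τ) / (Real.exp L ^ (1000 * c0)) ^ 3 = Real.exp (τ / 2 - 3000 * c0 * L) := by
    have e1 : ((3 : ℕ) : ℝ) * (L * (1000 * c0)) = 3000 * c0 * L := by push_cast; ring
    rw [v6, ← Real.exp_mul, hpow, e1, ← Real.exp_sub]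
  rw [v1, v1'] at R1
  rw [v2, v1'] at R2
  rw [v3] at R3
  rw [v4] at R4
  rw [v5, v6] at R5
  rw [v6] at R6
  rw [v7] at R7
  have f1 : ρ < 3 * τ → 3 * (4 * τ - (s 0 + s 1 + s 2 + s 3)) ≤ ρ := by
    intro h
    rcases min_le_iff.mp R1 with h1 | h1
    · exact Real.exp_le_exp.mp h1
    · exact absurd (Real.exp_le_exp.mp h1) (not_le.mpr h)
  have f2 : ρ < 3 * τ → 3 * (α - π) ≤ ρ := by
    intro h
    rcases min_le_iff.mp R2 with h1 | h1
    · exact Real.exp_le_exp.mp h1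
    · exact absurd (Real.exp_le_exp.mp h1) (not_le.mpr h)
  have f3 : 3 * (τ - s 0) ≤ ρ := Real.exp_le_exp.mp R3
  have f4 : 4 * (τ - s 2) ≤ ρ := Real.exp_le_exp.mp R4
  have f5 : ρ < τ / 2 → 4 * τ - 2 * ρ ≤ 2 * kk + dg := by
    intro h
    rcases min_le_iff.mp R5 with h1 | h1
    · have := Real.exp_le_exp.mp h1
      linarith
    · exact absurd (Real.exp_le_exp.mp h1) (not_le.mpr h)
  have f6 : ρ < τ / 2 → ¬ IsSquare G.det := by
    rintro h ⟨r, hr⟩
    have h1 := R6 ⟨(k : ℤ) * r, by rw [hX.kd, hr]; ring⟩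
    exact absurd (Real.exp_le_exp.mp h1) (not_le.mpr h)
  have hyp : ∀ z : ℝ, Real.exp L ^ z = Real.exp (z * L) := fun z => by
    rw [← Real.exp_mul, mul_comm]
  have hB : Bc L e τ (Real.log (16 * Cx) + L) ρ α π s :=
    ⟨he0.le, by linarith, hgam, htau, hs0, hs01, hs12, hs23, hla, hρ0, f3, f4, hα0, hpi, hL0.le⟩
  -- the exceptional condition
  have hexc : c0 * L / 4 ≤ ρ + (2 / 5 * L - τ) := by
    by_contra hlt
    push Not at hlt
    refine hGd ?_
    have g1 : ρ < 3 * τ := by linarith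
    have g2 : ρ < τ / 2 := by linarith
    have g3 := f1 g1
    have g4 := f2 g1
    have g5 := f5 g2
    refine ⟨?_, ?_, ?_, ?_, ?_, ?_⟩
    · rw [hyp]
      exact Real.exp_le_exp.mpr (by linarith)
    · rw [hyp, hDx, hpow, ← Real.exp_add]
      refine Real.exp_le_exp.mpr ?_
      push_cast
      linarith
    · rw [hyp, hkk]
      exact Real.exp_le_exp.mpr (by linarith)
    · rw [hyp]
      exact Real.exp_le_exp.mpr (by linarith)
    · intro n hn
      have h1 : n ≤ PP5N.mi2 G := Nat.le_of_dvd hA0 (PP5N.dvd_mi2 hn)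
      have h2 : (n : ℝ) ≤ (PP5N.mi2 G : ℝ) := by exact_mod_cast h1
      refine h2.trans ?_
      rw [hyp, hα]
      exact Real.exp_le_exp.mpr (by linarith)
    · intro f hf0 hfb hfs
      have h1 := Real.exp_le_exp.mp (R7 ⟨f, hf0, hfb, hfs⟩)
      linarith
  refine ⟨⟨?_, ?_, ?_, ?_⟩, ?_⟩
  · rw [hyp]
    exact Real.exp_le_exp.mpr (by linarith)
  · exact Real.exp_le_exp.mpr (by linarith)
  · rw [hyp]
    have w0 : (1 : ℝ) ≤ Real.exp (5 * L) := Real.one_le_exp (by linarith)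
    have w1 : Real.exp τ ^ 3 ≤ Real.exp (5 * L) := by
      rw [v1']; exact Real.exp_le_exp.mpr (by linarith)
    have w2 : √(Real.exp τ) ≤ Real.exp (5 * L) := by
      rw [v6]; exact Real.exp_le_exp.mpr (by linarith)
    refine Rx_le _ _ _ _ _ w0 ((min_le_right _ _).trans w1) ((min_le_right _ _).trans w1) ?_ ?_
      ((min_le_right _ _).trans w2) (fun _ => w2) (fun _ => ?_)
    · rw [v3]; exact Real.exp_le_exp.mpr (by linarith)
    · rw [v4]; exact Real.exp_le_exp.mpr (by linarith)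
    · rw [v7]; exact Real.exp_le_exp.mpr (by linarith)
  · intro hT1
    have hτ0 : τ ≤ 0 := by
      have : Real.exp τ ≤ Real.exp 0 := by rwa [Real.exp_zero]
      exact Real.exp_le_exp.mp this
    have w0 : (1 : ℝ) ≤ Real.exp (4 * e) := Real.one_le_exp (by linarith)
    have w1 : Real.exp τ ^ 3 ≤ Real.exp (4 * e) := by
      rw [v1']; exact Real.exp_le_exp.mpr (by linarith)
    have w2 : √(Real.exp τ) ≤ Real.exp (4 * e) := by
      rw [v6]; exact Real.exp_le_exp.mpr (by linarith)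
    have w3 : Rx (Real.exp L ^ (1000 * c0)) (Real.exp τ) x G (fun i => Real.exp (s i))
        ≤ Real.exp (4 * e) := by
      refine Rx_le _ _ _ _ _ w0 ((min_le_right _ _).trans w1) ((min_le_right _ _).trans w1) ?_ ?_
        ((min_le_right _ _).trans w2) (fun _ => w2) (fun _ => ?_)
      · rw [v3]; exact Real.exp_le_exp.mpr (by linarith)
      · rw [v4]; exact Real.exp_le_exp.mpr (by linarith)
      · rw [v7]; exact Real.exp_le_exp.mpr (by linarith)
    rw [hyp, hpow, div_le_iff₀ (Real.exp_pos _), ← Real.exp_add]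
    refine w3.trans (Real.exp_le_exp.mpr ?_)
    push_cast
    have : c0 / 10 ^ 4 * L = 100 * e := by rw [hec]; ring
    rw [this]
    linarith
  · intro V hV
    have hmain := hpx L e τ (Real.log (16 * Cx) + L) ρ α π kk dg s G hX.xg.sym hX.xg.ev hdetG hgr hα.symm
      hπ.symm hdg.symm hB (by linarith) (by linarith) (by
        have w0 : (1 : ℝ) ≤ Real.exp (5 * L) := Real.one_le_exp (by linarith)
        have w1 : Real.exp τ ^ 3 ≤ Real.exp (5 * L) := by
          rw [v1']; exact Real.exp_le_exp.mpr (by linarith)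
        have w2 : √(Real.exp τ) ≤ Real.exp (5 * L) := by
          rw [v6]; exact Real.exp_le_exp.mpr (by linarith)
        have : R ≤ Real.exp (5 * L) := by
          rw [hR]
          refine Rx_le _ _ _ _ _ w0 ((min_le_right _ _).trans w1) ((min_le_right _ _).trans w1) ?_ ?_
            ((min_le_right _ _).trans w2) (fun _ => w2) (fun _ => ?_)
          · rw [v3]; exact Real.exp_le_exp.mpr (by linarith)
          · rw [v4]; exact Real.exp_le_exp.mpr (by linarith)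
          · rw [v7]; exact Real.exp_le_exp.mpr (by linarith)
        rw [hρ] at this
        exact Real.exp_le_exp.mp this) f1 f2 f5 f6 hkk0 hk6 hk7 (by linarith) hk9 V (by
        intro v hv
        obtain ⟨hz, hni⟩ := hV v hv
        refine ⟨hz.pr, hz.q, ?_, ?_⟩
        · intro i
          have h1 := hz.bx i
          rw [Real.exp_add, Real.exp_log (by positivity)]
          exact h1
        · intro w hw1 hw2 hw3
          have hne : ∃ i j, v i * w j ≠ v j * w i := by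
            by_contra hcon
            push Not at hcon
            exact hw3 hcon
          obtain ⟨i, j, hij⟩ := hni w hw1 hw2 hne
          refine ⟨i, j, ?_⟩
          have h1 : Real.exp (3 * τ - c0 / 10 * L)
              ≤ |((v i * w j - v j * w i : ℤ) : ℝ)| * (Real.exp (s i) * Real.exp (s j)) := by
            rw [Real.exp_sub, ← v1', ← hyp, div_le_iff₀ (by positivity)]
            refine hij.trans (le_of_eq ?_)
            ring
          refine lt_of_lt_of_le ?_ h1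
          have h2 : C * Real.exp (2 * (Real.log (16 * Cx) + L) - Mt L τ ρ)
              = Real.exp (Real.log C + (2 * (Real.log (16 * Cx) + L) - Mt L τ ρ)) := by
            rw [Real.exp_add, Real.exp_log (by linarith)]
          rw [h2]
          refine Real.exp_lt_exp.mpr ?_
          unfold Mt
          linarith)
    refine hmain.trans ?_
    have h1 : C * Real.exp (δ * L) * Real.exp (Mt L τ ρ + 100 * e)
        = Real.exp (Real.log C + δ * L + (Mt L τ ρ + 100 * e)) := by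
      rw [Real.exp_add (Real.log C + δ * L), Real.exp_add (Real.log C), Real.exp_log (by linarith)]
    have h2 : Real.exp L ^ (4 - c0 / 1000) * R / Real.exp τ ^ 8
        = Real.exp ((4 - c0 / 1000) * L + ρ - 8 * τ) := by
      rw [hyp, hρ, hpow, ← Real.exp_add, ← Real.exp_sub]
      norm_num
    rw [h1, h2]
    refine Real.exp_le_exp.mpr ?_
    unfold Mt
    rw [← he]
    linarith

end Pool.Agent.PP5P
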