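import Pool.Agent.PP5P.Hd

/-!
# PP5, exceptional `x`: the level sets of the rarity
-/

set_option autoImplicit false

namespace Pool.Agent.PP5P

open Matrix Finset Pool.Agent.PP5B Pool.Agent.PP5S

/-- a version of `Cnt` with the bound already inserted -/
theorem Cnt.use {Cx : ℝ} {f : ℝ → ℝ → ℝ}
    {Φ : ℝ → ℝ → (Fin 10 → ℤ) → Matrix (Fin 4) (Fin 4) ℤ → (Fin 4 → ℝ) → ℕ → Prop}
    (h : Cnt Cx f Φ) (ε : ℝ) (hε : 0 < ε) : ∃ a C : ℝ, 0 ≤ a ∧ 1 ≤ C ∧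
    ∀ t1 t2 T Q F : ℝ, 1 ≤ t1 → 1 ≤ t2 → 1 ≤ T → 1 ≤ Q → f T Q ≤ F →
    ∀ S : Finset (Fin 10 → ℤ), (∀ x ∈ S, Xat Cx t1 t2 T (Φ Q) x) →
    (S.card : ℝ) ≤ C * (t1 * t2) ^ a * T ^ (8 + ε) * F := by
  obtain ⟨a, C, ha, hC, h1⟩ := h ε hε
  refine ⟨a, C, ha, hC, ?_⟩
  intro t1 t2 T Q F ht1 ht2 hT hQ hF S hS
  refine (h1 t1 t2 T Q ht1 ht2 hT hQ S hS).trans ?_
  have : 0 ≤ C * (t1 * t2) ^ a * T ^ (8 + ε) := by positivity
  exact mul_le_mul_of_nonneg_left hF this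

theorem root_le {R z : ℝ} {n : ℕ} (hn : n ≠ 0) (hR : 0 ≤ R) (hz : 0 ≤ z) (h : R ≤ z ^ n) :
    R ^ (1 / (n : ℝ)) ≤ z := by
  have h1 : R ^ (1 / (n : ℝ)) ≤ (z ^ n) ^ (1 / (n : ℝ)) := Real.rpow_le_rpow hR h (by positivity)
  rw [one_div] at h1 ⊢
  rwa [Real.pow_rpow_inv_natCast hz hn] at h1

theorem root_pow {R : ℝ} {n : ℕ} (hn : n ≠ 0) (hR : 0 ≤ R) : (R ^ (1 / (n : ℝ))) ^ n = R := by
  rw [one_div, Real.rpow_inv_natCast_pow hR hn]

/-- the level sets of the rarity -/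
theorem lev_count {Cx : ℝ} (hK : CK Cx) (hA : CA Cx) (h0 : CL0 Cx) (h2 : CL2 Cx) (hE : CE Cx)
    (hS : CS Cx) (hall : C0x Cx) (ε : ℝ) (hε : 0 < ε) : ∃ a C : ℝ, 0 ≤ a ∧ 1 ≤ C ∧
    ∀ t1 t2 T Q R : ℝ, 1 ≤ t1 → 1 ≤ t2 → 1 ≤ T → 1 ≤ Q → 1 ≤ R →
    ∀ (Tf : (Fin 10 → ℤ) → ℝ) (bf : (Fin 10 → ℤ) → Fin 4 → PP5.Sp)
      (Gf : (Fin 10 → ℤ) → Matrix (Fin 4) (Fin 4) ℤ) (lf : (Fin 10 → ℤ) → Fin 4 → ℝ)
      (kf : (Fin 10 → ℤ) → ℕ) (S : Finset (Fin 10 → ℤ)),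
    (∀ x ∈ S, Xok x ∧ XD Cx t1 t2 (Tf x) x (bf x) (Gf x) (lf x) (kf x) ∧ Tf x ≤ T ∧
      T ≤ 2 * Tf x ∧ R ≤ Rx Q (Tf x) x (Gf x) (lf x)) →
    (S.card : ℝ) ≤ C * (t1 * t2) ^ a * T ^ (8 + ε) / R := by
  classical
  obtain ⟨a1, C1, ha1, hC1, u1⟩ := Cnt.use hK ε hε
  obtain ⟨a2, C2, ha2, hC2, u2⟩ := Cnt.use hA ε hε
  obtain ⟨a3, C3, ha3, hC3, u3⟩ := Cnt.use h0 ε hε
  obtain ⟨a4, C4, ha4, hC4, u4⟩ := Cnt.use h2 ε hε
  obtain ⟨a5, C5, ha5, hC5, u5⟩ := Cnt.use hE ε hε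
  obtain ⟨a6, C6, ha6, hC6, u6⟩ := Cnt.use hS ε hε
  obtain ⟨a7, C7, ha7, hC7, u7⟩ := Cnt.use hall ε hε
  refine ⟨a1 + a2 + a3 + a4 + a5 + a6 + a7, 2 * (C1 + C2 + C3 + C4 + C5 + 2 * C6 + C7), by linarith,
    by linarith, ?_⟩
  intro t1 t2 T Q R ht1 ht2 hT hQ hR Tf bf Gf lf kf S hSx
  have htt : 1 ≤ t1 * t2 := by nlinarith
  have hT0 : 0 < T := by linarith
  have hR0 : 0 < R := by linarith
  set P : ℝ := (t1 * t2) ^ (a1 + a2 + a3 + a4 + a5 + a6 + a7) * T ^ (8 + ε) with hP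
  have hP0 : 0 < P := by positivity
  -- one class
  have hone : ∀ (a C F : ℝ) (N : ℝ), a ≤ a1 + a2 + a3 + a4 + a5 + a6 + a7 → 1 ≤ C → F ≤ 2 / R →
      N ≤ C * (t1 * t2) ^ a * T ^ (8 + ε) * F → N ≤ C * (2 * P / R) := by
    intro a C F N ha hC hF hN
    have e1 : (t1 * t2) ^ a ≤ (t1 * t2) ^ (a1 + a2 + a3 + a4 + a5 + a6 + a7) :=
      Real.rpow_le_rpow_of_exponent_le htt ha
    have e0 : 0 ≤ C * (t1 * t2) ^ a * T ^ (8 + ε) := by positivity
    calc N ≤ C * (t1 * t2) ^ a * T ^ (8 + ε) * F := hN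
      _ ≤ C * (t1 * t2) ^ a * T ^ (8 + ε) * (2 / R) := mul_le_mul_of_nonneg_left hF e0
      _ ≤ C * (t1 * t2) ^ (a1 + a2 + a3 + a4 + a5 + a6 + a7) * T ^ (8 + ε) * (2 / R) := by
          refine mul_le_mul_of_nonneg_right (mul_le_mul_of_nonneg_right
            (mul_le_mul_of_nonneg_left e1 (by linarith)) (by positivity)) (by positivity)
      _ = C * (2 * P / R) := by rw [hP]; ring
  have hfin : ∀ N : ℝ, N ≤ (C1 + C2 + C3 + C4 + C5 + 2 * C6 + C7) * (2 * P / R) →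
      N ≤ 2 * (C1 + C2 + C3 + C4 + C5 + 2 * C6 + C7) *
        (t1 * t2) ^ (a1 + a2 + a3 + a4 + a5 + a6 + a7) * T ^ (8 + ε) / R := by
    intro N h
    refine h.trans (le_of_eq ?_)
    rw [hP]; ring
  have hPR : 0 < 2 * P / R := by positivity
  by_cases hR1 : R ≤ 1
  · have hRe : R = 1 := le_antisymm hR1 hR
    refine hfin _ ?_
    have h1 := u7 t1 t2 T 1 1 ht1 ht2 hT (le_refl _) (le_refl _) S (fun x hx => by
      obtain ⟨b1, b2, b3, b4, -⟩ := hSx x hx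
      exact ⟨b1, Tf x, bf x, Gf x, lf x, kf x, b2, b3, b4, trivial⟩)
    have h3 := hone a7 C7 1 _ (by linarith) hC7 (by rw [hRe]; norm_num) h1
    refine h3.trans (mul_le_mul_of_nonneg_right (by linarith) hPR.le)
  push Not at hR1
  -- the classes
  set q3 : ℝ := R ^ (1 / ((3 : ℕ) : ℝ)) with hq3
  set q4 : ℝ := R ^ (1 / ((4 : ℕ) : ℝ)) with hq4
  have hq31 : 1 ≤ q3 := Real.one_le_rpow hR (by positivity)
  have hq41 : 1 ≤ q4 := Real.one_le_rpow hR (by positivity)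
  have hq3p : q3 ^ 3 = R := root_pow (by norm_num) hR0.le
  have hq4p : q4 ^ 4 = R := root_pow (by norm_num) hR0.le
  set S1 := S.filter (fun x => q3 * ∏ i, lf x i ≤ Tf x ^ 4 ∧ R ≤ T ^ 3) with hS1
  set S2 := S.filter (fun x => q3 * pmx (Tf x) (Gf x) (lf x) ≤ (PP5N.mi2 (Gf x) : ℝ) ∧ R ≤ T ^ 3) with hS2
  set S3 := S.filter (fun x => q3 * lf x 0 ≤ Tf x) with hS3
  set S4 := S.filter (fun x => q4 * lf x 2 ≤ Tf x) with hS4
  set S5 := S.filter (fun x => R ^ 2 * |(((PP5L.SS x).det : ℤ) : ℝ)| ≤ Tf x ^ 4 ∧ R ≤ √T) with hS5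
  set S6 := S.filter (fun x => IsSquare (PP5L.SS x).det ∧ R ≤ √T) with hS6
  set S7 := S.filter (fun x => (∃ f : ℤ, f ≠ 0 ∧ |(f : ℝ)| ≤ Q ∧ IsSquare (f * (PP5L.SS x).det)) ∧
    R * Q ^ 3 ≤ √T) with hS7
  have hcov : S ⊆ S1 ∪ (S2 ∪ (S3 ∪ (S4 ∪ (S5 ∪ (S6 ∪ S7))))) := by
    intro x hx
    obtain ⟨b1, b2, b3, b4, b5⟩ := hSx x hx
    by_contra hno
    simp only [Finset.mem_union, not_or] at hno
    obtain ⟨n1, n2, n3, n4, n5, n6, n7⟩ := hno
    have hT'0 := b2.T0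
    have hlp := b2.lp
    have hlam : 0 < ∏ i, lf x i := Finset.prod_pos fun i _ => hlp i
    have hdet := b2.xg.det
    have hpg := pmx_ge hdet hlp hT'0
    have hA0 : (0 : ℝ) < PP5N.mi2 (Gf x) := by exact_mod_cast mi2_pos hdet
    have hp0 : 0 < pmx (Tf x) (Gf x) (lf x) := by
      have : 0 < (PP5N.mi2 (Gf x) : ℝ) * Tf x ^ 2 := by positivity
      exact pos_of_mul_pos_left (lt_of_lt_of_le this hpg) hlam.le
    have hD0 : (0 : ℝ) < |(((PP5L.SS x).det : ℤ) : ℝ)| := abs_pos.mpr (by exact_mod_cast b1.dn)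
    have hT'3 : Tf x ^ 3 ≤ T ^ 3 := pow_le_pow_left₀ hT'0.le b3 3
    have hT's : √(Tf x) ≤ √T := Real.sqrt_le_sqrt b3
    have hlt : Rx Q (Tf x) x (Gf x) (lf x) < R := by
      obtain ⟨R', hR', hR'R⟩ : ∃ R', Rx Q (Tf x) x (Gf x) (lf x) ≤ R' ∧ R' < R := by
        -- all components are smaller than `R`
        have c1 : min ((Tf x ^ 4 / ∏ i, lf x i) ^ 3) (Tf x ^ 3) < R := by
          by_contra hcon
          push Not at hcon
          rw [le_min_iff] at hcon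
          refine n1 (Finset.mem_filter.mpr ⟨hx, ?_, hcon.2.trans hT'3⟩)
          have := root_le (n := 3) (by norm_num) hR0.le (div_pos (pow_pos hT'0 4) hlam).le hcon.1
          rwa [← hq3, le_div_iff₀ hlam] at this
        have c2 : min (((PP5N.mi2 (Gf x) : ℝ) / pmx (Tf x) (Gf x) (lf x)) ^ 3) (Tf x ^ 3) < R := by
          by_contra hcon
          push Not at hcon
          rw [le_min_iff] at hcon
          refine n2 (Finset.mem_filter.mpr ⟨hx, ?_, hcon.2.trans hT'3⟩)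
          have := root_le (n := 3) (by norm_num) hR0.le (div_pos hA0 hp0).le hcon.1
          rwa [← hq3, le_div_iff₀ hp0] at this
        have c3 : (Tf x / lf x 0) ^ 3 < R := by
          by_contra hcon
          push Not at hcon
          refine n3 (Finset.mem_filter.mpr ⟨hx, ?_⟩)
          have hl0 := hlp 0
          have := root_le (n := 3) (by norm_num) hR0.le (div_pos hT'0 hl0).le hcon
          rwa [← hq3, le_div_iff₀ (hlp 0)] at this
        have c4 : (Tf x / lf x 2) ^ 4 < R := by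
          by_contra hcon
          push Not at hcon
          refine n4 (Finset.mem_filter.mpr ⟨hx, ?_⟩)
          have hl0 := hlp 2
          have := root_le (n := 4) (by norm_num) hR0.le (div_pos hT'0 hl0).le hcon
          rwa [← hq4, le_div_iff₀ (hlp 2)] at this
        have c5 : min (Tf x ^ 2 / √|(((PP5L.SS x).det : ℤ) : ℝ)|) (√(Tf x)) < R := by
          by_contra hcon
          push Not at hcon
          rw [le_min_iff] at hcon
          refine n5 (Finset.mem_filter.mpr ⟨hx, ?_, hcon.2.trans hT's⟩)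
          have h1 := hcon.1
          rw [le_div_iff₀ (Real.sqrt_pos.mpr hD0)] at h1
          have h2 := pow_le_pow_left₀ (mul_nonneg hR0.le (Real.sqrt_nonneg _)) h1 2
          rw [mul_pow, Real.sq_sqrt (abs_nonneg _)] at h2
          refine h2.trans (le_of_eq (by ring))
        have c6 : IsSquare (PP5L.SS x).det → √(Tf x) < R := by
          intro hs
          by_contra hcon
          push Not at hcon
          exact n6 (Finset.mem_filter.mpr ⟨hx, hs, hcon.trans hT's⟩)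
        have c7 : (∃ f : ℤ, f ≠ 0 ∧ |(f : ℝ)| ≤ Q ∧ IsSquare (f * (PP5L.SS x).det)) →
            √(Tf x) / Q ^ 3 < R := by
          intro hs
          by_contra hcon
          push Not at hcon
          refine n7 (Finset.mem_filter.mpr ⟨hx, hs, ?_⟩)
          rw [le_div_iff₀ (by positivity)] at hcon
          exact hcon.trans hT's
        by_cases i6 : IsSquare (PP5L.SS x).det
        · by_cases i7 : (∃ f : ℤ, f ≠ 0 ∧ |(f : ℝ)| ≤ Q ∧ IsSquare (f * (PP5L.SS x).det))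
          · refine ⟨max 1 (max (min ((Tf x ^ 4 / ∏ i, lf x i) ^ 3) (Tf x ^ 3))
              (max (min (((PP5N.mi2 (Gf x) : ℝ) / pmx (Tf x) (Gf x) (lf x)) ^ 3) (Tf x ^ 3))
              (max ((Tf x / lf x 0) ^ 3) (max ((Tf x / lf x 2) ^ 4)
              (max (min (Tf x ^ 2 / √|(((PP5L.SS x).det : ℤ) : ℝ)|) (√(Tf x)))
              (max (√(Tf x)) (√(Tf x) / Q ^ 3))))))), ?_, ?_⟩
            · unfold Rx
              rw [if_pos i6, if_pos i7]
            · exact max_lt hR1 (max_lt c1 (max_lt c2 (max_lt c3 (max_lt c4 (max_lt c5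
                (max_lt (c6 i6) (c7 i7)))))))
          · refine ⟨max 1 (max (min ((Tf x ^ 4 / ∏ i, lf x i) ^ 3) (Tf x ^ 3))
              (max (min (((PP5N.mi2 (Gf x) : ℝ) / pmx (Tf x) (Gf x) (lf x)) ^ 3) (Tf x ^ 3))
              (max ((Tf x / lf x 0) ^ 3) (max ((Tf x / lf x 2) ^ 4)
              (max (min (Tf x ^ 2 / √|(((PP5L.SS x).det : ℤ) : ℝ)|) (√(Tf x)))
              (max (√(Tf x)) 0)))))), ?_, ?_⟩
            · unfold Rx
              rw [if_pos i6, if_neg i7]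
            · exact max_lt hR1 (max_lt c1 (max_lt c2 (max_lt c3 (max_lt c4 (max_lt c5
                (max_lt (c6 i6) hR0))))))
        · by_cases i7 : (∃ f : ℤ, f ≠ 0 ∧ |(f : ℝ)| ≤ Q ∧ IsSquare (f * (PP5L.SS x).det))
          · refine ⟨max 1 (max (min ((Tf x ^ 4 / ∏ i, lf x i) ^ 3) (Tf x ^ 3))
              (max (min (((PP5N.mi2 (Gf x) : ℝ) / pmx (Tf x) (Gf x) (lf x)) ^ 3) (Tf x ^ 3))
              (max ((Tf x / lf x 0) ^ 3) (max ((Tf x / lf x 2) ^ 4)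
              (max (min (Tf x ^ 2 / √|(((PP5L.SS x).det : ℤ) : ℝ)|) (√(Tf x)))
              (max 0 (√(Tf x) / Q ^ 3))))))), ?_, ?_⟩
            · unfold Rx
              rw [if_neg i6, if_pos i7]
            · exact max_lt hR1 (max_lt c1 (max_lt c2 (max_lt c3 (max_lt c4 (max_lt c5
                (max_lt hR0 (c7 i7)))))))
          · refine ⟨max 1 (max (min ((Tf x ^ 4 / ∏ i, lf x i) ^ 3) (Tf x ^ 3))
              (max (min (((PP5N.mi2 (Gf x) : ℝ) / pmx (Tf x) (Gf x) (lf x)) ^ 3) (Tf x ^ 3))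
              (max ((Tf x / lf x 0) ^ 3) (max ((Tf x / lf x 2) ^ 4)
              (max (min (Tf x ^ 2 / √|(((PP5L.SS x).det : ℤ) : ℝ)|) (√(Tf x)))
              (max 0 0)))))), ?_, ?_⟩
            · unfold Rx
              rw [if_neg i6, if_neg i7]
            · exact max_lt hR1 (max_lt c1 (max_lt c2 (max_lt c3 (max_lt c4 (max_lt c5
                (max_lt hR0 hR0))))))
      exact lt_of_le_of_lt hR' hR'R
    linarith
  have hTinv3 : R ≤ T ^ 3 → q3⁻¹ ^ 3 + T⁻¹ ^ 3 ≤ 2 / R := by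
    intro h
    rw [inv_pow, inv_pow, hq3p]
    have : (T ^ 3)⁻¹ ≤ R⁻¹ := inv_anti₀ hR0 h
    rw [div_eq_mul_inv]
    linarith
  have hThalf : T ^ (-(1 / 2) : ℝ) = (√T)⁻¹ := by
    rw [Real.rpow_neg hT0.le, Real.sqrt_eq_rpow]
  have m1 : (S1.card : ℝ) ≤ C1 * (2 * P / R) := by
    rcases S1.eq_empty_or_nonempty with he | ⟨x0, hx0⟩
    · rw [he]; simp only [Finset.card_empty, Nat.cast_zero]; positivity
    have hRT := (Finset.mem_filter.mp hx0).2.2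
    refine hone a1 C1 _ _ (by linarith) hC1 (hTinv3 hRT) (u1 t1 t2 T q3 _ ht1 ht2 hT hq31 (le_refl _) S1 ?_)
    intro x hx
    obtain ⟨hxS, h1, -⟩ := Finset.mem_filter.mp hx
    obtain ⟨b1, b2, b3, b4, -⟩ := hSx x hxS
    exact ⟨b1, Tf x, bf x, Gf x, lf x, kf x, b2, b3, b4, h1⟩
  have m2 : (S2.card : ℝ) ≤ C2 * (2 * P / R) := by
    rcases S2.eq_empty_or_nonempty with he | ⟨x0, hx0⟩
    · rw [he]; simp only [Finset.card_empty, Nat.cast_zero]; positivity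
    have hRT := (Finset.mem_filter.mp hx0).2.2
    refine hone a2 C2 _ _ (by linarith) hC2 (hTinv3 hRT) (u2 t1 t2 T q3 _ ht1 ht2 hT hq31 (le_refl _) S2 ?_)
    intro x hx
    obtain ⟨hxS, h1, -⟩ := Finset.mem_filter.mp hx
    obtain ⟨b1, b2, b3, b4, -⟩ := hSx x hxS
    have hT'0 := b2.T0
    have hlp := b2.lp
    have hlam : 0 < ∏ i, lf x i := Finset.prod_pos fun i _ => hlp i
    have hdet := b2.xg.det
    have hpg := pmx_ge hdet hlp hT'0
    have hA0 : (0 : ℝ) < PP5N.mi2 (Gf x) := by exact_mod_cast mi2_pos hdet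
    have hp0 : 0 < pmx (Tf x) (Gf x) (lf x) := by
      have : 0 < (PP5N.mi2 (Gf x) : ℝ) * Tf x ^ 2 := by positivity
      exact pos_of_mul_pos_left (lt_of_lt_of_le this hpg) hlam.le
    refine ⟨b1, Tf x, bf x, Gf x, lf x, kf x, b2, b3, b4, pmx (Tf x) (Gf x) (lf x), hp0, ?_, h1⟩
    intro i j k k'
    have h5 := le_pmx (Tf x) (Gf x) (lf x) i j k k'
    have hd : 0 < lf x i * lf x j * lf x k * lf x k' :=
      mul_pos (mul_pos (mul_pos (hlp i) (hlp j)) (hlp k)) (hlp k')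
    rw [div_le_iff₀ hd] at h5
    exact h5
  have m3 : (S3.card : ℝ) ≤ C3 * (2 * P / R) := by
    refine hone a3 C3 _ _ (by linarith) hC3 ?_ (u3 t1 t2 T q3 _ ht1 ht2 hT hq31 (le_refl _) S3 ?_)
    · show q3⁻¹ ^ 3 ≤ 2 / R
      rw [inv_pow, hq3p, div_eq_mul_inv]
      have : 0 < R⁻¹ := inv_pos.mpr hR0
      linarith
    · intro x hx
      obtain ⟨hxS, h1⟩ := Finset.mem_filter.mp hx
      obtain ⟨b1, b2, b3, b4, -⟩ := hSx x hxS
      exact ⟨b1, Tf x, bf x, Gf x, lf x, kf x, b2, b3, b4, h1⟩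
  have m4 : (S4.card : ℝ) ≤ C4 * (2 * P / R) := by
    refine hone a4 C4 _ _ (by linarith) hC4 ?_ (u4 t1 t2 T q4 _ ht1 ht2 hT hq41 (le_refl _) S4 ?_)
    · show q4⁻¹ ^ 4 ≤ 2 / R
      rw [inv_pow, hq4p, div_eq_mul_inv]
      have : 0 < R⁻¹ := inv_pos.mpr hR0
      linarith
    · intro x hx
      obtain ⟨hxS, h1⟩ := Finset.mem_filter.mp hx
      obtain ⟨b1, b2, b3, b4, -⟩ := hSx x hxS
      exact ⟨b1, Tf x, bf x, Gf x, lf x, kf x, b2, b3, b4, h1⟩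
  have m5 : (S5.card : ℝ) ≤ C5 * (2 * P / R) := by
    rcases S5.eq_empty_or_nonempty with he | ⟨x0, hx0⟩
    · rw [he]; simp only [Finset.card_empty, Nat.cast_zero]; positivity
    have hRT := (Finset.mem_filter.mp hx0).2.2
    refine hone a5 C5 _ _ (by linarith) hC5 ?_ (u5 t1 t2 T R _ ht1 ht2 hT hR (le_refl _) S5 ?_)
    · show R⁻¹ + T ^ (-(1 / 2) : ℝ) ≤ 2 / R
      rw [hThalf, div_eq_mul_inv]
      have : (√T)⁻¹ ≤ R⁻¹ := inv_anti₀ hR0 hRT
      linarith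
    · intro x hx
      obtain ⟨hxS, h1, -⟩ := Finset.mem_filter.mp hx
      obtain ⟨b1, b2, b3, b4, -⟩ := hSx x hxS
      exact ⟨b1, Tf x, bf x, Gf x, lf x, kf x, b2, b3, b4, h1⟩
  have m6 : (S6.card : ℝ) ≤ C6 * (2 * P / R) := by
    rcases S6.eq_empty_or_nonempty with he | ⟨x0, hx0⟩
    · rw [he]; simp only [Finset.card_empty, Nat.cast_zero]; positivity
    have hRT := (Finset.mem_filter.mp hx0).2.2
    refine hone a6 C6 _ _ (by linarith) hC6 ?_ (u6 t1 t2 T 1 _ ht1 ht2 hT (le_refl _) (le_refl _) S6 ?_)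
    · show (1 : ℝ) ^ 3 * T ^ (-(1 / 2) : ℝ) ≤ 2 / R
      rw [hThalf, div_eq_mul_inv]
      have : (√T)⁻¹ ≤ R⁻¹ := inv_anti₀ hR0 hRT
      have : 0 < R⁻¹ := inv_pos.mpr hR0
      linarith
    · intro x hx
      obtain ⟨hxS, h1, -⟩ := Finset.mem_filter.mp hx
      obtain ⟨b1, b2, b3, b4, -⟩ := hSx x hxS
      exact ⟨b1, Tf x, bf x, Gf x, lf x, kf x, b2, b3, b4, 1, one_ne_zero, by simp, by simpa using h1⟩
  have m7 : (S7.card : ℝ) ≤ C6 * (2 * P / R) := by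
    rcases S7.eq_empty_or_nonempty with he | ⟨x0, hx0⟩
    · rw [he]; simp only [Finset.card_empty, Nat.cast_zero]; positivity
    have hRT := (Finset.mem_filter.mp hx0).2.2
    refine hone a6 C6 _ _ (by linarith) hC6 ?_ (u6 t1 t2 T Q _ ht1 ht2 hT hQ (le_refl _) S7 ?_)
    · show Q ^ 3 * T ^ (-(1 / 2) : ℝ) ≤ 2 / R
      rw [hThalf, ← div_eq_mul_inv, div_le_div_iff₀ (Real.sqrt_pos.mpr hT0) hR0]
      have : 0 < √T := Real.sqrt_pos.mpr hT0
      linarith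
    · intro x hx
      obtain ⟨hxS, h1, -⟩ := Finset.mem_filter.mp hx
      obtain ⟨b1, b2, b3, b4, -⟩ := hSx x hxS
      exact ⟨b1, Tf x, bf x, Gf x, lf x, kf x, b2, b3, b4, h1⟩
  refine hfin _ ?_
  have hc1 : S.card ≤ S1.card + (S2.card + (S3.card + (S4.card + (S5.card + (S6.card + S7.card))))) := by
    refine (Finset.card_le_card hcov).trans ?_
    refine (Finset.card_union_le _ _).trans (Nat.add_le_add_left ?_ _)
    refine (Finset.card_union_le _ _).trans (Nat.add_le_add_left ?_ _)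
    refine (Finset.card_union_le _ _).trans (Nat.add_le_add_left ?_ _)
    refine (Finset.card_union_le _ _).trans (Nat.add_le_add_left ?_ _)
    refine (Finset.card_union_le _ _).trans (Nat.add_le_add_left ?_ _)
    exact Finset.card_union_le _ _
  have hc2 : (S.card : ℝ) ≤ S1.card + (S2.card + (S3.card + (S4.card + (S5.card + (S6.card + S7.card))))) := by
    exact_mod_cast hc1
  have : 0 < C7 * (2 * P / R) := by positivity
  linarith

end Pool.Agent.PP5P
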