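import Pool.Agent.PP5P.Hf
import Pool.Agent.PP5T.Cke
import Pool.Agent.PP5V.Lf

/-!
# PP5, exceptional `x`: (E)
-/

set_option autoImplicit false

namespace Pool.Agent.PP5P

open Matrix Finset Pool.Agent.PP5B Pool.Agent.PP5S

/-- (E), from (nx1) -/
theorem he_of (hN : NX1) (Cx C1 : ℝ) (hCx : 1 ≤ Cx) : HE Cx C1 := by
  intro c0 hc hc'
  exact he_core hN C1 hCx (PP5T.cw Cx hCx) (PP5T.ck Cx hCx) (PP5T.ca Cx hCx) (PP5V.cl0 Cx) (PP5V.cl2 Cx)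
    (PP5V.ce Cx) (PP5V.cs Cx) (PP5V.c0x Cx) c0 hc (by norm_num at hc' ⊢; exact hc')

end Pool.Agent.PP5P
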