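import Pool.Agent.PP5P.Fm

/-!
# PP5, population lemma: the Jacobi identity for the compound form
-/

set_option autoImplicit false

namespace Pool.Agent.PP5P

open Matrix

variable {R : Type*} [CommRing R]

/-- generic symmetric matrix -/
def syR (a b c d e f g h i j : R) : Matrix (Fin 4) (Fin 4) R :=
  !![a, b, c, d; b, e, f, g; c, f, h, i; d, g, i, j]

theorem syR_det (a b c d e f g h i j : R) : (syR a b c d e f g h i j).det =
    a * (e * (h * j - i * i) - f * (f * j - i * g) + g * (f * i - h * g))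
    - b * (b * (h * j - i * i) - f * (c * j - i * d) + g * (c * i - h * d))
    + c * (b * (f * j - i * g) - e * (c * j - i * d) + g * (c * g - f * d))
    - d * (b * (f * i - h * g) - e * (c * i - h * d) + f * (c * g - f * d)) := by
  unfold syR
  rw [Matrix.det_succ_row_zero]
  simp only [Fin.sum_univ_succ, Matrix.det_fin_three, Matrix.submatrix_apply]
  simp [Fin.succAbove]
  ring

theorem syR_adj (a b c d e f g h i j : R) : (syR a b c d e f g h i j).adjugate =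
    syR (e * (h * j - i * i) - f * (f * j - i * g) + g * (f * i - h * g))
       (-(b * (h * j - i * i) - f * (c * j - i * d) + g * (c * i - h * d)))
       (b * (f * j - i * g) - e * (c * j - i * d) + g * (c * g - f * d))
       (-(b * (f * i - h * g) - e * (c * i - h * d) + f * (c * g - f * d)))
       (a * (h * j - i * i) - c * (c * j - i * d) + d * (c * i - h * d))
       (-(a * (f * j - i * g) - b * (c * j - i * d) + d * (c * g - f * d)))
       (a * (f * i - h * g) - b * (c * i - h * d) + c * (c * g - f * d))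
       (a * (e * j - g * g) - b * (b * j - g * d) + d * (b * g - e * d))
       (-(a * (e * i - f * g) - b * (b * i - c * g) + d * (b * f - c * e)))
       (a * (e * h - f * f) - b * (b * h - f * c) + c * (b * f - e * c)) := by
  unfold syR
  ext x y
  rw [Matrix.adjugate_fin_succ_eq_det_submatrix, Matrix.det_fin_three]
  fin_cases x <;> fin_cases y <;> simp [Fin.succAbove, Matrix.submatrix_apply] <;> ring

theorem eq_syR {G : Matrix (Fin 4) (Fin 4) R} (hG : ∀ i j, G i j = G j i) :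
    G = syR (G 0 0) (G 0 1) (G 0 2) (G 0 3) (G 1 1) (G 1 2) (G 1 3) (G 2 2) (G 2 3) (G 3 3) := by
  ext i j
  fin_cases i <;> fin_cases j <;> simp [syR]
  · exact hG 1 0
  · exact hG 2 0
  · exact hG 2 1
  · exact hG 3 0
  · exact hG 3 1
  · exact hG 3 2

/-- the signed complement matrix: `MM A` in the dual order -/
def CC (A : Matrix (Fin 4) (Fin 4) R) : Matrix (Fin 6) (Fin 6) R :=
  !![mr A 2 3 2 3, -mr A 2 3 1 3, mr A 2 3 1 2, mr A 2 3 0 3, -mr A 2 3 0 2, mr A 2 3 0 1;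
     -mr A 1 3 2 3, mr A 1 3 1 3, -mr A 1 3 1 2, -mr A 1 3 0 3, mr A 1 3 0 2, -mr A 1 3 0 1;
     mr A 1 2 2 3, -mr A 1 2 1 3, mr A 1 2 1 2, mr A 1 2 0 3, -mr A 1 2 0 2, mr A 1 2 0 1;
     mr A 0 3 2 3, -mr A 0 3 1 3, mr A 0 3 1 2, mr A 0 3 0 3, -mr A 0 3 0 2, mr A 0 3 0 1;
     -mr A 0 2 2 3, mr A 0 2 1 3, -mr A 0 2 1 2, -mr A 0 2 0 3, mr A 0 2 0 2, -mr A 0 2 0 1;
     mr A 0 1 2 3, -mr A 0 1 1 3, mr A 0 1 1 2, mr A 0 1 0 3, -mr A 0 1 0 2, mr A 0 1 0 1]

/-- Jacobi: the 2 x 2 minors of the adjugate -/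
theorem CC_adj {G : Matrix (Fin 4) (Fin 4) R} (hG : ∀ i j, G i j = G j i) :
    CC G.adjugate = G.det • MM G := by
  rw [eq_syR hG]
  generalize G 0 0 = a, G 0 1 = b, G 0 2 = c, G 0 3 = d, G 1 1 = e, G 1 2 = f, G 1 3 = g, G 2 2 = h,
    G 2 3 = i, G 3 3 = j
  rw [syR_adj, syR_det]
  ext x y
  fin_cases x <;> fin_cases y <;>
    simp only [Fin.zero_eta, Fin.mk_one, Fin.reduceFinMk, CC, MM, mr, syR, Matrix.of_apply, Matrix.cons_val, Matrix.smul_apply,
      smul_eq_mul] <;> ring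

/-- the 2 x 2 minors of a bilinear form -/
theorem CC_form (A : Matrix (Fin 4) (Fin 4) R) (u v w z : Fin 4 → R) :
    pv u v ⬝ᵥ (CC A *ᵥ pv w z) =
      (u ⬝ᵥ (A *ᵥ w)) * (v ⬝ᵥ (A *ᵥ z)) - (u ⬝ᵥ (A *ᵥ z)) * (v ⬝ᵥ (A *ᵥ w)) := by
  simp only [pv, CC, mr, dotProduct, mulVec, Fin.sum_univ_succ]
  simp
  ring

/-- **Jacobi identity** -/
theorem Ph_det {G : Matrix (Fin 4) (Fin 4) R} (hG : ∀ i j, G i j = G j i) (u v w z : Fin 4 → R) :
    G.det * Ph G u v w z =
      (u ⬝ᵥ (G.adjugate *ᵥ w)) * (v ⬝ᵥ (G.adjugate *ᵥ z)) -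
        (u ⬝ᵥ (G.adjugate *ᵥ z)) * (v ⬝ᵥ (G.adjugate *ᵥ w)) := by
  rw [← CC_form, CC_adj hG, Ph, smul_mulVec, dotProduct_smul, smul_eq_mul]

end Pool.Agent.PP5P
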