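import Pool.Agent.PP5P.Cv

/-!
# PP5: decomposable vectors in a box
-/

set_option autoImplicit false

namespace Pool.Agent.PP5P

open Finset Pool.Agent.PP5B

/-- the divisors of an integer -/
theorem zdiv_card (S : Finset ℤ) (N : ℤ) (hN : N ≠ 0) (h : ∀ z ∈ S, z ∣ N) :
    S.card ≤ 2 * N.natAbs.divisors.card := by
  classical
  have h1 : S ⊆ (N.natAbs.divisors.image (fun d : ℕ => (d : ℤ))) ∪
      (N.natAbs.divisors.image (fun d : ℕ => -(d : ℤ))) := by
    intro z hz
    have hzN := h z hz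
    have hd : z.natAbs ∈ N.natAbs.divisors := by
      rw [Nat.mem_divisors]
      exact ⟨Int.natAbs_dvd_natAbs.mpr hzN, Int.natAbs_ne_zero.mpr hN⟩
    rcases Int.natAbs_eq z with h2 | h2
    · exact Finset.mem_union_left _ (Finset.mem_image.mpr ⟨_, hd, h2.symm⟩)
    · exact Finset.mem_union_right _ (Finset.mem_image.mpr ⟨_, hd, h2.symm⟩)
  refine (Finset.card_le_card h1).trans ((Finset.card_union_le _ _).trans ?_)
  have h2 := Finset.card_image_le (s := N.natAbs.divisors) (f := fun d : ℕ => (d : ℤ))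
  have h3 := Finset.card_image_le (s := N.natAbs.divisors) (f := fun d : ℕ => -(d : ℤ))
  omega

/-- integers in a symmetric interval -/
noncomputable def Ib (X : ℝ) : Finset ℤ := Finset.Icc (-⌊X⌋) ⌊X⌋

theorem mem_Ib {X : ℝ} {z : ℤ} : z ∈ Ib X ↔ |(z : ℝ)| ≤ X := by
  unfold Ib
  rw [Finset.mem_Icc, ← abs_le, Int.le_floor]
  push_cast
  rfl

theorem Ib_card {X : ℝ} (hX : 0 ≤ X) : ((Ib X).card : ℝ) ≤ 2 * X + 1 := card_Icc_le X hX

/-- quadruples with `a d = b c` -/
theorem quad_count (X : Fin 4 → ℝ) (hX : ∀ i, 0 ≤ X i) (D : ℝ)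
    (hD : ∀ N : ℤ, N ≠ 0 → |(N : ℝ)| ≤ X 0 * X 3 → 2 * (N.natAbs.divisors.card : ℝ) ≤ D)
    (hD0 : 0 ≤ D)
    (S : Finset (Fin 4 → ℤ)) (hS : ∀ q ∈ S, (∀ i, |(q i : ℝ)| ≤ X i) ∧ q 0 * q 3 = q 1 * q 2) :
    (S.card : ℝ) ≤ D * ((2 * X 0 + 1) * (2 * X 3 + 1)) +
      ((2 * X 0 + 1) + (2 * X 3 + 1)) * ((2 * X 1 + 1) + (2 * X 2 + 1)) := by
  classical
  set S1 := S.filter (fun q => q 0 * q 3 ≠ 0) with hS1
  set S2 := S.filter (fun q => ¬ (q 0 * q 3 ≠ 0)) with hS2
  have hsplit : S.card = S1.card + S2.card :=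
    (Finset.card_filter_add_card_filter_not (s := S) (fun q => q 0 * q 3 ≠ 0)).symm
  have h1 : (S1.card : ℝ) ≤ D * ((2 * X 0 + 1) * (2 * X 3 + 1)) := by
    set f : (Fin 4 → ℤ) → ℤ × ℤ := fun q => (q 0, q 3) with hf
    have himg : ((S1.image f).card : ℝ) ≤ (2 * X 0 + 1) * (2 * X 3 + 1) := by
      have hsub : S1.image f ⊆ Ib (X 0) ×ˢ Ib (X 3) := by
        intro z hz
        obtain ⟨q, hq, rfl⟩ := Finset.mem_image.mp hz
        have hqS := (hS q (Finset.mem_filter.mp hq).1).1
        exact Finset.mem_product.mpr ⟨mem_Ib.mpr (hqS 0), mem_Ib.mpr (hqS 3)⟩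
      have h2 := Finset.card_le_card hsub
      rw [Finset.card_product] at h2
      have h3 : ((S1.image f).card : ℝ) ≤ ((Ib (X 0)).card : ℝ) * ((Ib (X 3)).card : ℝ) := by
        exact_mod_cast h2
      refine h3.trans (mul_le_mul (Ib_card (hX 0)) (Ib_card (hX 3)) (Nat.cast_nonneg _) ?_)
      have := hX 0; linarith
    have hfib : ∀ z ∈ S1.image f, ((S1.filter (fun q => f q = z)).card : ℝ) ≤ D := by
      intro z hz
      obtain ⟨q0, hq0, rfl⟩ := Finset.mem_image.mp hz
      obtain ⟨hq0S, hq0n⟩ := Finset.mem_filter.mp hq0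
      set N := q0 0 * q0 3 with hN
      have hinj : (S1.filter (fun q => f q = f q0)).card
          = ((S1.filter (fun q => f q = f q0)).image (fun q => q 1)).card := by
        refine (Finset.card_image_of_injOn ?_).symm
        intro a ha b hb hab
        rw [Finset.mem_coe, Finset.mem_filter] at ha hb
        have ea := Prod.ext_iff.mp ha.2
        have eb := Prod.ext_iff.mp hb.2
        simp only [hf] at ea eb
        have ra := (hS a (Finset.mem_filter.mp ha.1).1).2
        have rb := (hS b (Finset.mem_filter.mp hb.1).1).2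
        have hab' : a 1 = b 1 := hab
        have hna : a 0 * a 3 = N := by rw [ea.1, ea.2]
        have hnb : b 0 * b 3 = N := by rw [eb.1, eb.2]
        have ha1 : a 1 ≠ 0 := by
          intro h0
          rw [h0, zero_mul, hna] at ra
          exact hq0n ra
        have h2 : a 2 = b 2 := by
          apply mul_left_cancel₀ ha1
          rw [← ra, hna, ← hnb, rb, hab']
        funext i
        fin_cases i
        · show a 0 = b 0; rw [ea.1, eb.1]
        · exact hab'
        · exact h2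
        · show a 3 = b 3; rw [ea.2, eb.2]
      rw [hinj]
      have h2 := zdiv_card ((S1.filter (fun q => f q = f q0)).image (fun q => q 1)) N hq0n (by
        intro z hz
        obtain ⟨a, ha, rfl⟩ := Finset.mem_image.mp hz
        obtain ⟨ha1, ha2⟩ := Finset.mem_filter.mp ha
        have ea := Prod.ext_iff.mp ha2
        simp only [hf] at ea
        have ra := (hS a (Finset.mem_filter.mp ha1).1).2
        refine ⟨a 2, ?_⟩
        rw [hN, ← ea.1, ← ea.2, ra])
      have h3 := hD N hq0n (by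
        rw [hN]
        push_cast
        rw [abs_mul]
        exact mul_le_mul ((hS q0 hq0S).1 0) ((hS q0 hq0S).1 3) (abs_nonneg _) (hX 0))
      refine le_trans ?_ h3
      exact_mod_cast h2
    have h2 : (S1.card : ℝ) ≤ D * (S1.image f).card := by
      rw [Finset.card_eq_sum_card_image f S1]
      push_cast
      refine (Finset.sum_le_card_nsmul _ _ D hfib).trans (le_of_eq ?_)
      rw [nsmul_eq_mul, mul_comm]
    exact h2.trans (mul_le_mul_of_nonneg_left himg hD0)
  have h2 : (S2.card : ℝ) ≤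
      ((2 * X 0 + 1) + (2 * X 3 + 1)) * ((2 * X 1 + 1) + (2 * X 2 + 1)) := by
    set U := ((Ib (X 0) ×ˢ {(0 : ℤ)}) ∪ ({(0 : ℤ)} ×ˢ Ib (X 3))) ×ˢ
      ((Ib (X 1) ×ˢ {(0 : ℤ)}) ∪ ({(0 : ℤ)} ×ˢ Ib (X 2))) with hU
    have hc : S2.card ≤ U.card := by
      refine Finset.card_le_card_of_injOn (fun q => ((q 0, q 3), (q 1, q 2))) ?_ ?_
      · intro q hq
        rw [Finset.mem_coe] at hq
        obtain ⟨hqS, hq0⟩ := Finset.mem_filter.mp hq
        push Not at hq0
        obtain ⟨hb, hr⟩ := hS q hqS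
        have hr0 : q 1 * q 2 = 0 := by rw [← hr]; exact hq0
        rw [Finset.mem_coe, hU, Finset.mem_product]
        refine ⟨?_, ?_⟩
        · rw [Finset.mem_union, Finset.mem_product, Finset.mem_product]
          rcases mul_eq_zero.mp hq0 with h | h
          · right; exact ⟨Finset.mem_singleton.mpr h, mem_Ib.mpr (hb 3)⟩
          · left; exact ⟨mem_Ib.mpr (hb 0), Finset.mem_singleton.mpr h⟩
        · rw [Finset.mem_union, Finset.mem_product, Finset.mem_product]
          rcases mul_eq_zero.mp hr0 with h | h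
          · right; exact ⟨Finset.mem_singleton.mpr h, mem_Ib.mpr (hb 2)⟩
          · left; exact ⟨mem_Ib.mpr (hb 1), Finset.mem_singleton.mpr h⟩
      · intro a _ b _ hab
        have h3 := Prod.ext_iff.mp hab
        have h4 := Prod.ext_iff.mp h3.1
        have h5 := Prod.ext_iff.mp h3.2
        funext i
        fin_cases i
        · exact h4.1
        · exact h5.1
        · exact h5.2
        · exact h4.2
    have hUc : (U.card : ℝ) ≤
        (((Ib (X 0)).card : ℝ) + (Ib (X 3)).card) * (((Ib (X 1)).card : ℝ) + (Ib (X 2)).card) := by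
      rw [hU, Finset.card_product]
      push_cast
      refine mul_le_mul ?_ ?_ (Nat.cast_nonneg _) (by positivity)
      · have := Finset.card_union_le (Ib (X 0) ×ˢ {(0 : ℤ)}) ({(0 : ℤ)} ×ˢ Ib (X 3))
        rw [Finset.card_product, Finset.card_product, Finset.card_singleton, mul_one, one_mul] at this
        exact_mod_cast this
      · have := Finset.card_union_le (Ib (X 1) ×ˢ {(0 : ℤ)}) ({(0 : ℤ)} ×ˢ Ib (X 2))
        rw [Finset.card_product, Finset.card_product, Finset.card_singleton, mul_one, one_mul] at this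
        exact_mod_cast this
    have h3 : (S2.card : ℝ) ≤ U.card := by exact_mod_cast hc
    refine h3.trans (hUc.trans ?_)
    have e0 := Ib_card (hX 0)
    have e1 := Ib_card (hX 1)
    have e2 := Ib_card (hX 2)
    have e3 := Ib_card (hX 3)
    refine mul_le_mul (add_le_add e0 e3) (add_le_add e1 e2) (by positivity) ?_
    have := hX 0; have := hX 3
    linarith
  rw [hsplit]
  push_cast
  linarith

/-- the bound for the number of decomposable vectors -/
noncomputable def plk (D : ℝ) (X : Fin 6 → ℝ) : ℝ :=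
  D * ((2 * X 1 + 1) * (2 * X 2 + 1) * (2 * X 3 + 1) * (2 * X 4 + 1)) +
    ((2 * X 0 + 1) + (2 * X 5 + 1)) * (D * ((2 * X 1 + 1) * (2 * X 4 + 1)) +
      ((2 * X 1 + 1) + (2 * X 4 + 1)) * ((2 * X 2 + 1) + (2 * X 3 + 1)))

theorem pluck (X : Fin 6 → ℝ) (hX : ∀ i, 0 ≤ X i) (D : ℝ) (hD0 : 0 ≤ D)
    (hD : ∀ N : ℤ, N ≠ 0 → |(N : ℝ)| ≤ X 1 * X 4 + X 2 * X 3 → 2 * (N.natAbs.divisors.card : ℝ) ≤ D)
    (S : Finset (Fin 6 → ℤ)) (hS : ∀ q ∈ S, (∀ i, |(q i : ℝ)| ≤ X i) ∧
      q 0 * q 5 - q 1 * q 4 + q 2 * q 3 = 0) : (S.card : ℝ) ≤ plk D X := by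
  classical
  set S1 := S.filter (fun q => q 0 * q 5 ≠ 0) with hS1
  set S2 := S.filter (fun q => ¬ (q 0 * q 5 ≠ 0)) with hS2
  have hsplit : S.card = S1.card + S2.card :=
    (Finset.card_filter_add_card_filter_not (s := S) (fun q => q 0 * q 5 ≠ 0)).symm
  have hbd : ∀ q ∈ S, |((q 0 * q 5 : ℤ) : ℝ)| ≤ X 1 * X 4 + X 2 * X 3 := by
    intro q hq
    obtain ⟨hb, hr⟩ := hS q hq
    have e : q 0 * q 5 = q 1 * q 4 - q 2 * q 3 := by linarith
    rw [e]
    push_cast
    refine (abs_sub _ _).trans ?_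
    rw [abs_mul, abs_mul]
    exact add_le_add (mul_le_mul (hb 1) (hb 4) (abs_nonneg _) (hX 1))
      (mul_le_mul (hb 2) (hb 3) (abs_nonneg _) (hX 2))
  have h1 : (S1.card : ℝ) ≤ D * ((2 * X 1 + 1) * (2 * X 2 + 1) * (2 * X 3 + 1) * (2 * X 4 + 1)) := by
    set f : (Fin 6 → ℤ) → ((ℤ × ℤ) × (ℤ × ℤ)) := fun q => ((q 1, q 2), (q 3, q 4)) with hf
    have himg : ((S1.image f).card : ℝ) ≤
        (2 * X 1 + 1) * (2 * X 2 + 1) * (2 * X 3 + 1) * (2 * X 4 + 1) := by
      have hsub : S1.image f ⊆ (Ib (X 1) ×ˢ Ib (X 2)) ×ˢ (Ib (X 3) ×ˢ Ib (X 4)) := by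
        intro z hz
        obtain ⟨q, hq, rfl⟩ := Finset.mem_image.mp hz
        have hqS := (hS q (Finset.mem_filter.mp hq).1).1
        exact Finset.mem_product.mpr ⟨Finset.mem_product.mpr ⟨mem_Ib.mpr (hqS 1), mem_Ib.mpr (hqS 2)⟩,
          Finset.mem_product.mpr ⟨mem_Ib.mpr (hqS 3), mem_Ib.mpr (hqS 4)⟩⟩
      have h2 := Finset.card_le_card hsub
      rw [Finset.card_product, Finset.card_product, Finset.card_product] at h2
      have h3 : ((S1.image f).card : ℝ) ≤ (((Ib (X 1)).card : ℝ) * ((Ib (X 2)).card : ℝ)) *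
        (((Ib (X 3)).card : ℝ) * ((Ib (X 4)).card : ℝ)) := by exact_mod_cast h2
      refine h3.trans ?_
      have e1 := Ib_card (hX 1)
      have e2 := Ib_card (hX 2)
      have e3 := Ib_card (hX 3)
      have e4 := Ib_card (hX 4)
      have g1 := hX 1; have g2 := hX 2; have g3 := hX 3; have g4 := hX 4
      calc _ ≤ ((2 * X 1 + 1) * (2 * X 2 + 1)) * ((2 * X 3 + 1) * (2 * X 4 + 1)) := by
            refine mul_le_mul (mul_le_mul e1 e2 (Nat.cast_nonneg _) (by linarith))
              (mul_le_mul e3 e4 (Nat.cast_nonneg _) (by linarith)) (by positivity) (by positivity)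
        _ = _ := by ring
    have hfib : ∀ z ∈ S1.image f, ((S1.filter (fun q => f q = z)).card : ℝ) ≤ D := by
      intro z hz
      obtain ⟨q0, hq0, rfl⟩ := Finset.mem_image.mp hz
      obtain ⟨hq0S, hq0n⟩ := Finset.mem_filter.mp hq0
      set N := q0 0 * q0 5 with hN
      have hNa : ∀ a, a ∈ S1.filter (fun q => f q = f q0) → a 0 * a 5 = N ∧ a 1 = q0 1 ∧ a 2 = q0 2 ∧
          a 3 = q0 3 ∧ a 4 = q0 4 := by
        intro a ha
        obtain ⟨ha1, ha2⟩ := Finset.mem_filter.mp ha
        have e0 := Prod.ext_iff.mp ha2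
        have e1 := Prod.ext_iff.mp e0.1
        have e2 := Prod.ext_iff.mp e0.2
        simp only [hf] at e1 e2
        have ra := (hS a (Finset.mem_filter.mp ha1).1).2
        have r0 := (hS q0 hq0S).2
        refine ⟨?_, e1.1, e1.2, e2.1, e2.2⟩
        rw [e1.1, e1.2, e2.1, e2.2] at ra
        rw [hN]
        linarith
      have hinj : (S1.filter (fun q => f q = f q0)).card
          = ((S1.filter (fun q => f q = f q0)).image (fun q => q 0)).card := by
        refine (Finset.card_image_of_injOn ?_).symm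
        intro a ha b hb hab
        rw [Finset.mem_coe] at ha hb
        obtain ⟨na, a1, a2, a3, a4⟩ := hNa a ha
        obtain ⟨nb, b1, b2, b3, b4⟩ := hNa b hb
        have hab' : a 0 = b 0 := hab
        have ha0 : a 0 ≠ 0 := by
          intro h0
          rw [h0, zero_mul] at na
          exact hq0n na.symm
        have h5 : a 5 = b 5 := by
          apply mul_left_cancel₀ ha0
          rw [na, ← nb, hab']
        funext i
        fin_cases i
        · exact hab'
        · show a 1 = b 1; rw [a1, b1]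
        · show a 2 = b 2; rw [a2, b2]
        · show a 3 = b 3; rw [a3, b3]
        · show a 4 = b 4; rw [a4, b4]
        · exact h5
      rw [hinj]
      have h2 := zdiv_card ((S1.filter (fun q => f q = f q0)).image (fun q => q 0)) N hq0n (by
        intro z hz
        obtain ⟨a, ha, rfl⟩ := Finset.mem_image.mp hz
        obtain ⟨na, -⟩ := hNa a ha
        exact ⟨a 5, na.symm⟩)
      have h3 := hD N hq0n (hbd q0 hq0S)
      refine le_trans ?_ h3
      exact_mod_cast h2
    have h2 : (S1.card : ℝ) ≤ D * (S1.image f).card := by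
      rw [Finset.card_eq_sum_card_image f S1]
      push_cast
      refine (Finset.sum_le_card_nsmul _ _ D hfib).trans (le_of_eq ?_)
      rw [nsmul_eq_mul, mul_comm]
    exact h2.trans (mul_le_mul_of_nonneg_left himg hD0)
  have h2 : (S2.card : ℝ) ≤ ((2 * X 0 + 1) + (2 * X 5 + 1)) * (D * ((2 * X 1 + 1) * (2 * X 4 + 1)) +
      ((2 * X 1 + 1) + (2 * X 4 + 1)) * ((2 * X 2 + 1) + (2 * X 3 + 1))) := by
    set g : (Fin 6 → ℤ) → (Fin 4 → ℤ) := fun q => ![q 1, q 2, q 3, q 4] with hg
    set Q := S2.image g with hQ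
    have hQc := quad_count ![X 1, X 2, X 3, X 4] (by intro i; fin_cases i <;> simp [hX]) D (by
      intro N hN hNb
      refine hD N hN (hNb.trans ?_)
      show X 1 * X 4 ≤ _
      have := mul_nonneg (hX 2) (hX 3)
      linarith) hD0 Q (by
      intro q hq
      obtain ⟨a, ha, rfl⟩ := Finset.mem_image.mp hq
      obtain ⟨haS, ha0⟩ := Finset.mem_filter.mp ha
      push Not at ha0
      obtain ⟨hb, hr⟩ := hS a haS
      refine ⟨?_, ?_⟩
      · intro i
        fin_cases i
        · exact hb 1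
        · exact hb 2
        · exact hb 3
        · exact hb 4
      · show a 1 * a 4 = a 2 * a 3
        rw [ha0] at hr
        linarith)
    have hQc' : (Q.card : ℝ) ≤ D * ((2 * X 1 + 1) * (2 * X 4 + 1)) +
      ((2 * X 1 + 1) + (2 * X 4 + 1)) * ((2 * X 2 + 1) + (2 * X 3 + 1)) := hQc
    set U := ((Ib (X 0) ×ˢ {(0 : ℤ)}) ∪ ({(0 : ℤ)} ×ˢ Ib (X 5))) ×ˢ Q with hU
    have hc : S2.card ≤ U.card := by
      refine Finset.card_le_card_of_injOn (fun q => ((q 0, q 5), g q)) ?_ ?_
      · intro q hq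
        rw [Finset.mem_coe] at hq
        obtain ⟨hqS, hq0⟩ := Finset.mem_filter.mp hq
        push Not at hq0
        obtain ⟨hb, hr⟩ := hS q hqS
        rw [Finset.mem_coe, hU, Finset.mem_product]
        refine ⟨?_, Finset.mem_image_of_mem _ hq⟩
        rw [Finset.mem_union, Finset.mem_product, Finset.mem_product]
        rcases mul_eq_zero.mp hq0 with h | h
        · right; exact ⟨Finset.mem_singleton.mpr h, mem_Ib.mpr (hb 5)⟩
        · left; exact ⟨mem_Ib.mpr (hb 0), Finset.mem_singleton.mpr h⟩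
      · intro a _ b _ hab
        have h3 := Prod.ext_iff.mp hab
        have h4 := Prod.ext_iff.mp h3.1
        have h5 : g a = g b := h3.2
        have g0 := congrFun h5 0
        have g1 := congrFun h5 1
        have g2 := congrFun h5 2
        have g3 := congrFun h5 3
        funext i
        fin_cases i
        · exact h4.1
        · exact g0
        · exact g1
        · exact g2
        · exact g3
        · exact h4.2
    have hUc : (U.card : ℝ) ≤ (((Ib (X 0)).card : ℝ) + (Ib (X 5)).card) * (Q.card : ℝ) := by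
      rw [hU, Finset.card_product]
      push_cast
      refine mul_le_mul_of_nonneg_right ?_ (Nat.cast_nonneg _)
      have := Finset.card_union_le (Ib (X 0) ×ˢ {(0 : ℤ)}) ({(0 : ℤ)} ×ˢ Ib (X 5))
      rw [Finset.card_product, Finset.card_product, Finset.card_singleton, mul_one, one_mul] at this
      exact_mod_cast this
    have h3 : (S2.card : ℝ) ≤ U.card := by exact_mod_cast hc
    refine h3.trans (hUc.trans ?_)
    have e0 := Ib_card (hX 0)
    have e5 := Ib_card (hX 5)
    have := hX 0; have := hX 5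
    refine mul_le_mul (add_le_add e0 e5) hQc' (Nat.cast_nonneg _) (by linarith)
  rw [hsplit]
  push_cast
  unfold plk
  linarith

end Pool.Agent.PP5P
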