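import Pool.Agent.PP5P.Pl

/-!
# PP5: the dual vector and the fibres of the plane map
-/

set_option autoImplicit false

namespace Pool.Agent.PP5P

open Matrix Finset Pool.Agent.PP5 Pool.Agent.PP5B

/-- the matrix with columns `v, w, e_k, e_l` -/
def Nkl (v w : Fin 4 → ℤ) (k l : Fin 4) : Matrix (Fin 4) (Fin 4) ℤ :=
  Matrix.of (fun r => ![v r, w r, if r = k then 1 else 0, if r = l then 1 else 0])

theorem mul_Nkl (P : Matrix (Fin 4) (Fin 4) ℤ) (v w : Fin 4 → ℤ) (hv : P *ᵥ v = ![1, 0, 0, 0])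
    (hw : P *ᵥ w = ![0, 0, 0, 1]) (k l : Fin 4) :
    P.det * (Nkl v w k l).det = P 1 k * P 2 l - P 1 l * P 2 k := by
  rw [← Matrix.det_mul]
  have h : P * Nkl v w k l = !![1, 0, P 0 k, P 0 l; 0, 0, P 1 k, P 1 l; 0, 0, P 2 k, P 2 l;
      0, 1, P 3 k, P 3 l] := by
    ext r c
    rw [Matrix.mul_apply]
    have e1 : ∀ r, ∑ x, P r x * v x = (![1, 0, 0, 0] : Fin 4 → ℤ) r := by
      intro r; rw [← hv]; rfl
    have e2 : ∀ r, ∑ x, P r x * w x = (![0, 0, 0, 1] : Fin 4 → ℤ) r := by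
      intro r; rw [← hw]; rfl
    fin_cases c
    · show ∑ x, P r x * v x = _
      rw [e1]
      fin_cases r <;> rfl
    · show ∑ x, P r x * w x = _
      rw [e2]
      fin_cases r <;> rfl
    · show ∑ x, P r x * (if x = k then 1 else 0) = _
      simp only [mul_ite, mul_one, mul_zero, Finset.sum_ite_eq', Finset.mem_univ, if_true]
      fin_cases r <;> rfl
    · show ∑ x, P r x * (if x = l then 1 else 0) = _
      simp only [mul_ite, mul_one, mul_zero, Finset.sum_ite_eq', Finset.mem_univ, if_true]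
      fin_cases r <;> rfl
  rw [h, Matrix.det_succ_row_zero]
  simp [Fin.sum_univ_succ, Matrix.det_fin_three, Fin.succAbove, Matrix.submatrix_apply]

theorem det_Nkl (v w : Fin 4 → ℤ) :
    (Nkl v w 2 3).det = v 0 * w 1 - v 1 * w 0 ∧ (Nkl v w 1 3).det = -(v 0 * w 2 - v 2 * w 0) ∧
    (Nkl v w 1 2).det = v 0 * w 3 - v 3 * w 0 ∧ (Nkl v w 0 3).det = v 1 * w 2 - v 2 * w 1 ∧
    (Nkl v w 0 2).det = -(v 1 * w 3 - v 3 * w 1) ∧ (Nkl v w 0 1).det = v 2 * w 3 - v 3 * w 2 := by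
  refine ⟨?_, ?_, ?_, ?_, ?_, ?_⟩ <;>
  · rw [Matrix.det_succ_row_zero]
    simp [Nkl, Fin.sum_univ_succ, Matrix.det_fin_three, Fin.succAbove, Matrix.submatrix_apply]
    try ring

theorem jac {P : Matrix (Fin 4) (Fin 4) ℤ} {v w : Fin 4 → ℤ} (hv : P *ᵥ v = ![1, 0, 0, 0])
    (hw : P *ᵥ w = ![0, 0, 0, 1]) (hP : |P.det| = 1) (i j : Fin 4) (hij : i ≠ j) :
    ∃ k l : Fin 4, ({i, j, k, l} : Finset (Fin 4)) = Finset.univ ∧
      |v i * w j - v j * w i| = |P 1 k * P 2 l - P 1 l * P 2 k| := by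
  obtain ⟨h23, h13, h12, h03, h02, h01⟩ := det_Nkl v w
  have key : ∀ k l, |(Nkl v w k l).det| = |P 1 k * P 2 l - P 1 l * P 2 k| := by
    intro k l
    rw [← mul_Nkl P v w hv hw k l, abs_mul, hP, one_mul]
  have k23 := key 2 3
  have k13 := key 1 3
  have k12 := key 1 2
  have k03 := key 0 3
  have k02 := key 0 2
  have k01 := key 0 1
  rw [h23] at k23
  rw [h13, abs_neg] at k13
  rw [h12] at k12
  rw [h03] at k03
  rw [h02, abs_neg] at k02
  rw [h01] at k01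
  have sw : ∀ a b : Fin 4, |v a * w b - v b * w a| = |v b * w a - v a * w b| := fun a b => abs_sub_comm _ _
  fin_cases i <;> fin_cases j
  · exact absurd rfl hij
  · exact ⟨2, 3, by decide, k23⟩
  · exact ⟨1, 3, by decide, k13⟩
  · exact ⟨1, 2, by decide, k12⟩
  · exact ⟨2, 3, by decide, (sw _ _).trans k23⟩
  · exact absurd rfl hij
  · exact ⟨0, 3, by decide, k03⟩
  · exact ⟨0, 2, by decide, k02⟩
  · exact ⟨1, 3, by decide, (sw _ _).trans k13⟩
  · exact ⟨0, 3, by decide, (sw _ _).trans k03⟩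
  · exact absurd rfl hij
  · exact ⟨0, 1, by decide, k01⟩
  · exact ⟨1, 2, by decide, (sw _ _).trans k12⟩
  · exact ⟨0, 2, by decide, (sw _ _).trans k02⟩
  · exact ⟨0, 1, by decide, (sw _ _).trans k01⟩
  · exact absurd rfl hij

/-- the dual vector -/
theorem dual_vec {C : ℝ} {l : Fin 4 → ℝ} {H : ℝ} {v : Fin 4 → ℤ} (hv : Pr4 v)
    {b : Fin 3 → Fin 4 → ℤ} (hb : PB C l H v b) : ∃ f0 w : Fin 4 → ℤ,
    (∀ u, b 0 ⬝ᵥ u = 0 → b 1 ⬝ᵥ u = 0 → u = (f0 ⬝ᵥ u) • v + (b 2 ⬝ᵥ u) • w) ∧ ¬ Par v w ∧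
    ∀ i j, i ≠ j → ∃ k l : Fin 4, ({i, j, k, l} : Finset (Fin 4)) = Finset.univ ∧
      |v i * w j - v j * w i| = |b 0 k * b 1 l - b 0 l * b 1 k| := by
  obtain ⟨f0, hf0⟩ := ex_dual v hv
  set P : Matrix (Fin 4) (Fin 4) ℤ := Matrix.of (![f0, b 0, b 1, b 2]) with hP
  choose Q hQ using fun i : Fin 4 => span4 hb hf0 (Pi.single i 1)
  have hQP : Matrix.of Q * P = 1 := by
    ext i j
    have h2 := congrFun (hQ i) j
    rw [Finset.sum_apply] at h2
    rw [Matrix.mul_apply, Matrix.one_apply]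
    simp only [Pi.smul_apply, smul_eq_mul] at h2
    have h3 : (Pi.single i (1 : ℤ) : Fin 4 → ℤ) j = if i = j then 1 else 0 := by
      rw [Pi.single_apply]
      by_cases hij : j = i
      · simp [hij]
      · simp [hij, Ne.symm hij]
    rw [← h3, h2]
    rfl
  have hPQ : P * Matrix.of Q = 1 := mul_eq_one_comm.mp hQP
  have hdet : |P.det| = 1 := by
    have h1 := congrArg Matrix.det hPQ
    rw [Matrix.det_mul, Matrix.det_one] at h1
    exact Int.isUnit_iff_abs_eq.mp (IsUnit.of_mul_eq_one _ h1)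
  have hPv : P *ᵥ v = ![1, 0, 0, 0] := by
    funext r
    fin_cases r
    · exact hf0
    · exact hb.orth 0
    · exact hb.orth 1
    · exact hb.orth 2
  set w : Fin 4 → ℤ := Matrix.of Q *ᵥ ![0, 0, 0, 1] with hw
  have hPw : P *ᵥ w = ![0, 0, 0, 1] := by
    rw [hw, mulVec_mulVec, hPQ, one_mulVec]
  refine ⟨f0, w, ?_, ?_, ?_⟩
  · intro u h0 h1
    have hPu : P *ᵥ u = (f0 ⬝ᵥ u) • ![1, 0, 0, 0] + (b 2 ⬝ᵥ u) • ![0, 0, 0, 1] := by
      funext r
      fin_cases r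
      · show f0 ⬝ᵥ u = (f0 ⬝ᵥ u) * 1 + (b 2 ⬝ᵥ u) * 0
        ring
      · show b 0 ⬝ᵥ u = (f0 ⬝ᵥ u) * 0 + (b 2 ⬝ᵥ u) * 0
        rw [h0]; ring
      · show b 1 ⬝ᵥ u = (f0 ⬝ᵥ u) * 0 + (b 2 ⬝ᵥ u) * 0
        rw [h1]; ring
      · show b 2 ⬝ᵥ u = (f0 ⬝ᵥ u) * 0 + (b 2 ⬝ᵥ u) * 1
        ring
    calc u = (Matrix.of Q * P) *ᵥ u := by rw [hQP, one_mulVec]
      _ = Matrix.of Q *ᵥ (P *ᵥ u) := by rw [mulVec_mulVec]
      _ = Matrix.of Q *ᵥ ((f0 ⬝ᵥ u) • (P *ᵥ v) + (b 2 ⬝ᵥ u) • (P *ᵥ w)) := by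
          rw [hPu, hPv, hPw]
      _ = (f0 ⬝ᵥ u) • v + (b 2 ⬝ᵥ u) • w := by
          rw [mulVec_add, mulVec_smul, mulVec_smul, mulVec_mulVec, mulVec_mulVec, hQP, one_mulVec,
            one_mulVec]
  · intro hpar
    have h1 : ∀ i, v i = 0 := by
      intro i
      have h2 : (v i) • w = (w i) • v := by
        funext j
        show v i * w j = w i * v j
        rw [hpar i j]; ring
      have h3 : (v i) • (P *ᵥ w) = (w i) • (P *ᵥ v) :=
        (mulVec_smul P (v i) w).symm.trans ((congrArg (fun z => P *ᵥ z) h2).trans (mulVec_smul P (w i) v))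
      rw [hPv, hPw] at h3
      have h4 := congrFun h3 3
      have h5 : v i * 1 = w i * 0 := h4
      linarith
    exact hv 2 Nat.prime_two (fun i => by rw [h1 i]; exact dvd_zero _)
  · intro i j hij
    exact jac hPv hPw hdet i j hij

theorem plv_ne {C : ℝ} {l : Fin 4 → ℝ} (hl : ∀ i, 0 < l i) {H : ℝ} {v : Fin 4 → ℤ}
    {b : Fin 3 → Fin 4 → ℤ} (hb : PB C l H v b) : plv (b 0) (b 1) ≠ 0 := by
  intro h
  have h0 := congrFun h 0
  have h1 := congrFun h 1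
  have h2 := congrFun h 2
  have h3 := congrFun h 3
  have h4 := congrFun h 4
  have h5 := congrFun h 5
  simp only [plv, Matrix.cons_val, Pi.zero_apply] at h0 h1 h2 h3 h4 h5
  obtain ⟨j, hj⟩ := Function.ne_iff.mp (hb.ne 1)
  have h6 : ∑ i, (![b 1 j, -(b 0 j), 0] : Fin 3 → ℤ) i • b i = 0 := by
    rw [Fin.sum_univ_three]
    funext i
    show b 1 j * b 0 i + -(b 0 j) * b 1 i + 0 * b 2 i = 0
    fin_cases j <;> fin_cases i <;> simp <;> linarith
  exact hj (hb.inj hl _ h6 0)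

theorem Kp_orth {a b u : Fin 4 → ℤ} (hp : plv a b ≠ 0) (h : Kp (plv a b) u) :
    a ⬝ᵥ u = 0 ∧ b ⬝ᵥ u = 0 := by
  have hall : ∀ i, a i * (b ⬝ᵥ u) = b i * (a ⬝ᵥ u) := by
    intro i
    simp only [dotProduct, Fin.sum_univ_four]
    have e0 := h.r0
    have e1 := h.r1
    have e2 := h.r2
    have e3 := h.r3
    simp only [plv, Matrix.cons_val] at e0 e1 e2 e3
    fin_cases i
    · show a 0 * (b 0 * u 0 + b 1 * u 1 + b 2 * u 2 + b 3 * u 3)
        = b 0 * (a 0 * u 0 + a 1 * u 1 + a 2 * u 2 + a 3 * u 3)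
      linarith
    · show a 1 * (b 0 * u 0 + b 1 * u 1 + b 2 * u 2 + b 3 * u 3)
        = b 1 * (a 0 * u 0 + a 1 * u 1 + a 2 * u 2 + a 3 * u 3)
      linarith
    · show a 2 * (b 0 * u 0 + b 1 * u 1 + b 2 * u 2 + b 3 * u 3)
        = b 2 * (a 0 * u 0 + a 1 * u 1 + a 2 * u 2 + a 3 * u 3)
      linarith
    · show a 3 * (b 0 * u 0 + b 1 * u 1 + b 2 * u 2 + b 3 * u 3)
        = b 3 * (a 0 * u 0 + a 1 * u 1 + a 2 * u 2 + a 3 * u 3)
      linarith
  have hex : ∃ i j, a i * b j - a j * b i ≠ 0 := by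
    by_contra hcon
    push Not at hcon
    refine hp ?_
    funext t
    fin_cases t
    · exact hcon 0 1
    · exact hcon 0 2
    · exact hcon 0 3
    · exact hcon 1 2
    · exact hcon 1 3
    · exact hcon 2 3
  obtain ⟨i, j, hij⟩ := hex
  constructor
  · apply (mul_eq_zero.mp (show (a i * b j - a j * b i) * (a ⬝ᵥ u) = 0 by
      linear_combination (-(a i)) * hall j + (a j) * hall i)).resolve_left hij
  · apply (mul_eq_zero.mp (show (a i * b j - a j * b i) * (b ⬝ᵥ u) = 0 by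
      linear_combination (b j) * hall i - (b i) * hall j)).resolve_left hij

theorem par_eq {v w : Fin 4 → ℤ} (hv : Pr4 v) (hw : Pr4 w) (h : Par v w) : w = v ∨ w = -v := by
  obtain ⟨f, hf⟩ := ex_dual v hv
  have h1 : w = (f ⬝ᵥ w) • v := by
    funext i
    show w i = (f ⬝ᵥ w) * v i
    have h2 : (f ⬝ᵥ w) * v i = (f ⬝ᵥ v) * w i := by
      simp only [dotProduct, Finset.sum_mul]
      refine Finset.sum_congr rfl fun j _ => ?_
      have := h i j
      linear_combination (f j) * this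
    rw [h2, hf, one_mul]
  set c := f ⬝ᵥ w with hc
  have hc1 : c.natAbs = 1 := by
    by_contra hne
    obtain ⟨p, hp, hpd⟩ := Nat.exists_prime_and_dvd hne
    refine hw p hp (fun i => ?_)
    rw [h1]
    show (p : ℤ) ∣ c * v i
    exact Dvd.dvd.mul_right (Int.natCast_dvd.mpr hpd) _
  rcases Int.natAbs_eq c with h2 | h2
  · left
    rw [h1, h2, hc1]
    simp
  · right
    rw [h1, h2, hc1]
    simp

theorem fibre {G : Matrix (Fin 4) (Fin 4) ℤ} (hG : ∀ i j, G i j = G j i) {p : Fin 6 → ℤ} (hp : p ≠ 0)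
    (V : Finset (Fin 4 → ℤ)) (hV : ∀ v ∈ V, Pr4 v ∧ v ⬝ᵥ (G *ᵥ v) = 0 ∧ Kp p v)
    (hn : ∀ v ∈ V, ∀ u ∈ V, v ⬝ᵥ (G *ᵥ u) = 0 → Par v u) : V.card ≤ 4 := by
  classical
  obtain ⟨k, l, hr, hpar⟩ := Kp_rel hp
  have hGt : Gᵀ = G := by
    ext i j
    exact hG j i
  have hsym : ∀ u w : Fin 4 → ℤ, w ⬝ᵥ (G *ᵥ u) = u ⬝ᵥ (G *ᵥ w) := by
    intro u w
    rw [dotProduct_mulVec, ← mulVec_transpose, hGt, dotProduct_comm]
  have h3 : ∀ v1 ∈ V, ∀ v2 ∈ V, ∀ v3 ∈ V, Par v1 v2 ∨ Par v2 v3 ∨ Par v3 v1 := by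
    intro v1 h1 v2 h2 v3 h3
    by_contra hcon
    push Not at hcon
    obtain ⟨c1, c2, c3⟩ := hcon
    have m12 : v1 k * v2 l - v1 l * v2 k ≠ 0 := fun h => c1 (hpar _ _ (hV v1 h1).2.2 (hV v2 h2).2.2 h)
    have m23 : v2 k * v3 l - v2 l * v3 k ≠ 0 := fun h => c2 (hpar _ _ (hV v2 h2).2.2 (hV v3 h3).2.2 h)
    have m31 : v3 k * v1 l - v3 l * v1 k ≠ 0 := fun h => c3 (hpar _ _ (hV v3 h3).2.2 (hV v1 h1).2.2 h)
    set a := v2 k * v3 l - v2 l * v3 k with ha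
    set b := v3 k * v1 l - v3 l * v1 k with hb
    set c := v1 k * v2 l - v1 l * v2 k with hc
    have hrel := hr v1 v2 v3 (hV v1 h1).2.2 (hV v2 h2).2.2 (hV v3 h3).2.2
    have hvec : a • v1 + b • v2 = (-c) • v3 := by
      funext i
      show a * v1 i + b * v2 i = -c * v3 i
      linarith [hrel i]
    have hQ : (a • v1 + b • v2) ⬝ᵥ (G *ᵥ (a • v1 + b • v2)) = 2 * a * b * (v1 ⬝ᵥ (G *ᵥ v2)) := by
      simp only [mulVec_add, mulVec_smul, dotProduct_add, add_dotProduct, dotProduct_smul,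
        smul_dotProduct, smul_eq_mul]
      rw [(hV v1 h1).2.1, (hV v2 h2).2.1, hsym v1 v2]
      ring
    have hQ2 : ((-c) • v3) ⬝ᵥ (G *ᵥ ((-c) • v3)) = 0 := by
      simp only [mulVec_smul, dotProduct_smul, smul_dotProduct, smul_eq_mul]
      rw [(hV v3 h3).2.1]
      ring
    rw [hvec, hQ2] at hQ
    have h12 : v1 ⬝ᵥ (G *ᵥ v2) = 0 := by
      have h5 : 2 * a * b ≠ 0 := mul_ne_zero (mul_ne_zero two_ne_zero m23) m31
      exact (mul_eq_zero.mp hQ.symm).resolve_left h5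
    exact c1 (hn v1 h1 v2 h2 h12)
  rcases V.eq_empty_or_nonempty with he | ⟨v, hv⟩
  · rw [he]; simp
  by_cases hall : ∀ w ∈ V, Par v w
  · have hsub : V ⊆ {v, -v} := by
      intro w hw
      rcases par_eq (hV v hv).1 (hV w hw).1 (hall w hw) with h | h
      · rw [h]; simp
      · rw [h]; simp
    exact (Finset.card_le_card hsub).trans ((Finset.card_insert_le _ _).trans (by simp))
  push Not at hall
  obtain ⟨w, hw, hvw⟩ := hall
  have hsub : V ⊆ {v, -v, w, -w} := by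
    intro u hu
    rcases h3 v hv w hw u hu with h | h | h
    · exact absurd h hvw
    · rcases par_eq (hV w hw).1 (hV u hu).1 h with h | h
      · rw [h]; simp
      · rw [h]; simp
    · have h' : Par v u := by
        intro i j
        have := h j i
        linarith
      rcases par_eq (hV v hv).1 (hV u hu).1 h' with h | h
      · rw [h]; simp
      · rw [h]; simp
  refine (Finset.card_le_card hsub).trans ?_
  have e1 := Finset.card_insert_le v ({-v, w, -w} : Finset (Fin 4 → ℤ))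
  have e2 := Finset.card_insert_le (-v) ({w, -w} : Finset (Fin 4 → ℤ))
  have e3 := Finset.card_insert_le w ({-w} : Finset (Fin 4 → ℤ))
  have e4 : ({-w} : Finset (Fin 4 → ℤ)).card = 1 := Finset.card_singleton _
  omega

end Pool.Agent.PP5P
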