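import Pool.Agent.PP5P.Pf
import Pool.Agent.PP5P.Pk
import Pool.Agent.PP5P.Pm
import Pool.Agent.FTA.DivB

/-!
# PP5: all zeros for `det G ≠ 0` (population part and plane part)
-/

set_option autoImplicit false

namespace Pool.Agent.PP5P

open Matrix Finset Pool.Agent.PP5 Pool.Agent.PP5B

/-- the plane term -/
noncomputable def Pk (E : ℝ) (l : Fin 4 → ℝ) : ℝ :=
  (1 + E * (l 0 * l 2)) * (1 + E * (l 1 * l 3)) * ((1 + E * (l 0 * l 3)) * (1 + E * (l 1 * l 2))) +
    (1 + E * (l 0 * l 1) + E * (l 2 * l 3)) * ((1 + E * (l 0 * l 2)) * (1 + E * (l 1 * l 3)) +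
      (1 + E * (l 0 * l 2) + E * (l 1 * l 3)) * (1 + E * (l 0 * l 3) + E * (l 1 * l 2)))

theorem plk_le {K D : ℝ} (hK : 1 ≤ K) (hD : 1 ≤ D) (z : Fin 6 → ℝ) (hz : ∀ i, 0 ≤ z i) :
    plk D (fun i => K * z i) ≤ 64 * D * K ^ 4 *
      ((1 + z 1) * (1 + z 4) * ((1 + z 2) * (1 + z 3)) + (1 + z 0 + z 5) * ((1 + z 1) * (1 + z 4) +
        (1 + z 1 + z 4) * (1 + z 2 + z 3))) := by
  have hK0 : 0 < K := by linarith
  have h : ∀ i, 2 * (K * z i) + 1 ≤ 2 * K * (1 + z i) := by
    intro i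
    have := hz i
    linarith
  have h0 : ∀ i, 0 ≤ 2 * (K * z i) + 1 := fun i => by have := hz i; positivity
  have h2 : ∀ i j, (2 * (K * z i) + 1) + (2 * (K * z j) + 1) ≤ 4 * K * (1 + z i + z j) := by
    intro i j
    have := hz i
    have := hz j
    have e : 0 ≤ K * z i := by positivity
    have e : 0 ≤ K * z j := by positivity
    linarith
  have h20 : ∀ i j, 0 ≤ (2 * (K * z i) + 1) + (2 * (K * z j) + 1) := fun i j => add_nonneg (h0 i) (h0 j)
  have hm : ∀ i j, (2 * (K * z i) + 1) * (2 * (K * z j) + 1) ≤ 4 * K ^ 2 * ((1 + z i) * (1 + z j)) := by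
    intro i j
    have hi := hz i
    calc _ ≤ (2 * K * (1 + z i)) * (2 * K * (1 + z j)) :=
          mul_le_mul (h i) (h j) (h0 j) (by positivity)
      _ = _ := by ring
  have hK3 : K ^ 3 ≤ K ^ 4 := pow_le_pow_right₀ hK (by norm_num)
  have e0 := hz 0; have e1 := hz 1; have e2 := hz 2; have e3 := hz 3; have e4 := hz 4; have e5 := hz 5
  have t1 : D * ((2 * (K * z 1) + 1) * (2 * (K * z 2) + 1) * (2 * (K * z 3) + 1) * (2 * (K * z 4) + 1))
      ≤ 16 * D * K ^ 4 * ((1 + z 1) * (1 + z 4) * ((1 + z 2) * (1 + z 3))) := by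
    calc _ = D * (((2 * (K * z 1) + 1) * (2 * (K * z 4) + 1)) *
          ((2 * (K * z 2) + 1) * (2 * (K * z 3) + 1))) := by ring
      _ ≤ D * ((4 * K ^ 2 * ((1 + z 1) * (1 + z 4))) * (4 * K ^ 2 * ((1 + z 2) * (1 + z 3)))) := by
          refine mul_le_mul_of_nonneg_left ?_ (by linarith)
          exact mul_le_mul (hm 1 4) (hm 2 3) (mul_nonneg (h0 2) (h0 3)) (by positivity)
      _ = _ := by ring
  have t2 : D * ((2 * (K * z 1) + 1) * (2 * (K * z 4) + 1)) +
      ((2 * (K * z 1) + 1) + (2 * (K * z 4) + 1)) * ((2 * (K * z 2) + 1) + (2 * (K * z 3) + 1))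
      ≤ 16 * D * K ^ 2 * ((1 + z 1) * (1 + z 4) + (1 + z 1 + z 4) * (1 + z 2 + z 3)) := by
    have a1 : D * ((2 * (K * z 1) + 1) * (2 * (K * z 4) + 1)) ≤ D * (4 * K ^ 2 * ((1 + z 1) * (1 + z 4))) :=
      mul_le_mul_of_nonneg_left (hm 1 4) (by linarith)
    have a2 : ((2 * (K * z 1) + 1) + (2 * (K * z 4) + 1)) * ((2 * (K * z 2) + 1) + (2 * (K * z 3) + 1))
        ≤ (4 * K * (1 + z 1 + z 4)) * (4 * K * (1 + z 2 + z 3)) :=
      mul_le_mul (h2 1 4) (h2 2 3) (h20 2 3) (by positivity)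
    have a3 : 0 ≤ K ^ 2 * ((1 + z 1 + z 4) * (1 + z 2 + z 3)) := by positivity
    have a4 : 0 ≤ D * K ^ 2 * ((1 + z 1) * (1 + z 4)) := by positivity
    have a5 : K ^ 2 * ((1 + z 1 + z 4) * (1 + z 2 + z 3)) ≤ D * (K ^ 2 * ((1 + z 1 + z 4) * (1 + z 2 + z 3))) := by
      exact le_mul_of_one_le_left a3 hD
    linarith
  have t2' : 0 ≤ D * ((2 * (K * z 1) + 1) * (2 * (K * z 4) + 1)) +
      ((2 * (K * z 1) + 1) + (2 * (K * z 4) + 1)) * ((2 * (K * z 2) + 1) + (2 * (K * z 3) + 1)) :=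
    add_nonneg (mul_nonneg (by linarith) (mul_nonneg (h0 1) (h0 4))) (mul_nonneg (h20 1 4) (h20 2 3))
  have t3 := mul_le_mul (h2 0 5) t2 t2' (show 0 ≤ 4 * K * (1 + z 0 + z 5) by positivity)
  have t4 : (4 * K * (1 + z 0 + z 5)) *
      (16 * D * K ^ 2 * ((1 + z 1) * (1 + z 4) + (1 + z 1 + z 4) * (1 + z 2 + z 3)))
      ≤ 64 * D * K ^ 4 * ((1 + z 0 + z 5) * ((1 + z 1) * (1 + z 4) + (1 + z 1 + z 4) * (1 + z 2 + z 3))) := by
    have a : 0 ≤ D * ((1 + z 0 + z 5) * ((1 + z 1) * (1 + z 4) + (1 + z 1 + z 4) * (1 + z 2 + z 3))) := by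
      positivity
    have := mul_le_mul_of_nonneg_right hK3 a
    linarith
  have t5 : 0 ≤ D * K ^ 4 * ((1 + z 1) * (1 + z 4) * ((1 + z 2) * (1 + z 3))) := by positivity
  unfold plk
  linarith

/-- **all primitive zeros, `det G ≠ 0`** -/
theorem nx2 (c : ℝ) (hc : 0 < c) (C0 : ℝ) (hC0 : 1 ≤ C0) : ∃ C : ℝ, 1 ≤ C ∧
    ∀ (G : Matrix (Fin 4) (Fin 4) ℤ), (∀ i j, G i j = G j i) → (∀ i, 2 ∣ G i i) → G.det ≠ 0 →
    ∀ (l : Fin 4 → ℝ) (T Y H U A p : ℝ), 1 ≤ Y → (∀ i, 1 / Y ≤ l i) → (∀ i, l i ≤ Y) → 1 / Y ≤ T →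
    0 ≤ H → H ≤ Y → 1 / Y ≤ U → U ≤ Y → (∀ i j, |(G i j : ℝ)| ≤ C0 * l i * l j / T) →
    (∀ n : ℕ, (∀ i j k k', (n : ℤ) ∣ mr G i j k k') → (n : ℝ) ≤ A) → 0 < p →
    (∃ i j k k', p ≤ |((mr G i j k k' : ℤ) : ℝ)| * T ^ 2 / (l i * l j * l k * l k')) →
    ∀ V : Finset (Fin 4 → ℤ), (∀ v ∈ V, Pr4 v ∧ v ⬝ᵥ (G *ᵥ v) = 0 ∧ (∀ i, |(v i : ℝ)| * l i ≤ H) ∧
      ∀ w : Fin 4 → ℤ, w ⬝ᵥ (G *ᵥ w) = 0 → v ⬝ᵥ (G *ᵥ w) = 0 → ¬ Par v w →
        ∃ i j, C * (H / U) < |((v i * w j - v j * w i : ℤ) : ℝ)| * (l i * l j)) →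
    (V.card : ℝ) ≤ C * Y ^ c * (1 + H * U + H ^ 2 * T * √(A / p) / (∏ i, l i) +
      Pk (H / ((∏ i, l i) * U)) l) := by
  classical
  obtain ⟨Cp, hCp1, hCp⟩ := pop c hc C0 hC0
  obtain ⟨Cb, hCb1, hCb⟩ := perp_basis
  obtain ⟨Cd, hCd0, hCd⟩ := Pool.Agent.FTA.divisor_bound (show 0 < c / 8 by positivity)
  set K : ℝ := 2 * Cb with hK
  have hK1 : 1 ≤ K := by linarith
  set D0 : ℝ := 2 * Cd * (2 * K ^ 2) ^ (c / 8) + 1 with hD0
  have hD01 : 1 ≤ D0 := by
    have : 0 < 2 * Cd * (2 * K ^ 2) ^ (c / 8) := by positivity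
    linarith
  refine ⟨Cp + 256 * D0 * K ^ 4 + 2 * Cb, ?_, ?_⟩
  · have : 0 < 256 * D0 * K ^ 4 := by positivity
    linarith
  intro G hG hev hdet l T Y H U A p hY hlY' hlY hT hH hHY hU' hUY hGb hA hp hmr V hV
  have hY0 : 0 < Y := by linarith
  have hl : ∀ i, 0 < l i := fun i => lt_of_lt_of_le (by positivity) (hlY' i)
  have hU : 0 < U := lt_of_lt_of_le (by positivity) hU'
  have hlam : 0 < ∏ i, l i := Finset.prod_pos fun i _ => hl i
  set E : ℝ := H / ((∏ i, l i) * U) with hE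
  have hE0 : 0 ≤ E := by positivity
  have hgs : ∀ v, v ∈ V → ∃ b : Fin 3 → Fin 4 → ℤ, PB Cb l H v b := fun v hv =>
    hCb l hl H v (hV v hv).1 (hV v hv).2.2.1
  choose! b hPB using hgs
  set V1 := V.filter (fun v => nw l (b v 2) ≤ U) with hV1
  set V2 := V.filter (fun v => ¬ nw l (b v 2) ≤ U) with hV2
  have hsplit : V.card = V1.card + V2.card :=
    (Finset.card_filter_add_card_filter_not (s := V) (fun v => nw l (b v 2) ≤ U)).symm
  -- the population part
  have h1 : (V1.card : ℝ) ≤ Cp * Y ^ c * (1 + H * U + H ^ 2 * T * √(A / p) / (∏ i, l i)) := by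
    refine hCp G hG hev hdet l T Y H U A p hY hl hlY hT hH hU hUY hGb hA hp hmr V1 ?_
    intro v hv
    obtain ⟨hvV, hv2⟩ := Finset.mem_filter.mp hv
    refine ⟨(hV v hvV).1, (hV v hvV).2.1, (hV v hvV).2.2.1, b v, (hPB v hvV).lin hl, (hPB v hvV).orth, ?_⟩
    intro a i
    have h3 : nw l (b v a) ≤ U := by
      have e1 := (hPB v hvV).m01
      have e2 := (hPB v hvV).m12
      fin_cases a
      · exact (e1.trans e2).trans hv2
      · exact e2.trans hv2
      · exact hv2
    refine (le_nw hl (b v a) i).trans ?_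
    exact mul_le_mul_of_nonneg_right h3 (hl i).le
  -- the plane part
  have hbb : ∀ v ∈ V2, nw l (b v 0) * nw l (b v 1) ≤ Cb * E ∧
      nw l (b v 0) * nw l (b v 1) * (∏ i, l i) ≤ Cb * (H / U) := by
    intro v hv
    obtain ⟨hvV, hv2⟩ := Finset.mem_filter.mp hv
    push Not at hv2
    have h3 := (hPB v hvV).vol
    have h4 : 0 ≤ nw l (b v 0) * nw l (b v 1) := mul_nonneg (nw_nonneg _ _) (nw_nonneg _ _)
    have h5 : nw l (b v 0) * nw l (b v 1) * (∏ i, l i) * U ≤ Cb * H := by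
      refine le_trans ?_ h3
      calc nw l (b v 0) * nw l (b v 1) * (∏ i, l i) * U
          = nw l (b v 0) * nw l (b v 1) * U * (∏ i, l i) := by ring
        _ ≤ nw l (b v 0) * nw l (b v 1) * nw l (b v 2) * (∏ i, l i) :=
            mul_le_mul_of_nonneg_right (mul_le_mul_of_nonneg_left hv2.le h4) hlam.le
    constructor
    · rw [hE, mul_div_assoc', le_div_iff₀ (by positivity)]
      linarith
    · rw [mul_div_assoc', le_div_iff₀ hU]
      linarith
  set f : (Fin 4 → ℤ) → (Fin 6 → ℤ) := fun v => plv (b v 0) (b v 1) with hf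
  set z : Fin 6 → ℝ := ![E * (l 0 * l 1), E * (l 0 * l 2), E * (l 0 * l 3), E * (l 1 * l 2),
    E * (l 1 * l 3), E * (l 2 * l 3)] with hz
  have hz0 : ∀ i, 0 ≤ z i := by
    have g0 := hl 0; have g1 := hl 1; have g2 := hl 2; have g3 := hl 3
    intro i
    fin_cases i <;> simp [hz] <;> positivity
  have hkl : ∀ v ∈ V2, ∀ k k', |((b v 0 k * b v 1 k' - b v 0 k' * b v 1 k : ℤ) : ℝ)|
      ≤ 2 * (nw l (b v 0) * nw l (b v 1)) * (l k * l k') := by
    intro v hv k k'
    push_cast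
    refine (abs_sub _ _).trans ?_
    rw [abs_mul, abs_mul]
    have e0 := le_nw hl (b v 0)
    have e1 := le_nw hl (b v 1)
    have n0 := nw_nonneg l (b v 0)
    have n1 := nw_nonneg l (b v 1)
    have g1 := (hl k).le
    have g2 := (hl k').le
    calc _ ≤ (nw l (b v 0) * l k) * (nw l (b v 1) * l k') + (nw l (b v 0) * l k') * (nw l (b v 1) * l k) := by
          exact add_le_add (mul_le_mul (e0 k) (e1 k') (abs_nonneg _) (by positivity))
            (mul_le_mul (e0 k') (e1 k) (abs_nonneg _) (by positivity))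
      _ = _ := by ring
  have hfbox : ∀ v ∈ V2, ∀ i, |(f v i : ℝ)| ≤ K * z i := by
    intro v hv i
    have h3 : ∀ k k', |((b v 0 k * b v 1 k' - b v 0 k' * b v 1 k : ℤ) : ℝ)| ≤ K * (E * (l k * l k')) := by
      intro k k'
      refine (hkl v hv k k').trans ?_
      have g1 := (hl k).le
      have g2 := (hl k').le
      calc 2 * (nw l (b v 0) * nw l (b v 1)) * (l k * l k') ≤ 2 * (Cb * E) * (l k * l k') := by
            refine mul_le_mul_of_nonneg_right ?_ (by positivity)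
            linarith [(hbb v hv).1]
        _ = _ := by rw [hK]; ring
    fin_cases i
    · exact h3 0 1
    · exact h3 0 2
    · exact h3 0 3
    · exact h3 1 2
    · exact h3 1 3
    · exact h3 2 3
  have hfib : ∀ p ∈ V2.image f, (V2.filter (fun v => f v = p)).card ≤ 4 := by
    intro q hq
    obtain ⟨v0, hv0, rfl⟩ := Finset.mem_image.mp hq
    have hv0V := (Finset.mem_filter.mp hv0).1
    refine fibre hG (plv_ne hl (hPB v0 hv0V)) _ ?_ ?_
    · intro v hv
      obtain ⟨hv2, hfv⟩ := Finset.mem_filter.mp hv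
      have hvV := (Finset.mem_filter.mp hv2).1
      refine ⟨(hV v hvV).1, (hV v hvV).2.1, ?_⟩
      have : plv (b v 0) (b v 1) = plv (b v0 0) (b v0 1) := hfv
      rw [← this]
      exact Kp_of ((hPB v hvV).orth 0) ((hPB v hvV).orth 1)
    · intro v hv u hu hvu
      by_contra hpar
      obtain ⟨hv2, hfv⟩ := Finset.mem_filter.mp hv
      obtain ⟨hu2, hfu⟩ := Finset.mem_filter.mp hu
      have hvV := (Finset.mem_filter.mp hv2).1
      have huV := (Finset.mem_filter.mp hu2).1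
      have hKu : Kp (plv (b v 0) (b v 1)) u := by
        have e1 : plv (b v 0) (b v 1) = plv (b v0 0) (b v0 1) := hfv
        have e2 : plv (b u 0) (b u 1) = plv (b v0 0) (b v0 1) := hfu
        rw [e1, ← e2]
        exact Kp_of ((hPB u huV).orth 0) ((hPB u huV).orth 1)
      obtain ⟨ho0, ho1⟩ := Kp_orth (plv_ne hl (hPB v hvV)) hKu
      obtain ⟨f0, w, hw1, hw2, hw3⟩ := dual_vec (hV v hvV).1 (hPB v hvV)
      have hu' := hw1 u ho0 ho1
      set α := f0 ⬝ᵥ u with hα
      set β := b v 2 ⬝ᵥ u with hβ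
      have hβ0 : β ≠ 0 := by
        intro h0
        refine hpar ?_
        intro i j
        rw [hu', h0]
        show v i * (α * v j + 0 * w j) = v j * (α * v i + 0 * w i)
        ring
      have hGt : Gᵀ = G := by
        ext i j
        exact hG j i
      have hsym : w ⬝ᵥ (G *ᵥ v) = v ⬝ᵥ (G *ᵥ w) := by
        rw [dotProduct_mulVec, ← mulVec_transpose, hGt, dotProduct_comm]
      have hvv := (hV v hvV).2.1
      have huu := (hV u huV).2.1
      have hvw : v ⬝ᵥ (G *ᵥ w) = 0 := by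
        have e1 : v ⬝ᵥ (G *ᵥ u) = β * (v ⬝ᵥ (G *ᵥ w)) := by
          rw [hu']
          simp only [mulVec_add, mulVec_smul, dotProduct_add, dotProduct_smul, smul_eq_mul]
          rw [hvv]; ring
        rw [hvu] at e1
        exact (mul_eq_zero.mp e1.symm).resolve_left hβ0
      have hww : w ⬝ᵥ (G *ᵥ w) = 0 := by
        have e1 : u ⬝ᵥ (G *ᵥ u) = β ^ 2 * (w ⬝ᵥ (G *ᵥ w)) := by
          rw [hu']
          simp only [mulVec_add, mulVec_smul, dotProduct_add, add_dotProduct, dotProduct_smul,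
            smul_dotProduct, smul_eq_mul]
          rw [hvv, hsym, hvw]; ring
        rw [huu] at e1
        exact (mul_eq_zero.mp e1.symm).resolve_left (pow_ne_zero 2 hβ0)
      obtain ⟨i, j, hij⟩ := (hV v hvV).2.2.2 w hww hvw hw2
      have hne : i ≠ j := by
        rintro rfl
        have e1 : ((v i * w i - v i * w i : ℤ) : ℝ) = 0 := by
          rw [sub_self]; simp
        rw [e1, abs_zero, zero_mul] at hij
        have : 0 ≤ (Cp + 256 * D0 * K ^ 4 + 2 * Cb) * (H / U) := by positivity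
        linarith
      obtain ⟨k, k', huniv, heq⟩ := hw3 i j hne
      have hprod : l i * l j * (l k * l k') = ∏ i, l i := by
        rw [← huniv]
        have hcard : ({i, j, k, k'} : Finset (Fin 4)).card = 4 := by rw [huniv]; simp
        have n1 : i ∉ ({j, k, k'} : Finset (Fin 4)) := by
          intro hmem
          rw [Finset.insert_eq_of_mem hmem] at hcard
          have := Finset.card_le_three (a := j) (b := k) (c := k')
          omega
        have hcard3 : ({j, k, k'} : Finset (Fin 4)).card = 3 := by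
          rw [Finset.card_insert_of_notMem n1] at hcard
          omega
        have n2 : j ∉ ({k, k'} : Finset (Fin 4)) := by
          intro hmem
          rw [Finset.insert_eq_of_mem hmem] at hcard3
          have := Finset.card_le_two (a := k) (b := k')
          omega
        have n3 : k ≠ k' := by
          rintro rfl
          rw [Finset.card_insert_of_notMem n2] at hcard3
          simp at hcard3
        rw [Finset.prod_insert n1, Finset.prod_insert n2, Finset.prod_pair n3]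
        ring
      have heqR : |((v i * w j - v j * w i : ℤ) : ℝ)|
          = |((b v 0 k * b v 1 k' - b v 0 k' * b v 1 k : ℤ) : ℝ)| := by
        rw [← Int.cast_abs, ← Int.cast_abs, heq]
      have h6 := hkl v hv2 k k'
      rw [heqR] at hij
      have g1 := (hl i).le
      have g2 := (hl j).le
      have h7 : |((b v 0 k * b v 1 k' - b v 0 k' * b v 1 k : ℤ) : ℝ)| * (l i * l j)
          ≤ 2 * (Cb * (H / U)) := by
        calc _ ≤ 2 * (nw l (b v 0) * nw l (b v 1)) * (l k * l k') * (l i * l j) :=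
              mul_le_mul_of_nonneg_right h6 (by positivity)
          _ = 2 * (nw l (b v 0) * nw l (b v 1) * (l i * l j * (l k * l k'))) := by ring
          _ ≤ _ := by
              rw [hprod]
              linarith [(hbb v hv2).2]
      have h8 : 2 * (Cb * (H / U)) ≤ (Cp + 256 * D0 * K ^ 4 + 2 * Cb) * (H / U) := by
        have e1 : 0 ≤ H / U := by positivity
        have e2 : 0 < 256 * D0 * K ^ 4 := by positivity
        have e3 : 0 ≤ (Cp + 256 * D0 * K ^ 4) * (H / U) := by positivity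
        linarith
      linarith
  have h2 : (V2.card : ℝ) ≤ 4 * (64 * (D0 * Y ^ c) * K ^ 4 * Pk E l) := by
    have hcard : V2.card ≤ 4 * (V2.image f).card := Finset.card_le_mul_card_image V2 4 hfib
    have hcard' : (V2.card : ℝ) ≤ 4 * ((V2.image f).card : ℝ) := by exact_mod_cast hcard
    refine hcard'.trans (mul_le_mul_of_nonneg_left ?_ (by norm_num))
    have hYc : (1 : ℝ) ≤ Y ^ c := Real.one_le_rpow hY hc.le
    have hDY : 1 ≤ D0 * Y ^ c := one_le_mul_of_one_le_of_one_le (by linarith) hYc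
    have h3 := pluck (fun i => K * z i) (fun i => mul_nonneg (by linarith) (hz0 i)) (D0 * Y ^ c) (by linarith)
      (by
        intro N hN hNb
        have hN1 : N.natAbs ≠ 0 := Int.natAbs_ne_zero.mpr hN
        have h4 := hCd N.natAbs hN1
        have h5 : ((N.natAbs : ℕ) : ℝ) ≤ (2 * K ^ 2) * Y ^ 8 := by
          have e0 : ((N.natAbs : ℕ) : ℝ) = |(N : ℝ)| := by
            rw [← Int.cast_abs, Int.abs_eq_natAbs]; simp
          rw [e0]
          refine hNb.trans ?_
          have e1 : K * z 1 * (K * z 4) + K * z 2 * (K * z 3) = 2 * K ^ 2 * (E ^ 2 * (∏ i, l i)) := by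
            rw [Fin.prod_univ_four]
            simp only [hz, Matrix.cons_val]
            ring
          rw [e1]
          refine mul_le_mul_of_nonneg_left ?_ (by positivity)
          have e2 : E ^ 2 * (∏ i, l i) = H ^ 2 / ((∏ i, l i) * U ^ 2) := by
            rw [hE]; field_simp
          rw [e2, div_le_iff₀ (by positivity)]
          have e3 : (1 / Y) ^ 4 ≤ ∏ i, l i := by
            rw [Fin.prod_univ_four]
            have := fun i => hlY' i
            have y0 : 0 ≤ 1 / Y := by positivity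
            calc (1 / Y) ^ 4 = (1 / Y) * (1 / Y) * (1 / Y) * (1 / Y) := by ring
              _ ≤ l 0 * l 1 * l 2 * l 3 :=
                  mul_le_mul (mul_le_mul (mul_le_mul (this 0) (this 1) y0 (hl 0).le) (this 2) y0
                    (mul_nonneg (hl 0).le (hl 1).le)) (this 3) y0
                    (mul_nonneg (mul_nonneg (hl 0).le (hl 1).le) (hl 2).le)
          have e4 : (1 / Y) ^ 2 ≤ U ^ 2 := pow_le_pow_left₀ (by positivity) hU' 2
          have e5 : H ^ 2 ≤ Y ^ 2 := pow_le_pow_left₀ hH hHY 2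
          calc H ^ 2 ≤ Y ^ 2 := e5
            _ = Y ^ 8 * ((1 / Y) ^ 4 * (1 / Y) ^ 2) := by field_simp
            _ ≤ Y ^ 8 * ((∏ i, l i) * U ^ 2) := by
                refine mul_le_mul_of_nonneg_left ?_ (by positivity)
                exact mul_le_mul e3 e4 (by positivity) hlam.le
        have h6 : ((N.natAbs : ℕ) : ℝ) ^ (c / 8) ≤ (2 * K ^ 2) ^ (c / 8) * Y ^ c := by
          refine (Real.rpow_le_rpow (Nat.cast_nonneg _) h5 (by positivity)).trans (le_of_eq ?_)
          rw [Real.mul_rpow (by positivity) (by positivity)]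
          congr 1
          rw [← Real.rpow_natCast, ← Real.rpow_mul hY0.le]
          congr 1
          push_cast
          ring
        have h7 : Cd * ((N.natAbs : ℕ) : ℝ) ^ (c / 8) ≤ Cd * ((2 * K ^ 2) ^ (c / 8) * Y ^ c) :=
          mul_le_mul_of_nonneg_left h6 hCd0.le
        have h8 : D0 * Y ^ c = 2 * (Cd * ((2 * K ^ 2) ^ (c / 8) * Y ^ c)) + Y ^ c := by
          rw [hD0]; ring
        rw [h8]
        linarith)
      (V2.image f) (by
        intro q hq
        obtain ⟨v, hv, rfl⟩ := Finset.mem_image.mp hq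
        exact ⟨hfbox v hv, plv_klein _ _⟩)
    refine h3.trans ((plk_le hK1 hDY z hz0).trans (le_of_eq ?_))
    simp only [hz, Matrix.cons_val, Pk]
  have hPk0 : 0 ≤ Pk E l := by
    have g0 := hl 0; have g1 := hl 1; have g2 := hl 2; have g3 := hl 3
    unfold Pk
    positivity
  have hmain0 : 0 ≤ 1 + H * U + H ^ 2 * T * √(A / p) / (∏ i, l i) := by
    have hT0 : 0 < T := lt_of_lt_of_le (by positivity) hT
    positivity
  have hYc0 : 0 < Y ^ c := by positivity
  rw [hsplit]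
  push_cast
  have f1 : (Cp + 256 * D0 * K ^ 4 + 2 * Cb) * Y ^ c * (1 + H * U + H ^ 2 * T * √(A / p) / (∏ i, l i) + Pk E l)
      = Cp * Y ^ c * (1 + H * U + H ^ 2 * T * √(A / p) / (∏ i, l i)) + 4 * (64 * (D0 * Y ^ c) * K ^ 4 * Pk E l)
        + ((256 * D0 * K ^ 4 + 2 * Cb) * Y ^ c * (1 + H * U + H ^ 2 * T * √(A / p) / (∏ i, l i))
          + (Cp + 2 * Cb) * Y ^ c * Pk E l) := by ring
  rw [f1]
  have f2 : 0 ≤ (256 * D0 * K ^ 4 + 2 * Cb) * Y ^ c * (1 + H * U + H ^ 2 * T * √(A / p) / (∏ i, l i)) := by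
    positivity
  have f3 : 0 ≤ (Cp + 2 * Cb) * Y ^ c * Pk E l := by positivity
  linarith

end Pool.Agent.PP5P
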