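import Pool.Agent.PP5P.Fm

/-!
# PP5, population lemma over the integers
-/

set_option autoImplicit false

namespace Pool.Agent.PP5P

open Matrix

section
variable {R : Type*} [CommRing R]

theorem Ph_sum1 (G : Matrix (Fin 4) (Fin 4) R) (a : Fin 4 → R) (f : Fin 4 → Fin 4 → R)
    (v w z : Fin 4 → R) : Ph G (∑ i, a i • f i) v w z = ∑ i, a i * Ph G (f i) v w z := by
  simp only [Fin.sum_univ_four, Ph_add1, Ph_smul1]

theorem Ph_sum2 (G : Matrix (Fin 4) (Fin 4) R) (a : Fin 4 → R) (f : Fin 4 → Fin 4 → R)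
    (u w z : Fin 4 → R) : Ph G u (∑ i, a i • f i) w z = ∑ i, a i * Ph G u (f i) w z := by
  simp only [Fin.sum_univ_four, Ph_add2, Ph_smul2]

theorem Ph_sum3 (G : Matrix (Fin 4) (Fin 4) R) (a : Fin 4 → R) (f : Fin 4 → Fin 4 → R)
    (u v z : Fin 4 → R) : Ph G u v (∑ i, a i • f i) z = ∑ i, a i * Ph G u v (f i) z := by
  simp only [Fin.sum_univ_four, Ph_add3, Ph_smul3]

theorem Ph_sum4 (G : Matrix (Fin 4) (Fin 4) R) (a : Fin 4 → R) (f : Fin 4 → Fin 4 → R)
    (u v w : Fin 4 → R) : Ph G u v w (∑ i, a i • f i) = ∑ i, a i * Ph G u v w (f i) := by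
  simp only [Fin.sum_univ_four, Ph_add4, Ph_smul4]

/-- the entries of `MM` are values of `Ph` -/
theorem MM_eq (G : Matrix (Fin 4) (Fin 4) R) : ∀ a b : Fin 6, ∃ u v w z : Fin 4 → R,
    MM G a b = Ph G u v w z := by
  have h : ∀ a : Fin 6, ∃ u v : Fin 4 → R, pv u v = Pi.single a 1 := by
    intro a
    fin_cases a
    · exact ⟨Pi.single 2 1, Pi.single 3 1, by ext i; fin_cases i <;> simp [pv]⟩
    · exact ⟨Pi.single 3 1, Pi.single 1 1, by ext i; fin_cases i <;> simp [pv]⟩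
    · exact ⟨Pi.single 1 1, Pi.single 2 1, by ext i; fin_cases i <;> simp [pv]⟩
    · exact ⟨Pi.single 0 1, Pi.single 3 1, by ext i; fin_cases i <;> simp [pv]⟩
    · exact ⟨Pi.single 2 1, Pi.single 0 1, by ext i; fin_cases i <;> simp [pv]⟩
    · exact ⟨Pi.single 0 1, Pi.single 1 1, by ext i; fin_cases i <;> simp [pv]⟩
  intro a b
  obtain ⟨u, v, h1⟩ := h a
  obtain ⟨w, z, h2⟩ := h b
  exact ⟨u, v, w, z, by simp [Ph, h1, h2]⟩

theorem mr_swap1 (G : Matrix (Fin 4) (Fin 4) R) (i j k l : Fin 4) :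
    mr G j i k l = - mr G i j k l := by unfold mr; ring

theorem mr_swap2 (G : Matrix (Fin 4) (Fin 4) R) (i j k l : Fin 4) :
    mr G i j l k = - mr G i j k l := by unfold mr; ring

theorem mr_self1 (G : Matrix (Fin 4) (Fin 4) R) (i k l : Fin 4) : mr G i i k l = 0 := by
  unfold mr; ring

theorem mr_self2 (G : Matrix (Fin 4) (Fin 4) R) (i j k : Fin 4) : mr G i j k k = 0 := by
  unfold mr; ring

/-- the six ordered pairs -/
def pr : Fin 6 → Fin 4 × Fin 4 := ![(0, 1), (0, 2), (0, 3), (1, 2), (1, 3), (2, 3)]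

theorem MM_mr (G : Matrix (Fin 4) (Fin 4) R) (a b : Fin 6) :
    MM G a b = mr G (pr a).1 (pr a).2 (pr b).1 (pr b).2 := by
  fin_cases a <;> fin_cases b <;> rfl

theorem pr_lt {i j : Fin 4} (h : i < j) : ∃ a : Fin 6, (pr a).1 = i ∧ (pr a).2 = j := by
  revert i j
  decide

/-- a property of all minors follows from the ordered ones -/
theorem mr_ind (G : Matrix (Fin 4) (Fin 4) R) (P : R → Prop) (h0 : P 0) (hn : ∀ x, P x → P (-x))
    (h : ∀ a b, P (MM G a b)) (i j k l : Fin 4) : P (mr G i j k l) := by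
  have h1 : ∀ i j k l : Fin 4, i < j → k < l → P (mr G i j k l) := by
    intro i j k l hij hkl
    obtain ⟨a, ha1, ha2⟩ := pr_lt hij
    obtain ⟨b, hb1, hb2⟩ := pr_lt hkl
    have := h a b
    rwa [MM_mr, ha1, ha2, hb1, hb2] at this
  have h2 : ∀ i j k l : Fin 4, i < j → P (mr G i j k l) := by
    intro i j k l hij
    rcases lt_trichotomy k l with hkl | hkl | hkl
    · exact h1 i j k l hij hkl
    · subst hkl; rw [mr_self2]; exact h0
    · rw [mr_swap2]; exact hn _ (h1 i j l k hij hkl)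
  rcases lt_trichotomy i j with hij | hij | hij
  · exact h2 i j k l hij
  · subst hij; rw [mr_self1]; exact h0
  · rw [mr_swap1]; exact hn _ (h2 j i k l hij)

/-- a property of all values of `F i j k l = Ph G (f i) (f j) (f k) (f l)` follows from nine kinds -/
theorem F_ind {G : Matrix (Fin 4) (Fin 4) R} (hG : ∀ i j, G i j = G j i) (f : Fin 4 → Fin 4 → R)
    (P : R → Prop) (h0 : P 0) (hn : ∀ x, P x → P (-x))
    (ha : ∀ a i j : Fin 4, a ≠ 0 → P (Ph G (f a) (f i) (f a) (f j)))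
    (hb : ∀ a b : Fin 4, a ≠ 0 → b ≠ 0 → P (Ph G (f a) (f 0) (f b) (f 0)))
    (h1 : P (Ph G (f 1) (f 2) (f 3) (f 0))) (h2 : P (Ph G (f 2) (f 3) (f 1) (f 0)))
    (h3 : P (Ph G (f 3) (f 1) (f 2) (f 0))) (i j k l : Fin 4) :
    P (Ph G (f i) (f j) (f k) (f l)) := by
  -- ordered pairs: first pair
  have key : ∀ i j k l : Fin 4, i < j → k < l → P (Ph G (f i) (f j) (f k) (f l)) := by
    have h1' : P (Ph G (f 3) (f 0) (f 1) (f 2)) := by rw [Ph_symm hG]; exact h1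
    have h2' : P (Ph G (f 1) (f 0) (f 2) (f 3)) := by rw [Ph_symm hG]; exact h2
    have h3' : P (Ph G (f 2) (f 0) (f 3) (f 1)) := by rw [Ph_symm hG]; exact h3
    intro i j k l hij hkl
    obtain ⟨a, rfl, rfl⟩ := pr_lt hij
    obtain ⟨b, rfl, rfl⟩ := pr_lt hkl
    fin_cases a <;> fin_cases b <;> simp only [pr] <;>
      simp only [Fin.isValue, Fin.zero_eta, Fin.mk_one, Fin.reduceFinMk, Matrix.cons_val_zero,
        Matrix.cons_val_one, Matrix.cons_val, Matrix.head_cons]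
    -- (01)
    · rw [Ph_swap1, Ph_swap2, neg_neg]; exact hb 1 1 (by decide) (by decide)
    · rw [Ph_swap1, Ph_swap2, neg_neg]; exact hb 1 2 (by decide) (by decide)
    · rw [Ph_swap1, Ph_swap2, neg_neg]; exact hb 1 3 (by decide) (by decide)
    · rw [Ph_swap1]; exact hn _ (ha 1 0 2 (by decide))
    · rw [Ph_swap1]; exact hn _ (ha 1 0 3 (by decide))
    · rw [Ph_swap1]; exact hn _ h2'
    -- (02)
    · rw [Ph_swap1, Ph_swap2, neg_neg]; exact hb 2 1 (by decide) (by decide)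
    · rw [Ph_swap1, Ph_swap2, neg_neg]; exact hb 2 2 (by decide) (by decide)
    · rw [Ph_swap1, Ph_swap2, neg_neg]; exact hb 2 3 (by decide) (by decide)
    · rw [Ph_swap1, Ph_swap2, neg_neg]; exact ha 2 0 1 (by decide)
    · rw [Ph_swap1, Ph_swap2, neg_neg]; exact h3'
    · rw [Ph_swap1]; exact hn _ (ha 2 0 3 (by decide))
    -- (03)
    · rw [Ph_swap1, Ph_swap2, neg_neg]; exact hb 3 1 (by decide) (by decide)
    · rw [Ph_swap1, Ph_swap2, neg_neg]; exact hb 3 2 (by decide) (by decide)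
    · rw [Ph_swap1, Ph_swap2, neg_neg]; exact hb 3 3 (by decide) (by decide)
    · rw [Ph_swap1]; exact hn _ h1'
    · rw [Ph_swap1, Ph_swap2, neg_neg]; exact ha 3 0 1 (by decide)
    · rw [Ph_swap1, Ph_swap2, neg_neg]; exact ha 3 0 2 (by decide)
    -- (12)
    · rw [Ph_swap2]; exact hn _ (ha 1 2 0 (by decide))
    · rw [Ph_swap1, Ph_swap2, neg_neg]; exact ha 2 1 0 (by decide)
    · rw [Ph_swap2]; exact hn _ h1
    · exact ha 1 2 2 (by decide)
    · exact ha 1 2 3 (by decide)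
    · rw [Ph_swap1]; exact hn _ (ha 2 1 3 (by decide))
    -- (13)
    · rw [Ph_swap2]; exact hn _ (ha 1 3 0 (by decide))
    · rw [Ph_swap1, Ph_swap2, neg_neg]; exact h3
    · rw [Ph_swap1, Ph_swap2, neg_neg]; exact ha 3 1 0 (by decide)
    · exact ha 1 3 2 (by decide)
    · exact ha 1 3 3 (by decide)
    · rw [Ph_swap1, Ph_swap2, neg_neg]; exact ha 3 1 2 (by decide)
    -- (23)
    · rw [Ph_swap2]; exact hn _ h2
    · rw [Ph_swap2]; exact hn _ (ha 2 3 0 (by decide))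
    · rw [Ph_swap1, Ph_swap2, neg_neg]; exact ha 3 2 0 (by decide)
    · rw [Ph_swap2]; exact hn _ (ha 2 3 1 (by decide))
    · rw [Ph_swap1, Ph_swap2, neg_neg]; exact ha 3 2 1 (by decide)
    · exact ha 2 3 3 (by decide)
  have h2 : ∀ i j k l : Fin 4, i < j → P (Ph G (f i) (f j) (f k) (f l)) := by
    intro i j k l hij
    rcases lt_trichotomy k l with hkl | hkl | hkl
    · exact key i j k l hij hkl
    · subst hkl; rw [Ph_self2]; exact h0
    · rw [Ph_swap2]; exact hn _ (key i j l k hij hkl)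
  rcases lt_trichotomy i j with hij | hij | hij
  · exact h2 i j k l hij
  · subst hij; rw [Ph_self1]; exact h0
  · rw [Ph_swap1]; exact hn _ (h2 j i k l hij)

/-- the quadratic polynomial `Ph (t u + s u' + u'') z (same) z` -/
theorem Ph_poly {G : Matrix (Fin 4) (Fin 4) R} (hG : ∀ i j, G i j = G j i) (t s : R)
    (u u' u'' z : Fin 4 → R) :
    Ph G (t • u + s • u' + u'') z (t • u + s • u' + u'') z =
      t ^ 2 * Ph G u z u z + s ^ 2 * Ph G u' z u' z + Ph G u'' z u'' z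
        + 2 * t * s * Ph G u z u' z + 2 * t * Ph G u z u'' z + 2 * s * Ph G u' z u'' z := by
  simp only [Ph_add1, Ph_smul1, Ph_add3, Ph_smul3]
  rw [Ph_symm hG u z u' z, Ph_symm hG u z u'' z, Ph_symm hG u' z u'' z]
  ring

end

/-- **population lemma over the integers** -/
theorem popZ {G : Matrix (Fin 4) (Fin 4) ℤ} (hG : ∀ i j, G i j = G j i) (f : Fin 4 → Fin 4 → ℤ)
    (hspan : ∀ z : Fin 4 → ℤ, ∃ a : Fin 4 → ℤ, z = ∑ i, a i • f i) (q D : ℤ)
    (h : ∀ t s : ℤ, ∀ z : Fin 4 → ℤ,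
      q ∣ D * Ph G (t • f 1 + s • f 2 + f 3) z (t • f 1 + s • f 2 + f 3) z)
    (i j k l : Fin 4) : q ∣ 24 * D * mr G i j k l := by
  have X33 : ∀ z, q ∣ D * Ph G (f 3) z (f 3) z := by
    intro z
    have := h 0 0 z
    simpa using this
  have hp : ∀ t s : ℤ, ∀ z, q ∣ D * (t ^ 2 * Ph G (f 1) z (f 1) z + s ^ 2 * Ph G (f 2) z (f 2) z
      + Ph G (f 3) z (f 3) z + 2 * t * s * Ph G (f 1) z (f 2) z + 2 * t * Ph G (f 1) z (f 3) z
      + 2 * s * Ph G (f 2) z (f 3) z) := by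
    intro t s z
    have := h t s z
    rwa [Ph_poly hG] at this
  have X11 : ∀ z, q ∣ 4 * D * Ph G (f 1) z (f 1) z := by
    intro z
    obtain ⟨a, ha⟩ := hp 1 0 z
    obtain ⟨b, hb⟩ := hp (-1) 0 z
    obtain ⟨c, hc⟩ := X33 z
    exact ⟨2 * (a + b - 2 * c), by linear_combination 2 * ha + 2 * hb - 4 * hc⟩
  have X22 : ∀ z, q ∣ 4 * D * Ph G (f 2) z (f 2) z := by
    intro z
    obtain ⟨a, ha⟩ := hp 0 1 z
    obtain ⟨b, hb⟩ := hp 0 (-1) z
    obtain ⟨c, hc⟩ := X33 z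
    exact ⟨2 * (a + b - 2 * c), by linear_combination 2 * ha + 2 * hb - 4 * hc⟩
  have X13 : ∀ z, q ∣ 4 * D * Ph G (f 1) z (f 3) z := by
    intro z
    obtain ⟨a, ha⟩ := hp 1 0 z
    obtain ⟨b, hb⟩ := hp (-1) 0 z
    exact ⟨a - b, by linear_combination ha - hb⟩
  have X23 : ∀ z, q ∣ 4 * D * Ph G (f 2) z (f 3) z := by
    intro z
    obtain ⟨a, ha⟩ := hp 0 1 z
    obtain ⟨b, hb⟩ := hp 0 (-1) z
    exact ⟨a - b, by linear_combination ha - hb⟩
  have X12 : ∀ z, q ∣ 4 * D * Ph G (f 1) z (f 2) z := by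
    intro z
    obtain ⟨a, ha⟩ := hp 1 1 z
    obtain ⟨a1, ha1⟩ := hp 1 0 z
    obtain ⟨a2, ha2⟩ := hp 0 1 z
    obtain ⟨c, hc⟩ := X33 z
    exact ⟨2 * (a - a1 - a2 + c), by linear_combination 2 * ha - 2 * ha1 - 2 * ha2 + 2 * hc⟩
  have X33' : ∀ z, q ∣ 4 * D * Ph G (f 3) z (f 3) z := by
    intro z
    have := (X33 z).mul_left 4
    rwa [← mul_assoc] at this
  have Xab : ∀ a b : Fin 4, a ≠ 0 → b ≠ 0 → ∀ z, q ∣ 4 * D * Ph G (f a) z (f b) z := by
    intro a b ha hb z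
    fin_cases a <;> fin_cases b <;> simp at ha hb ⊢
    · exact X11 z
    · exact X12 z
    · exact X13 z
    · rw [Ph_symm hG]; exact X12 z
    · exact X22 z
    · exact X23 z
    · rw [Ph_symm hG]; exact X13 z
    · rw [Ph_symm hG]; exact X23 z
    · exact X33' z
  have Sab : ∀ a b : Fin 4, a ≠ 0 → b ≠ 0 → ∀ z z',
      q ∣ 4 * D * (Ph G (f a) z (f b) z' + Ph G (f a) z' (f b) z) := by
    intro a b ha hb z z'
    have h1 := Xab a b ha hb (z + z')
    have h2 := Xab a b ha hb z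
    have h3 := Xab a b ha hb z'
    have e : 4 * D * (Ph G (f a) z (f b) z' + Ph G (f a) z' (f b) z) =
        4 * D * Ph G (f a) (z + z') (f b) (z + z') - 4 * D * Ph G (f a) z (f b) z
          - 4 * D * Ph G (f a) z' (f b) z' := by
      simp only [Ph_add2, Ph_add4]; ring
    rw [e]
    exact dvd_sub (dvd_sub h1 h2) h3
  have B := Ph_bianchi hG (f 1) (f 2) (f 3) (f 0)
  obtain ⟨s1, hs1⟩ := Sab 1 3 (by decide) (by decide) (f 2) (f 0)
  obtain ⟨s2, hs2⟩ := Sab 1 2 (by decide) (by decide) (f 3) (f 0)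
  have e1 : Ph G (f 1) (f 0) (f 3) (f 2) = - Ph G (f 2) (f 3) (f 1) (f 0) := by
    rw [Ph_symm hG, Ph_swap1]
  have e2 : Ph G (f 1) (f 3) (f 2) (f 0) = - Ph G (f 3) (f 1) (f 2) (f 0) := by
    rw [Ph_swap1]
  have e3 : Ph G (f 1) (f 0) (f 2) (f 3) = Ph G (f 2) (f 3) (f 1) (f 0) := by
    rw [Ph_symm hG]
  rw [e1] at hs1
  rw [e2, e3] at hs2
  set P := Ph G (f 1) (f 2) (f 3) (f 0) with hP
  set Q := Ph G (f 2) (f 3) (f 1) (f 0) with hQ
  set R' := Ph G (f 3) (f 1) (f 2) (f 0) with hR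
  -- all basis values
  have all : ∀ i j k l : Fin 4, q ∣ 24 * D * Ph G (f i) (f j) (f k) (f l) := by
    refine F_ind hG f (fun x => q ∣ 24 * D * x) (by simp) (fun x hx => ?_) ?_ ?_ ?_ ?_ ?_
    · show q ∣ 24 * D * (-x)
      rw [mul_neg]; exact hx.neg_right
    · intro a i j ha
      have h1 := Sab a a ha ha (f i) (f j)
      rw [Ph_symm hG (f a) (f i) (f a) (f j)] at h1
      obtain ⟨b, hb⟩ := h1
      exact ⟨3 * b, by linear_combination 3 * hb⟩
    · intro a b ha hb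
      obtain ⟨b, hb⟩ := Xab a b ha hb (f 0)
      exact ⟨6 * b, by linear_combination 6 * hb⟩
    · -- 3P = (P - Q) + (P - R) + (P+Q+R), P - R = (P-Q)+(Q-R)
      exact ⟨4 * s1 + 2 * s2, by linear_combination 4 * hs1 + 2 * hs2 + 8 * D * B⟩
    · exact ⟨-2 * s1 + 2 * s2, by linear_combination -2 * hs1 + 2 * hs2 + 8 * D * B⟩
    · exact ⟨-2 * s1 - 4 * s2, by linear_combination -2 * hs1 - 4 * hs2 + 8 * D * B⟩
  -- all values
  have dsum : ∀ (a : Fin 4 → ℤ) (g : Fin 4 → ℤ), (∀ i, q ∣ 24 * D * g i) →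
      q ∣ 24 * D * ∑ i, a i * g i := by
    intro a g hg
    rw [Finset.mul_sum]
    refine Finset.dvd_sum fun i _ => ?_
    have := (hg i).mul_left (a i)
    have e : 24 * D * (a i * g i) = a i * (24 * D * g i) := by ring
    rwa [e]
  have gen : ∀ u v w z : Fin 4 → ℤ, q ∣ 24 * D * Ph G u v w z := by
    intro u v w z
    obtain ⟨a, rfl⟩ := hspan u
    rw [Ph_sum1]
    refine dsum a _ fun i => ?_
    obtain ⟨b, rfl⟩ := hspan v
    rw [Ph_sum2]
    refine dsum b _ fun j => ?_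
    obtain ⟨c, rfl⟩ := hspan w
    rw [Ph_sum3]
    refine dsum c _ fun k => ?_
    obtain ⟨d, rfl⟩ := hspan z
    rw [Ph_sum4]
    exact dsum d _ fun l => all i j k l
  refine mr_ind G (fun x => q ∣ 24 * D * x) (by simp) (fun x hx => ?_) (fun a b => ?_) i j k l
  · show q ∣ 24 * D * (-x)
    rw [mul_neg]; exact hx.neg_right
  · obtain ⟨u, v, w, z, he⟩ := MM_eq G a b
    show q ∣ 24 * D * MM G a b
    rw [he]
    exact gen u v w z

end Pool.Agent.PP5P
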