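import Pool.Agent.PP5P.Cv
import Pool.Agent.PP5P.Pz
import Pool.Agent.PP5P.Dn
import Pool.Agent.PP5P.Dr
import Pool.Agent.PP5P.Rp
import Pool.Agent.PP5B.Cls
import Pool.Agent.PP5B.Rea

/-!
# PP5, population lemma: dense sets of bad combinations
-/

set_option autoImplicit false

namespace Pool.Agent.PP5P

open Matrix Pool.Agent.PP5 Pool.Agent.PP5B Finset

/-- the combination `t b0 + s b1 + b2` -/
def mc (b : Fin 3 → Fin 4 → ℤ) (t s : ℤ) : Fin 4 → ℤ := t • b 0 + s • b 1 + b 2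

theorem mc_eq (b : Fin 3 → Fin 4 → ℤ) (t s : ℤ) : mc b t s = ∑ i, (![t, s, 1] : Fin 3 → ℤ) i • b i := by
  simp [mc, Fin.sum_univ_three]

section
variable {R : Type*} [CommRing R]

theorem Ph_exp (G : Matrix (Fin 4) (Fin 4) R) (b : Fin 3 → Fin 4 → R) (t s : R) (z w : Fin 4 → R) :
    Ph G (t • b 0 + s • b 1 + b 2) z (t • b 0 + s • b 1 + b 2) w
      = Ph G (b 0) z (b 0) w * t ^ 2 + Ph G (b 1) z (b 1) w * s ^ 2
        + (Ph G (b 0) z (b 1) w + Ph G (b 1) z (b 0) w) * t * s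
        + (Ph G (b 0) z (b 2) w + Ph G (b 2) z (b 0) w) * t
        + (Ph G (b 1) z (b 2) w + Ph G (b 2) z (b 1) w) * s + Ph G (b 2) z (b 2) w := by
  simp only [Ph_add1, Ph_add3, Ph_smul1, Ph_smul3]
  ring

theorem bil_exp (A : Matrix (Fin 4) (Fin 4) R) (b : Fin 3 → Fin 4 → R) (t s : R) :
    (t • b 0 + s • b 1 + b 2) ⬝ᵥ (A *ᵥ (t • b 0 + s • b 1 + b 2))
      = (b 0 ⬝ᵥ (A *ᵥ b 0)) * t ^ 2 + (b 1 ⬝ᵥ (A *ᵥ b 1)) * s ^ 2
        + ((b 0 ⬝ᵥ (A *ᵥ b 1)) + (b 1 ⬝ᵥ (A *ᵥ b 0))) * t * s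
        + ((b 0 ⬝ᵥ (A *ᵥ b 2)) + (b 2 ⬝ᵥ (A *ᵥ b 0))) * t
        + ((b 1 ⬝ᵥ (A *ᵥ b 2)) + (b 2 ⬝ᵥ (A *ᵥ b 1))) * s + (b 2 ⬝ᵥ (A *ᵥ b 2)) := by
  simp only [mulVec_add, mulVec_smul, dotProduct_add, add_dotProduct, dotProduct_smul, smul_dotProduct,
    smul_eq_mul]
  ring

end

theorem ex_dual (v : Fin 4 → ℤ) (hv : Pr4 v) : ∃ f0 : Fin 4 → ℤ, f0 ⬝ᵥ v = 1 := by
  obtain ⟨U, -, hvU⟩ := ex_U v hv
  refine ⟨fun i => U i 3, ?_⟩
  have h : (v ᵥ* U) 3 = 1 := by rw [hvU]; rfl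
  rw [dotProduct_comm]
  exact h

theorem span4 {C : ℝ} {l : Fin 4 → ℝ} {H : ℝ} {v : Fin 4 → ℤ}
    {b : Fin 3 → Fin 4 → ℤ} (hb : PB C l H v b) {f0 : Fin 4 → ℤ} (hf0 : f0 ⬝ᵥ v = 1) (z : Fin 4 → ℤ) :
    ∃ a : Fin 4 → ℤ, z = ∑ i, a i • (![f0, b 0, b 1, b 2] : Fin 4 → Fin 4 → ℤ) i := by
  have h1 : (z - (z ⬝ᵥ v) • f0) ⬝ᵥ v = 0 := by
    rw [sub_dotProduct, smul_dotProduct, hf0, smul_eq_mul, mul_one, sub_self]
  obtain ⟨c, hc⟩ := hb.span _ h1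
  refine ⟨![z ⬝ᵥ v, c 0, c 1, c 2], ?_⟩
  rw [Fin.sum_univ_three] at hc
  rw [Fin.sum_univ_four]
  have h2 : z = (z ⬝ᵥ v) • f0 + (c 0 • b 0 + c 1 • b 1 + c 2 • b 2) := by
    rw [← hc]; abel
  refine h2.trans ?_
  show _ = (z ⬝ᵥ v) • f0 + c 0 • b 0 + c 1 • b 1 + c 2 • b 2
  abel

/-- a prime power which is bad for a dense set divides the minors -/
theorem bad_prime {ρ : ℝ} (hρ : 0 < ρ) {L N1 N2 : ℕ} (hL : 4 / ρ ≤ (L : ℝ)) (hN1 : 4 / ρ ≤ (N1 : ℝ))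
    (hN2 : 4 / ρ ≤ (N2 : ℝ)) (S : Finset (ℕ × ℕ)) (hS : S ⊆ range N1 ×ˢ range N2)
    (hc : 2 * ρ * (N1 * N2) < (S.card : ℝ)) {G : Matrix (Fin 4) (Fin 4) ℤ}
    (hG : ∀ i j, G i j = G j i) {C : ℝ} {l : Fin 4 → ℝ} {H : ℝ} {v : Fin 4 → ℤ} (hv : Pr4 v)
    {b : Fin 3 → Fin 4 → ℤ} (hb : PB C l H v b) (q : ℤ)
    (h : ∀ p ∈ S, ∀ z, q ∣ 2 * Ph G (mc b (p.1 : ℤ) (p.2 : ℤ)) z (mc b (p.1 : ℤ) (p.2 : ℤ)) z)
    (i j k k' : Fin 4) : q ∣ 24 * (2 * (L.factorial : ℤ) ^ 6) * mr G i j k k' := by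
  obtain ⟨f0, hf0⟩ := ex_dual v hv
  refine popZ hG ![f0, b 0, b 1, b 2] (span4 hb hf0) q _ ?_ i j k k'
  intro t s z
  simp only [cons_val_one, cons_val_two, cons_val_three]
  have h1 := two_dvd hρ hL hN1 hN2 S hS hc (2 * Ph G (b 0) z (b 0) z) (2 * Ph G (b 1) z (b 1) z)
    (2 * (Ph G (b 0) z (b 1) z + Ph G (b 1) z (b 0) z)) (2 * (Ph G (b 0) z (b 2) z + Ph G (b 2) z (b 0) z))
    (2 * (Ph G (b 1) z (b 2) z + Ph G (b 2) z (b 1) z)) (2 * Ph G (b 2) z (b 2) z) q (by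
      intro p hp
      have h2 := h p hp z
      rw [mc, Ph_exp] at h2
      refine h2.trans (dvd_of_eq ?_)
      ring) t s
  refine h1.trans (dvd_of_eq ?_)
  have h3 := Ph_exp G b t s z z
  show _ = 2 * (L.factorial : ℤ) ^ 6 * Ph G (t • b 0 + s • b 1 + b 2) z (t • b 0 + s • b 1 + b 2) z
  rw [h3]
  ring

/-- `D2` does not vanish on a dense set -/
theorem bad_D2 {ρ : ℝ} (hρ : 0 < ρ) {N1 N2 : ℕ} (hN1 : 4 / ρ ≤ (N1 : ℝ))
    (hN2 : 4 / ρ ≤ (N2 : ℝ)) (S : Finset (ℕ × ℕ)) (hS : S ⊆ range N1 ×ˢ range N2)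
    (hc : 2 * ρ * (N1 * N2) < (S.card : ℝ)) {G : Matrix (Fin 4) (Fin 4) ℤ}
    (hG : ∀ i j, G i j = G j i) (hdet : G.det ≠ 0) {C : ℝ} {l : Fin 4 → ℝ} {H : ℝ} {v : Fin 4 → ℤ}
    (hv : Pr4 v) {b : Fin 3 → Fin 4 → ℤ} (hb : PB C l H v b)
    (h : ∀ p ∈ S, D2 G (mc b (p.1 : ℤ) (p.2 : ℤ)) = 0) : False := by
  set A := G.adjugate with hA
  have hAt : Aᵀ = A := by
    rw [hA, adjugate_transpose]
    congr 1
    ext i j
    exact hG j i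
  have hsym : ∀ u w : Fin 4 → ℤ, w ⬝ᵥ (A *ᵥ u) = u ⬝ᵥ (A *ᵥ w) := by
    intro u w
    rw [dotProduct_mulVec, ← mulVec_transpose, hAt, dotProduct_comm]
  obtain ⟨L, hL⟩ := exists_nat_ge (4 / ρ)
  have hz : ∀ t s : ℤ, (b 0 ⬝ᵥ (A *ᵥ b 0)) * t ^ 2 + (b 1 ⬝ᵥ (A *ᵥ b 1)) * s ^ 2
        + ((b 0 ⬝ᵥ (A *ᵥ b 1)) + (b 1 ⬝ᵥ (A *ᵥ b 0))) * t * s
        + ((b 0 ⬝ᵥ (A *ᵥ b 2)) + (b 2 ⬝ᵥ (A *ᵥ b 0))) * t
        + ((b 1 ⬝ᵥ (A *ᵥ b 2)) + (b 2 ⬝ᵥ (A *ᵥ b 1))) * s + (b 2 ⬝ᵥ (A *ᵥ b 2)) = 0 := by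
    intro t s
    have h1 := two_dvd hρ hL hN1 hN2 S hS hc (b 0 ⬝ᵥ (A *ᵥ b 0)) (b 1 ⬝ᵥ (A *ᵥ b 1))
      ((b 0 ⬝ᵥ (A *ᵥ b 1)) + (b 1 ⬝ᵥ (A *ᵥ b 0))) ((b 0 ⬝ᵥ (A *ᵥ b 2)) + (b 2 ⬝ᵥ (A *ᵥ b 0)))
      ((b 1 ⬝ᵥ (A *ᵥ b 2)) + (b 2 ⬝ᵥ (A *ᵥ b 1))) (b 2 ⬝ᵥ (A *ᵥ b 2)) 0 (by
        intro p hp
        have h2 := h p hp
        rw [D2, mc, bil_exp] at h2
        rw [zero_dvd_iff]
        exact h2) t s
    rw [zero_dvd_iff] at h1
    have h2 : ((L.factorial : ℤ)) ^ 6 ≠ 0 := pow_ne_zero _ (by exact_mod_cast L.factorial_ne_zero)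
    exact (mul_eq_zero.mp h1).resolve_left h2
  have e00 := hz 0 0
  have e10 := hz 1 0
  have e20 := hz (-1) 0
  have e01 := hz 0 1
  have e02 := hz 0 (-1)
  have e11 := hz 1 1
  have s10 := hsym (b 0) (b 1)
  have s20 := hsym (b 0) (b 2)
  have s21 := hsym (b 1) (b 2)
  have hall : ∀ i j, b i ⬝ᵥ (A *ᵥ b j) = 0 := by
    have a00 : b 0 ⬝ᵥ (A *ᵥ b 0) = 0 := by linarith
    have a11 : b 1 ⬝ᵥ (A *ᵥ b 1) = 0 := by linarith
    have a22 : b 2 ⬝ᵥ (A *ᵥ b 2) = 0 := by linarith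
    have a02 : b 0 ⬝ᵥ (A *ᵥ b 2) = 0 := by linarith
    have a12 : b 1 ⬝ᵥ (A *ᵥ b 2) = 0 := by linarith
    have a01 : b 0 ⬝ᵥ (A *ᵥ b 1) = 0 := by linarith
    intro i j
    fin_cases i <;> fin_cases j
    · exact a00
    · exact a01
    · exact a02
    · show b 1 ⬝ᵥ (A *ᵥ b 0) = 0; rw [s10]; exact a01
    · exact a11
    · exact a12
    · show b 2 ⬝ᵥ (A *ᵥ b 0) = 0; rw [s20]; exact a02
    · show b 2 ⬝ᵥ (A *ᵥ b 1) = 0; rw [s21]; exact a12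
    · exact a22
  obtain ⟨f0, hf0⟩ := ex_dual v hv
  set P : Matrix (Fin 4) (Fin 4) ℤ := Matrix.of (![f0, b 0, b 1, b 2]) with hP
  have hPdet : P.det ≠ 0 := by
    choose Q hQ using fun i : Fin 4 => span4 hb hf0 (Pi.single i 1)
    have h1 : Matrix.of Q * P = 1 := by
      ext i j
      have h2 := congrFun (hQ i) j
      rw [Finset.sum_apply] at h2
      rw [Matrix.mul_apply, Matrix.one_apply]
      simp only [Pi.smul_apply, smul_eq_mul] at h2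
      have h3 : (Pi.single i (1 : ℤ) : Fin 4 → ℤ) j = if i = j then 1 else 0 := by
        rw [Pi.single_apply]
        by_cases hij : j = i
        · simp [hij]
        · simp [hij, Ne.symm hij]
      rw [← h3, h2]
      rfl
    intro h0
    have h2 := congrArg Matrix.det h1
    rw [Matrix.det_mul, h0, mul_zero, Matrix.det_one] at h2
    exact zero_ne_one h2
  have hB : (P * A * Pᵀ).det = 0 := by
    have hent : ∀ i j : Fin 3, (P * A * Pᵀ) i.succ j.succ = 0 := by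
      intro i j
      have h1 : (P * A * Pᵀ) i.succ j.succ = b i ⬝ᵥ (A *ᵥ b j) := by
        have hr : ∀ i : Fin 3, P i.succ = b i := by
          intro i
          fin_cases i <;> rfl
        rw [Matrix.mul_apply]
        simp only [Matrix.transpose_apply]
        have : ∀ x, (P * A) i.succ x = (b i ᵥ* A) x := by
          intro x
          rw [Matrix.mul_apply, vecMul, dotProduct]
          simp only [hr i]
        simp only [this, hr j]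
        rw [dotProduct_mulVec]
        rfl
      rw [h1, hall i j]
    set B := P * A * Pᵀ with hBdef
    rw [Matrix.det_succ_row_zero]
    simp only [Fin.sum_univ_succ, Matrix.det_fin_three, Matrix.submatrix_apply]
    have z11 := hent 0 0
    have z12 := hent 0 1
    have z13 := hent 0 2
    have z21 := hent 1 0
    have z22 := hent 1 1
    have z23 := hent 1 2
    have z31 := hent 2 0
    have z32 := hent 2 1
    have z33 := hent 2 2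
    have w11 : B 1 1 = 0 := z11
    have w12 : B 1 2 = 0 := z12
    have w13 : B 1 3 = 0 := z13
    have w21 : B 2 1 = 0 := z21
    have w22 : B 2 2 = 0 := z22
    have w23 : B 2 3 = 0 := z23
    have w31 : B 3 1 = 0 := z31
    have w32 : B 3 2 = 0 := z32
    have w33 : B 3 3 = 0 := z33
    simp [Fin.succAbove, w11, w12, w13, w21, w22, w23, w31, w32, w33]
  rw [Matrix.det_mul, Matrix.det_mul, Matrix.det_transpose] at hB
  have hA0 : A.det ≠ 0 := by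
    intro h0
    have h1 : G.det * A.det = G.det ^ 4 := by
      rw [← Matrix.det_mul, hA, mul_adjugate, det_smul, det_one]
      simp
    rw [h0, mul_zero] at h1
    exact hdet (pow_eq_zero_iff (by norm_num)|>.mp h1.symm)
  rcases mul_eq_zero.mp hB with h1 | h1
  · rcases mul_eq_zero.mp h1 with h2 | h2
    · exact hPdet h2
    · exact hA0 h2
  · exact hPdet h1

end Pool.Agent.PP5P
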