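import Pool.Agent.PP5P.Pa

/-!
# PP5, population lemma: the real place
-/

set_option autoImplicit false

namespace Pool.Agent.PP5P

open Matrix Pool.Agent.PP5 Pool.Agent.PP5B Finset

theorem cvR_mc (b : Fin 3 → Fin 4 → ℤ) (t s : ℕ) :
    cvR (mc b t s) = (t : ℝ) • cvR (b 0) + (s : ℝ) • cvR (b 1) + cvR (b 2) := by
  funext i
  simp [cvR, mc]

theorem mr_toR (G : Matrix (Fin 4) (Fin 4) ℤ) (i j k k' : Fin 4) :
    mr (toR G) i j k k' = ((mr G i j k k' : ℤ) : ℝ) := by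
  simp [mr, toR]

/-- the coordinates of the box vectors -/
theorem Ev_coord {C : ℝ} (hC : 1 ≤ C) {l : Fin 4 → ℝ} (hl : ∀ i, 0 < l i) {H : ℝ} {v : Fin 4 → ℤ}
    {b : Fin 3 → Fin 4 → ℤ} (hb : PB C l H v b) (i0 : Fin 4) (hv0 : v i0 ≠ 0)
    (hi0 : ∀ i, |(v i : ℝ)| * l i ≤ |(v i0 : ℝ)| * l i0) (k : Fin 4) :
    ∃ α : Fin 4 → ℝ, Ev l k = ∑ a, α a • (![Ev l i0, (1 / nw l (b 0)) • cvR (b 0),
      (1 / nw l (b 1)) • cvR (b 1), (1 / nw l (b 2)) • cvR (b 2)] : Fin 4 → Fin 4 → ℝ) a ∧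
      ∀ a, |α a| ≤ C := by
  have hpos : ∀ i, 0 < nw l (b i) := fun i => nw_pos hl (hb.ne i)
  have hvR : (v i0 : ℝ) ≠ 0 := by exact_mod_cast hv0
  set m : Fin 4 → ℤ := v i0 • (Pi.single k 1) - v k • (Pi.single i0 1) with hm
  have hmv : m ⬝ᵥ v = 0 := by
    rw [hm, sub_dotProduct, smul_dotProduct, smul_dotProduct]
    simp
    ring
  obtain ⟨c, hc⟩ := hb.span m hmv
  have hmn : nw l m ≤ |(v i0 : ℝ)| / l k := by
    rw [nw_le_iff hl (by have := hl k; positivity)]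
    intro i
    by_cases hk : k = i0
    · have : m = 0 := by rw [hm, hk, sub_self]
      rw [this]
      have := hl k
      have := hl i
      simp
      positivity
    by_cases h1 : i = k
    · subst h1
      have h2 : m i = v i0 := by
        rw [hm]; simp [hk]
      rw [h2, div_mul_cancel₀ _ (hl i).ne']
    · by_cases h2 : i = i0
      · subst h2
        have h3 : m i = - v k := by
          rw [hm]; simp [h1]
        rw [h3]
        push_cast
        rw [abs_neg, div_mul_eq_mul_div, le_div_iff₀ (hl k)]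
        exact hi0 k
      · have h3 : m i = 0 := by
          rw [hm]; simp [h1, h2]
        rw [h3]
        have := hl k
        have := hl i
        simp
        positivity
  refine ⟨![l k * v k / (l i0 * v i0), l k / v i0 * c 0 * nw l (b 0), l k / v i0 * c 1 * nw l (b 1),
    l k / v i0 * c 2 * nw l (b 2)], ?_, ?_⟩
  · rw [Fin.sum_univ_four]
    simp only [cons_val_zero, cons_val_one, cons_val_two, cons_val_three]
    have hcR : ∀ i, (m i : ℝ) = c 0 * b 0 i + c 1 * b 1 i + c 2 * b 2 i := by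
      intro i
      have h1 := congrFun hc i
      rw [Finset.sum_apply, Fin.sum_univ_three] at h1
      simp only [Pi.smul_apply, smul_eq_mul] at h1
      exact_mod_cast h1
    funext i
    have e0 := (hpos 0).ne'
    have e1 := (hpos 1).ne'
    have e2 := (hpos 2).ne'
    show Ev l k i = ((l k * (v k : ℝ) / (l i0 * (v i0 : ℝ))) • Ev l i0
      + (l k / (v i0 : ℝ) * (c 0 : ℝ) * nw l (b 0)) • (1 / nw l (b 0)) • cvR (b 0)
      + (l k / (v i0 : ℝ) * (c 1 : ℝ) * nw l (b 1)) • (1 / nw l (b 1)) • cvR (b 1)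
      + (l k / (v i0 : ℝ) * (c 2 : ℝ) * nw l (b 2)) • (1 / nw l (b 2)) • cvR (b 2)) i
    simp only [Pi.add_apply, Pi.smul_apply, smul_eq_mul, cvR]
    have h2 : (m i : ℝ) = v i0 * (Pi.single k (1 : ℝ) : Fin 4 → ℝ) i
        - v k * (Pi.single i0 (1 : ℝ) : Fin 4 → ℝ) i := by
      rw [hm]
      simp only [Pi.sub_apply, Pi.smul_apply, smul_eq_mul, Pi.single_apply]
      push_cast
      split_ifs <;> simp
    have h3 := hcR i
    rw [h2] at h3
    have hEk : Ev l k i = l k * (Pi.single k (1 : ℝ) : Fin 4 → ℝ) i := by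
      simp only [Ev, Pi.single_apply]
      split_ifs <;> simp
    have hEi : Ev l i0 i = l i0 * (Pi.single i0 (1 : ℝ) : Fin 4 → ℝ) i := by
      simp only [Ev, Pi.single_apply]
      split_ifs <;> simp
    rw [hEk, hEi]
    have hl0 := (hl i0).ne'
    have h4 : l k / v i0 * c 0 * nw l (b 0) * (1 / nw l (b 0) * (b 0 i : ℝ))
        + l k / v i0 * c 1 * nw l (b 1) * (1 / nw l (b 1) * (b 1 i : ℝ))
        + l k / v i0 * c 2 * nw l (b 2) * (1 / nw l (b 2) * (b 2 i : ℝ))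
        = l k / v i0 * (c 0 * b 0 i + c 1 * b 1 i + c 2 * b 2 i) := by
      field_simp
    have h5 : l k * v k / (l i0 * v i0) * (l i0 * (Pi.single i0 (1 : ℝ) : Fin 4 → ℝ) i)
        = l k / v i0 * (v k * (Pi.single i0 (1 : ℝ) : Fin 4 → ℝ) i) := by
      field_simp
    rw [h5, add_assoc, add_assoc, ← add_assoc (l k / v i0 * c 0 * nw l (b 0) * _) , h4, ← h3]
    field_simp
    ring
  · have hb' : ∀ i, |l k / v i0 * c i * nw l (b i)| ≤ C := by
      intro i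
      have h1 := hb.bd c i
      rw [← hc] at h1
      rw [abs_mul, abs_mul, abs_div, abs_of_pos (hl k), abs_of_pos (hpos i)]
      have h2 : 0 < |(v i0 : ℝ)| := abs_pos.mpr hvR
      calc l k / |(v i0 : ℝ)| * |(c i : ℝ)| * nw l (b i)
          = l k / |(v i0 : ℝ)| * (|(c i : ℝ)| * nw l (b i)) := by ring
        _ ≤ l k / |(v i0 : ℝ)| * (C * (|(v i0 : ℝ)| / l k)) := by
            refine mul_le_mul_of_nonneg_left (h1.trans (mul_le_mul_of_nonneg_left hmn (by linarith))) ?_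
            have := hl k
            positivity
        _ = C := by
            have := (hl k).ne'
            field_simp
    intro a
    fin_cases a
    · show |l k * v k / (l i0 * v i0)| ≤ C
      rw [abs_div, abs_mul, abs_mul, abs_of_pos (hl k), abs_of_pos (hl i0)]
      refine le_trans ?_ hC
      have h2 : 0 < |(v i0 : ℝ)| := abs_pos.mpr hvR
      rw [div_le_one (mul_pos (hl i0) h2)]
      have := hi0 k
      linarith
    · exact hb' 0
    · exact hb' 1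
    · exact hb' 2

theorem bad_real {ρ : ℝ} (hρ : 0 < ρ) (hρ1 : ρ ≤ 1) {N1 N2 : ℕ} (hN1 : 4 / ρ ≤ (N1 : ℝ))
    (hN2 : 4 / ρ ≤ (N2 : ℝ)) (S : Finset (ℕ × ℕ)) (hS : S ⊆ range N1 ×ˢ range N2)
    (hc : 2 * ρ * (N1 * N2) < (S.card : ℝ)) {G : Matrix (Fin 4) (Fin 4) ℤ}
    (hG : ∀ i j, G i j = G j i) {C : ℝ} (hC : 1 ≤ C) {l : Fin 4 → ℝ} (hl : ∀ i, 0 < l i) {H : ℝ}
    {v : Fin 4 → ℤ} (hv0 : v ≠ 0)
    {b : Fin 3 → Fin 4 → ℤ} (hb : PB C l H v b) (β : ℝ) (hβ : 0 ≤ β)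
    (hW1 : nw l (b 2) ≤ N1 * nw l (b 0)) (hW2 : nw l (b 2) ≤ N2 * nw l (b 1))
    (h : ∀ p ∈ S, ∀ i j, |Ph (toR G) (cvR (mc b (p.1 : ℤ) (p.2 : ℤ))) (Ev l i)
      (cvR (mc b (p.1 : ℤ) (p.2 : ℤ))) (Ev l j)| ≤ β)
    (i j k k' : Fin 4) : |((mr G i j k k' : ℤ) : ℝ)| * (∏ i, l i) ^ 2 * nw l (b 2) ^ 2
      ≤ 8192 * C ^ 4 * (105 / ρ ^ 2) ^ 2 * β * (l i * l j * (l k * l k')) := by
  have hpos : ∀ i, 0 < nw l (b i) := fun i => nw_pos hl (hb.ne i)
  set W := nw l (b 2) with hW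
  have hW0 : 0 < W := hpos 2
  set R := (105 / ρ ^ 2) ^ 2 with hR
  have hR0 : 0 < R := by positivity
  have hGR : ∀ i j, (toR G) i j = (toR G) j i := by
    intro i j
    simp only [toR, Matrix.map_apply]
    rw [hG i j]
  obtain ⟨i0, -, hi0⟩ := Finset.exists_max_image (Finset.univ : Finset (Fin 4))
    (fun i => |(v i : ℝ)| * l i) ⟨0, Finset.mem_univ _⟩
  have hi0' : ∀ i, |(v i : ℝ)| * l i ≤ |(v i0 : ℝ)| * l i0 := fun i => hi0 i (Finset.mem_univ _)
  have hvi0 : v i0 ≠ 0 := by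
    intro h0
    apply hv0
    funext i
    have h1 := hi0' i
    rw [h0] at h1
    simp only [Int.cast_zero, abs_zero, zero_mul] at h1
    have h2 : |(v i : ℝ)| ≤ 0 := by
      by_contra hcon
      push Not at hcon
      have := mul_pos hcon (hl i)
      linarith
    have h3 : (v i : ℝ) = 0 := abs_eq_zero.mp (le_antisymm h2 (abs_nonneg _))
    exact_mod_cast h3
  set f : Fin 4 → Fin 4 → ℝ := ![Ev l i0, (1 / nw l (b 0)) • cvR (b 0),
      (1 / nw l (b 1)) • cvR (b 1), (1 / nw l (b 2)) • cvR (b 2)] with hf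
  have hfs : ∀ a : Fin 3, f a.succ = (1 / nw l (b a)) • cvR (b a) := by
    intro a
    fin_cases a <;> rfl
  have hNb : ∀ a : Fin 3, W ≤ (![(N1 : ℝ), N2, 1] : Fin 3 → ℝ) a * nw l (b a) := by
    intro a
    fin_cases a
    · exact hW1
    · exact hW2
    · show W ≤ 1 * nw l (b 2)
      rw [one_mul]
  have hNp : ∀ a : Fin 3, 0 ≤ (![(N1 : ℝ), N2, 1] : Fin 3 → ℝ) a := by
    intro a
    fin_cases a
    · exact Nat.cast_nonneg _
    · exact Nat.cast_nonneg _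
    · exact zero_le_one
  -- the coefficients
  have hX : ∀ (a c : Fin 3) (i j : Fin 4), |Ph (toR G) (cvR (b a)) (Ev l i) (cvR (b c)) (Ev l j)
      + Ph (toR G) (cvR (b c)) (Ev l i) (cvR (b a)) (Ev l j)|
      * ((![(N1 : ℝ), N2, 1] : Fin 3 → ℝ) a * (![(N1 : ℝ), N2, 1] : Fin 3 → ℝ) c) ≤ 2 * (R * β) := by
    intro a c i j
    set bR : Fin 3 → Fin 4 → ℝ := fun a => cvR (b a) with hbR
    obtain ⟨h1, h2, h3, h4, h5, h6⟩ := two_real hρ hρ1 hN1 hN2 S hS hc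
      (Ph (toR G) (bR 0) (Ev l i) (bR 0) (Ev l j)) (Ph (toR G) (bR 1) (Ev l i) (bR 1) (Ev l j))
      (Ph (toR G) (bR 0) (Ev l i) (bR 1) (Ev l j) + Ph (toR G) (bR 1) (Ev l i) (bR 0) (Ev l j))
      (Ph (toR G) (bR 0) (Ev l i) (bR 2) (Ev l j) + Ph (toR G) (bR 2) (Ev l i) (bR 0) (Ev l j))
      (Ph (toR G) (bR 1) (Ev l i) (bR 2) (Ev l j) + Ph (toR G) (bR 2) (Ev l i) (bR 1) (Ev l j))
      (Ph (toR G) (bR 2) (Ev l i) (bR 2) (Ev l j)) β hβ (by
        intro p hp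
        have e := h p hp i j
        rw [cvR_mc] at e
        have e2 := Ph_exp (toR G) bR (p.1 : ℝ) (p.2 : ℝ) (Ev l i) (Ev l j)
        rw [show (p.1 : ℝ) • cvR (b 0) + (p.2 : ℝ) • cvR (b 1) + cvR (b 2)
          = (p.1 : ℝ) • bR 0 + (p.2 : ℝ) • bR 1 + bR 2 from rfl, e2] at e
        exact e)
    have hRβ : 0 ≤ R * β := by positivity
    have h2a : ∀ x : ℝ, |x + x| = 2 * |x| := fun x => by
      rw [← two_mul, abs_mul, abs_two]
    fin_cases a <;> fin_cases c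
    · show |Ph (toR G) (bR 0) (Ev l i) (bR 0) (Ev l j) + Ph (toR G) (bR 0) (Ev l i) (bR 0) (Ev l j)|
        * ((N1 : ℝ) * N1) ≤ 2 * (R * β)
      rw [h2a]; nlinarith
    · show |Ph (toR G) (bR 0) (Ev l i) (bR 1) (Ev l j) + Ph (toR G) (bR 1) (Ev l i) (bR 0) (Ev l j)|
        * ((N1 : ℝ) * N2) ≤ 2 * (R * β)
      linarith
    · show |Ph (toR G) (bR 0) (Ev l i) (bR 2) (Ev l j) + Ph (toR G) (bR 2) (Ev l i) (bR 0) (Ev l j)|
        * ((N1 : ℝ) * 1) ≤ 2 * (R * β)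
      rw [mul_one]; linarith
    · show |Ph (toR G) (bR 1) (Ev l i) (bR 0) (Ev l j) + Ph (toR G) (bR 0) (Ev l i) (bR 1) (Ev l j)|
        * ((N2 : ℝ) * N1) ≤ 2 * (R * β)
      rw [add_comm, mul_comm (N2 : ℝ)]; linarith
    · show |Ph (toR G) (bR 1) (Ev l i) (bR 1) (Ev l j) + Ph (toR G) (bR 1) (Ev l i) (bR 1) (Ev l j)|
        * ((N2 : ℝ) * N2) ≤ 2 * (R * β)
      rw [h2a]; nlinarith
    · show |Ph (toR G) (bR 1) (Ev l i) (bR 2) (Ev l j) + Ph (toR G) (bR 2) (Ev l i) (bR 1) (Ev l j)|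
        * ((N2 : ℝ) * 1) ≤ 2 * (R * β)
      rw [mul_one]; linarith
    · show |Ph (toR G) (bR 2) (Ev l i) (bR 0) (Ev l j) + Ph (toR G) (bR 0) (Ev l i) (bR 2) (Ev l j)|
        * ((1 : ℝ) * N1) ≤ 2 * (R * β)
      rw [add_comm, one_mul]; linarith
    · show |Ph (toR G) (bR 2) (Ev l i) (bR 1) (Ev l j) + Ph (toR G) (bR 1) (Ev l i) (bR 2) (Ev l j)|
        * ((1 : ℝ) * N2) ≤ 2 * (R * β)
      rw [add_comm, one_mul]; linarith
    · show |Ph (toR G) (bR 2) (Ev l i) (bR 2) (Ev l j) + Ph (toR G) (bR 2) (Ev l i) (bR 2) (Ev l j)|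
        * ((1 : ℝ) * 1) ≤ 2 * (R * β)
      rw [h2a]; linarith
  have hmain := popR hGR l hl f ?_ C (2 * (R * β) / W ^ 2) (by linarith) ?_ ?_ i j k k'
  · rw [mr_toR] at hmain
    have h1 : |((mr G i j k k' : ℤ) : ℝ)| * (∏ i, l i) ^ 2 * W ^ 2
        ≤ 4096 * C ^ 4 * (2 * (R * β) / W ^ 2) * (l i * l j * (l k * l k')) * W ^ 2 :=
      mul_le_mul_of_nonneg_right hmain (by positivity)
    refine h1.trans (le_of_eq ?_)
    field_simp
    ring
  · intro a i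
    refine Fin.cases ?_ (fun a => ?_) a
    · show |Ev l i0 i| ≤ l i
      simp only [Ev, Pi.single_apply]
      split_ifs with h1
      · rw [h1, abs_of_pos (hl i0)]
      · rw [abs_zero]; exact (hl i).le
    · rw [hfs]
      simp only [Pi.smul_apply, smul_eq_mul, cvR]
      rw [abs_mul, abs_of_pos (by have := hpos a; positivity), one_div, inv_mul_le_iff₀ (hpos a)]
      exact le_nw hl (b a) i
  · intro k
    exact Ev_coord hC hl hb i0 hvi0 hi0' k
  · intro a c ha hc' i j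
    obtain ⟨a', rfl⟩ := Fin.exists_succ_eq.mpr ha
    obtain ⟨c', rfl⟩ := Fin.exists_succ_eq.mpr hc'
    rw [hfs, hfs]
    simp only [Ph_smul1, Ph_smul3]
    rw [Ph_symm hGR (cvR (b c')) (Ev l i) (cvR (b a')) (Ev l j)]
    have h1 := hX a' c' i j
    have h2 := hNb a'
    have h3 := hNb c'
    have h4 := hpos a'
    have h5 := hpos c'
    set X := Ph (toR G) (cvR (b a')) (Ev l i) (cvR (b c')) (Ev l j)
      + Ph (toR G) (cvR (b c')) (Ev l i) (cvR (b a')) (Ev l j) with hXd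
    have h6 : 1 / nw l (b c') * (1 / nw l (b a') * Ph (toR G) (cvR (b a')) (Ev l i) (cvR (b c')) (Ev l j))
        + 1 / nw l (b c') * (1 / nw l (b a') * Ph (toR G) (cvR (b c')) (Ev l i) (cvR (b a')) (Ev l j))
        = X / (nw l (b a') * nw l (b c')) := by
      rw [hXd]
      field_simp
    rw [h6, abs_div, abs_of_pos (mul_pos h4 h5), div_le_div_iff₀ (mul_pos h4 h5) (by positivity)]
    calc |X| * W ^ 2 = |X| * (W * W) := by ring
      _ ≤ |X| * ((![(N1 : ℝ), N2, 1] : Fin 3 → ℝ) a' * nw l (b a')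
          * ((![(N1 : ℝ), N2, 1] : Fin 3 → ℝ) c' * nw l (b c'))) :=
          mul_le_mul_of_nonneg_left (mul_le_mul h2 h3 hW0.le (hW0.le.trans h2)) (abs_nonneg _)
      _ = (|X| * ((![(N1 : ℝ), N2, 1] : Fin 3 → ℝ) a' * (![(N1 : ℝ), N2, 1] : Fin 3 → ℝ) c'))
          * (nw l (b a') * nw l (b c')) := by ring
      _ ≤ 2 * (R * β) * (nw l (b a') * nw l (b c')) :=
          mul_le_mul_of_nonneg_right h1 (mul_pos h4 h5).le

end Pool.Agent.PP5P
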