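import Pool.Agent.PP5P.Po

/-!
# PP5, population lemma: the set of good vectors orthogonal to one vector
-/

set_option autoImplicit false

namespace Pool.Agent.PP5P

open Matrix Pool.Agent.PP5 Pool.Agent.PP5B Finset

theorem det_bound {G : Matrix (Fin 4) (Fin 4) ℤ} {X : ℝ} (h : ∀ i j, |(G i j : ℝ)| ≤ X) :
    |(G.det : ℝ)| ≤ 24 * X ^ 4 := by
  have h1 := Matrix.det_le (A := toR G) (abv := (AbsoluteValue.abs : AbsoluteValue ℝ ℝ)) (x := X)
    (fun i j => h i j)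
  have h2 : (toR G).det = (G.det : ℝ) := by
    unfold toR
    exact (RingHom.map_det (Int.castRingHom ℝ) G).symm
  rw [h2] at h1
  have h3 : AbsoluteValue.abs (G.det : ℝ) = |(G.det : ℝ)| := rfl
  rw [h3] at h1
  refine h1.trans (le_of_eq ?_)
  simp [Fintype.card_fin, Nat.factorial]

/-- **the good vectors orthogonal to one vector** -/
theorem good_set (c : ℝ) (hc : 0 < c) (C0 : ℝ) (hC0 : 1 ≤ C0) : ∃ C : ℝ, 1 ≤ C ∧
    ∀ (G : Matrix (Fin 4) (Fin 4) ℤ), (∀ i j, G i j = G j i) → (∀ i, 2 ∣ G i i) → G.det ≠ 0 →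
    ∀ (l : Fin 4 → ℝ) (T Y H A p : ℝ), 1 ≤ Y → (∀ i, 0 < l i) → (∀ i, l i ≤ Y) → 1 / Y ≤ T →
    (∀ i j, |(G i j : ℝ)| ≤ C0 * l i * l j / T) →
    (∀ n : ℕ, (∀ i j k k', (n : ℤ) ∣ mr G i j k k') → (n : ℝ) ≤ A) → 0 < p →
    (∃ i j k k', p ≤ |((mr G i j k k' : ℤ) : ℝ)| * T ^ 2 / (l i * l j * l k * l k')) →
    ∀ v : Fin 4 → ℤ, Pr4 v → (∀ i, |(v i : ℝ)| * l i ≤ H) → ∃ b : Fin 3 → Fin 4 → ℤ, PB C l H v b ∧
      ∃ S : Finset (Fin 4 → ℤ), nw l (b 2) ^ 3 * (∏ i, l i) ≤ C * H * S.card ∧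
        ∀ m ∈ S, Pr4 m ∧ m ⬝ᵥ v = 0 ∧ nw l m ≤ C * nw l (b 2) ∧ D2 G m ≠ 0 ∧
          (∃ i j, p * (∏ i, l i) ^ 2 * nw l (b 2) ^ 2 / (C * T ^ 2)
            ≤ |Ph (toR G) (cvR m) (Ev l i) (cvR m) (Ev l j)|) ∧
          (sl G m : ℝ) ^ 2 ≤ C * A * Y ^ c := by
  obtain ⟨Cb, hCb1, hCb⟩ := perp_basis
  set ρ : ℝ := min (1 / 16) (c / 192) with hρd
  have hρ : 0 < ρ := lt_min (by norm_num) (by positivity)
  have hρ1 : ρ ≤ 1 := (min_le_left _ _).trans (by norm_num)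
  have hρ2 : ρ ≤ 1 / 16 := min_le_left _ _
  have hρc : 192 * ρ ≤ c := by
    have := min_le_right (1 / 16 : ℝ) (c / 192)
    linarith
  set L : ℕ := ⌈4 / ρ⌉₊ with hLd
  have hL : 4 / ρ ≤ (L : ℝ) := Nat.le_ceil _
  set R : ℝ := (105 / ρ ^ 2) ^ 2 with hR
  have hR0 : 0 < R := by positivity
  have hL4 : (4 : ℝ) ≤ L := by
    refine le_trans ?_ hL
    rw [le_div_iff₀ hρ]
    linarith
  set CL : ℝ := 48 * (L.factorial : ℝ) ^ 6 with hCL
  have hCL1 : 1 ≤ CL := by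
    have h1 : (1 : ℝ) ≤ (L.factorial : ℝ) := by exact_mod_cast L.factorial_pos
    have h2 : (1 : ℝ) ≤ (L.factorial : ℝ) ^ 6 := one_le_pow₀ h1
    linarith
  set CD : ℝ := (48 * C0 ^ 4) ^ (16 * ρ) with hCD
  have hCD1 : 1 ≤ CD := by
    refine Real.one_le_rpow ?_ (by positivity)
    have : 1 ≤ C0 ^ 4 := one_le_pow₀ hC0
    linarith
  set Cβ : ℝ := 16384 * Cb ^ 4 * R with hCβ
  have hCβ0 : 0 < Cβ := by positivity
  refine ⟨2 * Cb + (2 * L + 1) + (Cβ + 1) + CL * CD, ?_, ?_⟩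
  · have : 0 < CL * CD := by positivity
    have : (0 : ℝ) ≤ L := Nat.cast_nonneg _
    linarith
  intro G hG hev hdet l T Y H A p hY hl hlY hT hGb hA hp hmr v hv hvH
  set C : ℝ := 2 * Cb + (2 * L + 1) + (Cβ + 1) + CL * CD with hC
  have hCLD : 0 < CL * CD := by positivity
  have hLn : (0 : ℝ) ≤ L := Nat.cast_nonneg _
  have hY0 : 0 < Y := by linarith
  have hT0 : 0 < T := lt_of_lt_of_le (by positivity) hT
  have hv0 : v ≠ 0 := by
    rintro rfl
    exact hv 2 Nat.prime_two (fun i => dvd_zero _)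
  have hH : 0 < H := by
    obtain ⟨i, hi⟩ := Function.ne_iff.mp hv0
    have h1 : (0 : ℝ) < |(v i : ℝ)| := abs_pos.mpr (by exact_mod_cast hi)
    exact lt_of_lt_of_le (mul_pos h1 (hl i)) (hvH i)
  have hlam : 0 < ∏ i, l i := Finset.prod_pos fun i _ => hl i
  obtain ⟨b, hb⟩ := hCb l hl H v hv hvH
  refine ⟨b, hb.mono (by linarith) hH.le, ?_⟩
  have hpos : ∀ i, 0 < nw l (b i) := fun i => nw_pos hl (hb.ne i)
  set W := nw l (b 2) with hW
  have hW0 : 0 < W := hpos 2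
  have hb0W : nw l (b 0) ≤ W := hb.m01.trans hb.m12
  have hb1W : nw l (b 1) ≤ W := hb.m12
  set N1 : ℕ := ⌊(L : ℝ) * W / nw l (b 0)⌋₊ with hN1d
  set N2 : ℕ := ⌊(L : ℝ) * W / nw l (b 1)⌋₊ with hN2d
  have hNL : ∀ x : ℝ, 0 < x → x ≤ W → (L : ℝ) ≤ (⌊(L : ℝ) * W / x⌋₊ : ℝ) := by
    intro x hx hxW
    have : L ≤ ⌊(L : ℝ) * W / x⌋₊ := by
      rw [Nat.le_floor_iff (by positivity), le_div_iff₀ hx]
      exact mul_le_mul_of_nonneg_left hxW hLn
    exact_mod_cast this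
  have hNW : ∀ x : ℝ, 0 < x → x ≤ W → W ≤ (⌊(L : ℝ) * W / x⌋₊ : ℝ) * x := by
    intro x hx hxW
    have h1 := Nat.lt_floor_add_one ((L : ℝ) * W / x)
    rw [div_lt_iff₀ hx] at h1
    have hL2 : (2 : ℝ) ≤ L := by
      refine le_trans ?_ hL
      rw [le_div_iff₀ hρ]
      linarith only [hρ1]
    have h2 := mul_le_mul_of_nonneg_right hL2 hW0.le
    linarith only [h1, h2, hxW]
  have hNU : ∀ x : ℝ, 0 < x → (⌊(L : ℝ) * W / x⌋₊ : ℝ) * x ≤ L * W := by
    intro x hx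
    have h1 := Nat.floor_le (show 0 ≤ (L : ℝ) * W / x by positivity)
    rw [le_div_iff₀ hx] at h1
    exact h1
  have hN1 : 4 / ρ ≤ (N1 : ℝ) := hL.trans (hNL _ (hpos 0) hb0W)
  have hN2 : 4 / ρ ≤ (N2 : ℝ) := hL.trans (hNL _ (hpos 1) hb1W)
  have hW1 : W ≤ N1 * nw l (b 0) := hNW _ (hpos 0) hb0W
  have hW2 : W ≤ N2 * nw l (b 1) := hNW _ (hpos 1) hb1W
  have hN1p : (0 : ℝ) < N1 := lt_of_lt_of_le (by positivity) hN1
  have hN2p : (0 : ℝ) < N2 := lt_of_lt_of_le (by positivity) hN2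
  classical
  set Ω := range N1 ×ˢ range N2 with hΩ
  have hΩc : (Ω.card : ℝ) = N1 * N2 := by
    rw [hΩ, Finset.card_product, card_range, card_range]; push_cast; ring
  obtain ⟨i1, j1, k1, k1', hmr1⟩ := hmr
  have hmr0 : mr G i1 j1 k1 k1' ≠ 0 := by
    intro h0
    rw [h0] at hmr1
    simp at hmr1
    linarith
  -- the three bad sets
  obtain ⟨Bd1, hBd1s, hBd1c, hBd1⟩ := sl_bound hρ hL hN1 hN2 hG hev hdet hl hv hb A hA
    ⟨i1, j1, k1, k1', hmr0⟩
  set β : ℝ := p * (∏ i, l i) ^ 2 * W ^ 2 / (Cβ * T ^ 2) with hβ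
  have hβ0 : 0 < β := by positivity
  set Bd2 := Ω.filter (fun c => ∀ i j, |Ph (toR G) (cvR (mc b (c.1 : ℤ) (c.2 : ℤ))) (Ev l i)
      (cvR (mc b (c.1 : ℤ) (c.2 : ℤ))) (Ev l j)| ≤ β) with hBd2
  have hBd2c : (Bd2.card : ℝ) ≤ 2 * ρ * (N1 * N2) := by
    by_contra hcon
    push Not at hcon
    have h1 := bad_real hρ hρ1 hN1 hN2 Bd2 (Finset.filter_subset _ _) hcon hG hCb1 hl hv0 hb β hβ0.le
      hW1 hW2 (fun c hc => (Finset.mem_filter.mp hc).2) i1 j1 k1 k1'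
    rw [← hR, ← hW] at h1
    set mm := |((mr G i1 j1 k1 k1' : ℤ) : ℝ)| with hmm
    set q4 := l i1 * l j1 * (l k1 * l k1') with hq4
    have hq40 : 0 < q4 := by
      have := hl i1; have := hl j1; have := hl k1; have := hl k1'
      positivity
    have h2 : p * q4 ≤ mm * T ^ 2 := by
      have h3 : l i1 * l j1 * l k1 * l k1' = q4 := by rw [hq4]; ring
      rw [h3, le_div_iff₀ hq40] at hmr1
      exact hmr1
    have h3 : 8192 * Cb ^ 4 * R * β * q4 = (1 / 2) * (p * q4) * ((∏ i, l i) ^ 2 * W ^ 2) / T ^ 2 := by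
      rw [hβ, hCβ]
      field_simp
      ring
    rw [h3, le_div_iff₀ (by positivity)] at h1
    have h4 : 0 < (∏ i, l i) ^ 2 * W ^ 2 := by positivity
    have h5 : mm * T ^ 2 ≤ (1 / 2) * (p * q4) := by
      refine le_of_mul_le_mul_right ?_ h4
      linarith
    have h6 : 0 < p * q4 := by positivity
    linarith
  set Bd3 := Ω.filter (fun c => D2 G (mc b (c.1 : ℤ) (c.2 : ℤ)) = 0) with hBd3
  have hBd3c : (Bd3.card : ℝ) ≤ 2 * ρ * (N1 * N2) := by
    by_contra hcon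
    push Not at hcon
    exact bad_D2 hρ hN1 hN2 Bd3 (Finset.filter_subset _ _) hcon hG hdet hv hb
      (fun c hc => (Finset.mem_filter.mp hc).2)
  set Gd := Ω \ (Bd1 ∪ Bd2 ∪ Bd3) with hGd
  have hGdc : (N1 * N2 : ℝ) / 2 ≤ Gd.card := by
    have h1 : Ω.card ≤ Gd.card + (Bd1.card + Bd2.card + Bd3.card) := by
      have h2 := Finset.le_card_sdiff (Bd1 ∪ Bd2 ∪ Bd3) Ω
      rw [← hGd] at h2
      have h3 := Finset.card_union_le (Bd1 ∪ Bd2) Bd3
      have h4 := Finset.card_union_le Bd1 Bd2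
      omega
    have h2 : (Ω.card : ℝ) ≤ Gd.card + (Bd1.card + Bd2.card + Bd3.card) := by exact_mod_cast h1
    rw [hΩc] at h2
    have hNN : (0 : ℝ) < N1 * N2 := by positivity
    have h5 : 2 * ρ * ((N1 : ℝ) * N2) ≤ (1 / 8) * (N1 * N2) :=
      mul_le_mul_of_nonneg_right (by linarith) hNN.le
    linarith
  refine ⟨Gd.image (fun c => mc b (c.1 : ℤ) (c.2 : ℤ)), ?_, ?_⟩
  · rw [Finset.card_image_of_injOn]
    · have h1 : W ^ 2 ≤ (N1 * nw l (b 0)) * (N2 * nw l (b 1)) := by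
        rw [pow_two]
        exact mul_le_mul hW1 hW2 hW0.le (hW0.le.trans hW1)
      have h2 := hb.vol
      have h3 : W ^ 2 * (W * (∏ i, l i)) ≤ (N1 * N2) * (Cb * H) := by
        calc W ^ 2 * (W * (∏ i, l i)) ≤ (N1 * nw l (b 0)) * (N2 * nw l (b 1)) * (W * (∏ i, l i)) :=
              mul_le_mul_of_nonneg_right h1 (by positivity)
          _ = (N1 * N2) * (nw l (b 0) * nw l (b 1) * W * (∏ i, l i)) := by ring
          _ ≤ (N1 * N2) * (Cb * H) := mul_le_mul_of_nonneg_left h2 (by positivity)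
      calc W ^ 3 * (∏ i, l i) = W ^ 2 * (W * (∏ i, l i)) := by ring
        _ ≤ (N1 * N2) * (Cb * H) := h3
        _ = (2 * Cb) * H * ((N1 * N2 : ℝ) / 2) := by ring
        _ ≤ (2 * Cb) * H * Gd.card := mul_le_mul_of_nonneg_left hGdc (by positivity)
        _ ≤ C * H * Gd.card := by
            refine mul_le_mul_of_nonneg_right (mul_le_mul_of_nonneg_right ?_ hH.le) (Nat.cast_nonneg _)
            linarith
    · intro x _ y _ hxy
      obtain ⟨h1, h2⟩ := mc_inj hl hb hxy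
      exact Prod.ext (by exact_mod_cast h1) (by exact_mod_cast h2)
  · intro m hm
    obtain ⟨c', hc', rfl⟩ := Finset.mem_image.mp hm
    rw [hGd, Finset.mem_sdiff, Finset.mem_union, Finset.mem_union] at hc'
    push Not at hc'
    obtain ⟨hcΩ, ⟨hc1, hc2⟩, hc3⟩ := hc'
    have hcm : (c'.1 : ℝ) ≤ N1 ∧ (c'.2 : ℝ) ≤ N2 := by
      rw [hΩ, Finset.mem_product, Finset.mem_range, Finset.mem_range] at hcΩ
      exact ⟨by exact_mod_cast hcΩ.1.le, by exact_mod_cast hcΩ.2.le⟩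
    refine ⟨mc_prim hl hb _ _, mc_orth hb _ _, ?_, ?_, ?_, ?_⟩
    · refine (mc_nw hl b c'.1 c'.2).trans ?_
      have h1 : (c'.1 : ℝ) * nw l (b 0) ≤ N1 * nw l (b 0) := mul_le_mul_of_nonneg_right hcm.1 (hpos 0).le
      have h2 : (c'.2 : ℝ) * nw l (b 1) ≤ N2 * nw l (b 1) := mul_le_mul_of_nonneg_right hcm.2 (hpos 1).le
      have h3 : (N1 : ℝ) * nw l (b 0) ≤ L * W := hNU _ (hpos 0)
      have h4 : (N2 : ℝ) * nw l (b 1) ≤ L * W := hNU _ (hpos 1)
      calc (c'.1 : ℝ) * nw l (b 0) + c'.2 * nw l (b 1) + W ≤ L * W + L * W + W := by linarith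
        _ = (2 * L + 1) * W := by ring
        _ ≤ C * W := mul_le_mul_of_nonneg_right (by linarith) hW0.le
    · intro h0
      exact hc3 (Finset.mem_filter.mpr ⟨hcΩ, h0⟩)
    · by_contra hcon
      push Not at hcon
      apply hc2
      rw [hBd2, Finset.mem_filter]
      refine ⟨hcΩ, fun i j => ?_⟩
      refine (hcon i j).le.trans ?_
      rw [hβ]
      refine div_le_div_of_nonneg_left (by positivity) (by positivity) ?_
      exact mul_le_mul_of_nonneg_right (by linarith) (by positivity)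
    · have h1 := hBd1 c' hcΩ hc1
      refine h1.trans ?_
      have hA0 : 0 ≤ A := by
        have := hA 0
        have h2 := hA 1 (fun i j k k' => by rw [Nat.cast_one]; exact _root_.one_dvd _)
        simp at h2
        linarith
      have h2 : ((2 * G.det).natAbs : ℝ) ≤ 48 * C0 ^ 4 * Y ^ (12 : ℕ) := by
        have h3 : ((2 * G.det).natAbs : ℝ) = |((2 * G.det : ℤ) : ℝ)| := by
          rw [Nat.cast_natAbs, Int.cast_abs]
        rw [h3, Int.cast_mul, abs_mul, Int.cast_ofNat, abs_two]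
        have h4 : ∀ i j, |(G i j : ℝ)| ≤ C0 * Y ^ 3 := by
          intro i j
          refine (hGb i j).trans ?_
          rw [div_le_iff₀ hT0]
          have h5 : 1 ≤ T * Y := by
            rw [div_le_iff₀ hY0] at hT
            exact hT
          have h6 : l i * l j ≤ Y * Y := mul_le_mul (hlY i) (hlY j) (hl j).le hY0.le
          calc C0 * l i * l j = C0 * (l i * l j) := by ring
            _ ≤ C0 * (Y * Y) := mul_le_mul_of_nonneg_left h6 (by linarith)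
            _ ≤ C0 * (Y * Y) * (T * Y) := le_mul_of_one_le_right (by positivity) h5
            _ = C0 * Y ^ 3 * T := by ring
        have h5 := det_bound h4
        calc 2 * |(G.det : ℝ)| ≤ 2 * (24 * (C0 * Y ^ 3) ^ 4) := by linarith
          _ = 48 * C0 ^ 4 * Y ^ (12 : ℕ) := by ring
      have h3 : ((2 * G.det).natAbs : ℝ) ^ (16 * ρ) ≤ CD * Y ^ c := by
        calc ((2 * G.det).natAbs : ℝ) ^ (16 * ρ) ≤ (48 * C0 ^ 4 * Y ^ (12 : ℕ)) ^ (16 * ρ) :=
              Real.rpow_le_rpow (Nat.cast_nonneg _) h2 (by positivity)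
          _ = CD * Y ^ (192 * ρ) := by
              have h6 : (Y ^ (12 : ℕ)) ^ (16 * ρ) = Y ^ (192 * ρ) := by
                rw [← Real.rpow_natCast Y 12, ← Real.rpow_mul hY0.le]
                congr 1
                push_cast
                ring
              rw [Real.mul_rpow (by positivity) (by positivity), h6]
          _ ≤ CD * Y ^ c := mul_le_mul_of_nonneg_left (Real.rpow_le_rpow_of_exponent_le hY hρc) (by linarith)
      calc CL * A * ((2 * G.det).natAbs : ℝ) ^ (16 * ρ) ≤ CL * A * (CD * Y ^ c) :=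
            mul_le_mul_of_nonneg_left h3 (by positivity)
        _ = (CL * CD) * A * Y ^ c := by ring
        _ ≤ C * A * Y ^ c := by
            refine mul_le_mul_of_nonneg_right (mul_le_mul_of_nonneg_right ?_ hA0) (by positivity)
            linarith

end Pool.Agent.PP5P
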