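import Pool.Agent.PP5P.Ph
import Pool.Agent.PP5P.Pg
import Pool.Agent.PP5P.Zb

/-!
# PP5, the population lemma
-/

set_option autoImplicit false

namespace Pool.Agent.PP5P

open Matrix Pool.Agent.PP5 Pool.Agent.PP5B Finset

/-- the number of dyadic levels -/
theorem levels_le (Cg c : ℝ) (hCg : 1 ≤ Cg) (hc : 0 < c) (Y : ℝ) (hY : 1 ≤ Y) (J : ℕ)
    (hJ : (2 : ℝ) ^ J ≤ Cg * Y ^ 2) : (J : ℝ) + 1 ≤ (4 / c * Cg ^ (c / 2) + 1) * Y ^ c := by
  have hY0 : 0 < Y := by linarith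
  have h1 : (J : ℝ) * Real.log 2 ≤ Real.log (Cg * Y ^ 2) := by
    rw [← Real.log_pow]
    exact Real.log_le_log (by positivity) hJ
  have h2 : Real.log (Cg * Y ^ 2) ≤ (Cg * Y ^ 2) ^ (c / 2) / (c / 2) :=
    Real.log_le_rpow_div (by positivity) (by positivity)
  have h3 : (Cg * Y ^ 2) ^ (c / 2) = Cg ^ (c / 2) * Y ^ c := by
    rw [Real.mul_rpow (by positivity) (by positivity)]
    congr 1
    rw [← Real.rpow_natCast, ← Real.rpow_mul hY0.le]
    congr 1
    push_cast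
    ring
  have h4 : (1 : ℝ) / 2 < Real.log 2 := by
    have := Real.log_two_gt_d9
    linarith
  have h5 : (1 : ℝ) ≤ Y ^ c := Real.one_le_rpow hY hc.le
  have hJ0 : (0 : ℝ) ≤ J := Nat.cast_nonneg _
  have h6 : (J : ℝ) ≤ 2 * (Cg ^ (c / 2) * Y ^ c / (c / 2)) := by
    rw [← h3]
    linarith [mul_le_mul_of_nonneg_left h4.le hJ0]
  have h7 : 2 * (Cg ^ (c / 2) * Y ^ c / (c / 2)) = 4 / c * Cg ^ (c / 2) * Y ^ c := by
    field_simp
    ring
  rw [h7] at h6
  linarith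

/-- **the population lemma** -/
theorem pop (c : ℝ) (hc : 0 < c) (C0 : ℝ) (hC0 : 1 ≤ C0) : ∃ C : ℝ, 1 ≤ C ∧
    ∀ (G : Matrix (Fin 4) (Fin 4) ℤ), (∀ i j, G i j = G j i) → (∀ i, 2 ∣ G i i) → G.det ≠ 0 →
    ∀ (l : Fin 4 → ℝ) (T Y H U A p : ℝ), 1 ≤ Y → (∀ i, 0 < l i) → (∀ i, l i ≤ Y) → 1 / Y ≤ T →
    0 ≤ H → 0 < U → U ≤ Y → (∀ i j, |(G i j : ℝ)| ≤ C0 * l i * l j / T) →
    (∀ n : ℕ, (∀ i j k k', (n : ℤ) ∣ mr G i j k k') → (n : ℝ) ≤ A) → 0 < p →
    (∃ i j k k', p ≤ |((mr G i j k k' : ℤ) : ℝ)| * T ^ 2 / (l i * l j * l k * l k')) →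
    ∀ V : Finset (Fin 4 → ℤ), (∀ v ∈ V, Pr4 v ∧ v ⬝ᵥ (G *ᵥ v) = 0 ∧ (∀ i, |(v i : ℝ)| * l i ≤ H) ∧
      ∃ m : Fin 3 → Fin 4 → ℤ, LinearIndependent ℤ m ∧ (∀ a, m a ⬝ᵥ v = 0) ∧
        ∀ a i, |(m a i : ℝ)| ≤ U * l i) →
    (V.card : ℝ) ≤ C * Y ^ c * (1 + H * U + H ^ 2 * T * √(A / p) / (∏ i, l i)) := by
  classical
  obtain ⟨Cg, hCg1, hCg⟩ := good_set (c / 4) (by positivity) C0 hC0
  obtain ⟨Cz, hCz1, hCz⟩ := zb (c / 4) (by positivity) C0 hC0
  set c1 : ℝ := c / 4 with hc1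
  have hc10 : 0 < c1 := by positivity
  set CJ : ℝ := 4 / c1 * Cg ^ (c1 / 2) + 1 with hCJ
  have hCJ1 : 1 ≤ CJ := by
    have : 0 ≤ 4 / c1 * Cg ^ (c1 / 2) := by positivity
    linarith
  set C2 : ℝ := CJ * (1296 * Cg ^ 6 * Cz * (Cg ^ 2) ^ c1) with hC2
  have hC20 : 0 < C2 := by positivity
  refine ⟨8 + C2, by linarith, ?_⟩
  intro G hG hev hdet l T Y H U A p hY hl hlY hT hH hU hUY hGb hA hp hmr V hV
  have hY0 : 0 < Y := by linarith
  have hT0 : 0 < T := lt_of_lt_of_le (by positivity) hT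
  have hlam : 0 < ∏ i, l i := Finset.prod_pos fun i _ => hl i
  have hA1 : 1 ≤ A := by
    have h2 := hA 1 (fun i j k k' => by rw [Nat.cast_one]; exact _root_.one_dvd _)
    simpa using h2
  have hYc : (1 : ℝ) ≤ Y ^ c1 := Real.one_le_rpow hY hc10.le
  have hgs : ∀ v, v ∈ V → ∃ b : Fin 3 → Fin 4 → ℤ, PB Cg l H v b ∧
      ∃ S : Finset (Fin 4 → ℤ), nw l (b 2) ^ 3 * (∏ i, l i) ≤ Cg * H * S.card ∧
        ∀ m ∈ S, Pr4 m ∧ m ⬝ᵥ v = 0 ∧ nw l m ≤ Cg * nw l (b 2) ∧ D2 G m ≠ 0 ∧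
          (∃ i j, p * (∏ i, l i) ^ 2 * nw l (b 2) ^ 2 / (Cg * T ^ 2)
            ≤ |Ph (toR G) (cvR m) (Ev l i) (cvR m) (Ev l j)|) ∧
          (sl G m : ℝ) ^ 2 ≤ Cg * A * Y ^ c1 := by
    intro v hv
    obtain ⟨h1, h2, h3, h4⟩ := hV v hv
    exact hCg G hG hev hdet l T Y H A p hY hl hlY hT hGb hA hp hmr v h1 h3
  choose! b hPB S hS1 hS2 using hgs
  set W : (Fin 4 → ℤ) → ℝ := fun v => nw l (b v 2) with hW
  have hW0 : ∀ v ∈ V, 0 < W v := fun v hv => nw_pos hl ((hPB v hv).ne 2)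
  have hWU : ∀ v ∈ V, W v ≤ Cg * U := by
    intro v hv
    obtain ⟨h1, h2, h3, m, hm1, hm2, hm3⟩ := hV v hv
    exact (hPB v hv).b2_le (by linarith) m hm1 hm2 U (fun a => (nw_le_iff hl hU.le).mpr (hm3 a))
  have hWY : ∀ v ∈ V, 1 ≤ W v * Y := by
    intro v hv
    obtain ⟨i, hi⟩ := Function.ne_iff.mp ((hPB v hv).ne 2)
    have h1 := le_nw hl (b v 2) i
    have h2 : (1 : ℝ) ≤ |(b v 2 i : ℝ)| := by
      have : (1 : ℤ) ≤ |b v 2 i| := Int.one_le_abs hi
      exact_mod_cast this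
    have h3 : nw l (b v 2) * l i ≤ W v * Y := mul_le_mul_of_nonneg_left (hlY i) (hW0 v hv).le
    linarith
  set Vb := V.filter (fun v => ∃ i, W v * l i < 1) with hVb
  set Vg := V.filter (fun v => ¬ ∃ i, W v * l i < 1) with hVg
  have hVsplit : V.card = Vb.card + Vg.card :=
    (Finset.card_filter_add_card_filter_not (s := V) (fun v => ∃ i, W v * l i < 1)).symm
  have hVbc : Vb.card ≤ 8 := by
    have h1 : Vb ⊆ (Finset.univ : Finset (Fin 4)).image (fun i => (Pi.single i (1 : ℤ) : Fin 4 → ℤ))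
        ∪ (Finset.univ : Finset (Fin 4)).image (fun i => (Pi.single i (-1 : ℤ) : Fin 4 → ℤ)) := by
      intro v hv
      obtain ⟨hvV, i, hi⟩ := Finset.mem_filter.mp hv
      rcases unit_case hl (hV v hvV).1 (hPB v hvV) i hi with h | h
      · exact Finset.mem_union_left _ (Finset.mem_image.mpr ⟨i, Finset.mem_univ _, h.symm⟩)
      · exact Finset.mem_union_right _ (Finset.mem_image.mpr ⟨i, Finset.mem_univ _, h.symm⟩)
    refine (Finset.card_le_card h1).trans ((Finset.card_union_le _ _).trans ?_)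
    have h2 := Finset.card_image_le (s := (Finset.univ : Finset (Fin 4)))
      (f := fun i => (Pi.single i (1 : ℤ) : Fin 4 → ℤ))
    have h3 := Finset.card_image_le (s := (Finset.univ : Finset (Fin 4)))
      (f := fun i => (Pi.single i (-1 : ℤ) : Fin 4 → ℤ))
    rw [Finset.card_univ, Fintype.card_fin] at h2 h3
    omega
  set E : ℝ := H * U + H ^ 2 * T * √(A / p) / (∏ i, l i) with hE
  have hE0 : 0 ≤ E := by positivity
  set D : ℝ := 1296 * Cg ^ 6 * Cz * ((Cg ^ 2 * Y ^ 2) ^ c1 * Y ^ c1) * E with hD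
  have hD0 : 0 ≤ D := by positivity
  -- the level of a vector
  set lev : (Fin 4 → ℤ) → ℕ := fun v => Nat.log 2 ⌊W v * Y⌋₊ with hlev
  set J : ℕ := Nat.log 2 ⌊Cg * Y ^ 2⌋₊ with hJ
  have hlevJ : ∀ v ∈ Vg, lev v ∈ Finset.range (J + 1) := by
    intro v hv
    have hvV := (Finset.mem_filter.mp hv).1
    rw [Finset.mem_range, Nat.lt_succ_iff]
    refine Nat.log_mono_right (Nat.floor_le_floor ?_)
    have h1 := hWU v hvV
    calc W v * Y ≤ (Cg * U) * Y := mul_le_mul_of_nonneg_right h1 hY0.le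
      _ ≤ (Cg * Y) * Y := mul_le_mul_of_nonneg_right (mul_le_mul_of_nonneg_left hUY (by linarith)) hY0.le
      _ = Cg * Y ^ 2 := by ring
  have hlevel : ∀ j ∈ Finset.range (J + 1), ((Vg.filter (fun v => lev v = j)).card : ℝ) ≤ D := by
    intro j _
    set Vj := Vg.filter (fun v => lev v = j) with hVj
    rcases Vj.eq_empty_or_nonempty with he | ⟨v0, hv0⟩
    · rw [he]; simpa using hD0
    set w : ℝ := (2 : ℝ) ^ j / Y with hw
    have hw0 : 0 < w := by positivity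
    have hVjV : ∀ v ∈ Vj, v ∈ V ∧ (∀ i, 1 ≤ W v * l i) ∧ w ≤ W v ∧ W v ≤ 2 * w := by
      intro v hv
      obtain ⟨h1, h2⟩ := Finset.mem_filter.mp hv
      obtain ⟨h3, h4⟩ := Finset.mem_filter.mp h1
      push Not at h4
      refine ⟨h3, h4, ?_, ?_⟩
      · have h5 : 2 ^ j ≤ ⌊W v * Y⌋₊ := by
          rw [← h2]
          refine Nat.pow_log_le_self 2 ?_
          have := hWY v h3
          have h6 : 0 < ⌊W v * Y⌋₊ := Nat.floor_pos.mpr this
          omega
        have h6 : ((2 : ℝ)) ^ j ≤ (⌊W v * Y⌋₊ : ℝ) := by exact_mod_cast h5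
        have h7 := Nat.floor_le (show 0 ≤ W v * Y by have := hWY v h3; linarith)
        rw [hw, div_le_iff₀ hY0]
        linarith
      · have h5 : ⌊W v * Y⌋₊ < 2 ^ (j + 1) := by
          rw [← h2]
          exact Nat.lt_pow_succ_log_self (by norm_num) _
        have h6 : W v * Y < 2 ^ (j + 1) := by
          have h7 := Nat.lt_floor_add_one (W v * Y)
          have h8 : ((⌊W v * Y⌋₊ : ℝ)) + 1 ≤ 2 ^ (j + 1) := by exact_mod_cast h5
          linarith
        rw [hw, mul_div_assoc', le_div_iff₀ hY0]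
        have : (2 : ℝ) ^ (j + 1) = 2 * 2 ^ j := by ring
        linarith
    have hwU : w ≤ Cg * U := by
      obtain ⟨h1, -, h2, -⟩ := hVjV v0 hv0
      exact h2.trans (hWU v0 h1)
    set β : ℝ := p * (∏ i, l i) ^ 2 * w ^ 2 / (Cg * T ^ 2) with hβ
    have hβ0 : 0 < β := by positivity
    set B : ℝ := Cz * (Cg ^ 2 * Y ^ 2) ^ c1 * (1 + H * √(Cg * A * Y ^ c1) / √β) with hB
    have hB0 : 0 ≤ B := by positivity
    have hBm : ∀ m, ((Vj.filter (fun v => m ∈ S v)).card : ℝ) ≤ B := by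
      intro m
      rcases (Vj.filter (fun v => m ∈ S v)).eq_empty_or_nonempty with he | ⟨v1, hv1⟩
      · rw [he]; simpa using hB0
      obtain ⟨hv1j, hmS⟩ := Finset.mem_filter.mp hv1
      obtain ⟨hv1V, hv1l, hv1w, hv1w'⟩ := hVjV v1 hv1j
      obtain ⟨hm1, hm2, hm3, hm4, ⟨i1, j1, hm5⟩, hm6⟩ := hS2 v1 hv1V m hmS
      have hHp : 0 < H := by
        obtain ⟨h1, h2, h3, h4⟩ := hV v1 hv1V
        have hv0' : v1 ≠ 0 := by
          rintro rfl
          exact h1 2 Nat.prime_two (fun i => dvd_zero _)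
        obtain ⟨i, hi⟩ := Function.ne_iff.mp hv0'
        have h5 : (0 : ℝ) < |(v1 i : ℝ)| := abs_pos.mpr (by exact_mod_cast hi)
        exact lt_of_lt_of_le (mul_pos h5 (hl i)) (h3 i)
      have hYY : Y ≤ Cg ^ 2 * Y ^ 2 := by
        have h1 : 1 ≤ Cg ^ 2 := one_le_pow₀ hCg1
        exact (by rw [pow_two]; exact le_mul_of_one_le_left hY0.le hY : Y ≤ Y ^ 2).trans (le_mul_of_one_le_left (by positivity) h1)
      have hz := hCz G hG hev hdet m hm1 hm4 l T (Cg ^ 2 * Y ^ 2) H β (hY.trans hYY) hl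
        (fun i => (hlY i).trans hYY) (le_trans (one_div_le_one_div_of_le hY0 hYY) hT) hHp hβ0 hGb
        (by
          intro i
          have h1 := le_nw hl m i
          refine h1.trans ?_
          have h2 : nw l m ≤ Cg * (Cg * Y) := by
            refine hm3.trans (mul_le_mul_of_nonneg_left ?_ (by linarith))
            exact (hWU v1 hv1V).trans (mul_le_mul_of_nonneg_left hUY (by linarith))
          calc nw l m * l i ≤ (Cg * (Cg * Y)) * Y :=
                mul_le_mul h2 (hlY i) (hl i).le (by positivity)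
            _ = Cg ^ 2 * Y ^ 2 := by ring)
        ⟨i1, j1, by
          refine le_trans ?_ hm5
          rw [hβ]
          refine div_le_div_of_nonneg_right ?_ (by positivity)
          refine mul_le_mul_of_nonneg_left ?_ (by positivity)
          exact pow_le_pow_left₀ hw0.le hv1w 2⟩
        (Vj.filter (fun v => m ∈ S v)) (by
          intro v hv
          obtain ⟨h1, h2⟩ := Finset.mem_filter.mp hv
          have h3 := (hVjV v h1).1
          exact ⟨(hV v h3).1, (hV v h3).2.1, (hS2 v h3 m h2).2.1, (hV v h3).2.2.1⟩)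
      refine hz.trans ?_
      rw [hB]
      refine mul_le_mul_of_nonneg_left ?_ (by positivity)
      have h1 : (sl G m : ℝ) ≤ √(Cg * A * Y ^ c1) := Real.le_sqrt_of_sq_le hm6
      have h2 : H * (sl G m : ℝ) / √β ≤ H * √(Cg * A * Y ^ c1) / √β := by
        refine div_le_div_of_nonneg_right ?_ (Real.sqrt_nonneg _)
        exact mul_le_mul_of_nonneg_left h1 hH
      linarith
    have hlc := level_count hl hCg1 hH Vj S W w hw0 (fun v hv => (hVjV v hv).2.2)
      (fun v hv => (hVjV v hv).2.1) (fun v hv => hS1 v (hVjV v hv).1)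
      (fun v hv m hm => (hS2 v (hVjV v hv).1 m hm).2.2.1) B hB0 hBm
    refine hlc.trans ?_
    -- the square root
    have hsq : √(Cg * A * Y ^ c1) / √β = Cg * T * √(A / p) * √(Y ^ c1) / ((∏ i, l i) * w) := by
      rw [← Real.sqrt_div (by positivity)]
      have h1 : Cg * A * Y ^ c1 / β = (Cg * T / ((∏ i, l i) * w)) ^ 2 * ((A / p) * Y ^ c1) := by
        rw [hβ]
        field_simp
      rw [h1, Real.sqrt_mul (by positivity), Real.sqrt_sq (by positivity), Real.sqrt_mul (by positivity)]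
      ring
    have hYs : √(Y ^ c1) ≤ Y ^ c1 := by
      rw [Real.sqrt_le_left (by positivity)]
      exact le_self_pow₀ (Real.one_le_rpow hY (by positivity)) two_ne_zero
    have h1 : w * (1 + H * √(Cg * A * Y ^ c1) / √β)
        ≤ Cg * Y ^ c1 * (U + H * T * √(A / p) / (∏ i, l i)) := by
      rw [mul_div_assoc, hsq]
      have h2 : w * (1 + H * (Cg * T * √(A / p) * √(Y ^ c1) / ((∏ i, l i) * w)))
          = w + Cg * √(Y ^ c1) * (H * T * √(A / p) / (∏ i, l i)) := by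
        field_simp
      rw [h2]
      have h3 : Cg * √(Y ^ c1) * (H * T * √(A / p) / (∏ i, l i))
          ≤ Cg * Y ^ c1 * (H * T * √(A / p) / (∏ i, l i)) := by
        refine mul_le_mul_of_nonneg_right (mul_le_mul_of_nonneg_left hYs (by linarith)) ?_
        positivity
      have h4 : w ≤ Cg * Y ^ c1 * U := by
        refine hwU.trans ?_
        have : 0 < Cg * U := by positivity
        linarith [mul_le_mul_of_nonneg_left (Real.one_le_rpow hY (show 0 ≤ c1 by positivity)) this.le]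
      linarith
    calc Cg * H * (1296 * Cg ^ 4 * w * B)
        = 1296 * Cg ^ 5 * Cz * (Cg ^ 2 * Y ^ 2) ^ c1 * H * (w * (1 + H * √(Cg * A * Y ^ c1) / √β)) := by
          rw [hB]; ring
      _ ≤ 1296 * Cg ^ 5 * Cz * (Cg ^ 2 * Y ^ 2) ^ c1 * H
          * (Cg * Y ^ c1 * (U + H * T * √(A / p) / (∏ i, l i))) :=
          mul_le_mul_of_nonneg_left h1 (by positivity)
      _ = D := by
          rw [hD, hE]
          ring
  have hVgc : (Vg.card : ℝ) ≤ (J + 1) * D := by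
    have h1 : Vg.card = ∑ j ∈ Finset.range (J + 1), (Vg.filter (fun v => lev v = j)).card :=
      Finset.card_eq_sum_card_fiberwise (fun v hv => hlevJ v hv)
    rw [h1]
    push_cast
    refine (Finset.sum_le_card_nsmul _ _ _ hlevel).trans ?_
    rw [Finset.card_range, nsmul_eq_mul]
    push_cast
    exact le_refl _
  have hJ2 : (2 : ℝ) ^ J ≤ Cg * Y ^ 2 := by
    have h0 : 1 ≤ Cg * Y ^ 2 := by
      have : 1 ≤ Y ^ 2 := one_le_pow₀ hY
      exact one_le_mul_of_one_le_of_one_le (by assumption) this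
    have h1 : 2 ^ J ≤ ⌊Cg * Y ^ 2⌋₊ := by
      refine Nat.pow_log_le_self 2 ?_
      have : 0 < ⌊Cg * Y ^ 2⌋₊ := Nat.floor_pos.mpr h0
      omega
    have h2 : (2 : ℝ) ^ J ≤ (⌊Cg * Y ^ 2⌋₊ : ℝ) := by exact_mod_cast h1
    exact h2.trans (Nat.floor_le (by linarith))
  have hJ1 := levels_le Cg c1 hCg1 hc10 Y hY J hJ2
  rw [← hCJ] at hJ1
  have hfin : (Vg.card : ℝ) ≤ C2 * Y ^ c * E := by
    refine hVgc.trans ((mul_le_mul_of_nonneg_right hJ1 hD0).trans (le_of_eq ?_))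
    have h1 : (Cg ^ 2 * Y ^ 2) ^ c1 = (Cg ^ 2) ^ c1 * Y ^ (2 * c1) := by
      rw [Real.mul_rpow (by positivity) (by positivity)]
      congr 1
      rw [← Real.rpow_natCast, ← Real.rpow_mul hY0.le]
      norm_num
    have h2 : Y ^ c = Y ^ c1 * Y ^ (2 * c1) * Y ^ c1 := by
      rw [← Real.rpow_add hY0, ← Real.rpow_add hY0]
      congr 1
      rw [hc1]; ring
    rw [hD, h1, h2, hC2]
    ring
  have hYc2 : (1 : ℝ) ≤ Y ^ c := Real.one_le_rpow hY hc.le
  have h1 : (V.card : ℝ) ≤ 8 + C2 * Y ^ c * E := by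
    rw [hVsplit]
    push_cast
    have : (Vb.card : ℝ) ≤ 8 := by exact_mod_cast hVbc
    linarith
  refine h1.trans ?_
  have h2 : (8 + C2) * Y ^ c * (1 + H * U + H ^ 2 * T * √(A / p) / (∏ i, l i))
      = (8 + C2) * Y ^ c * (1 + E) := by
    rw [hE]; ring
  rw [h2]
  have h3 : 0 ≤ Y ^ c * E := by positivity
  linarith [mul_nonneg (show 0 ≤ C2 by positivity) (show (0 : ℝ) ≤ Y ^ c by positivity)]

end Pool.Agent.PP5P
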