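import Pool.Agent.PP5P.Cv

/-!
# PP5, population lemma: double counting
-/

set_option autoImplicit false

namespace Pool.Agent.PP5P

open Matrix Pool.Agent.PP5 Pool.Agent.PP5B Finset

open Classical in
theorem level_count {l : Fin 4 → ℝ} (hl : ∀ i, 0 < l i) {H Cg : ℝ} (hCg : 1 ≤ Cg) (hH : 0 ≤ H)
    (V : Finset (Fin 4 → ℤ)) (S : (Fin 4 → ℤ) → Finset (Fin 4 → ℤ)) (W : (Fin 4 → ℤ) → ℝ) (w : ℝ)
    (hw : 0 < w) (hW : ∀ v ∈ V, w ≤ W v ∧ W v ≤ 2 * w) (hl1 : ∀ v ∈ V, ∀ i, 1 ≤ W v * l i)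
    (hS1 : ∀ v ∈ V, W v ^ 3 * (∏ i, l i) ≤ Cg * H * (S v).card)
    (hS2 : ∀ v ∈ V, ∀ m ∈ S v, nw l m ≤ Cg * W v) (B : ℝ) (hB0 : 0 ≤ B)
    (hB : ∀ m, ((V.filter (fun v => m ∈ S v)).card : ℝ) ≤ B) :
    (V.card : ℝ) ≤ Cg * H * (1296 * Cg ^ 4 * w * B) := by
  rcases V.eq_empty_or_nonempty with he | ⟨v0, hv0⟩
  · rw [he]
    simp
    positivity
  have hlam : 0 < ∏ i, l i := Finset.prod_pos fun i _ => hl i
  set Box : Finset (Fin 4 → ℤ) :=
    Fintype.piFinset (fun i => Finset.Icc (-⌊2 * Cg * w * l i⌋) ⌊2 * Cg * w * l i⌋) with hBox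
  have hBc : (Box.card : ℝ) ≤ 1296 * Cg ^ 4 * w ^ 4 * (∏ i, l i) := by
    rw [hBox, Fintype.card_piFinset]
    push_cast
    rw [Fin.prod_univ_four, Fin.prod_univ_four]
    have h : ∀ i, ((Finset.Icc (-⌊2 * Cg * w * l i⌋) ⌊2 * Cg * w * l i⌋).card : ℝ) ≤ 6 * Cg * w * l i := by
      intro i
      have := hl i
      have h1 := card_Icc_le (2 * Cg * w * l i) (by positivity)
      have h2 := hl1 v0 hv0 i
      have h3 : W v0 * l i ≤ 2 * w * l i := mul_le_mul_of_nonneg_right (hW v0 hv0).2 this.le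
      have h4 : 2 * w * l i ≤ 2 * Cg * w * l i := by
        have : 0 ≤ w * l i := by positivity
        nlinarith
      linarith
    have hp : ∀ i, 0 ≤ 6 * Cg * w * l i := fun i => by have := hl i; positivity
    calc _ ≤ (6 * Cg * w * l 0) * (6 * Cg * w * l 1) * (6 * Cg * w * l 2) * (6 * Cg * w * l 3) := by
          refine mul_le_mul (mul_le_mul (mul_le_mul (h 0) (h 1) (Nat.cast_nonneg _) (hp 0)) (h 2)
            (Nat.cast_nonneg _) (mul_nonneg (hp 0) (hp 1))) (h 3) (Nat.cast_nonneg _)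
            (mul_nonneg (mul_nonneg (hp 0) (hp 1)) (hp 2))
      _ = _ := by ring
  have hsub : ∀ v ∈ V, S v ⊆ Box := by
    intro v hv m hm
    have h1 := hS2 v hv m hm
    have h2 : nw l m ≤ 2 * Cg * w := by
      refine h1.trans ?_
      have := (hW v hv).2
      nlinarith
    rw [hBox, Fintype.mem_piFinset]
    intro i
    rw [Finset.mem_Icc, ← abs_le, Int.le_floor]
    push_cast
    exact (nw_le_iff hl (by positivity)).mp h2 i
  have hdc : ∑ v ∈ V, ((S v).card : ℝ) = ∑ m ∈ Box, ((V.filter (fun v => m ∈ S v)).card : ℝ) := by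
    have h1 : ∀ v ∈ V, ((S v).card : ℝ) = ∑ m ∈ Box, if m ∈ S v then (1 : ℝ) else 0 := by
      intro v hv
      rw [← Finset.sum_filter, Finset.sum_const, nsmul_eq_mul, mul_one]
      congr 2
      ext m
      rw [Finset.mem_filter]
      exact ⟨fun h => ⟨hsub v hv h, h⟩, fun h => h.2⟩
    rw [Finset.sum_congr rfl h1, Finset.sum_comm]
    refine Finset.sum_congr rfl fun m _ => ?_
    rw [← Finset.sum_filter, Finset.sum_const, nsmul_eq_mul, mul_one]
  have h2 : ∑ v ∈ V, ((S v).card : ℝ) ≤ (1296 * Cg ^ 4 * w ^ 4 * (∏ i, l i)) * B := by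
    rw [hdc]
    refine (Finset.sum_le_card_nsmul _ _ _ (fun m _ => hB m)).trans ?_
    rw [nsmul_eq_mul]
    exact mul_le_mul_of_nonneg_right hBc hB0
  have h3 : (V.card : ℝ) * (w ^ 3 * (∏ i, l i)) ≤ Cg * H * ∑ v ∈ V, ((S v).card : ℝ) := by
    rw [Finset.mul_sum, ← nsmul_eq_mul]
    refine Finset.card_nsmul_le_sum _ _ _ (fun v hv => ?_)
    refine le_trans ?_ (hS1 v hv)
    refine mul_le_mul_of_nonneg_right ?_ hlam.le
    exact pow_le_pow_left₀ hw.le (hW v hv).1 3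
  have h4 : (V.card : ℝ) * (w ^ 3 * (∏ i, l i))
      ≤ (Cg * H * (1296 * Cg ^ 4 * w * B)) * (w ^ 3 * (∏ i, l i)) := by
    refine h3.trans ((mul_le_mul_of_nonneg_left h2 (by positivity)).trans (le_of_eq ?_))
    ring
  exact le_of_mul_le_mul_right h4 (by positivity)

/-- vectors orthogonal to a coordinate hyperplane lattice -/
theorem unit_case {C : ℝ} {l : Fin 4 → ℝ} (hl : ∀ i, 0 < l i) {H : ℝ} {v : Fin 4 → ℤ} (hv : Pr4 v)
    {b : Fin 3 → Fin 4 → ℤ} (hb : PB C l H v b) (i : Fin 4) (h : nw l (b 2) * l i < 1) :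
    v = Pi.single i 1 ∨ v = Pi.single i (-1) := by
  have hbi : ∀ a, b a i = 0 := by
    intro a
    have h1 := le_nw hl (b a) i
    have h2 : nw l (b a) ≤ nw l (b 2) := by
      have g0 := hb.m01
      have g1 := hb.m12
      fin_cases a
      · exact g0.trans g1
      · exact g1
      · exact le_refl _
    have h3 : |(b a i : ℝ)| < 1 :=
      lt_of_le_of_lt (h1.trans (mul_le_mul_of_nonneg_right h2 (hl i).le)) h
    have h4 : |b a i| < 1 := by exact_mod_cast h3
    exact Int.abs_lt_one_iff.mp h4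
  have hz : ∀ j, j ≠ i → v j = 0 := by
    intro j hj
    have h1 : (v i • (Pi.single j (1 : ℤ)) - v j • (Pi.single i (1 : ℤ)) : Fin 4 → ℤ) ⬝ᵥ v = 0 := by
      rw [sub_dotProduct, smul_dotProduct, smul_dotProduct]
      simp
      ring
    obtain ⟨c, hc⟩ := hb.span _ h1
    have h2 := congrFun hc i
    rw [Finset.sum_apply] at h2
    simp only [Pi.smul_apply, smul_eq_mul, hbi, mul_zero, Finset.sum_const_zero, Pi.sub_apply] at h2
    simpa [hj.symm] using h2
  have hvi : v i = 1 ∨ v i = -1 := by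
    have hu : IsUnit (v i) := by
      rw [Int.isUnit_iff_natAbs_eq]
      by_contra hcon
      obtain ⟨p, hp, hpk⟩ := Nat.exists_prime_and_dvd hcon
      have hpk' : (p : ℤ) ∣ v i := Int.natCast_dvd.mpr hpk
      refine hv p hp (fun j => ?_)
      by_cases hj : j = i
      · rw [hj]; exact hpk'
      · rw [hz j hj]; exact dvd_zero _
    exact Int.isUnit_iff.mp hu
  rcases hvi with h1 | h1
  · left
    funext j
    by_cases hj : j = i
    · subst hj; simp [h1]
    · simp [hj, hz j hj]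
  · right
    funext j
    by_cases hj : j = i
    · subst hj; simp [h1]
    · simp [hj, hz j hj]

end Pool.Agent.PP5P
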