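import Pool.Agent.PP5P.Pa

/-!
# PP5: the zeros orthogonal to a plane
-/

set_option autoImplicit false

namespace Pool.Agent.PP5P

open Matrix Finset Pool.Agent.PP5 Pool.Agent.PP5B

/-- the Plücker vector -/
def plv (a b : Fin 4 → ℤ) : Fin 6 → ℤ :=
  ![a 0 * b 1 - a 1 * b 0, a 0 * b 2 - a 2 * b 0, a 0 * b 3 - a 3 * b 0,
    a 1 * b 2 - a 2 * b 1, a 1 * b 3 - a 3 * b 1, a 2 * b 3 - a 3 * b 2]

theorem plv_klein (a b : Fin 4 → ℤ) :
    plv a b 0 * plv a b 5 - plv a b 1 * plv a b 4 + plv a b 2 * plv a b 3 = 0 := by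
  simp [plv]; ring

/-- `v` is orthogonal to the plane with Plücker vector `p` -/
structure Kp (p : Fin 6 → ℤ) (v : Fin 4 → ℤ) : Prop where
  r0 : p 0 * v 1 + p 1 * v 2 + p 2 * v 3 = 0
  r1 : -(p 0) * v 0 + p 3 * v 2 + p 4 * v 3 = 0
  r2 : -(p 1) * v 0 - p 3 * v 1 + p 5 * v 3 = 0
  r3 : -(p 2) * v 0 - p 4 * v 1 - p 5 * v 2 = 0

theorem Kp_of {a b v : Fin 4 → ℤ} (ha : a ⬝ᵥ v = 0) (hb : b ⬝ᵥ v = 0) : Kp (plv a b) v := by
  simp only [dotProduct, Fin.sum_univ_four] at ha hb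
  constructor
  · simp only [plv, cons_val_zero, cons_val_one, Matrix.cons_val]
    linear_combination (a 0) * hb - (b 0) * ha
  · simp only [plv, cons_val_zero, cons_val_one, Matrix.cons_val]
    linear_combination (a 1) * hb - (b 1) * ha
  · simp only [plv, cons_val_zero, cons_val_one, Matrix.cons_val]
    linear_combination (a 2) * hb - (b 2) * ha
  · simp only [plv, cons_val_zero, cons_val_one, Matrix.cons_val]
    linear_combination (a 3) * hb - (b 3) * ha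

/-- parallel vectors -/
def Par (v w : Fin 4 → ℤ) : Prop := ∀ i j, v i * w j = v j * w i

theorem Kp_lin {p : Fin 6 → ℤ} (hp : p ≠ 0) : ∃ (k l : Fin 4) (P : ℤ) (α β : Fin 4 → ℤ), P ≠ 0 ∧
    ∀ v, Kp p v → ∀ i, P * v i = α i * v k + β i * v l := by
  obtain ⟨a, ha⟩ := Function.ne_iff.mp hp
  fin_cases a
  · refine ⟨2, 3, p 0, ![p 3, -(p 1), p 0, 0], ![p 4, -(p 2), 0, p 0], ha, ?_⟩
    intro v h i
    have e0 := h.r0
    have e1 := h.r1
    fin_cases i <;> simp <;> linarith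
  · refine ⟨1, 3, p 1, ![-(p 3), p 1, -(p 0), 0], ![p 5, 0, -(p 2), p 1], ha, ?_⟩
    intro v h i
    have e0 := h.r0
    have e1 := h.r2
    fin_cases i <;> simp <;> linarith
  · refine ⟨1, 2, p 2, ![-(p 4), p 2, 0, -(p 0)], ![-(p 5), 0, p 2, -(p 1)], ha, ?_⟩
    intro v h i
    have e0 := h.r0
    have e1 := h.r3
    fin_cases i <;> simp <;> linarith
  · refine ⟨0, 3, p 3, ![p 3, -(p 1), p 0, 0], ![0, p 5, -(p 4), p 3], ha, ?_⟩
    intro v h i
    have e0 := h.r1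
    have e1 := h.r2
    fin_cases i <;> simp <;> linarith
  · refine ⟨0, 2, p 4, ![p 4, -(p 2), 0, p 0], ![0, -(p 5), p 4, -(p 3)], ha, ?_⟩
    intro v h i
    have e0 := h.r1
    have e1 := h.r3
    fin_cases i <;> simp <;> linarith
  · refine ⟨0, 1, p 5, ![p 5, 0, -(p 2), p 1], ![0, p 5, -(p 4), p 3], ha, ?_⟩
    intro v h i
    have e0 := h.r2
    have e1 := h.r3
    fin_cases i <;> simp <;> linarith

theorem Kp_rel {p : Fin 6 → ℤ} (hp : p ≠ 0) : ∃ k l : Fin 4,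
    (∀ v1 v2 v3, Kp p v1 → Kp p v2 → Kp p v3 → ∀ i,
      (v2 k * v3 l - v2 l * v3 k) * v1 i + (v3 k * v1 l - v3 l * v1 k) * v2 i
        + (v1 k * v2 l - v1 l * v2 k) * v3 i = 0) ∧
    (∀ v w, Kp p v → Kp p w → v k * w l - v l * w k = 0 → Par v w) := by
  obtain ⟨k, l, P, α, β, hP, h⟩ := Kp_lin hp
  refine ⟨k, l, ?_, ?_⟩
  · intro v1 v2 v3 h1 h2 h3 i
    apply mul_left_cancel₀ hP
    have e1 := h v1 h1 i
    have e2 := h v2 h2 i
    have e3 := h v3 h3 i
    linear_combination (v2 k * v3 l - v2 l * v3 k) * e1 + (v3 k * v1 l - v3 l * v1 k) * e2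
        + (v1 k * v2 l - v1 l * v2 k) * e3
  · intro v w hv hw hm i j
    apply mul_left_cancel₀ hP
    apply mul_left_cancel₀ hP
    have ei := h v hv i
    have ej := h v hv j
    have fi := h w hw i
    have fj := h w hw j
    linear_combination (P * w j) * ei + (α i * v k + β i * v l) * fj - (P * w i) * ej
      - (α j * v k + β j * v l) * fi + (α i * β j - α j * β i) * hm

end Pool.Agent.PP5P
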