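import Mathlib

/-!
# PP5, population lemma: averaging over a box, the part of `n` supported on bad primes
-/

set_option autoImplicit false

namespace Pool.Agent.PP5P

open Finset

open Classical in
/-- the part of `n` at the primes which are bad at `ω` -/
noncomputable def nbad {α : Type*} (n : ℕ) (B : ℕ → Finset α) (ω : α) : ℕ :=
  ∏ l ∈ n.primeFactors.filter (fun l => ω ∈ B l), l ^ (n.factorization l)

theorem nbad_pos {α : Type*} (n : ℕ) (B : ℕ → Finset α) (ω : α) : 0 < nbad n B ω := by
  classical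
  unfold nbad
  refine Finset.prod_pos fun l hl => ?_
  exact pow_pos (Nat.pos_of_mem_primeFactors (Finset.mem_filter.mp hl).1) _

open Classical in
theorem log_nbad {α : Type*} (n : ℕ) (B : ℕ → Finset α) (ω : α) :
    Real.log (nbad n B ω) =
      ∑ l ∈ n.primeFactors, if ω ∈ B l then (n.factorization l : ℝ) * Real.log l else 0 := by
  unfold nbad
  push_cast
  rw [Real.log_prod]
  · rw [Finset.sum_filter]
    refine Finset.sum_congr rfl fun l _ => ?_
    split_ifs
    · rw [Real.log_pow]
    · rfl
  · intro l hl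
    have := Nat.pos_of_mem_primeFactors (Finset.mem_filter.mp hl).1
    positivity

theorem log_eq_sum {n : ℕ} (hn : n ≠ 0) :
    Real.log n = ∑ l ∈ n.primeFactors, (n.factorization l : ℝ) * Real.log l := by
  conv_lhs => rw [← Nat.prod_factorization_pow_eq_self hn]
  rw [Nat.prod_factorization_eq_prod_primeFactors]
  push_cast
  rw [Real.log_prod]
  · exact Finset.sum_congr rfl fun l _ => by rw [Real.log_pow]
  · intro l hl
    have := Nat.pos_of_mem_primeFactors hl
    positivity

theorem sel {α : Type*} (Ω : Finset α) {n : ℕ} (hn : n ≠ 0) (B : ℕ → Finset α) {ρ : ℝ}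
    (hρ : 0 < ρ) (hB : ∀ l ∈ n.primeFactors, ((B l).card : ℝ) ≤ ρ * Ω.card) :
    (((Ω.filter (fun ω => (n : ℝ) ^ (8 * ρ) < (nbad n B ω : ℝ))).card : ℕ) : ℝ) ≤ Ω.card / 8 := by
  classical
  rcases Nat.lt_or_ge n 2 with h2 | h2
  · have h1 : n = 1 := by omega
    subst h1
    have : (Ω.filter (fun ω => ((1 : ℕ) : ℝ) ^ (8 * ρ) < (nbad 1 B ω : ℝ))) = ∅ := by
      rw [Finset.filter_eq_empty_iff]
      intro ω _
      simp [nbad]
    rw [this]
    simp
    positivity
  have hlog : 0 < Real.log n := Real.log_pos (by exact_mod_cast (by omega : 1 < n))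
  set F := Ω.filter (fun ω => (n : ℝ) ^ (8 * ρ) < (nbad n B ω : ℝ)) with hF
  have h1 : (F.card : ℝ) * (8 * ρ * Real.log n) ≤ ∑ ω ∈ Ω, Real.log (nbad n B ω) := by
    have h3 : (F.card : ℝ) * (8 * ρ * Real.log n) ≤ ∑ ω ∈ F, Real.log (nbad n B ω) := by
      rw [← nsmul_eq_mul]
      refine Finset.card_nsmul_le_sum _ _ _ fun ω hω => ?_
      have h4 := (Finset.mem_filter.mp hω).2
      have h5 : (0 : ℝ) < (n : ℝ) ^ (8 * ρ) := Real.rpow_pos_of_pos (by positivity) _
      have h6 := Real.log_le_log h5 h4.le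
      rwa [Real.log_rpow (by positivity)] at h6
    refine h3.trans (Finset.sum_le_sum_of_subset_of_nonneg (Finset.filter_subset _ _) ?_)
    intro ω _ _
    refine Real.log_nonneg ?_
    exact_mod_cast nbad_pos n B ω
  have h2' : ∑ ω ∈ Ω, Real.log (nbad n B ω) ≤ ρ * Ω.card * Real.log n := by
    simp_rw [log_nbad]
    rw [Finset.sum_comm, log_eq_sum hn, Finset.mul_sum]
    refine Finset.sum_le_sum fun l hl => ?_
    rw [← Finset.sum_filter, Finset.sum_const, nsmul_eq_mul]
    have hc : (((Ω.filter (fun ω => ω ∈ B l)).card : ℕ) : ℝ) ≤ ρ * Ω.card := by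
      refine le_trans ?_ (hB l hl)
      have : (Ω.filter (fun ω => ω ∈ B l)).card ≤ (B l).card :=
        Finset.card_le_card (fun ω hω => (Finset.mem_filter.mp hω).2)
      exact_mod_cast this
    have hl1 : 0 ≤ Real.log l := Real.log_natCast_nonneg l
    exact mul_le_mul_of_nonneg_right hc (by positivity)
  have h3 : (F.card : ℝ) * (8 * ρ * Real.log n) ≤ (Ω.card / 8) * (8 * ρ * Real.log n) := by
    calc _ ≤ ρ * Ω.card * Real.log n := h1.trans h2'
      _ = _ := by ring
  exact le_of_mul_le_mul_right h3 (by positivity)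

/-- divisibility: a divisor `s` of `K n` whose valuations at the good primes are bounded -/
theorem dvd_nbad {α : Type*} {n : ℕ} (hn : n ≠ 0) (B : ℕ → Finset α) (ω : α) {s M : ℕ} (hs : s ∣ n)
    (hM : M ≠ 0)
    (h : ∀ l ∈ n.primeFactors, ω ∉ B l → s.factorization l ≤ M.factorization l) :
    s ∣ M * nbad n B ω := by
  classical
  have hs0 : s ≠ 0 := by rintro rfl; exact hn (zero_dvd_iff.mp hs)
  have hb := (nbad_pos n B ω).ne'
  rw [← Nat.factorization_le_iff_dvd hs0 (mul_ne_zero hM hb)]
  intro l
  rw [Nat.factorization_mul hM hb, Finsupp.add_apply]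
  by_cases hl : l ∈ n.primeFactors
  · by_cases hω : ω ∈ B l
    · have h1 : s.factorization l ≤ n.factorization l :=
        (Nat.factorization_le_iff_dvd hs0 hn).mpr hs l
      have h2 : n.factorization l ≤ (nbad n B ω).factorization l := by
        have hlp := Nat.prime_of_mem_primeFactors hl
        rw [← hlp.pow_dvd_iff_le_factorization hb]
        unfold nbad
        exact Finset.dvd_prod_of_mem _ (Finset.mem_filter.mpr ⟨hl, hω⟩)
      omega
    · have := h l hl hω
      omega
  · have h1 : s.factorization l = 0 := by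
      rw [Nat.factorization_eq_zero_iff]
      by_contra hcon
      push Not at hcon
      exact hl (Nat.mem_primeFactors.mpr ⟨hcon.1, hcon.2.1.trans hs, hn⟩)
    omega

end Pool.Agent.PP5P
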