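import Pool.Agent.PP5P.Pb
import Pool.Agent.PP5P.Se
import Pool.Agent.PP5P.Sl

/-!
# PP5, population lemma: the good vectors orthogonal to one vector
-/

set_option autoImplicit false

namespace Pool.Agent.PP5P

open Matrix Pool.Agent.PP5 Pool.Agent.PP5B Finset

theorem PB.mono {C C' : ℝ} {l : Fin 4 → ℝ} {H : ℝ} {v : Fin 4 → ℤ}
    {b : Fin 3 → Fin 4 → ℤ} (hb : PB C l H v b) (hC : C ≤ C') (hH : 0 ≤ H) : PB C' l H v b :=
  ⟨hb.orth, hb.ne, hb.m01, hb.m12, hb.span,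
    fun c i => (hb.bd c i).trans (mul_le_mul_of_nonneg_right hC (nw_nonneg _ _)),
    hb.vol.trans (mul_le_mul_of_nonneg_right hC hH)⟩

theorem mc_inj {C : ℝ} {l : Fin 4 → ℝ} (hl : ∀ i, 0 < l i) {H : ℝ} {v : Fin 4 → ℤ}
    {b : Fin 3 → Fin 4 → ℤ} (hb : PB C l H v b) {t s t' s' : ℤ} (h : mc b t s = mc b t' s') :
    t = t' ∧ s = s' := by
  have h1 : ∑ i, (![t - t', s - s', 0] : Fin 3 → ℤ) i • b i = 0 := by
    have h2 : ∑ i, (![t - t', s - s', 0] : Fin 3 → ℤ) i • b i = mc b t s - mc b t' s' := by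
      simp only [Fin.sum_univ_three, mc]
      show (t - t') • b 0 + (s - s') • b 1 + (0 : ℤ) • b 2 = _
      rw [sub_smul, sub_smul, zero_smul]
      abel
    rw [h2, h, sub_self]
  have h0 := hb.inj hl _ h1 0
  have h2 := hb.inj hl _ h1 1
  simp only [cons_val_zero, cons_val_one] at h0 h2
  exact ⟨by linarith, by linarith⟩

theorem mc_prim {C : ℝ} {l : Fin 4 → ℝ} (hl : ∀ i, 0 < l i) {H : ℝ} {v : Fin 4 → ℤ}
    {b : Fin 3 → Fin 4 → ℤ} (hb : PB C l H v b) (t s : ℤ) : Pr4 (mc b t s) := by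
  rw [mc_eq]
  refine hb.prim hl _ ?_
  intro p hp hdiv
  have := hdiv 2
  have h1 : (p : ℤ) ∣ 1 := this
  have h4 := Int.eq_one_of_dvd_one (by positivity) h1
  exact hp.one_lt.ne' (by exact_mod_cast h4)

theorem mc_orth {C : ℝ} {l : Fin 4 → ℝ} {H : ℝ} {v : Fin 4 → ℤ}
    {b : Fin 3 → Fin 4 → ℤ} (hb : PB C l H v b) (t s : ℤ) : mc b t s ⬝ᵥ v = 0 := by
  rw [mc, add_dotProduct, add_dotProduct, smul_dotProduct, smul_dotProduct, hb.orth 0, hb.orth 1,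
    hb.orth 2]
  simp

theorem mc_nw {l : Fin 4 → ℝ} (hl : ∀ i, 0 < l i) (b : Fin 3 → Fin 4 → ℤ) (t s : ℕ) :
    nw l (mc b t s) ≤ t * nw l (b 0) + s * nw l (b 1) + nw l (b 2) := by
  have h0 := nw_nonneg l (b 0)
  have h1 := nw_nonneg l (b 1)
  have h2 := nw_nonneg l (b 2)
  rw [nw_le_iff hl (by positivity)]
  intro i
  have e0 := le_nw hl (b 0) i
  have e1 := le_nw hl (b 1) i
  have e2 := le_nw hl (b 2) i
  have e : (mc b t s i : ℝ) = t * (b 0 i : ℝ) + s * (b 1 i : ℝ) + b 2 i := by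
    simp [mc]
  rw [e]
  refine (abs_add_le _ _).trans ?_
  have h3 := abs_add_le ((t : ℝ) * (b 0 i : ℝ)) (s * (b 1 i : ℝ))
  rw [abs_mul, abs_mul, Nat.abs_cast, Nat.abs_cast] at h3
  have ht : (0 : ℝ) ≤ t := Nat.cast_nonneg _
  have hs : (0 : ℝ) ≤ s := Nat.cast_nonneg _
  have h4 : (t : ℝ) * |(b 0 i : ℝ)| ≤ t * (nw l (b 0) * l i) := mul_le_mul_of_nonneg_left e0 ht
  have h5 : (s : ℝ) * |(b 1 i : ℝ)| ≤ s * (nw l (b 1) * l i) := mul_le_mul_of_nonneg_left e1 hs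
  nlinarith

/-- the exponent bound for the square -/
theorem sl_bound {ρ : ℝ} (hρ : 0 < ρ) {L N1 N2 : ℕ} (hL : 4 / ρ ≤ (L : ℝ)) (hN1 : 4 / ρ ≤ (N1 : ℝ))
    (hN2 : 4 / ρ ≤ (N2 : ℝ)) {G : Matrix (Fin 4) (Fin 4) ℤ}
    (hG : ∀ i j, G i j = G j i) (hev : ∀ i, 2 ∣ G i i) (hdet : G.det ≠ 0)
    {C : ℝ} {l : Fin 4 → ℝ} (hl : ∀ i, 0 < l i) {H : ℝ} {v : Fin 4 → ℤ} (hv : Pr4 v)
    {b : Fin 3 → Fin 4 → ℤ} (hb : PB C l H v b) (A : ℝ)
    (hA : ∀ n : ℕ, (∀ i j k k', (n : ℤ) ∣ mr G i j k k') → (n : ℝ) ≤ A)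
    (hmr : ∃ i j k k', mr G i j k k' ≠ 0) :
    ∃ Bd : Finset (ℕ × ℕ), Bd ⊆ range N1 ×ˢ range N2 ∧ (Bd.card : ℝ) ≤ (N1 * N2) / 8 ∧
      ∀ c ∈ range N1 ×ˢ range N2, c ∉ Bd → (sl G (mc b (c.1 : ℤ) (c.2 : ℤ)) : ℝ) ^ 2
        ≤ 48 * (L.factorial : ℝ) ^ 6 * A * ((2 * G.det).natAbs : ℝ) ^ (16 * ρ) := by
  classical
  set Ω := range N1 ×ˢ range N2 with hΩ
  set n := (2 * G.det).natAbs with hn
  have hn0 : n ≠ 0 := by
    rw [hn, Int.natAbs_ne_zero]
    exact mul_ne_zero two_ne_zero hdet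
  set gA : ℕ := (Finset.univ : Finset (Fin 4 × Fin 4 × Fin 4 × Fin 4)).gcd
    (fun x => (mr G x.1 x.2.1 x.2.2.1 x.2.2.2).natAbs) with hgA
  have hgd : ∀ i j k k', (gA : ℤ) ∣ mr G i j k k' := by
    intro i j k k'
    rw [Int.natCast_dvd]
    exact Finset.gcd_dvd (f := fun x : Fin 4 × Fin 4 × Fin 4 × Fin 4 =>
      (mr G x.1 x.2.1 x.2.2.1 x.2.2.2).natAbs) (Finset.mem_univ (i, j, k, k'))
  have hgA0 : gA ≠ 0 := by
    obtain ⟨i, j, k, k', h⟩ := hmr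
    intro h0
    have := hgd i j k k'
    rw [h0] at this
    exact h (zero_dvd_iff.mp (by exact_mod_cast this))
  have hgAle : (gA : ℝ) ≤ A := hA gA hgd
  set K1 : ℕ := 24 * (2 * L.factorial ^ 6) with hK1
  have hK10 : K1 ≠ 0 := by
    have := L.factorial_pos
    positivity
  set M := K1 * gA with hM
  have hM0 : M ≠ 0 := mul_ne_zero hK10 hgA0
  set B : ℕ → Finset (ℕ × ℕ) := fun q => Ω.filter (fun c => ∀ z,
    ((q : ℤ) ^ (M.factorization q + 1)) ∣ 2 * Ph G (mc b (c.1 : ℤ) (c.2 : ℤ)) z (mc b (c.1 : ℤ) (c.2 : ℤ)) z)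
    with hB
  have hBc : ∀ q ∈ n.primeFactors, ((B q).card : ℝ) ≤ 2 * ρ * Ω.card := by
    intro q hq
    have hqp := Nat.prime_of_mem_primeFactors hq
    by_contra hcon
    push Not at hcon
    have hΩc : (Ω.card : ℝ) = N1 * N2 := by
      rw [hΩ, Finset.card_product, card_range, card_range]; push_cast; ring
    rw [hΩc] at hcon
    have h1 := bad_prime hρ hL hN1 hN2 (B q) (Finset.filter_subset _ _) hcon hG hv hb
      ((q : ℤ) ^ (M.factorization q + 1)) (fun c hc => (Finset.mem_filter.mp hc).2)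
    have h2 : q ^ (M.factorization q + 1) ∣ M := by
      have h3 : K1 * (Finset.univ : Finset (Fin 4 × Fin 4 × Fin 4 × Fin 4)).gcd
        (fun x => (mr G x.1 x.2.1 x.2.2.1 x.2.2.2).natAbs) =
        (Finset.univ : Finset (Fin 4 × Fin 4 × Fin 4 × Fin 4)).gcd
        (fun x => K1 * (mr G x.1 x.2.1 x.2.2.1 x.2.2.2).natAbs) := by
        rw [Finset.gcd_mul_left]
        simp
      refine (Finset.dvd_gcd fun x _ => ?_).trans (dvd_of_eq h3.symm)
      have h4 := h1 x.1 x.2.1 x.2.2.1 x.2.2.2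
      have h5 := Int.natAbs_dvd_natAbs.mpr h4
      rw [Int.natAbs_pow, Int.natAbs_natCast, Int.natAbs_mul] at h5
      exact h5.trans (dvd_of_eq rfl)
    have h3 := (hqp.pow_dvd_iff_le_factorization hM0).mp h2
    omega
  refine ⟨Ω.filter (fun ω => (n : ℝ) ^ (8 * (2 * ρ)) < (nbad n B ω : ℝ)), Finset.filter_subset _ _, ?_, ?_⟩
  · have h1 := sel Ω hn0 B (by positivity : 0 < 2 * ρ) hBc
    refine h1.trans (le_of_eq ?_)
    rw [hΩ, Finset.card_product, card_range, card_range]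
    push_cast
    ring
  · intro c hc hcB
    have h1 : (nbad n B c : ℝ) ≤ (n : ℝ) ^ (16 * ρ) := by
      by_contra hcon
      push Not at hcon
      apply hcB
      rw [Finset.mem_filter]
      refine ⟨hc, ?_⟩
      rw [show 8 * (2 * ρ) = 16 * ρ by ring]
      exact hcon
    set m := mc b (c.1 : ℤ) (c.2 : ℤ) with hm
    have hmp : Pr4 m := mc_prim hl hb _ _
    have h2 : (sl G m) ^ 2 ∣ M * nbad n B c := by
      refine dvd_nbad hn0 B c ?_ hM0 ?_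
      · have h3 := Int.natAbs_dvd_natAbs.mpr (sl_det hG hev hmp)
        rw [Int.natAbs_pow, Int.natAbs_natCast] at h3
        exact h3
      · intro q hq hqB
        have hqp := Nat.prime_of_mem_primeFactors hq
        by_contra hcon
        push Not at hcon
        apply hqB
        rw [hB, Finset.mem_filter]
        refine ⟨hc, fun z => ?_⟩
        have h4 : q ^ (M.factorization q + 1) ∣ (sl G m) ^ 2 := by
          have hs0 : (sl G m) ^ 2 ≠ 0 := by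
            intro h0
            rw [h0] at hcon
            simp at hcon
          exact (hqp.pow_dvd_iff_le_factorization hs0).mpr hcon
        have h5 : ((q : ℤ)) ^ (M.factorization q + 1) ∣ ((sl G m : ℤ)) ^ 2 := by exact_mod_cast h4
        exact h5.trans (sl_Ph hG hev hdet hmp z)
    have h3 : (sl G m) ^ 2 ≤ M * nbad n B c :=
      Nat.le_of_dvd (Nat.pos_of_ne_zero (mul_ne_zero hM0 (nbad_pos n B c).ne')) h2
    have h4 : (sl G m : ℝ) ^ 2 ≤ (M : ℝ) * nbad n B c := by exact_mod_cast h3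
    have h5 : (M : ℝ) = 48 * (L.factorial : ℝ) ^ 6 * gA := by
      rw [hM, hK1]; push_cast; ring
    rw [h5] at h4
    refine h4.trans ?_
    have hf : (0 : ℝ) ≤ 48 * (L.factorial : ℝ) ^ 6 := by positivity
    refine mul_le_mul (mul_le_mul_of_nonneg_left hgAle hf) h1 (Nat.cast_nonneg _) ?_
    exact mul_nonneg hf (le_trans (Nat.cast_nonneg _) hgAle)

end Pool.Agent.PP5P
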